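import Pool.Agent.Lib.MP_fd36ae_lc.T6

/-!
# MP_fd36ae_lc : o-minimal order on `U`; the dual order; suprema of definable sets; endpoints
-/

open FirstOrder Set Cardinal

namespace OMB

universe u

/-- two points have the same position with respect to the finite set `E` -/
def SamePos {U : Type u} [LT U] (E : Finset U) (x y : U) : Prop :=
  ∀ e ∈ E, (x < e ↔ y < e) ∧ (e < x ↔ e < y)

/-- an o-minimal dense linear order without endpoints on `U`, `∅`-definable -/
class OMS (U : Type u) [Str U] extends LinearOrder U where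
  dense : ∀ a b : U, a < b → ∃ c, a < c ∧ c < b
  noMin : ∀ a : U, ∃ b, b < a
  noMax : ∀ a : U, ∃ b, a < b
  lt_def : Dfn (∅ : Set U) {p : U × U | p.1 < p.2}
  omin : ∀ D : Set U, Dfn (univ : Set U) D → ∃ E : Finset U, ∀ x y, SamePos E x y → (x ∈ D ↔ y ∈ D)

variable {U : Type u} [Str U] {X Y Z W : Type u} [DSort U X] [DSort U Y] [DSort U Z] [DSort U W]
  {A B : Set U}

instance [OMS U] : DenselyOrdered U := ⟨OMS.dense⟩
instance [OMS U] : NoMinOrder U := ⟨OMS.noMin⟩
instance [OMS U] : NoMaxOrder U := ⟨OMS.noMax⟩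

theorem Dfn.lt [OMS U] {f g : X → U} (hf : DfnF A f) (hg : DfnF A g) : Dfn A {x | f x < g x} :=
  ((OMS.lt_def (U := U)).mono (empty_subset A)).preimage (hf.prodMk hg)

theorem Dfn.le [OMS U] {f g : X → U} (hf : DfnF A f) (hg : DfnF A g) : Dfn A {x | f x ≤ g x} := by
  have h := (Dfn.lt hg hf).not
  have he : {x | f x ≤ g x} = {x | ¬ g x < f x} := by
    ext x
    exact not_lt.symm
  rw [he]
  exact h

/-- The reversed order. To dualise a lemma apply it with this instance: all notions not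
mentioning the order (`Dfn`, `GType`, `Inv`, `Fam`, ...) are unchanged, `a < b` becomes `b < a`
definitionally. -/
@[reducible] def OMS.dual (U : Type u) [Str U] [o : OMS U] : OMS U where
  toLinearOrder := inferInstanceAs (LinearOrder (OrderDual U))
  dense := fun a b h => by
    obtain ⟨c, h1, h2⟩ := OMS.dense b a h
    exact ⟨c, h2, h1⟩
  noMin := fun a => OMS.noMax a
  noMax := fun a => OMS.noMin a
  lt_def := Dfn.lt (f := fun p : U × U => p.2) (g := fun p : U × U => p.1) dfnF_snd dfnF_fst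
  omin := fun D hD => by
    obtain ⟨E, hE⟩ := OMS.omin D hD
    exact ⟨E, fun x y h => hE x y (fun e he => ⟨(h e he).2, (h e he).1⟩)⟩

theorem dual_lt [OMS U] (a b : U) : (OMS.dual U).lt a b ↔ b < a := Iff.rfl

theorem dual_le [OMS U] (a b : U) : (OMS.dual U).le a b ↔ b ≤ a := Iff.rfl

variable [OMS U]

/-- `Dfn` sets of one variable: rays and intervals -/
theorem dfn_Ioi {a : U} (ha : a ∈ A) : Dfn A {x : U | a < x} :=
  Dfn.lt (dfnF_const (by simpa using ha)) dfnF_id

theorem dfn_Iio {a : U} (ha : a ∈ A) : Dfn A {x : U | x < a} :=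
  Dfn.lt dfnF_id (dfnF_const (by simpa using ha))

/-- the least element of a definable set -/
private theorem least_dcl {D : Set U} (hD : Dfn A D) {m : U} (hm : IsLeast D m) : m ∈ Dcl A := by
  have h1 : Dfn A {x : U | x ∈ D ∧ ∀ y, y ∈ D → x ≤ y} := by
    refine Dfn.and hD (Dfn.all (P := fun x y => y ∈ D → x ≤ y) ?_)
    exact Dfn.imp (hD.sub dfnF_snd) (Dfn.le dfnF_fst dfnF_snd)
  have h2 : ({m} : Set U) = {x : U | x ∈ D ∧ ∀ y, y ∈ D → x ≤ y} := by
    ext x
    constructor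
    · rintro rfl
      exact ⟨hm.1, fun y hy => hm.2 hy⟩
    · rintro ⟨h, h'⟩
      exact le_antisymm (h' m hm.1) (hm.2 h)
  show Dfn A ({m} : Set U)
  rw [h2]
  exact h1

/-- a finite `A`-definable set consists of points of `dcl A` -/
theorem finite_subset_dcl {D : Set U} (hD : Dfn A D) (hf : D.Finite) : D ⊆ Dcl A := by
  obtain ⟨n, hn⟩ : ∃ n, D.ncard = n := ⟨_, rfl⟩
  induction n generalizing D with
  | zero =>
    rw [Set.ncard_eq_zero hf] at hn
    rw [hn]
    exact empty_subset _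
  | succ n ih =>
    have hne : D.Nonempty := by
      rw [Set.nonempty_iff_ne_empty]
      rintro rfl
      simp at hn
    obtain ⟨m, hm, hmin⟩ := hf.exists_minimal hne
    have hl : IsLeast D m := ⟨hm, fun y hy => by
      by_contra hc
      exact hc (hmin hy (le_of_lt (not_le.1 hc)))⟩
    have hmd : m ∈ Dcl A := least_dcl hD hl
    have h1 : Dfn A (D \ {m}) := hD.inter (Dfn.compl hmd)
    have h2 : (D \ {m}).ncard = n := by
      have := Set.ncard_sdiff_singleton_of_mem hm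
      omega
    intro x hx
    by_cases hxm : x = m
    · rw [hxm]
      exact hmd
    · exact ih h1 (hf.subset sdiff_subset) h2 ⟨hx, hxm⟩

/-- an interval around a point avoiding the other points of a finite set -/
private theorem exists_avoid (E : Finset U) (x : U) :
    ∃ a b, a < x ∧ x < b ∧ ∀ e ∈ E, e ≤ a ∨ e = x ∨ b ≤ e := by
  induction E using Finset.induction_on with
  | empty =>
    obtain ⟨a, ha⟩ := OMS.noMin x
    obtain ⟨b, hb⟩ := OMS.noMax x
    exact ⟨a, b, ha, hb, by simp⟩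
  | insert e E _ ih =>
    obtain ⟨a, b, ha, hb, h⟩ := ih
    rcases lt_trichotomy e x with he | he | he
    · refine ⟨max a e, b, max_lt ha he, hb, ?_⟩
      intro e' he'
      rcases Finset.mem_insert.1 he' with rfl | h'
      · exact Or.inl (le_max_right _ _)
      · rcases h e' h' with h1 | h1 | h1
        · exact Or.inl (h1.trans (le_max_left _ _))
        · exact Or.inr (Or.inl h1)
        · exact Or.inr (Or.inr h1)
    · refine ⟨a, b, ha, hb, ?_⟩
      intro e' he'
      rcases Finset.mem_insert.1 he' with rfl | h'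
      · exact Or.inr (Or.inl he)
      · exact h e' h'
    · refine ⟨a, min b e, ha, lt_min hb he, ?_⟩
      intro e' he'
      rcases Finset.mem_insert.1 he' with rfl | h'
      · exact Or.inr (Or.inr (min_le_right _ _))
      · rcases h e' h' with h1 | h1 | h1
        · exact Or.inl h1
        · exact Or.inr (Or.inl h1)
        · exact Or.inr (Or.inr ((min_le_left _ _).trans h1))

private theorem samePos_of_notMem {E : Finset U} {x y : U} (hxy : x ≤ y)
    (h : ∀ e ∈ E, ¬ (x ≤ e ∧ e ≤ y)) : SamePos E x y := by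
  intro e he
  have h' := h e he
  constructor
  · constructor
    · intro h1
      by_contra h2
      exact h' ⟨h1.le, not_lt.1 h2⟩
    · intro h1
      exact lt_of_le_of_lt hxy h1
  · constructor
    · intro h1
      exact lt_of_lt_of_le h1 hxy
    · intro h1
      by_contra h2
      exact h' ⟨not_lt.1 h2, h1.le⟩

private theorem SamePos.symm' {E : Finset U} {x y : U} (h : SamePos E x y) : SamePos E y x :=
  fun e he => ⟨(h e he).1.symm, (h e he).2.symm⟩

private theorem SamePos.refl' (E : Finset U) (x : U) : SamePos E x x :=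
  fun _ _ => ⟨Iff.rfl, Iff.rfl⟩

/-- the definable boundary -/
private def bd (D : Set U) : Set U :=
  {x | ∀ a b, a < x → x < b → (∃ y, (a < y ∧ y < b) ∧ y ∈ D) ∧ (∃ y, (a < y ∧ y < b) ∧ y ∉ D)}

private theorem dfn_bd {D : Set U} (hD : Dfn A D) : Dfn A (bd D) := by
  have h1 : Dfn A {p : ((U × U) × U) × U | (p.1.1.2 < p.2 ∧ p.2 < p.1.2) ∧ p.2 ∈ D} :=
    Dfn.and (Dfn.and
      (Dfn.lt (dfnF_snd.comp (dfnF_fst.comp dfnF_fst)) dfnF_snd)
      (Dfn.lt dfnF_snd (dfnF_snd.comp dfnF_fst))) (hD.sub dfnF_snd)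
  have h2 : Dfn A {p : ((U × U) × U) × U | (p.1.1.2 < p.2 ∧ p.2 < p.1.2) ∧ p.2 ∉ D} :=
    Dfn.and (Dfn.and
      (Dfn.lt (dfnF_snd.comp (dfnF_fst.comp dfnF_fst)) dfnF_snd)
      (Dfn.lt dfnF_snd (dfnF_snd.comp dfnF_fst))) (Dfn.not (hD.sub dfnF_snd))
  have h3 : Dfn A {p : (U × U) × U | p.1.2 < p.1.1 → p.1.1 < p.2 →
      (∃ y, (p.1.2 < y ∧ y < p.2) ∧ y ∈ D) ∧ (∃ y, (p.1.2 < y ∧ y < p.2) ∧ y ∉ D)} := by
    refine Dfn.imp (Dfn.lt (dfnF_snd.comp dfnF_fst) (dfnF_fst.comp dfnF_fst))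
      (Dfn.imp (Dfn.lt (dfnF_fst.comp dfnF_fst) dfnF_snd) (Dfn.and ?_ ?_))
    · exact Dfn.ex (P := fun (p : (U × U) × U) y => (p.1.2 < y ∧ y < p.2) ∧ y ∈ D) h1
    · exact Dfn.ex (P := fun (p : (U × U) × U) y => (p.1.2 < y ∧ y < p.2) ∧ y ∉ D) h2
  have h4 : Dfn A {p : U × U | ∀ b, p.2 < p.1 → p.1 < b →
      (∃ y, (p.2 < y ∧ y < b) ∧ y ∈ D) ∧ (∃ y, (p.2 < y ∧ y < b) ∧ y ∉ D)} :=
    Dfn.all (P := fun (p : U × U) b => p.2 < p.1 → p.1 < b →
      (∃ y, (p.2 < y ∧ y < b) ∧ y ∈ D) ∧ (∃ y, (p.2 < y ∧ y < b) ∧ y ∉ D)) h3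
  exact Dfn.all (P := fun (x : U) a => ∀ b, a < x → x < b →
      (∃ y, (a < y ∧ y < b) ∧ y ∈ D) ∧ (∃ y, (a < y ∧ y < b) ∧ y ∉ D)) h4

/-- moving a point close to `e` -/
private theorem exists_near {E : Finset U} {a b e x y : U} (ha : a < e) (hb : e < b)
    (hxe : x ≤ e) (hey : e ≤ y) (h : ∀ e' ∈ E, e' ≠ e → ¬ (x ≤ e' ∧ e' ≤ y)) :
    ∃ x', a < x' ∧ x' < b ∧ SamePos E x x' := by
  rcases hxe.lt_or_eq with hlt | rfl
  · obtain ⟨c, h1, h2⟩ := OMS.dense (max a x) e (max_lt ha hlt)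
    refine ⟨c, (le_max_left _ _).trans_lt h1, h2.trans hb, ?_⟩
    refine samePos_of_notMem ((le_max_right _ _).trans_lt h1).le ?_
    rintro e' he' ⟨h3, h4⟩
    have h5 : e' ≠ e := (h4.trans_lt h2).ne
    exact h e' he' h5 ⟨h3, (h4.trans_lt h2).le.trans hey⟩
  · exact ⟨x, ha, hb, SamePos.refl' E x⟩

private theorem exists_near' {E : Finset U} {a b e x y : U} (ha : a < e) (hb : e < b)
    (hxe : x ≤ e) (hey : e ≤ y) (h : ∀ e' ∈ E, e' ≠ e → ¬ (x ≤ e' ∧ e' ≤ y)) :
    ∃ y', a < y' ∧ y' < b ∧ SamePos E y y' := by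
  rcases hey.lt_or_eq with hlt | rfl
  · obtain ⟨c, h1, h2⟩ := OMS.dense e (min b y) (lt_min hb hlt)
    refine ⟨c, ha.trans h1, h2.trans_le (min_le_left _ _), ?_⟩
    refine SamePos.symm' (samePos_of_notMem (h2.trans_le (min_le_right _ _)).le ?_)
    rintro e' he' ⟨h3, h4⟩
    have h5 : e' ≠ e := (h1.trans_le h3).ne'
    exact h e' he' h5 ⟨hxe.trans (h1.trans_le h3).le, h4⟩
  · exact ⟨e, ha, hb, SamePos.refl' E e⟩

/-- points outside the boundary may be removed -/
private theorem erase_sep {D : Set U} {E : Finset U}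
    (hE : ∀ x y, SamePos E x y → (x ∈ D ↔ y ∈ D)) {e : U} (he : e ∉ bd D) :
    ∀ x y, SamePos (E.erase e) x y → (x ∈ D ↔ y ∈ D) := by
  obtain ⟨a, b, ha, hb, hab⟩ : ∃ a b, a < e ∧ e < b ∧
      ∀ x y, a < x → x < b → a < y → y < b → (x ∈ D ↔ y ∈ D) := by
    by_contra hcon
    apply he
    intro a b ha hb
    constructor
    · by_contra h1
      apply hcon
      refine ⟨a, b, ha, hb, fun x y h2 h3 h4 h5 => ?_⟩
      have hx : x ∉ D := fun h => h1 ⟨x, ⟨h2, h3⟩, h⟩
      have hy : y ∉ D := fun h => h1 ⟨y, ⟨h4, h5⟩, h⟩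
      exact ⟨fun h => absurd h hx, fun h => absurd h hy⟩
    · by_contra h1
      apply hcon
      refine ⟨a, b, ha, hb, fun x y h2 h3 h4 h5 => ?_⟩
      have hx : x ∈ D := by
        by_contra h
        exact h1 ⟨x, ⟨h2, h3⟩, h⟩
      have hy : y ∈ D := by
        by_contra h
        exact h1 ⟨y, ⟨h4, h5⟩, h⟩
      exact ⟨fun _ => hy, fun _ => hx⟩
  have key : ∀ x y, x ≤ y → SamePos (E.erase e) x y → (x ∈ D ↔ y ∈ D) := by
    intro x y hxy h
    by_cases hc : x ≤ e ∧ e ≤ y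
    · by_cases hxy' : x = y
      · rw [hxy']
      have hlt : x < y := lt_of_le_of_ne hxy hxy'
      have h' : ∀ e' ∈ E, e' ≠ e → ¬ (x ≤ e' ∧ e' ≤ y) := by
        rintro e' he' hne ⟨h1, h2⟩
        have h3 := h e' (Finset.mem_erase.2 ⟨hne, he'⟩)
        rcases h1.lt_or_eq with h4 | h4
        · exact absurd (h3.1.1 h4) (not_lt.2 h2)
        · have h5 : e' < y := by rw [← h4]; exact hlt
          exact absurd (h3.2.2 h5) (not_lt.2 h1)
      obtain ⟨x', h1, h2, h3⟩ := exists_near (b := b) ha hb hc.1 hc.2 h'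
      obtain ⟨y', h4, h5, h6⟩ := exists_near' (a := a) ha hb hc.1 hc.2 h'
      rw [hE x x' h3, hE y y' h6]
      exact hab x' y' h1 h2 h4 h5
    · apply hE
      intro e' he'
      by_cases hee : e' = e
      · subst hee
        have := samePos_of_notMem (E := {e'}) hxy (by
          intro e'' he''
          rw [Finset.mem_singleton.1 he'']
          exact hc)
        exact this e' (Finset.mem_singleton_self _)
      · exact h e' (Finset.mem_erase.2 ⟨hee, he'⟩)
  intro x y h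
  rcases le_total x y with hxy | hxy
  · exact key x y hxy h
  · exact (key y x hxy (SamePos.symm' h)).symm

/-- endpoints of an `A`-definable set may be taken in `dcl A` -/
theorem endpoints {D : Set U} (hD : Dfn A D) :
    ∃ E : Finset U, (↑E : Set U) ⊆ Dcl A ∧ ∀ x y, SamePos E x y → (x ∈ D ↔ y ∈ D) := by
  obtain ⟨E, hE⟩ := OMS.omin D (hD.mono (subset_univ A))
  have hfin : (bd D).Finite := by
    refine E.finite_toSet.subset ?_
    intro x hx
    by_contra hxE
    obtain ⟨a, b, ha, hb, h⟩ := exists_avoid E x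
    obtain ⟨⟨y, ⟨h1, h2⟩, h3⟩, ⟨z, ⟨h4, h5⟩, h6⟩⟩ := hx a b ha hb
    have hE' : ∀ e ∈ E, e ≤ a ∨ b ≤ e := by
      intro e he
      rcases h e he with h' | h' | h'
      · exact Or.inl h'
      · exact absurd (by rw [← h']; exact he) hxE
      · exact Or.inr h'
    have hs : ∀ y z : U, a < y → y < b → a < z → z < b → SamePos E y z := by
      intro y z h1 h2 h4 h5 e he
      rcases hE' e he with h' | h'
      · exact ⟨⟨fun h => absurd (h'.trans_lt h1) (not_lt.2 h.le),
          fun h => absurd (h'.trans_lt h4) (not_lt.2 h.le)⟩,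
          ⟨fun _ => h'.trans_lt h4, fun _ => h'.trans_lt h1⟩⟩
      · exact ⟨⟨fun _ => h5.trans_le h', fun _ => h2.trans_le h'⟩,
          ⟨fun h => absurd (h2.trans_le h') (not_lt.2 h.le),
          fun h => absurd (h5.trans_le h') (not_lt.2 h.le)⟩⟩
    exact h6 ((hE y z (hs y z h1 h2 h4 h5)).1 h3)
  have hsub := finite_subset_dcl (dfn_bd hD) hfin
  have main : ∀ n : ℕ, ∀ E : Finset U, E.card = n →
      (∀ x y, SamePos E x y → (x ∈ D ↔ y ∈ D)) →
      ∃ E' : Finset U, (↑E' : Set U) ⊆ bd D ∧ ∀ x y, SamePos E' x y → (x ∈ D ↔ y ∈ D) := by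
    intro n
    induction n with
    | zero =>
      intro E hn hE
      rw [Finset.card_eq_zero] at hn
      refine ⟨E, ?_, hE⟩
      rw [hn]
      simp
    | succ n ih =>
      intro E hn hE
      by_cases hc : (↑E : Set U) ⊆ bd D
      · exact ⟨E, hc, hE⟩
      · obtain ⟨e, he, he'⟩ := Set.not_subset.1 hc
        refine ih (E.erase e) ?_ (erase_sep hE he')
        rw [Finset.card_erase_of_mem he]
        omega
  obtain ⟨E', h1, h2⟩ := main _ E rfl hE
  exact ⟨E', h1.trans hsub, h2⟩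

/-- infinite definable sets contain intervals -/
theorem exists_Ioo_subset {D : Set U} (hD : Dfn (univ : Set U) D) (hinf : D.Infinite) :
    ∃ a b, a < b ∧ Ioo a b ⊆ D := by
  obtain ⟨E, hE⟩ := OMS.omin D hD
  obtain ⟨x, hxD, hxE⟩ := hinf.exists_notMem_finset E
  obtain ⟨a, b, ha, hb, h⟩ := exists_avoid E x
  refine ⟨a, b, ha.trans hb, ?_⟩
  rintro y ⟨h1, h2⟩
  refine (hE x y ?_).1 hxD
  intro e he
  rcases h e he with h' | h' | h'
  · exact ⟨⟨fun h => absurd (h'.trans_lt ha) (not_lt.2 h.le),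
      fun h => absurd (h'.trans_lt h1) (not_lt.2 h.le)⟩,
      ⟨fun _ => h'.trans_lt h1, fun _ => h'.trans_lt ha⟩⟩
  · exact absurd (by rw [← h']; exact he) hxE
  · exact ⟨⟨fun _ => h2.trans_le h', fun _ => hb.trans_le h'⟩,
      ⟨fun h => absurd (hb.trans_le h') (not_lt.2 h.le),
      fun h => absurd (h2.trans_le h') (not_lt.2 h.le)⟩⟩

theorem exists_isLUB {D : Set U} (hD : Dfn (univ : Set U) D) (hne : D.Nonempty)
    (hb : BddAbove D) : ∃ u, IsLUB D u := by
  obtain ⟨E, hE⟩ := OMS.omin D hD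
  by_contra hcon
  have key : ∀ E : Finset U, ∃ d ∈ D, ∃ u ∈ upperBounds D, ∀ e ∈ E, ¬ (d ≤ e ∧ e ≤ u) := by
    intro E
    induction E using Finset.induction_on with
    | empty =>
      obtain ⟨d, hd⟩ := hne
      obtain ⟨u, hu⟩ := hb
      exact ⟨d, hd, u, hu, by simp⟩
    | insert e E _ ih =>
      obtain ⟨d, hd, u, hu, h⟩ := ih
      by_cases he : e ∈ upperBounds D
      · have h1 : ∃ u' ∈ upperBounds D, u' < e := by
          by_contra h2
          apply hcon
          refine ⟨e, he, fun w hw => ?_⟩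
          by_contra h3
          exact h2 ⟨w, hw, not_le.1 h3⟩
        obtain ⟨u', hu', hlt⟩ := h1
        refine ⟨d, hd, min u u', ?_, ?_⟩
        · intro x hx
          exact le_min (hu hx) (hu' hx)
        · rintro e' he' ⟨h2, h3⟩
          rcases Finset.mem_insert.1 he' with rfl | h'
          · exact absurd (h3.trans (min_le_right _ _)) (not_le.2 hlt)
          · exact h e' h' ⟨h2, h3.trans (min_le_left _ _)⟩
      · obtain ⟨d', hd', hlt⟩ : ∃ d' ∈ D, e < d' := by
          by_contra h2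
          apply he
          intro x hx
          by_contra h3
          exact h2 ⟨x, hx, not_le.1 h3⟩
        refine ⟨max d d', ?_, u, hu, ?_⟩
        · rcases max_choice d d' with h2 | h2 <;> rw [h2] <;> assumption
        · rintro e' he' ⟨h2, h3⟩
          rcases Finset.mem_insert.1 he' with rfl | h'
          · exact absurd ((le_max_right _ _).trans h2) (not_le.2 hlt)
          · exact h e' h' ⟨(le_max_left _ _).trans h2, h3⟩
  obtain ⟨d, hd, u, hu, h⟩ := key E
  have h1 : u ∈ D := (hE d u (samePos_of_notMem (hu hd) h)).1 hd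
  exact hcon ⟨u, hu, fun w hw => hw h1⟩

theorem exists_isGLB {D : Set U} (hD : Dfn (univ : Set U) D) (hne : D.Nonempty)
    (hb : BddBelow D) : ∃ u, IsGLB D u :=
  @exists_isLUB U _ (OMS.dual U) D hD hne hb

open Classical in
/-- the supremum of `D`, default value `m` -/
noncomputable def dsup (m : U) (D : Set U) : U := if h : ∃ u, IsLUB D u then h.choose else m

open Classical in
/-- the infimum of `D`, default value `m` -/
noncomputable def dinf (m : U) (D : Set U) : U := if h : ∃ u, IsGLB D u then h.choose else m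

theorem dsup_eq {m : U} {D : Set U} {u : U} (h : IsLUB D u) : dsup m D = u := by
  have h' : ∃ u, IsLUB D u := ⟨u, h⟩
  unfold dsup
  rw [dif_pos h']
  exact h'.choose_spec.unique h

theorem dinf_eq {m : U} {D : Set U} {u : U} (h : IsGLB D u) : dinf m D = u := by
  have h' : ∃ u, IsGLB D u := ⟨u, h⟩
  unfold dinf
  rw [dif_pos h']
  exact h'.choose_spec.unique h

theorem isLUB_dsup {m : U} {D : Set U} (hD : Dfn (univ : Set U) D) (hne : D.Nonempty)
    (hb : BddAbove D) : IsLUB D (dsup m D) := by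
  obtain ⟨u, hu⟩ := exists_isLUB hD hne hb
  rw [dsup_eq hu]
  exact hu

theorem isGLB_dinf {m : U} {D : Set U} (hD : Dfn (univ : Set U) D) (hne : D.Nonempty)
    (hb : BddBelow D) : IsGLB D (dinf m D) := by
  obtain ⟨u, hu⟩ := exists_isGLB hD hne hb
  rw [dinf_eq hu]
  exact hu

private theorem dfn_isLUB {D : Set (U × X)} (hD : Dfn A D) :
    Dfn A {q : X × U | IsLUB {u | (u, q.1) ∈ D} q.2} := by
  have h1 : Dfn A {q : X × U | ∀ u, (u, q.1) ∈ D → u ≤ q.2} := by
    refine Dfn.all (P := fun (q : X × U) u => (u, q.1) ∈ D → u ≤ q.2) ?_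
    exact Dfn.imp (hD.sub (dfnF_snd.prodMk (dfnF_fst.comp dfnF_fst)))
      (Dfn.le dfnF_snd (dfnF_snd.comp dfnF_fst))
  have h2 : Dfn A {q : X × U | ∀ w, (∀ u, (u, q.1) ∈ D → u ≤ w) → q.2 ≤ w} := by
    refine Dfn.all (P := fun (q : X × U) w => (∀ u, (u, q.1) ∈ D → u ≤ w) → q.2 ≤ w) ?_
    refine Dfn.imp ?_ (Dfn.le (dfnF_snd.comp dfnF_fst) dfnF_snd)
    exact Dfn.sub (P := fun q : X × U => ∀ u, (u, q.1) ∈ D → u ≤ q.2)
      (f := fun p : (X × U) × U => (p.1.1, p.2)) h1
      ((dfnF_fst.comp dfnF_fst).prodMk dfnF_snd)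
  have h3 := Dfn.and h1 h2
  have he : {q : X × U | IsLUB {u | (u, q.1) ∈ D} q.2} =
      {q : X × U | (∀ u, (u, q.1) ∈ D → u ≤ q.2) ∧
        ∀ w, (∀ u, (u, q.1) ∈ D → u ≤ w) → q.2 ≤ w} := by
    ext q
    constructor
    · rintro ⟨h, h'⟩
      exact ⟨fun u hu => h hu, fun w hw => h' (fun u hu => hw u hu)⟩
    · rintro ⟨h, h'⟩
      exact ⟨fun u hu => h u hu, fun w hw => h' w (fun u hu => hw hu)⟩
  rw [he]
  exact h3

theorem dfnF_dsup {m : U} (hm : m ∈ A) {D : Set (U × X)} (hD : Dfn A D) :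
    DfnF A (fun x => dsup m {u | (u, x) ∈ D}) := by
  have h1 := dfn_isLUB hD
  have h2 : Dfn A {x : X | ∃ u, IsLUB {u | (u, x) ∈ D} u} :=
    Dfn.ex (P := fun (x : X) v => IsLUB {u | (u, x) ∈ D} v) h1
  have h3 : Dfn A {p : X × U | IsLUB {u | (u, p.1) ∈ D} p.2 ∨
      (¬ (∃ u, IsLUB {u | (u, p.1) ∈ D} u)) ∧ m = p.2} := by
    refine Dfn.or h1 (Dfn.and (Dfn.not ?_) ?_)
    · exact Dfn.sub (P := fun x : X => ∃ u, IsLUB {u | (u, x) ∈ D} u) h2 dfnF_fst
    · exact Dfn.eq (dfnF_const (by simpa using hm)) dfnF_snd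
  refine DfnF.of_graph ?_
  have he : {p : X × U | dsup m {u | (u, p.1) ∈ D} = p.2} =
      {p : X × U | IsLUB {u | (u, p.1) ∈ D} p.2 ∨
        (¬ (∃ u, IsLUB {u | (u, p.1) ∈ D} u)) ∧ m = p.2} := by
    ext p
    simp only [mem_ofPred_eq]
    constructor
    · intro h
      by_cases hex : ∃ u, IsLUB {u | (u, p.1) ∈ D} u
      · obtain ⟨u, hu⟩ := hex
        rw [dsup_eq hu] at h
        rw [h] at hu
        exact Or.inl hu
      · refine Or.inr ⟨hex, ?_⟩
        unfold dsup at h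
        rwa [dif_neg hex] at h
    · rintro (h | ⟨h, h'⟩)
      · exact dsup_eq h
      · unfold dsup
        rw [dif_neg h]
        exact h'
  rw [he]
  exact h3

theorem dfnF_dinf {m : U} (hm : m ∈ A) {D : Set (U × X)} (hD : Dfn A D) :
    DfnF A (fun x => dinf m {u | (u, x) ∈ D}) :=
  @dfnF_dsup U _ X _ A (OMS.dual U) m hm D hD

end OMB
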