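import Pool.Agent.Lib.MP_fd36ae_lc.Stmt
import Pool.Agent.Lib.MP_fd36ae_lc.V1

/-!
# MP_fd36ae_lc : from the hypotheses of the statement to the internal classes
-/

open FirstOrder Set
open scoped Cardinal

namespace MPfd36ae

open OMB

universe u

variable (L : FirstOrder.Language.{u, u}) (U : Type u) [L.Structure U]

/-- the internal structure class -/
@[reducible] noncomputable def mkStr [Nonempty U] (κ : Cardinal.{u}) (hκ : ℵ₀ < κ)
    (hL : L.card < κ) (hsat : Saturated L U κ) : Str U where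
  L := L
  str := inferInstance
  κ := κ
  aleph := hκ
  card := hL
  pt := Classical.arbitrary U
  sat := hsat

private theorem b1_one [LinearOrder U] (I : Set U)
    (h : (∃ a, I = {a}) ∨ (∃ a b, I = Ioo a b) ∨ (∃ a, I = Ioi a) ∨ (∃ a, I = Iio a) ∨
      I = univ) : ∃ E : Finset U, ∀ x y, SamePos E x y → (x ∈ I ↔ y ∈ I) := by
  classical
  rcases h with ⟨a, rfl⟩ | ⟨a, b, rfl⟩ | ⟨a, rfl⟩ | ⟨a, rfl⟩ | rfl
  · refine ⟨{a}, fun x y h => ?_⟩
    obtain ⟨h1, h2⟩ := h a (Finset.mem_singleton_self a)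
    have hx : ∀ z : U, z ∈ ({a} : Set U) ↔ ¬ z < a ∧ ¬ a < z := fun z =>
      ⟨fun hz => by rw [mem_singleton_iff.1 hz]; exact ⟨lt_irrefl a, lt_irrefl a⟩,
        fun hz => mem_singleton_iff.2 (le_antisymm (not_lt.1 hz.2) (not_lt.1 hz.1))⟩
    rw [hx x, hx y, h1, h2]
  · refine ⟨{a, b}, fun x y h => ?_⟩
    have h1 := (h a (Finset.mem_insert_self a {b})).2
    have h2 := (h b (Finset.mem_insert_of_mem (Finset.mem_singleton_self b))).1
    exact and_congr h1 h2
  · exact ⟨{a}, fun x y h => (h a (Finset.mem_singleton_self a)).2⟩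
  · exact ⟨{a}, fun x y h => (h a (Finset.mem_singleton_self a)).1⟩
  · exact ⟨∅, fun x y _ => Iff.rfl⟩

/-- position with respect to finitely many endpoints decides membership -/
theorem omin_of_OMinimal [LinearOrder U] (hom : OMinimal L U) (D : Set U)
    (hD : (univ : Set U).Definable₁ L D) :
    ∃ E : Finset U, ∀ x y, SamePos E x y → (x ∈ D ↔ y ∈ D) := by
  classical
  obtain ⟨S, hS, hDS, hI⟩ := hom D hD
  have key : ∀ I : Set U, ∃ E : Finset U, I ∈ S → ∀ x y, SamePos E x y → (x ∈ I ↔ y ∈ I) := by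
    intro I
    by_cases hIS : I ∈ S
    · obtain ⟨E, hE⟩ := b1_one U I (hI I hIS)
      exact ⟨E, fun _ => hE⟩
    · exact ⟨∅, fun h => absurd h hIS⟩
  choose E hE using key
  refine ⟨hS.toFinset.biUnion E, fun x y h => ?_⟩
  have h' : ∀ I ∈ S, (x ∈ I ↔ y ∈ I) := fun I hIS =>
    hE I hIS x y (fun e he => h e (Finset.mem_biUnion.2 ⟨I, hS.mem_toFinset.2 hIS, he⟩))
  rw [hDS, mem_sUnion, mem_sUnion]
  exact ⟨fun ⟨I, hIS, hx⟩ => ⟨I, hIS, (h' I hIS).1 hx⟩,
    fun ⟨I, hIS, hy⟩ => ⟨I, hIS, (h' I hIS).2 hy⟩⟩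

/-- the internal o-minimality class -/
@[reducible] noncomputable def mkOMS [LinearOrder U] [DenselyOrdered U] [NoMinOrder U]
    [NoMaxOrder U] [Nonempty U] (hlt : (∅ : Set U).Definable L {v : Fin 2 → U | v 0 < v 1})
    (hom : OMinimal L U) (κ : Cardinal.{u}) (hκ : ℵ₀ < κ) (hL : L.card < κ)
    (hsat : Saturated L U κ) : @OMS U (mkStr L U κ hκ hL hsat) :=
  letI := mkStr L U κ hκ hL hsat
  { toLinearOrder := inferInstance
    dense := fun _ _ h => exists_between h
    noMin := fun a => exists_lt a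
    noMax := fun a => exists_gt a
    lt_def := Set.Definable.preimage_comp
      (![Sum.inl (), Sum.inr ()] : Fin 2 → Unit ⊕ Unit) hlt
    omin := fun D hD => omin_of_OMinimal L U hom D
      (Set.Definable.preimage_comp (fun _ : Unit => (0 : Fin 1)) hD) }

/-- elementary substructures satisfy the Tarski-Vaught test -/
theorem elem_of_elementary [Nonempty U] (κ : Cardinal.{u}) (hκ : ℵ₀ < κ)
    (hL : L.card < κ) (hsat : Saturated L U κ) (M : L.ElementarySubstructure U) :
    letI := mkStr L U κ hκ hL hsat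
    OMB.Elem (M : Set U) := by
  intro D hD hne
  obtain ⟨x, hx, hxM⟩ := M.meetsDefinable D hne
    (Set.Definable.preimage_comp (fun _ : Unit => (0 : Fin 1)) hD)
  exact ⟨x, hxM, hx⟩

end MPfd36ae
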