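import Pool.Agent.Lib.MP_fd36ae_lc.G3

/-!
# MP_fd36ae_lc : the product of n 1-types
-/

open FirstOrder Set Cardinal

namespace OMB

universe u

variable {U : Type u} [Str U] {X Y Z W : Type u} [DSort U X] [DSort U Y] [DSort U Z] [DSort U W]
  {A B : Set U} {n : ℕ}

/-- the product `q 0 ⊗ … ⊗ q (n-1)`; the last factor is realised first -/
noncomputable def tensor (q : Fin n → GType U U) (m : U) : GType U (Fin n → U) :=
  prodL q m (List.finRange n)

theorem tensor_inv (hA : Small A) {m : U} (hm : m ∈ A) {q : Fin n → GType U U}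
    (hq : ∀ i, Inv A (q i)) : Inv A (tensor q m) := prodL_inv hA hm hq _

/-- flat form along an increasing list -/
private theorem RL_sorted (q : Fin n → GType U U) (A : Set U) (t : Fin n → U) :
    ∀ ω : List (Fin n), ω.Pairwise (· < ·) →
      (RL q A ω t ↔ ∀ i ∈ ω, Rl (q i) (A ∪ {x | ∃ j ∈ ω, i < j ∧ x = t j}) (t i))
  | [], _ => ⟨fun _ i hi => absurd hi (by simp), fun _ => trivial⟩
  | i :: ω, h => by
    have h1 : ∀ j ∈ ω, i < j := (List.pairwise_cons.1 h).1
    have h2 := RL_sorted q A t ω (List.pairwise_cons.1 h).2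
    have e1 : {x | ∃ j ∈ i :: ω, i < j ∧ x = t j} = {x | ∃ j ∈ ω, x = t j} := by
      ext x
      constructor
      · rintro ⟨j, hj, hij, rfl⟩
        rcases List.mem_cons.1 hj with rfl | hj
        · exact absurd hij (lt_irrefl _)
        · exact ⟨j, hj, rfl⟩
      · rintro ⟨j, hj, rfl⟩
        exact ⟨j, List.mem_cons_of_mem _ hj, h1 j hj, rfl⟩
    have e2 : ∀ k ∈ ω, {x | ∃ j ∈ i :: ω, k < j ∧ x = t j} =
        {x | ∃ j ∈ ω, k < j ∧ x = t j} := by
      intro k hk
      ext x
      constructor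
      · rintro ⟨j, hj, hkj, rfl⟩
        rcases List.mem_cons.1 hj with rfl | hj
        · exact absurd (hkj.trans (h1 k hk)) (lt_irrefl _)
        · exact ⟨j, hj, hkj, rfl⟩
      · rintro ⟨j, hj, hkj, rfl⟩
        exact ⟨j, List.mem_cons_of_mem _ hj, hkj, rfl⟩
    change (RL q A ω t ∧ Rl (q i) (A ∪ {x | ∃ j ∈ ω, x = t j}) (t i)) ↔ _
    rw [h2]
    constructor
    · rintro ⟨h3, h4⟩ k hk
      rcases List.mem_cons.1 hk with rfl | hk
      · rw [e1]
        exact h4
      · rw [e2 k hk]
        exact h3 k hk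
    · intro h3
      refine ⟨fun k hk => ?_, ?_⟩
      · have h4 := h3 k (List.mem_cons_of_mem _ hk)
        rwa [e2 k hk] at h4
      · have h4 := h3 i List.mem_cons_self
        rwa [e1] at h4

/-- flat characterisation of the realisations of the product -/
theorem rl_tensor (hA : Small A) {m : U} (hm : m ∈ A) {q : Fin n → GType U U}
    (hq : ∀ i, Inv A (q i)) {t : Fin n → U} :
    Rl (tensor q m) A t ↔ ∀ i, Rl (q i) (A ∪ {x | ∃ j, i < j ∧ x = t j}) (t i) := by
  have e : ∀ i : Fin n, {x | ∃ j ∈ List.finRange n, i < j ∧ x = t j} =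
      {x | ∃ j, i < j ∧ x = t j} := by
    intro i
    ext x
    constructor
    · rintro ⟨j, _, h⟩
      exact ⟨j, h⟩
    · rintro ⟨j, h⟩
      exact ⟨j, List.mem_finRange j, h⟩
  unfold tensor
  rw [rl_prodL hA hm hq (List.nodup_finRange n), RL_sorted q A t _ (List.pairwise_lt_finRange n)]
  constructor
  · rintro ⟨h, _⟩ i
    have := h i (List.mem_finRange i)
    rwa [e i] at this
  · intro h
    refine ⟨fun i _ => ?_, fun j hj => absurd (List.mem_finRange j) hj⟩
    rw [e i]
    exact h i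

/-- the base point is irrelevant -/
theorem tensor_base (q : Fin n → GType U U) (hq : ∃ A : Set U, Small A ∧ ∀ i, Inv A (q i))
    (m m' : U) : tensor q m = tensor q m' := by
  obtain ⟨A, hA, hq⟩ := hq
  have hm2 : Small ({m, m'} : Set U) := small_of_finite (Set.toFinite _)
  refine GType.ext_rl (hA.union hm2) fun B hB hAB => ?_
  have hq' : ∀ i, Inv B (q i) := fun i => (hq i).mono (subset_union_left.trans hAB)
  have hmB : m ∈ B := hAB (Or.inr (by simp))
  have hmB' : m' ∈ B := hAB (Or.inr (by simp))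
  obtain ⟨t, ht⟩ := exists_rl (tensor q m) hB
  exact ⟨t, ht, (rl_tensor hB hmB' hq').2 ((rl_tensor hB hmB hq').1 ht)⟩

theorem tensor_proj (hA : Small A) {m : U} (hm : m ∈ A) {q : Fin n → GType U U}
    (hq : ∀ i, Inv A (q i)) (k : Fin n) :
    (tensor q m).map (fun t => t k) (dfnF_proj k) = q k := by
  refine GType.ext_rl hA fun B hB hAB => ?_
  obtain ⟨t, ht⟩ := exists_rl (tensor q m) hB
  refine ⟨t k, ht.map (dfnF_proj k), ?_⟩
  exact ((rl_tensor hB (hAB hm) (fun i => (hq i).mono hAB)).1 ht k).mono subset_union_left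

/-- coordinatewise push-forward of a product -/
theorem tensor_map (hA : Small A) {m : U} (hm : m ∈ A) {q q' : Fin n → GType U U}
    (hq : ∀ i, Inv A (q i)) (hq' : ∀ i, Inv A (q' i)) {f : Fin n → U → U}
    (hf : ∀ i, DfnF A (f i)) (hff : ∀ i, (q i).map (f i) ((hf i).mono (subset_univ A)) = q' i)
    (hF : DfnF (univ : Set U) (fun t : Fin n → U => fun i => f i (t i))) :
    (tensor q m).map (fun t => fun i => f i (t i)) hF = tensor q' m := by
  refine GType.ext_rl hA fun B hB hAB => ?_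
  obtain ⟨t, ht⟩ := exists_rl (tensor q m) hB
  have hFB : DfnF B (fun t : Fin n → U => fun i => f i (t i)) :=
    DfnF.pi fun i => ((hf i).mono hAB).comp (dfnF_proj i)
  refine ⟨fun i => f i (t i), ht.map hFB, ?_⟩
  refine (rl_tensor hB (hAB hm) (fun i => (hq' i).mono hAB)).2 fun i => ?_
  have h1 := (rl_tensor hB (hAB hm) (fun i => (hq i).mono hAB)).1 ht i
  have hsub : B ∪ {x | ∃ j, i < j ∧ x = f j (t j)} ⊆
      Dcl (B ∪ {x | ∃ j, i < j ∧ x = t j}) := by
    rintro x (hx | ⟨j, hij, rfl⟩)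
    · exact subset_dcl (Or.inl hx)
    · have h2 : f j (t j) ∈ Dcl (B ∪ co U (t j)) := ((hf j).mono hAB).mem_dcl (t j)
      refine dcl_mono ?_ h2
      rw [co_U]
      exact union_subset_union_right _ (by
        rintro _ rfl
        exact ⟨j, hij, rfl⟩)
  have h3 : Rl (q' i) (B ∪ {x | ∃ j, i < j ∧ x = t j}) (f i (t i)) := by
    rw [← hff i]
    exact h1.map ((hf i).mono (hAB.trans subset_union_left))
  exact (rl_dcl.2 h3).mono hsub

end OMB
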