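import Pool.Agent.Lib.MP_fd36ae_lc.Stmt
import Pool.Agent.Lib.MP_fd36ae_lc.G3b

/-!
# MP_fd36ae_lc : translation between the types of the statement and the internal types
-/

open FirstOrder Set
open scoped Cardinal

namespace MPfd36ae

open OMB

universe u

variable {U : Type u} [Str U] {α β : Type} [Finite α] [Finite β]

/-- from the statement to the internal form -/
noncomputable def toG (p : GlobalType (Str.L U) U α) : GType U (α → U) :=
  GType.mk' p.sets p.definable p.univ_mem p.empty_notMem p.inter_mem p.complete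

theorem mem_toG {p : GlobalType (Str.L U) U α} {D : Set (α → U)}
    (hD : (Set.univ : Set U).Definable (Str.L U) D) : D ∈ (toG p).F ↔ D ∈ p.sets :=
  GType.mem_mk' (hD : Dfn (Set.univ : Set U) D)

/-- from the internal form to the statement -/
noncomputable def ofG (π : GType U (α → U)) : GlobalType (Str.L U) U α where
  sets := {D | (Set.univ : Set U).Definable (Str.L U) D ∧ D ∈ π.F}
  definable := fun _ hD => hD.1
  univ_mem := ⟨Set.definable_univ, Filter.univ_mem⟩
  empty_notMem := fun h => π.empty_notMem h.2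
  inter_mem := fun _ hD _ hE => ⟨hD.1.inter hE.1, Filter.inter_mem hD.2 hE.2⟩
  mem_of_superset := fun _ hD _ hE h => ⟨hE, Filter.mem_of_superset hD.2 h⟩
  complete := fun D hD => (π.ultra D hD).imp (fun h => ⟨hD, h⟩) (fun h => ⟨hD.compl, h⟩)

theorem toG_ofG (π : GType U (α → U)) : toG (ofG π) = π := by
  apply GType.ext_dfn
  intro D hD h
  exact ((mem_toG hD).1 h).2

/-- `Dfn` on function sorts is Mathlib's `Definable` -/
theorem dfn_pi {A : Set U} {D : Set (α → U)} : Dfn A D ↔ A.Definable (Str.L U) D := by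
  exact Iff.rfl

theorem dfn_prod_pi {A : Set U} {D : Set ((α → U) × (β → U))} :
    Dfn A D ↔ A.Definable (Str.L U) {z : α ⊕ β → U | (z ∘ Sum.inl, z ∘ Sum.inr) ∈ D} := by
  exact Iff.rfl

theorem eqv_pi {A : Set U} {x x' : α → U} : Eqv A x x' ↔ SameType (Str.L U) A x x' := by
  exact Iff.rfl

theorem invariantOver_iff {A : Set U} {p : GlobalType (Str.L U) U α} :
    p.InvariantOver A ↔ Inv A (toG p) := by
  constructor
  · intro h n D hD b b' hb
    have h1 := h n {z : α ⊕ Fin n → U | (z ∘ Sum.inl, z ∘ Sum.inr) ∈ D} (dfn_prod_pi.1 hD) b b'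
      (eqv_pi.1 hb)
    have h2 : ∀ c : Fin n → U, {x : α → U | (x, c) ∈ D} ∈ (toG p).F ↔
        {x : α → U | (x, c) ∈ D} ∈ p.sets := fun c =>
      mem_toG ((hD.mono (Set.empty_subset Set.univ)).fiber_of (Set.subset_univ (co U c)))
    show {x : α → U | (x, b) ∈ D} ∈ (toG p).F ↔ {x : α → U | (x, b') ∈ D} ∈ (toG p).F
    rw [h2, h2]
    exact h1
  · intro h n D hD b b' hb
    have hD' : Dfn (∅ : Set U) {p : (α → U) × (Fin n → U) | Sum.elim p.1 p.2 ∈ D} := by
      rw [dfn_prod_pi]
      have e : {z : α ⊕ Fin n → U | (z ∘ Sum.inl, z ∘ Sum.inr) ∈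
          {p : (α → U) × (Fin n → U) | Sum.elim p.1 p.2 ∈ D}} = D := by
        ext z
        show Sum.elim (z ∘ Sum.inl) (z ∘ Sum.inr) ∈ D ↔ z ∈ D
        rw [Sum.elim_comp_inl_inr]
      rw [e]
      exact hD
    have h1 := h n _ hD' b b' (eqv_pi.2 hb)
    have h2 : ∀ c : Fin n → U, {x : α → U | Sum.elim x c ∈ D} ∈ (toG p).F ↔
        {x : α → U | Sum.elim x c ∈ D} ∈ p.sets := fun c =>
      mem_toG ((hD'.mono (Set.empty_subset Set.univ)).fiber_of (Set.subset_univ (co U c)))
    rw [← h2, ← h2]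
    exact h1

theorem realizes_iff {B : Set U} {p : GlobalType (Str.L U) U α} {x : α → U} :
    p.Realizes B x ↔ Rl (toG p) B x := by
  constructor
  · intro h D hD hm
    exact h D ((mem_toG (Dfn.mono hD (Set.subset_univ B))).1 hm) hD
  · intro h D hm hD
    exact h D hD ((mem_toG (hD.mono (Set.subset_univ B))).2 hm)

/-- complete types over small sets are types of points -/
private theorem B2_point {A : Set U} (hA : OMB.Small A) (r : CType (Str.L U) A α) :
    ∃ z : α → U, ∀ D ∈ r.sets, z ∈ D := by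
  classical
  have hJ : #{D : Set (α → U) // Dfn A D ∧ D ∈ r.sets} < Str.κ U := by
    refine lt_of_le_of_lt ?_ (card_dfn (X := α → U) hA)
    exact Cardinal.mk_subtype_mono fun D hD => hD.1
  have hfin : ∀ s : Finset {D : Set (α → U) // Dfn A D ∧ D ∈ r.sets},
      ∃ E ∈ r.sets, ∀ j ∈ s, E ⊆ j.1 := by
    intro s
    induction s using Finset.induction_on with
    | empty => exact ⟨Set.univ, r.univ_mem, fun j hj => absurd hj (Finset.notMem_empty j)⟩
    | insert j s _ ih =>
      obtain ⟨E, hE, h⟩ := ih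
      refine ⟨j.1 ∩ E, r.inter_mem _ j.2.2 _ hE, fun k hk => ?_⟩
      rcases Finset.mem_insert.1 hk with rfl | hk
      · exact Set.inter_subset_left
      · exact Set.inter_subset_right.trans (h k hk)
  obtain ⟨z, hz⟩ := sat_family hJ (fun j => j.1) (fun j => j.2.1.mono (Set.subset_univ A)) (by
    intro s
    obtain ⟨E, hE, h⟩ := hfin s
    have hne : E.Nonempty := by
      rw [Set.nonempty_iff_ne_empty]
      rintro rfl
      exact r.empty_notMem hE
    obtain ⟨x, hx⟩ := hne
    exact ⟨x, fun j hj => h j hj hx⟩)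
  exact ⟨z, fun D hD => hz ⟨D, r.definable D hD, hD⟩⟩

/-- complete types over small sets are types of points: domination in the two settings -/
theorem dominates_iff {p : GlobalType (Str.L U) U α} {q : GlobalType (Str.L U) U β} :
    Dominates (Str.κ U) p q ↔ Dom (toG p) (toG q) := by
  constructor
  · rintro ⟨A, hA, hp, hq, r, h1, h2, h3⟩
    obtain ⟨z, hz⟩ := B2_point hA r
    refine ⟨A, hA, invariantOver_iff.1 hp, invariantOver_iff.1 hq, (z ∘ Sum.inl, z ∘ Sum.inr),
      ?_, ?_, ?_⟩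
    · intro D hD hm
      exact hz _ (h1 D ((mem_toG (Dfn.mono hD (Set.subset_univ A))).1 hm) hD)
    · intro D hD hm
      exact hz _ (h2 D ((mem_toG (Dfn.mono hD (Set.subset_univ A))).1 hm) hD)
    · intro D hD hm
      obtain ⟨P, hP, R, hR, h⟩ := h3 D ((mem_toG hD).1 hm)
      refine ⟨P, (mem_toG (p.definable P hP)).2 hP, {w | Sum.elim w.1 w.2 ∈ R}, ?_, ?_,
        fun x y hx hy => h x y hx hy⟩
      · rw [dfn_prod_pi]
        have e : {z : α ⊕ β → U | (z ∘ Sum.inl, z ∘ Sum.inr) ∈
            {w : (α → U) × (β → U) | Sum.elim w.1 w.2 ∈ R}} = R := by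
          ext z
          show Sum.elim (z ∘ Sum.inl) (z ∘ Sum.inr) ∈ R ↔ z ∈ R
          rw [Sum.elim_comp_inl_inr]
        rw [e]
        exact r.definable R hR
      · show Sum.elim (z ∘ Sum.inl) (z ∘ Sum.inr) ∈ R
        rw [Sum.elim_comp_inl_inr]
        exact hz R hR
  · rintro ⟨A, hA, hp, hq, w, h1, h2, h3⟩
    refine ⟨A, hA, invariantOver_iff.2 hp, invariantOver_iff.2 hq,
      { sets := {D | A.Definable (Str.L U) D ∧ Sum.elim w.1 w.2 ∈ D}
        definable := fun D hD => hD.1
        univ_mem := ⟨Set.definable_univ, Set.mem_univ _⟩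
        empty_notMem := fun h => h.2
        inter_mem := fun _ hD _ hE => ⟨hD.1.inter hE.1, hD.2, hE.2⟩
        mem_of_superset := fun _ hD _ hE h => ⟨hE, h hD.2⟩
        complete := fun D hD => (Classical.em (Sum.elim w.1 w.2 ∈ D)).imp (fun h => ⟨hD, h⟩)
          (fun h => ⟨hD.compl, h⟩) }, ?_, ?_, ?_⟩
    · intro D hD hA'
      exact ⟨hA'.preimage_comp Sum.inl, h1 D hA' ((mem_toG (p.definable D hD)).2 hD)⟩
    · intro D hD hA'
      exact ⟨hA'.preimage_comp Sum.inr, h2 D hA' ((mem_toG (q.definable D hD)).2 hD)⟩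
    · intro D hD
      obtain ⟨P, hP, R, hR, hwR, h⟩ := h3 D (q.definable D hD) ((mem_toG (q.definable D hD)).2 hD)
      obtain ⟨P', hP', hP'd, hP'm⟩ := (toG p).base P hP
      exact ⟨P', (mem_toG hP'd).1 hP'm, {z | (z ∘ Sum.inl, z ∘ Sum.inr) ∈ R},
        ⟨dfn_prod_pi.1 hR, hwR⟩, fun x y hx hy => h x y (hP' hx) hy⟩

/-- 1-types -/
noncomputable def toG1 (p : GlobalType (Str.L U) U (Fin 1)) : GType U U :=
  (toG p).map (fun x => x 0) (dfnF_proj 0)

noncomputable def ofG1 (π : GType U U) : GlobalType (Str.L U) U (Fin 1) :=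
  ofG (π.map (fun x => fun _ : Fin 1 => x) (DfnF.pi fun _ => dfnF_id))

theorem toG1_ofG1 (π : GType U U) : toG1 (ofG1 π) = π := by
  unfold toG1 ofG1
  simp only [toG_ofG]
  rw [GType.map_map]
  exact GType.map_id' (Filter.univ_mem' fun _ => rfl)

private theorem B2_eq {p : GlobalType (Str.L U) U (Fin 1)} :
    (toG1 p).map (fun x => fun _ : Fin 1 => x) (DfnF.pi fun _ => dfnF_id) = toG p := by
  unfold toG1
  rw [GType.map_map]
  refine GType.map_id' (Filter.univ_mem' fun x => ?_)
  show (fun _ : Fin 1 => x 0) = x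
  funext i
  rw [Subsingleton.elim i 0]

theorem invariantOver_iff1 {A : Set U} {p : GlobalType (Str.L U) U (Fin 1)} :
    p.InvariantOver A ↔ Inv A (toG1 p) := by
  rw [invariantOver_iff]
  constructor
  · intro h
    exact h.map (dfnF_proj 0) _
  · intro h
    rw [← B2_eq]
    exact h.map (DfnF.pi fun _ => dfnF_id) _

theorem mem_toG1 {p : GlobalType (Str.L U) U (Fin 1)} {D : Set U}
    (hD : Dfn (Set.univ : Set U) D) : D ∈ (toG1 p).F ↔ {x : Fin 1 → U | x 0 ∈ D} ∈ p.sets := by
  unfold toG1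
  rw [GType.mem_map]
  exact mem_toG (hD.preimage (dfnF_proj (A := Set.univ) (0 : Fin 1)))

end MPfd36ae
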