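import Pool.Agent.Lib.MP_fd36ae_lc.B2

/-!
# MP_fd36ae_lc : products in the two settings
-/

open FirstOrder Set
open scoped Cardinal

namespace MPfd36ae

open OMB

universe u

variable {U : Type u} [Str U] {n : ℕ}

/-- a global type is determined by its internal form -/
theorem b3_toG_inj {α : Type} [Finite α] {p p' : GlobalType (Str.L U) U α}
    (h : toG p = toG p') : p = p' := by
  have hs : p.sets = p'.sets := by
    ext D
    constructor
    · intro hD
      have h1 := p.definable D hD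
      rwa [← mem_toG h1, h, mem_toG h1] at hD
    · intro hD
      have h1 := p'.definable D hD
      rwa [← mem_toG h1, ← h, mem_toG h1] at hD
  cases p
  cases p'
  cases hs
  rfl

/-- a definable set is definable over a small set -/
theorem b3_small {X : Type u} [DSort U X] {D : Set X} (hD : Dfn (univ : Set U) D) :
    ∃ C : Set U, OMB.Small C ∧ Dfn C D := by
  obtain ⟨k, c, -, E, hE, rfl⟩ := hD.finite_param
  exact ⟨∅ ∪ co U c, small_empty.union_co c, hE.fiber c⟩

/-- putting a coordinate in front -/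
def b3c (p : (Fin n → U) × U) : Fin (n + 1) → U := Fin.cons p.2 p.1

/-- the inverse map -/
def b3d (t : Fin (n + 1) → U) : (Fin n → U) × U := (fun i => t i.succ, t 0)

theorem b3_dfn_c {A : Set U} : DfnF A (b3c : (Fin n → U) × U → Fin (n + 1) → U) := by
  refine DfnF.pi fun i => ?_
  refine Fin.cases ?_ (fun j => ?_) i
  · exact dfnF_snd
  · exact (dfnF_proj j).comp dfnF_fst

theorem b3_dfn_d {A : Set U} : DfnF A (b3d : (Fin (n + 1) → U) → (Fin n → U) × U) :=
  (DfnF.pi fun i : Fin n => dfnF_proj (i.succ)).prodMk (dfnF_proj 0)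

omit [Str U] in
theorem b3_dc (p : (Fin n → U) × U) : b3d (b3c p) = p := rfl

omit [Str U] in
theorem b3_cd (t : Fin (n + 1) → U) : b3c (b3d t) = t := by
  funext i
  refine Fin.cases ?_ (fun j => ?_) i
  · rfl
  · rfl

theorem b3_rl_map {δ : GType U ((Fin n → U) × U)} {A : Set U} {t : Fin (n + 1) → U} :
    Rl (δ.map b3c b3_dfn_c) A t ↔ Rl δ A (b3d t) := by
  constructor
  · intro h D hD hDF
    have h1 : Dfn A (b3d ⁻¹' D : Set (Fin (n + 1) → U)) := hD.preimage b3_dfn_d
    exact h _ h1 hDF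
  · intro h D hD hDF
    have h1 : Dfn A (b3c ⁻¹' D : Set ((Fin n → U) × U)) := hD.preimage b3_dfn_c
    have h2 := h _ h1 hDF
    change b3c (b3d t) ∈ D at h2
    rwa [b3_cd] at h2

theorem b3_ok {A : Set U} (hA : OMB.Small A) {q : Fin (n + 1) → GlobalType (Str.L U) U (Fin 1)}
    (hq : ∀ i, (q i).InvariantOver A) {r' : GlobalType (Str.L U) U (Fin n)}
    (hr : Inv A (toG r')) : DepOK (toG r') (fun _ => toG1 (q 0)) :=
  ⟨A, hA, hr, (invariantOver_iff1.1 (hq 0)).fam⟩

/-- the membership condition of the statement -/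
theorem b3_mem {A : Set U} (hA : OMB.Small A) {q : Fin (n + 1) → GlobalType (Str.L U) U (Fin 1)}
    (hq : ∀ i, (q i).InvariantOver A) {r' : GlobalType (Str.L U) U (Fin n)}
    (hr : Inv A (toG r')) (ok : DepOK (toG r') (fun _ => toG1 (q 0))) {D : Set (Fin (n + 1) → U)}
    (hD : Dfn (univ : Set U) D) :
    D ∈ ((dep (toG r') (fun _ => toG1 (q 0)) ok).map b3c b3_dfn_c).F ↔
      ∃ B : Set U, #B < Str.κ U ∧ ∀ b : Fin n → U, r'.Realizes B b →
          {x : Fin 1 → U | Fin.cons (x 0) b ∈ D} ∈ (q 0).sets := by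
  have hπ : Inv A (toG1 (q 0)) := invariantOver_iff1.1 (hq 0)
  obtain ⟨C, hC, hDC⟩ := b3_small hD
  have key : ∀ B : Set U, OMB.Small B → A ⊆ B → C ⊆ B → ∀ v, Rl (toG r') B v →
      (D ∈ ((dep (toG r') (fun _ => toG1 (q 0)) ok).map b3c b3_dfn_c).F ↔
        {x : Fin 1 → U | Fin.cons (x 0) v ∈ D} ∈ (q 0).sets) := by
    intro B hB hAB hCB v hv
    have h1 : Dfn B (b3c ⁻¹' D : Set ((Fin n → U) × U)) := (hDC.mono hCB).preimage b3_dfn_c
    have h2 := mem_dep ok hB (hr.mono hAB) ((hπ.mono hAB).fam) h1 hv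
    rw [GType.mem_map]
    refine h2.trans ?_
    exact mem_toG1 (D := {x : U | b3c (v, x) ∈ D})
      (Dfn.sub (f := fun x : U => b3c (v, x)) hD
        (b3_dfn_c.comp (f := fun x : U => (v, x))
          ((dfnF_const (subset_univ _)).prodMk dfnF_id)))
  constructor
  · intro h
    refine ⟨A ∪ C, hA.union hC, fun b hb => ?_⟩
    exact (key (A ∪ C) (hA.union hC) subset_union_left subset_union_right b
      (realizes_iff.1 hb)).1 h
  · rintro ⟨B, hB, h⟩
    have hB' : OMB.Small (B ∪ (A ∪ C)) := OMB.Small.union hB (hA.union hC)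
    obtain ⟨v, hv⟩ := exists_rl (toG r') hB'
    refine (key (B ∪ (A ∪ C)) hB' (subset_union_left.trans subset_union_right)
      (subset_union_right.trans subset_union_right) v hv).2 ?_
    exact h v (realizes_iff.2 (hv.mono subset_union_left))

theorem b3_step {A : Set U} (hA : OMB.Small A)
    {q : Fin (n + 1) → GlobalType (Str.L U) U (Fin 1)}
    (hq : ∀ i, (q i).InvariantOver A) {r : GlobalType (Str.L U) U (Fin (n + 1))}
    {r' : GlobalType (Str.L U) U (Fin n)} (hr' : Inv A (toG r'))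
    (hr : ∀ D : Set (Fin (n + 1) → U), (univ : Set U).Definable (Str.L U) D →
        (D ∈ r.sets ↔ ∃ B : Set U, #B < Str.κ U ∧ ∀ b : Fin n → U, r'.Realizes B b →
          {x : Fin 1 → U | Fin.cons (x 0) b ∈ D} ∈ (q 0).sets)) :
    toG r = (dep (toG r') (fun _ => toG1 (q 0)) (b3_ok hA hq hr')).map b3c b3_dfn_c := by
  refine GType.ext_dfn fun D hD hDr => ?_
  rw [b3_mem hA hq hr' (b3_ok hA hq hr') hD, ← hr D (dfn_pi.1 hD)]
  exact (mem_toG (dfn_pi.1 hD)).1 hDr

theorem b3_main {A : Set U} (hA : OMB.Small A) : ∀ (n : ℕ)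
    (q : Fin n → GlobalType (Str.L U) U (Fin 1)), (∀ i, (q i).InvariantOver A) →
    ∀ r : GlobalType (Str.L U) U (Fin n), IsProduct (Str.κ U) n q r →
      Inv A (toG r) ∧ ∀ t : Fin n → U,
        (Rl (toG r) A t ↔ ∀ i, Rl (toG1 (q i)) (A ∪ {x | ∃ j, i < j ∧ x = t j}) (t i)) := by
  intro n
  induction n with
  | zero =>
    intro q hq r hr
    have hone : ∀ D ∈ (toG r).F, ∀ t : Fin 0 → U, t ∈ D := by
      intro D hD t
      obtain ⟨t', ht'⟩ := (toG r).ne.nonempty_of_mem hD
      rwa [Subsingleton.elim t t']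
    constructor
    · intro k D hD c c' hcc
      constructor
      · intro h
        have h1 := hone _ h (fun i => i.elim0)
        have h2 : c' ∈ {c : Fin k → U | ∀ t : Fin 0 → U, (t, c) ∈ D} := by
          refine (hcc _ ((Dfn.all (P := fun (c : Fin k → U) (t : Fin 0 → U) => (t, c) ∈ D)
            (hD.preimage (dfnF_snd.prodMk dfnF_fst))).mono (empty_subset A))).1 ?_
          intro t
          rw [Subsingleton.elim t (fun i => i.elim0)]
          exact h1
        have h3 : {t : Fin 0 → U | (t, c') ∈ D} = Set.univ := by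
          ext t
          exact ⟨fun _ => trivial, fun _ => h2 t⟩
        show {t : Fin 0 → U | (t, c') ∈ D} ∈ (toG r).F
        rw [h3]
        exact Filter.univ_mem
      · intro h
        have h1 := hone _ h (fun i => i.elim0)
        have h2 : c ∈ {c : Fin k → U | ∀ t : Fin 0 → U, (t, c) ∈ D} := by
          refine (hcc _ ((Dfn.all (P := fun (c : Fin k → U) (t : Fin 0 → U) => (t, c) ∈ D)
            (hD.preimage (dfnF_snd.prodMk dfnF_fst))).mono (empty_subset A))).2 ?_
          intro t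
          rw [Subsingleton.elim t (fun i => i.elim0)]
          exact h1
        have h3 : {t : Fin 0 → U | (t, c) ∈ D} = Set.univ := by
          ext t
          exact ⟨fun _ => trivial, fun _ => h2 t⟩
        show {t : Fin 0 → U | (t, c) ∈ D} ∈ (toG r).F
        rw [h3]
        exact Filter.univ_mem
    · intro t
      exact ⟨fun _ i => i.elim0, fun _ D _ hD => hone D hD t⟩
  | succ n ih =>
    intro q hq r hr
    obtain ⟨r', hr1, hr2⟩ := hr
    obtain ⟨hinv, hrl⟩ := ih (fun i => q i.succ) (fun i => hq i.succ) r' hr1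
    have hπ : Inv A (toG1 (q 0)) := invariantOver_iff1.1 (hq 0)
    have hstep := b3_step hA hq hinv hr2
    constructor
    · rw [hstep]
      exact (Inv.dep (b3_ok hA hq hinv) hA hinv hπ.fam).map b3_dfn_c b3_dfn_c
    · intro t
      rw [hstep, b3_rl_map, b3d, rl_dep (b3_ok hA hq hinv) hA hinv hπ.fam, hrl,
        Fin.forall_fin_succ]
      have e0 : A ∪ {x | ∃ j, (0 : Fin (n + 1)) < j ∧ x = t j} =
          A ∪ co U (fun i : Fin n => t i.succ) := by
        congr 1
        ext x
        constructor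
        · rintro ⟨j, hj, rfl⟩
          obtain ⟨i, rfl⟩ := Fin.exists_succ_eq.2 hj.ne'
          exact ⟨i, rfl⟩
        · rintro ⟨i, rfl⟩
          exact ⟨i.succ, Fin.succ_pos i, rfl⟩
      have e1 : ∀ i : Fin n, {x | ∃ j, i.succ < j ∧ x = t j} =
          {x | ∃ j : Fin n, i < j ∧ x = t j.succ} := by
        intro i
        ext x
        constructor
        · rintro ⟨j, hj, rfl⟩
          obtain ⟨k, rfl⟩ := Fin.exists_succ_eq.2 (ne_of_gt ((Fin.succ_pos i).trans hj))
          exact ⟨k, Fin.succ_lt_succ_iff.1 hj, rfl⟩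
        · rintro ⟨j, hj, rfl⟩
          exact ⟨j.succ, Fin.succ_lt_succ_iff.2 hj, rfl⟩
      rw [e0]
      simp only [e1]
      exact and_comm

theorem b3_exists {A : Set U} (hA : OMB.Small A) : ∀ (n : ℕ)
    (q : Fin n → GlobalType (Str.L U) U (Fin 1)), (∀ i, (q i).InvariantOver A) →
    ∃ r : GlobalType (Str.L U) U (Fin n), IsProduct (Str.κ U) n q r := by
  intro n
  induction n with
  | zero =>
    intro q _
    exact ⟨ofG (rTy (fun i : Fin 0 => i.elim0)), trivial⟩
  | succ n ih =>
    intro q hq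
    obtain ⟨r', hr'⟩ := ih (fun i => q i.succ) (fun i => hq i.succ)
    have hinv := (b3_main hA n _ (fun i => hq i.succ) r' hr').1
    refine ⟨ofG ((dep (toG r') (fun _ => toG1 (q 0)) (b3_ok hA hq hinv)).map b3c b3_dfn_c), r',
      hr', fun D hD => ?_⟩
    rw [← mem_toG hD, toG_ofG]
    exact b3_mem hA hq hinv (b3_ok hA hq hinv) (dfn_pi.2 hD)

/-- realisations of `q 0 ⊗ r'`: the flat description of the product -/
theorem isProduct_rl {A : Set U} (hA : OMB.Small A) {q : Fin n → GlobalType (Str.L U) U (Fin 1)}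
    (hq : ∀ i, (q i).InvariantOver A) {r : GlobalType (Str.L U) U (Fin n)}
    (hr : IsProduct (Str.κ U) n q r) {t : Fin n → U} :
    Rl (toG r) A t ↔ ∀ i, Rl (toG1 (q i)) (A ∪ {x | ∃ j, i < j ∧ x = t j}) (t i) :=
  (b3_main hA n q hq r hr).2 t

theorem isProduct_iff {q : Fin n → GlobalType (Str.L U) U (Fin 1)}
    (hq : ∀ i, ∃ A : Set U, OMB.Small A ∧ (q i).InvariantOver A)
    {r : GlobalType (Str.L U) U (Fin n)} (m : U) :
    IsProduct (Str.κ U) n q r ↔ toG r = tensor (fun i => toG1 (q i)) m := by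
  choose A hA hAq using hq
  have hS : ∀ s : Finset (Fin n), OMB.Small (⋃ i ∈ s, A i) := by
    intro s
    induction s using Finset.induction_on with
    | empty => simpa using small_empty (U := U)
    | insert i s _ ih =>
      rw [Finset.set_biUnion_insert]
      exact (hA i).union ih
  obtain ⟨B, hB, hmB, hBq⟩ : ∃ B : Set U, OMB.Small B ∧ m ∈ B ∧ ∀ i, Inv B (toG1 (q i)) := by
    refine ⟨(⋃ i ∈ (Finset.univ : Finset (Fin n)), A i) ∪ {m},
      (hS _).union (small_of_finite (finite_singleton m)), Or.inr rfl, fun i => ?_⟩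
    refine (invariantOver_iff1.1 (hAq i)).mono ?_
    intro x hx
    exact Or.inl (mem_biUnion (Finset.mem_univ i) hx)
  have hBq' : ∀ i, (q i).InvariantOver B := fun i => invariantOver_iff1.2 (hBq i)
  have fwd : ∀ r : GlobalType (Str.L U) U (Fin n), IsProduct (Str.κ U) n q r →
      toG r = tensor (fun i => toG1 (q i)) m := by
    intro r hr
    refine GType.ext_rl hB fun C hC hBC => ?_
    obtain ⟨x, hx⟩ := exists_rl (toG r) hC
    refine ⟨x, hx, ?_⟩
    rw [rl_tensor hC (hBC hmB) (fun i => (hBq i).mono hBC)]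
    exact (isProduct_rl hC (fun i => invariantOver_iff1.2 ((hBq i).mono hBC)) hr).1 hx
  refine ⟨fwd r, fun h => ?_⟩
  obtain ⟨r₀, hr₀⟩ := b3_exists hB n q hBq'
  have h1 : r = r₀ := b3_toG_inj (h.trans (fwd r₀ hr₀).symm)
  rw [h1]
  exact hr₀

end MPfd36ae
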