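import Pool.Agent.Lib.MP_fd36ae_lc.Def

/-!
# MP_fd36ae_lc : definable sets
-/

open FirstOrder Set Cardinal

namespace OMB

universe u

variable {U : Type u} [Str U] {X Y Z W : Type u} [DSort U X] [DSort U Y] [DSort U Z] [DSort U W]
  {A B : Set U}

/-! ## definable sets -/

theorem Dfn.mono {D : Set X} (h : Dfn A D) (hAB : A ⊆ B) : Dfn B D :=
  Set.Definable.mono h hAB

theorem dfn_univ : Dfn A (univ : Set X) := Set.definable_univ

theorem dfn_empty : Dfn A (∅ : Set X) := Set.definable_empty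

theorem Dfn.compl {D : Set X} (h : Dfn A D) : Dfn A Dᶜ := Set.Definable.compl h

theorem Dfn.inter {D E : Set X} (h : Dfn A D) (h' : Dfn A E) : Dfn A (D ∩ E) :=
  Set.Definable.inter h h'

theorem Dfn.union {D E : Set X} (h : Dfn A D) (h' : Dfn A E) : Dfn A (D ∪ E) :=
  Set.Definable.union h h'

theorem dfn_const (P : Prop) : Dfn A {_x : X | P} := by
  by_cases hP : P
  · have h : {_x : X | P} = Set.univ := by
      ext x
      simp [hP]
    rw [h]
    exact dfn_univ
  · have h : {_x : X | P} = ∅ := by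
      ext x
      simp [hP]
    rw [h]
    exact dfn_empty

theorem Dfn.not {P : X → Prop} (h : Dfn A {x | P x}) : Dfn A {x | ¬ P x} := h.compl

theorem Dfn.and {P Q : X → Prop} (h : Dfn A {x | P x}) (h' : Dfn A {x | Q x}) :
    Dfn A {x | P x ∧ Q x} := h.inter h'

theorem Dfn.or {P Q : X → Prop} (h : Dfn A {x | P x}) (h' : Dfn A {x | Q x}) :
    Dfn A {x | P x ∨ Q x} := h.union h'

theorem Dfn.imp {P Q : X → Prop} (h : Dfn A {x | P x}) (h' : Dfn A {x | Q x}) :
    Dfn A {x | P x → Q x} := by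
  have h1 : {x | P x → Q x} = {x | ¬ P x ∨ Q x} := by
    ext x
    exact imp_iff_not_or
  rw [h1]
  exact h.not.or h'

theorem Dfn.iff {P Q : X → Prop} (h : Dfn A {x | P x}) (h' : Dfn A {x | Q x}) :
    Dfn A {x | P x ↔ Q x} := by
  have h1 : {x | P x ↔ Q x} = {x | (P x → Q x) ∧ (Q x → P x)} := by
    ext x
    exact iff_iff_implies_and_implies
  rw [h1]
  exact (h.imp h').and (h'.imp h)

theorem Dfn.allFin {ι : Type*} (s : Finset ι) {P : ι → X → Prop}
    (h : ∀ i ∈ s, Dfn A {x | P i x}) : Dfn A {x | ∀ i ∈ s, P i x} := by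
  classical
  induction s using Finset.induction_on with
  | empty =>
    have h1 : {x : X | ∀ i ∈ (∅ : Finset ι), P i x} = Set.univ := by
      ext x
      simp
    rw [h1]
    exact dfn_univ
  | insert a s _ ih =>
    have h1 : {x : X | ∀ i ∈ insert a s, P i x} = {x | P a x ∧ ∀ i ∈ s, P i x} := by
      ext x
      exact Finset.forall_mem_insert a s fun i => P i x
    rw [h1]
    exact (h a (Finset.mem_insert_self a s)).and
      (ih fun i hi => h i (Finset.mem_insert_of_mem hi))

theorem Dfn.exFin {ι : Type*} (s : Finset ι) {P : ι → X → Prop}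
    (h : ∀ i ∈ s, Dfn A {x | P i x}) : Dfn A {x | ∃ i ∈ s, P i x} := by
  have h1 : {x | ∃ i ∈ s, P i x} = {x | ¬ ∀ i ∈ s, ¬ P i x} := by
    ext x
    constructor
    · rintro ⟨i, hi, hp⟩ hcon
      exact hcon i hi hp
    · intro hcon
      by_contra hne
      exact hcon fun i hi hp => hne ⟨i, hi, hp⟩
  rw [h1]
  exact (Dfn.allFin s fun i hi => (h i hi).not).not

end OMB
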