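import Pool.Agent.Lib.MP_fd36ae_lc.C1

/-!
# MP_fd36ae_lc : definable functions
-/

open FirstOrder Set Cardinal

namespace OMB

universe u

variable {U : Type u} [Str U] {X Y Z W : Type u} [DSort U X] [DSort U Y] [DSort U Z] [DSort U W]
  {A B : Set U}

/-! ## definable functions -/

theorem DfnF.mono {f : X → Y} (h : DfnF A f) (hAB : A ⊆ B) : DfnF B f := by
  exact fun i => (h i).mono hAB

theorem dfnF_id : DfnF A (fun x : X => x) := by
  intro i
  simpa using (DefinableFun.proj (L := Str.L U) (A := A) (i := i))

theorem dfnF_fst : DfnF A (fun p : X × Y => p.1) := by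
  intro i
  have h : (fun v : DSort.ι U X ⊕ DSort.ι U Y → U => DSort.e (U := U)
      ((DSort.e (U := U) (X := X × Y)).symm v).1 i) = fun v => v (Sum.inl i) := by
    funext v
    show DSort.e (U := U) ((DSort.e (U := U) (X := X)).symm (v ∘ Sum.inl)) i = _
    rw [Equiv.apply_symm_apply]
    rfl
  exact h.symm ▸ DefinableFun.proj _

theorem dfnF_snd : DfnF A (fun p : X × Y => p.2) := by
  intro i
  have h : (fun v : DSort.ι U X ⊕ DSort.ι U Y → U => DSort.e (U := U)
      ((DSort.e (U := U) (X := X × Y)).symm v).2 i) = fun v => v (Sum.inr i) := by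
    funext v
    show DSort.e (U := U) ((DSort.e (U := U) (X := Y)).symm (v ∘ Sum.inr)) i = _
    rw [Equiv.apply_symm_apply]
    rfl
  exact h.symm ▸ DefinableFun.proj _

theorem DfnF.prodMk {f : X → Y} {g : X → Z} (hf : DfnF A f) (hg : DfnF A g) :
    DfnF A (fun x => (f x, g x)) := by
  rintro (i | i)
  · exact hf i
  · exact hg i

theorem DfnF.comp {g : Y → Z} {f : X → Y} (hg : DfnF A g) (hf : DfnF A f) :
    DfnF A (fun x => g (f x)) := by
  intro i
  have h := DefinableFun.comp hf (hg i)
  simpa using h

theorem dfnF_const {y : Y} (hy : co U y ⊆ A) : DfnF A (fun _ : X => y) := by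
  intro i
  exact (Str.L U).definableFun_const _ (hy ⟨i, rfl⟩)

theorem dfnF_proj {α : Type} [Finite α] (i : α) : DfnF A (fun t : α → U => t i) := by
  intro _
  exact DefinableFun.proj _

theorem DfnF.pi {α : Type} [Finite α] {f : X → α → U} (h : ∀ i, DfnF A (fun x => f x i)) :
    DfnF A f := by
  intro i
  exact h i ()

/-- the coordinate functions of a sort -/
theorem dfnF_coord (i : DSort.ι U X) : DfnF A (fun x : X => DSort.e (U := U) x i) := by
  intro j
  have h : (fun v : DSort.ι U X → U => DSort.e (U := U)
      (DSort.e (U := U) ((DSort.e (U := U) (X := X)).symm v) i) j) = fun v => v i := by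
    funext v
    rw [Equiv.apply_symm_apply]
    rfl
  exact h.symm ▸ DefinableFun.proj _

theorem dfnF_enc : DfnF A (fun x : X => DSort.e (U := U) x) := by
  intro i
  have h : (fun v : DSort.ι U X → U => DSort.e (U := U)
      (DSort.e (U := U) ((DSort.e (U := U) (X := X)).symm v)) i) = fun v => v i := by
    funext v
    rw [Equiv.apply_symm_apply]
    rfl
  exact h.symm ▸ DefinableFun.proj _

theorem dfnF_dec : DfnF A (fun v : DSort.ι U X → U => (DSort.e (U := U) (X := X)).symm v) := by
  intro i
  have h : (fun v : DSort.ι U X → U => DSort.e (U := U)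
      ((DSort.e (U := U) (X := X)).symm ((DSort.e (U := U) (X := DSort.ι U X → U)).symm v)) i)
      = fun v => v i := by
    funext v
    rw [Equiv.apply_symm_apply]
    rfl
  exact h.symm ▸ DefinableFun.proj _

theorem DfnF.ite {P : X → Prop} [DecidablePred P] {f g : X → Y} (hP : Dfn A {x | P x})
    (hf : DfnF A f) (hg : DfnF A g) : DfnF A (fun x => if P x then f x else g x) := by
  intro i
  have h := DefinableFun.ite (L := Str.L U) (A := A)
    (p := fun v => P ((DSort.e (U := U) (X := X)).symm v)) hP (hf i) (hg i)
  have h2 : (fun v : DSort.ι U X → U => DSort.e (U := U)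
      (if P ((DSort.e (U := U) (X := X)).symm v) then f ((DSort.e (U := U) (X := X)).symm v)
        else g ((DSort.e (U := U) (X := X)).symm v)) i) =
      fun v => if P ((DSort.e (U := U) (X := X)).symm v)
        then DSort.e (U := U) (f ((DSort.e (U := U) (X := X)).symm v)) i
        else DSort.e (U := U) (g ((DSort.e (U := U) (X := X)).symm v)) i := by
    funext v
    split_ifs <;> rfl
  exact h2.symm ▸ h

end OMB
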