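import Pool.Agent.Lib.MP_fd36ae_lc.C2

/-!
# MP_fd36ae_lc : preimages, quantifiers
-/

open FirstOrder Set Cardinal

namespace OMB

universe u

variable {U : Type u} [Str U] {X Y Z W : Type u} [DSort U X] [DSort U Y] [DSort U Z] [DSort U W]
  {A B : Set U}

/-! ## preimages, quantifiers -/

theorem Dfn.preimage {D : Set Y} {f : X → Y} (hD : Dfn A D) (hf : DfnF A f) :
    Dfn A (f ⁻¹' D) := by
  have h : A.Definable (Str.L U) ((fun v => DSort.e (U := U) (f ((DSort.e (U := U) (X := X)).symm v))) ⁻¹'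
      {v | (DSort.e (U := U) (X := Y)).symm v ∈ D}) := Set.Definable.preimage_map hf hD
  have e : ((fun v => DSort.e (U := U) (f ((DSort.e (U := U) (X := X)).symm v))) ⁻¹'
      {v | (DSort.e (U := U) (X := Y)).symm v ∈ D}) =
      {v | (DSort.e (U := U) (X := X)).symm v ∈ f ⁻¹' D} := by
    ext v
    simp only [mem_preimage, mem_ofPred_eq, Equiv.symm_apply_apply]
  rw [e] at h
  exact h

theorem Dfn.sub {P : Y → Prop} {f : X → Y} (hD : Dfn A {y | P y}) (hf : DfnF A f) :
    Dfn A {x | P (f x)} := hD.preimage hf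

omit [Str U] in
private theorem c3_symm (v : DSort.ι U X → U) (u : DSort.ι U Y → U) :
    (DSort.e (U := U) (X := X × Y)).symm (Sum.elim v u) =
      ((DSort.e (U := U) (X := X)).symm v, (DSort.e (U := U) (X := Y)).symm u) := by
  apply (DSort.e (U := U) (X := X × Y)).injective
  rw [Equiv.apply_symm_apply]
  funext i
  rcases i with i | i
  · show v i = DSort.e (U := U) ((DSort.e (U := U) (X := X)).symm v) i
    rw [Equiv.apply_symm_apply]
  · show u i = DSort.e (U := U) ((DSort.e (U := U) (X := Y)).symm u) i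
    rw [Equiv.apply_symm_apply]

theorem Dfn.ex {P : X → Y → Prop} (h : Dfn A {p : X × Y | P p.1 p.2}) :
    Dfn A {x | ∃ y, P x y} := by
  have h1 : A.Definable (Str.L U) {v : DSort.ι U X → U | ∃ u : DSort.ι U Y → U,
      Sum.elim v u ∈ {v | (DSort.e (U := U) (X := X × Y)).symm v ∈ {p : X × Y | P p.1 p.2}}} :=
    Set.Definable.exists_of_finite h
  have e : {v : DSort.ι U X → U | ∃ u : DSort.ι U Y → U,
      Sum.elim v u ∈ {v | (DSort.e (U := U) (X := X × Y)).symm v ∈ {p : X × Y | P p.1 p.2}}} =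
      {v | (DSort.e (U := U) (X := X)).symm v ∈ {x | ∃ y, P x y}} := by
    ext v
    constructor
    · rintro ⟨u, hu⟩
      have hu' : (DSort.e (U := U) (X := X × Y)).symm (Sum.elim v u) ∈ {p : X × Y | P p.1 p.2} := hu
      rw [c3_symm] at hu'
      exact ⟨_, hu'⟩
    · rintro ⟨y, hy⟩
      refine ⟨DSort.e (U := U) y, ?_⟩
      show (DSort.e (U := U) (X := X × Y)).symm (Sum.elim v (DSort.e (U := U) y)) ∈
        {p : X × Y | P p.1 p.2}
      rw [c3_symm, Equiv.symm_apply_apply]
      exact hy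
  rw [e] at h1
  exact h1

theorem Dfn.all {P : X → Y → Prop} (h : Dfn A {p : X × Y | P p.1 p.2}) :
    Dfn A {x | ∀ y, P x y} := by
  have h1 : Dfn A {x | ∃ y, ¬ P x y} := Dfn.ex (P := fun x y => ¬ P x y) h.not
  have h2 := h1.compl
  have e : {x : X | ∃ y, ¬ P x y}ᶜ = {x | ∀ y, P x y} := by
    ext x
    simp only [mem_compl_iff, mem_ofPred_eq, not_exists, not_not]
  rw [e] at h2
  exact h2

theorem Dfn.eq {f g : X → Y} (hf : DfnF A f) (hg : DfnF A g) : Dfn A {x | f x = g x} := by
  have h : A.Definable (Str.L U) (⋂ i : DSort.ι U Y, {v : DSort.ι U X → U |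
      DSort.e (U := U) (f ((DSort.e (U := U) (X := X)).symm v)) i =
        DSort.e (U := U) (g ((DSort.e (U := U) (X := X)).symm v)) i}) := by
    refine Set.definable_iInter_of_finite fun i => ?_
    exact Set.DefinableFun.ofPred_eq (hf i) (hg i)
  have e : (⋂ i : DSort.ι U Y, {v : DSort.ι U X → U |
      DSort.e (U := U) (f ((DSort.e (U := U) (X := X)).symm v)) i =
        DSort.e (U := U) (g ((DSort.e (U := U) (X := X)).symm v)) i}) =
      {v | (DSort.e (U := U) (X := X)).symm v ∈ {x | f x = g x}} := by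
    ext v
    simp only [mem_iInter, mem_ofPred_eq]
    constructor
    · intro h0
      exact (DSort.e (U := U) (X := Y)).injective (funext h0)
    · intro h0 i
      rw [h0]
  rw [e] at h
  exact h

theorem DfnF.graph {f : X → Y} (hf : DfnF A f) : Dfn A {p : X × Y | f p.1 = p.2} :=
  Dfn.eq (f := fun p : X × Y => f p.1) (g := fun p : X × Y => p.2) (hf.comp dfnF_fst) dfnF_snd

theorem Dfn.image {D : Set X} {f : X → Y} (hD : Dfn A D) (hf : DfnF A f) : Dfn A (f '' D) := by
  have h1 : Dfn A {p : Y × X | p.2 ∈ D} := hD.preimage (f := fun p : Y × X => p.2) dfnF_snd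
  have h2 : Dfn A {p : Y × X | f p.2 = p.1} :=
    Dfn.eq (f := fun p : Y × X => f p.2) (g := fun p : Y × X => p.1) (hf.comp dfnF_snd) dfnF_fst
  have h3 : Dfn A {y : Y | ∃ x : X, x ∈ D ∧ f x = y} :=
    Dfn.ex (P := fun y x => x ∈ D ∧ f x = y) (h1.and h2)
  exact h3

theorem DfnF.of_graph {f : X → Y} (hf : Dfn A {p : X × Y | f p.1 = p.2}) : DfnF A f := by
  intro i
  have h1 : A.Definable (Str.L U)
      ((fun w : (Option (DSort.ι U X) ⊕ DSort.ι U Y) → U =>
        w ∘ (Sum.elim (fun j => Sum.inl (some j)) (fun j => Sum.inr j) :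
          DSort.ι U X ⊕ DSort.ι U Y → Option (DSort.ι U X) ⊕ DSort.ι U Y)) ⁻¹'
        {v | (DSort.e (U := U) (X := X × Y)).symm v ∈ {p : X × Y | f p.1 = p.2}}) :=
    Set.Definable.preimage_comp _ hf
  have h2 : A.Definable (Str.L U) {w : (Option (DSort.ι U X) ⊕ DSort.ι U Y) → U |
      w (Sum.inr i) = w (Sum.inl none)} :=
    Set.DefinableFun.ofPred_eq (Set.DefinableFun.proj (Str.L U)) (Set.DefinableFun.proj (Str.L U))
  have h3 := Set.Definable.exists_of_finite (h1.inter h2)
  have e : {v : Option (DSort.ι U X) → U | ∃ u : DSort.ι U Y → U, Sum.elim v u ∈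
      ((fun w : (Option (DSort.ι U X) ⊕ DSort.ι U Y) → U =>
        w ∘ (Sum.elim (fun j => Sum.inl (some j)) (fun j => Sum.inr j) :
          DSort.ι U X ⊕ DSort.ι U Y → Option (DSort.ι U X) ⊕ DSort.ι U Y)) ⁻¹'
        {v | (DSort.e (U := U) (X := X × Y)).symm v ∈ {p : X × Y | f p.1 = p.2}}) ∩
      {w : (Option (DSort.ι U X) ⊕ DSort.ι U Y) → U | w (Sum.inr i) = w (Sum.inl none)}} =
      Function.tupleGraph
        (fun v => DSort.e (U := U) (f ((DSort.e (U := U) (X := X)).symm v)) i) := by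
    ext v
    have key : ∀ u : DSort.ι U Y → U,
        (Sum.elim v u ∘ (Sum.elim (fun j => Sum.inl (some j)) (fun j => Sum.inr j) :
          DSort.ι U X ⊕ DSort.ι U Y → Option (DSort.ι U X) ⊕ DSort.ι U Y)) =
          Sum.elim (fun j => v (some j)) u := by
      intro u
      funext j
      rcases j with j | j <;> rfl
    simp only [mem_ofPred_eq, mem_inter_iff, mem_preimage, key, c3_symm, Sum.elim_inr, Sum.elim_inl,
      Function.tupleGraph]
    constructor
    · rintro ⟨u, hu1, hu2⟩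
      rw [← hu2]
      show DSort.e (U := U) (f ((DSort.e (U := U) (X := X)).symm (fun j => v (some j)))) i = u i
      rw [hu1, Equiv.apply_symm_apply]
    · intro h0
      refine ⟨DSort.e (U := U) (f ((DSort.e (U := U) (X := X)).symm (fun j => v (some j)))), ?_, ?_⟩
      · rw [Equiv.symm_apply_apply]
      · exact h0
  rw [e] at h3
  exact h3

end OMB
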