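import Pool.Agent.Lib.MP_fd36ae_lc.C3

/-!
# MP_fd36ae_lc : coordinates; parameters
-/

open FirstOrder Set Cardinal

namespace OMB

universe u

variable {U : Type u} [Str U] {X Y Z W : Type u} [DSort U X] [DSort U Y] [DSort U Z] [DSort U W]
  {A B : Set U}

/-! ## coordinates -/

@[simp] theorem co_U (x : U) : co U x = {x} := by
  ext y
  constructor
  · rintro ⟨i, rfl⟩
    rfl
  · intro h
    exact ⟨(), (h : y = x).symm⟩

@[simp] theorem co_prod (x : X) (y : Y) : co U (x, y) = co U x ∪ co U y := by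
  ext z
  constructor
  · rintro ⟨i, rfl⟩
    rcases i with i | i
    · exact Or.inl ⟨i, rfl⟩
    · exact Or.inr ⟨i, rfl⟩
  · rintro (⟨i, rfl⟩ | ⟨i, rfl⟩)
    · exact ⟨Sum.inl i, rfl⟩
    · exact ⟨Sum.inr i, rfl⟩

@[simp] theorem co_pi {α : Type} [Finite α] (t : α → U) : co U t = Set.range t := rfl

@[simp] theorem co_punit (x : PUnit.{u+1}) : co U x = ∅ := by
  ext y
  constructor
  · rintro ⟨i, _⟩
    exact (i : Empty).elim
  · intro h
    exact h.elim

theorem co_finite (x : X) : (co U x).Finite := Set.finite_range _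

theorem dfn_singleton {x : X} (hx : co U x ⊆ A) : Dfn A ({x} : Set X) := by
  have h : Dfn A {y : X | y = x} := Dfn.eq dfnF_id (dfnF_const hx)
  exact h

/-! ## parameters -/

theorem Dfn.fiber {D : Set (X × Y)} (hD : Dfn A D) (b : Y) : Dfn (A ∪ co U b) {x | (x, b) ∈ D} :=
  Dfn.preimage (f := fun x : X => (x, b)) (hD.mono subset_union_left)
    (dfnF_id.prodMk (dfnF_const subset_union_right))

theorem Dfn.fiber_of {D : Set (X × Y)} (hD : Dfn A D) {b : Y} (hb : co U b ⊆ A) :
    Dfn A {x | (x, b) ∈ D} :=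
  Dfn.preimage (f := fun x : X => (x, b)) hD (dfnF_id.prodMk (dfnF_const hb))

theorem Dfn.param {D : Set X} {b : Y} (hD : Dfn (A ∪ co U b) D) :
    ∃ E : Set (X × Y), Dfn A E ∧ D = {x | (x, b) ∈ E} := by
  classical
  obtain ⟨φ, hφ⟩ := Set.definable_iff_exists_formula_sum.mp hD
  have hc : ∀ c : (A ∪ co U b : Set U), ∃ r : A ⊕ (DSort.ι U X ⊕ DSort.ι U Y),
      ∀ x : X, Sum.elim (fun a : A => (a : U)) (DSort.e (U := U) (x, b)) r = (c : U) := by
    rintro ⟨c, hc | ⟨j, rfl⟩⟩
    · exact ⟨Sum.inl ⟨c, hc⟩, fun x => rfl⟩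
    · exact ⟨Sum.inr (Sum.inr j), fun x => rfl⟩
  choose r hr using hc
  let g : (A ∪ co U b : Set U) ⊕ DSort.ι U X → A ⊕ (DSort.ι U X ⊕ DSort.ι U Y) :=
    Sum.elim r (fun i => Sum.inr (Sum.inl i))
  refine ⟨{p : X × Y | (φ.relabel g).Realize
    (Sum.elim (fun a : A => (a : U)) (DSort.e (U := U) p))}, ?_, ?_⟩
  · refine Set.definable_iff_exists_formula_sum.mpr ⟨φ.relabel g, ?_⟩
    ext v
    simp only [Set.mem_ofPred_eq, Equiv.apply_symm_apply]
  · ext x
    have h1 : x ∈ D ↔ φ.Realize (Sum.elim (fun a : (A ∪ co U b : Set U) => (a : U))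
        (DSort.e (U := U) x)) := by
      have h2 := Set.ext_iff.mp hφ (DSort.e (U := U) x)
      simpa only [Set.mem_ofPred_eq, Equiv.symm_apply_apply] using h2
    have h3 : Sum.elim (fun a : (A ∪ co U b : Set U) => (a : U)) (DSort.e (U := U) x) =
        Sum.elim (fun a : A => (a : U)) (DSort.e (U := U) (x, b)) ∘ g := by
      funext s
      rcases s with c | i
      · exact (hr c x).symm
      · rfl
    rw [h1, h3]
    exact (FirstOrder.Language.Formula.realize_relabel).symm

theorem Dfn.finite_param {D : Set X} (hD : Dfn A D) :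
    ∃ (n : ℕ) (c : Fin n → U), Set.range c ⊆ A ∧
      ∃ E : Set (X × (Fin n → U)), Dfn (∅ : Set U) E ∧ D = {x | (x, c) ∈ E} := by
  classical
  obtain ⟨A0, hA0, hD0⟩ := Set.definable_iff_finitely_definable.mp hD
  let c : Fin A0.card → U := fun i => ((A0.equivFin.symm i : A0) : U)
  have hc : Set.range c = (A0 : Set U) := by
    ext y
    constructor
    · rintro ⟨i, rfl⟩
      exact (A0.equivFin.symm i).2
    · intro hy
      refine ⟨A0.equivFin ⟨y, hy⟩, ?_⟩
      simp only [c, Equiv.symm_apply_apply]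
  refine ⟨A0.card, c, hc ▸ hA0, ?_⟩
  refine Dfn.param (A := (∅ : Set U)) (b := c) ?_
  have h1 : (∅ : Set U) ∪ co U c = (A0 : Set U) := by
    rw [co_pi, hc, Set.empty_union]
  rw [h1]
  exact hD0

/-- an `A ∪ {b}`-definable function is a fibre of an `A`-definable total function -/
theorem DfnF.param {m : U} (hm : m ∈ A) {f : X → U} {b : Y} (hf : DfnF (A ∪ co U b) f) :
    ∃ g : X × Y → U, DfnF A g ∧ ∀ x, g (x, b) = f x := by
  classical
  obtain ⟨E, hE, hEf⟩ := Dfn.param (X := X × U) hf.graph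
  let P : X × Y → U → Prop := fun q u => ((q.1, u), q.2) ∈ E
  have hP : Dfn A {p : (X × Y) × U | P p.1 p.2} :=
    Dfn.preimage (f := fun p : (X × Y) × U => ((p.1.1, p.2), p.1.2)) hE
      (((dfnF_fst.comp dfnF_fst).prodMk dfnF_snd).prodMk (dfnF_snd.comp dfnF_fst))
  let Q : X × Y → Prop := fun q => ∃ u, P q u ∧ ∀ v, P q v → v = u
  have hQ : Dfn A {q | Q q} := by
    refine Dfn.ex (P := fun q u => P q u ∧ ∀ v, P q v → v = u) (Dfn.and hP ?_)
    refine Dfn.all (P := fun (p : (X × Y) × U) v => P p.1 v → v = p.2) (Dfn.imp ?_ ?_)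
    · exact Dfn.preimage (f := fun p : ((X × Y) × U) × U => (p.1.1, p.2)) hP
        ((dfnF_fst.comp dfnF_fst).prodMk dfnF_snd)
    · exact Dfn.eq dfnF_snd (dfnF_snd.comp dfnF_fst)
  let g : X × Y → U := fun q => if h : Q q then h.choose else m
  have hgQ : ∀ q, Q q → ∀ u, (g q = u ↔ P q u) := by
    intro q hq u
    have h1 : g q = hq.choose := dif_pos hq
    have h2 := hq.choose_spec
    rw [h1]
    constructor
    · intro h
      rw [← h]
      exact h2.1
    · intro h
      exact (h2.2 u h).symm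
  have hgN : ∀ q, ¬ Q q → g q = m := fun q hq => dif_neg hq
  refine ⟨g, ?_, ?_⟩
  · refine DfnF.of_graph ?_
    have h1 : {p : (X × Y) × U | g p.1 = p.2} =
        {p : (X × Y) × U | (Q p.1 ∧ P p.1 p.2) ∨ (¬ Q p.1 ∧ p.2 = m)} := by
      ext p
      simp only [Set.mem_ofPred_eq]
      by_cases hq : Q p.1
      · rw [hgQ p.1 hq]
        constructor
        · intro h
          exact Or.inl ⟨hq, h⟩
        · rintro (h | h)
          · exact h.2
          · exact absurd hq h.1
      · rw [hgN p.1 hq]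
        constructor
        · intro h
          exact Or.inr ⟨hq, h.symm⟩
        · rintro (h | h)
          · exact absurd h.1 hq
          · exact h.2.symm
    rw [h1]
    have hQ' : Dfn A {p : (X × Y) × U | Q p.1} := Dfn.sub hQ dfnF_fst
    have hm' : Dfn A {p : (X × Y) × U | p.2 = m} :=
      Dfn.eq dfnF_snd (dfnF_const (by rw [co_U]; exact Set.singleton_subset_iff.mpr hm))
    exact (hQ'.and hP).or (hQ'.not.and hm')
  · intro x
    have h1 : ∀ u, P (x, b) u ↔ f x = u := by
      intro u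
      have := Set.ext_iff.mp hEf (x, u)
      simp only [Set.mem_ofPred_eq] at this
      exact this.symm
    have hq : Q (x, b) := ⟨f x, (h1 _).mpr rfl, fun v hv => ((h1 v).mp hv).symm⟩
    exact (hgQ _ hq _).mpr ((h1 _).mpr rfl)

theorem DfnF.fiber {f : X × Y → Z} (hf : DfnF A f) (b : Y) :
    DfnF (A ∪ co U b) (fun x => f (x, b)) :=
  (hf.mono subset_union_left).comp (f := fun x : X => (x, b))
    (dfnF_id.prodMk (dfnF_const subset_union_right))

/-- points of `dcl (A b)` are values of `A`-definable functions -/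
theorem dcl_param {m : U} (hm : m ∈ A) {b : Y} {c : U} (hc : c ∈ Dcl (A ∪ co U b)) :
    ∃ g : Y → U, DfnF A g ∧ g b = c := by
  have h1 : DfnF (A ∪ co U b) (fun _ : PUnit.{u+1} => c) := by
    refine DfnF.of_graph ?_
    have h2 : Dfn (A ∪ co U b) ({c} : Set U) := hc
    have h3 : {p : PUnit.{u+1} × U | c = p.2} = (fun p : PUnit.{u+1} × U => p.2) ⁻¹' {c} := by
      ext p
      simp only [Set.mem_ofPred_eq, Set.mem_preimage, Set.mem_singleton_iff]
      exact eq_comm
    rw [h3]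
    exact h2.preimage dfnF_snd
  obtain ⟨g, hg, hg2⟩ := DfnF.param hm h1
  refine ⟨fun y => g (PUnit.unit, y), ?_, hg2 _⟩
  refine hg.comp (f := fun y : Y => ((PUnit.unit : PUnit.{u+1}), y)) ?_
  exact (dfnF_const (by rw [co_punit]; exact Set.empty_subset _)).prodMk dfnF_id

theorem DfnF.mem_dcl {g : Y → U} (hg : DfnF A g) (b : Y) : g b ∈ Dcl (A ∪ co U b) := by
  change Dfn (A ∪ co U b) ({g b} : Set U)
  have h1 : ({g b} : Set U) = {c : U | c = g b} := rfl
  rw [h1]
  refine Dfn.eq dfnF_id ?_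
  exact (hg.mono subset_union_left).comp (f := fun _ : U => b) (dfnF_const subset_union_right)

theorem subset_dcl : A ⊆ Dcl A := by
  intro a ha
  change Dfn A ({a} : Set U)
  exact dfn_singleton (by rw [co_U]; exact Set.singleton_subset_iff.mpr ha)

theorem dcl_mono (h : A ⊆ B) : Dcl A ⊆ Dcl B := fun _ hc => Dfn.mono hc h

/-- definability over `dcl A` is definability over `A` -/
theorem Dfn.of_dcl {D : Set X} (hD : Dfn (Dcl A) D) : Dfn A D := by
  obtain ⟨n, c, hc, E, hE, hDE⟩ := hD.finite_param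
  have h1 : Dfn A {t : Fin n → U | ∀ i ∈ (Finset.univ : Finset (Fin n)), t i ∈ ({c i} : Set U)} := by
    refine Dfn.allFin _ (fun i _ => ?_)
    have h2 : Dfn A ({c i} : Set U) := hc ⟨i, rfl⟩
    exact h2.preimage (dfnF_proj i)
  have h3 : Dfn A {x : X | ∃ t : Fin n → U,
      (∀ i ∈ (Finset.univ : Finset (Fin n)), t i ∈ ({c i} : Set U)) ∧ (x, t) ∈ E} := by
    refine Dfn.ex (P := fun (x : X) (t : Fin n → U) =>
      (∀ i ∈ (Finset.univ : Finset (Fin n)), t i ∈ ({c i} : Set U)) ∧ (x, t) ∈ E) ?_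
    refine Dfn.and ?_ (hE.mono (Set.empty_subset _))
    exact Dfn.sub h1 dfnF_snd
  have h4 : D = {x : X | ∃ t : Fin n → U,
      (∀ i ∈ (Finset.univ : Finset (Fin n)), t i ∈ ({c i} : Set U)) ∧ (x, t) ∈ E} := by
    rw [hDE]
    ext x
    simp only [Set.mem_ofPred_eq]
    constructor
    · intro h
      exact ⟨c, fun i _ => rfl, h⟩
    · rintro ⟨t, ht, h⟩
      have : t = c := funext fun i => ht i (Finset.mem_univ i)
      rwa [this] at h
  rw [h4]
  exact h3

end OMB
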