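import Pool.Agent.Lib.MP_fd36ae_lc.C4

/-!
# MP_fd36ae_lc : cardinalities
-/

open FirstOrder Set Cardinal

namespace OMB

universe u

variable {U : Type u} [Str U] {X Y Z W : Type u} [DSort U X] [DSort U Y] [DSort U Z] [DSort U W]
  {A B : Set U}

/-! ## cardinalities -/

theorem small_empty : Small (∅ : Set U) :=
  lt_trans (Cardinal.lt_aleph0_iff_set_finite.2 Set.finite_empty) Str.aleph

theorem Small.mono (hB : Small B) (h : A ⊆ B) : Small A :=
  lt_of_le_of_lt (Cardinal.mk_le_mk_of_subset h) hB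

theorem Small.union (hA : Small A) (hB : Small B) : Small (A ∪ B) :=
  lt_of_le_of_lt (Cardinal.mk_union_le A B) (Cardinal.add_lt_of_lt Str.aleph.le hA hB)

theorem small_of_finite (h : A.Finite) : Small A :=
  lt_trans (Cardinal.lt_aleph0_iff_set_finite.2 h) Str.aleph

theorem small_co (x : X) : Small (co U x) := small_of_finite (co_finite x)

theorem Small.union_co (hA : Small A) (x : X) : Small (A ∪ co U x) := hA.union (small_co x)

theorem small_range {J : Type u} (hJ : #J < Str.κ U) (f : J → U) : Small (Set.range f) :=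
  lt_of_le_of_lt Cardinal.mk_range_le hJ

theorem small_iUnion_finite {J : Type u} (hJ : #J < Str.κ U) (A : J → Set U)
    (hA : ∀ j, (A j).Finite) : Small (⋃ j, A j) := by
  unfold Small
  refine lt_of_le_of_lt (Cardinal.mk_iUnion_le_sum_mk (f := A)) ?_
  refine lt_of_le_of_lt (Cardinal.sum_le_sum _ (fun _ => ℵ₀)
    (fun j => (Cardinal.lt_aleph0_iff_set_finite.2 (hA j)).le)) ?_
  rw [Cardinal.sum_const']
  exact Cardinal.mul_lt_of_lt Str.aleph.le hJ Str.aleph

theorem card_dfn (hA : Small A) : #{D : Set X // Dfn A D} < Str.κ U := by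
  have h0 : ∀ D : {D : Set X // Dfn A D}, ∃ φ : ((Str.L U)[[A]]).Formula (DSort.ι U X),
      {v | (DSort.e (U := U) (X := X)).symm v ∈ D.1} = {v | φ.Realize v} := fun D => D.2
  choose φ hφ using h0
  have hinj : Function.Injective
      (fun D : {D : Set X // Dfn A D} => (⟨0, φ D⟩ :
        Σ n, ((Str.L U)[[A]]).BoundedFormula (DSort.ι U X) n)) := by
    intro D E h
    have h1 : φ D = φ E := eq_of_heq (Sigma.mk.inj h).2
    have h2 : {v | (DSort.e (U := U) (X := X)).symm v ∈ D.1} =
        {v | (DSort.e (U := U) (X := X)).symm v ∈ E.1} := by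
      rw [hφ D, hφ E, h1]
    apply Subtype.ext
    ext x
    have h3 := Set.ext_iff.1 h2 (DSort.e x)
    simpa using h3
  refine lt_of_le_of_lt (Cardinal.mk_le_of_injective hinj) ?_
  refine lt_of_le_of_lt FirstOrder.Language.BoundedFormula.card_le ?_
  rw [max_lt_iff]
  refine ⟨Str.aleph, ?_⟩
  refine Cardinal.add_lt_of_lt Str.aleph.le ?_ ?_
  · refine lt_trans ?_ Str.aleph
    simp
  · rw [FirstOrder.Language.card_withConstants]
    simp only [Cardinal.lift_id, Cardinal.lift_uzero]
    exact Cardinal.add_lt_of_lt Str.aleph.le Str.card hA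

theorem card_dfnF (hA : Small A) : #{f : X → Y // DfnF A f} < Str.κ U := by
  refine lt_of_le_of_lt ?_ (card_dfn (X := X × Y) hA)
  refine Cardinal.mk_le_of_injective
    (f := fun f : {f : X → Y // DfnF A f} =>
      (⟨{p : X × Y | f.1 p.1 = p.2}, f.2.graph⟩ : {D : Set (X × Y) // Dfn A D})) ?_
  intro f g h
  have h1 : {p : X × Y | f.1 p.1 = p.2} = {p : X × Y | g.1 p.1 = p.2} := congrArg Subtype.val h
  apply Subtype.ext
  funext x
  have h2 := (Set.ext_iff.1 h1 (x, f.1 x)).1 rfl
  exact h2.symm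

theorem small_dcl (hA : Small A) : Small (Dcl A) := by
  refine lt_of_le_of_lt ?_ (card_dfn (X := U) hA)
  refine Cardinal.mk_le_of_injective
    (f := fun c : Dcl A => (⟨{c.1}, c.2⟩ : {D : Set U // Dfn A D})) ?_
  intro c d h
  have h1 : ({c.1} : Set U) = {d.1} := congrArg Subtype.val h
  exact Subtype.ext (Set.singleton_injective h1)

end OMB
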