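import Pool.Agent.Lib.MP_fd36ae_lc.C5

/-!
# MP_fd36ae_lc : types over A inside U
-/

open FirstOrder Set Cardinal

namespace OMB

universe u

variable {U : Type u} [Str U] {X Y Z W : Type u} [DSort U X] [DSort U Y] [DSort U Z] [DSort U W]
  {A B : Set U}

/-! ## types over A inside U -/

@[refl] theorem Eqv.refl (x : X) : Eqv A x x := fun _ _ => Iff.rfl

theorem Eqv.symm {x x' : X} (h : Eqv A x x') : Eqv A x' x := fun D hD => (h D hD).symm

theorem Eqv.trans {x x' x'' : X} (h : Eqv A x x') (h' : Eqv A x' x'') : Eqv A x x'' :=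
  fun D hD => (h D hD).trans (h' D hD)

theorem Eqv.mono {x x' : X} (h : Eqv B x x') (hAB : A ⊆ B) : Eqv A x x' :=
  fun D hD => h D (hD.mono hAB)

theorem Eqv.map {x x' : X} (h : Eqv A x x') {f : X → Y} (hf : DfnF A f) : Eqv A (f x) (f x') :=
  fun _ hD => h _ (hD.preimage hf)

theorem Eqv.fst {p p' : X × Y} (h : Eqv A p p') : Eqv A p.1 p'.1 := h.map dfnF_fst

theorem Eqv.snd {p p' : X × Y} (h : Eqv A p p') : Eqv A p.2 p'.2 := h.map dfnF_snd

/-- `x ≡_{A b} x'` iff `(x,b) ≡_A (x',b)` -/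
theorem eqv_union_co {x x' : X} {b : Y} : Eqv (A ∪ co U b) x x' ↔ Eqv A (x, b) (x', b) := by
  constructor
  · intro h D hD
    exact h _ (hD.fiber b)
  · intro h D hD
    obtain ⟨E, hE, rfl⟩ := hD.param
    exact h E hE

theorem eqv_dcl {x x' : X} : Eqv (Dcl A) x x' ↔ Eqv A x x' :=
  ⟨fun h => h.mono subset_dcl, fun h D hD => h D hD.of_dcl⟩

private theorem definable₁_of_dfn {E : Set U} (h : Dfn A E) : A.Definable₁ (Str.L U) E :=
  Set.Definable.preimage_comp (fun _ : Unit => (0 : Fin 1)) h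

private theorem dfnF_cons (n : ℕ) :
    DfnF A (fun p : U × (Fin n → U) => (Fin.cons p.1 p.2 : Fin (n + 1) → U)) := by
  refine DfnF.pi (fun i => ?_)
  refine Fin.cases ?_ (fun i => ?_) i
  · exact dfnF_fst
  · exact (dfnF_proj i).comp dfnF_snd

private theorem small_params {J : Type u} (hJ : #J < Str.κ U) (D : J → Set X)
    (hD : ∀ j, Dfn (univ : Set U) (D j)) : ∃ A : Set U, Small A ∧ ∀ j, Dfn A (D j) := by
  choose n c _ E hE hDE using fun j => (hD j).finite_param
  refine ⟨⋃ j, Set.range (c j), small_iUnion_finite hJ _ (fun j => Set.finite_range _), fun j => ?_⟩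
  have h1 := (hE j).fiber (c j)
  rw [← hDE j, co_pi, empty_union] at h1
  exact h1.mono (subset_iUnion (fun j => Set.range (c j)) j)

private theorem sat_fin {J : Type u} (hJ : #J < Str.κ U) (n : ℕ) : ∀ (D : J → Set (Fin n → U))
    (_ : ∀ j, Dfn (univ : Set U) (D j))
    (_ : ∀ s : Finset J, ∃ x, ∀ j ∈ s, x ∈ D j), ∃ x, ∀ j, x ∈ D j := by
  classical
  induction n with
  | zero =>
    intro D _ hF
    refine ⟨fun i => i.elim0, fun j => ?_⟩
    obtain ⟨x, hx⟩ := hF {j}
    have h1 := hx j (Finset.mem_singleton_self j)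
    have h2 : x = fun i => i.elim0 := funext (fun i => i.elim0)
    rw [h2] at h1
    exact h1
  | succ n ih =>
    intro D hD hF
    obtain ⟨A, hA, hDA⟩ := small_params hJ D hD
    have hE : ∀ s : Finset J, Dfn A {a : U | ∃ v : Fin n → U, ∀ j ∈ s,
        (Fin.cons a v : Fin (n + 1) → U) ∈ D j} := by
      intro s
      refine Dfn.ex (P := fun (a : U) (v : Fin n → U) => ∀ j ∈ s,
        (Fin.cons a v : Fin (n + 1) → U) ∈ D j) ?_
      refine Dfn.allFin s (P := fun j (p : U × (Fin n → U)) =>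
        (Fin.cons p.1 p.2 : Fin (n + 1) → U) ∈ D j) (fun j _ => ?_)
      exact (hDA j).preimage (dfnF_cons n)
    obtain ⟨a, ha⟩ := Str.sat A hA (Set.range (fun s : Finset J => {a : U | ∃ v : Fin n → U,
        ∀ j ∈ s, (Fin.cons a v : Fin (n + 1) → U) ∈ D j})) (by
      rintro _ ⟨s, rfl⟩
      exact definable₁_of_dfn (hE s)) (by
      intro G hG
      choose! t ht using fun (E : Set U) (hE : E ∈ (G : Set (Set U))) => hG hE
      obtain ⟨x, hx⟩ := hF (G.biUnion t)
      refine ⟨x 0, ?_⟩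
      intro E hEG
      rw [← ht E hEG]
      refine ⟨Fin.tail x, fun j hj => ?_⟩
      rw [Fin.cons_self_tail]
      exact hx j (Finset.mem_biUnion.mpr ⟨E, hEG, hj⟩))
    obtain ⟨v, hv⟩ := ih (fun j => {v | (Fin.cons a v : Fin (n + 1) → U) ∈ D j}) (by
      intro j
      have h1 : Dfn (univ : Set U) {p : (Fin n → U) × U | (Fin.cons p.2 p.1 : Fin (n + 1) → U) ∈ D j} :=
        (hD j).preimage ((dfnF_cons n).comp (dfnF_snd.prodMk dfnF_fst))
      exact h1.fiber_of (b := a) (subset_univ _)) (by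
      intro s
      exact ha _ ⟨s, rfl⟩)
    exact ⟨Fin.cons a v, hv⟩

/-- saturation for small families of definable subsets of an arbitrary sort -/
theorem sat_family {J : Type u} (hJ : #J < Str.κ U) (D : J → Set X)
    (hD : ∀ j, Dfn (univ : Set U) (D j))
    (hF : ∀ s : Finset J, ∃ x, ∀ j ∈ s, x ∈ D j) : ∃ x, ∀ j, x ∈ D j := by
  obtain ⟨n, ⟨σ⟩⟩ := Finite.exists_equiv_fin (DSort.ι U X)
  have hdec : DfnF (univ : Set U) (fun w : Fin n → U =>
      (DSort.e (U := U) (X := X)).symm (fun i => w (σ i))) :=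
    dfnF_dec.comp (DfnF.pi (fun i => dfnF_proj (σ i)))
  obtain ⟨w, hw⟩ := sat_fin hJ n (fun j => {w | (DSort.e (U := U) (X := X)).symm (fun i => w (σ i)) ∈ D j})
    (fun j => (hD j).preimage hdec) (by
      intro s
      obtain ⟨x, hx⟩ := hF s
      refine ⟨fun k => DSort.e (U := U) x (σ.symm k), fun j hj => ?_⟩
      have h1 : (DSort.e (U := U) (X := X)).symm
          (fun i => (fun k => DSort.e (U := U) x (σ.symm k)) (σ i)) = x := by
        simp
      show (DSort.e (U := U) (X := X)).symm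
          (fun i => (fun k => DSort.e (U := U) x (σ.symm k)) (σ i)) ∈ D j
      rw [h1]
      exact hx j hj)
  exact ⟨_, hw⟩

theorem sat_eqv (hA : Small A) {x x' : X} (h : Eqv A x x') (y : Y) :
    ∃ y', Eqv A (x, y) (x', y') := by
  classical
  have hJ : #{D : Set (X × Y) // Dfn A D ∧ (x, y) ∈ D} < Str.κ U := by
    refine lt_of_le_of_lt ?_ (card_dfn (X := X × Y) hA)
    exact Cardinal.mk_le_of_injective
      (f := fun D : {D : Set (X × Y) // Dfn A D ∧ (x, y) ∈ D} => (⟨D.1, D.2.1⟩ :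
        {D : Set (X × Y) // Dfn A D})) (fun D D' hDD => Subtype.ext (congrArg (fun E => E.1) hDD))
  obtain ⟨y', hy'⟩ := sat_family hJ (fun D => {y' : Y | (x', y') ∈ D.1}) (by
      intro D
      have h1 : Dfn A {p : Y × X | (p.2, p.1) ∈ D.1} := D.2.1.preimage (dfnF_snd.prodMk dfnF_fst)
      exact (h1.mono (subset_univ _)).fiber_of (b := x') (subset_univ _)) (by
      intro s
      have h1 : Dfn A {x : X | ∃ y' : Y, ∀ D ∈ s, (x, y') ∈ D.1} := by
        refine Dfn.ex (P := fun (x : X) (y' : Y) => ∀ D ∈ s, (x, y') ∈ D.1) ?_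
        exact Dfn.allFin s (P := fun (D : {D : Set (X × Y) // Dfn A D ∧ (x, y) ∈ D}) (p : X × Y) =>
          (p.1, p.2) ∈ D.1) (fun D _ => D.2.1)
      exact (h _ h1).1 ⟨y, fun D _ => D.2.2⟩)
  refine ⟨y', fun D hD => ⟨fun hxy => hy' ⟨D, hD, hxy⟩, fun hxy => ?_⟩⟩
  by_contra hcon
  exact hy' ⟨Dᶜ, hD.compl, hcon⟩ hxy

end OMB
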