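import Pool.Agent.Lib.MP_fd36ae_lc.C6

/-!
# MP_fd36ae_lc : invariant sets
-/

open FirstOrder Set Cardinal

namespace OMB

universe u

variable {U : Type u} [Str U] {X Y Z W : Type u} [DSort U X] [DSort U Y] [DSort U Z] [DSort U W]
  {A B : Set U}

/-! ## invariant sets -/

theorem AInv.mono {S : Set X} (h : AInv A S) (hAB : A ⊆ B) : AInv B S :=
  fun x x' hx => h x x' (hx.mono hAB)

theorem Dfn.aInv {D : Set X} (h : Dfn A D) : AInv A D := fun _ _ hx => hx D h

theorem AInv.preimage {S : Set Y} {f : X → Y} (h : AInv A S) (hf : DfnF A f) :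
    AInv A (f ⁻¹' S) := fun _ _ hx => h _ _ (hx.map hf)

theorem AInv.sub {P : Y → Prop} {f : X → Y} (h : AInv A {y | P y}) (hf : DfnF A f) :
    AInv A {x | P (f x)} := h.preimage hf

theorem aInv_const (P : Prop) : AInv A {_x : X | P} := fun _ _ _ => Iff.rfl

theorem AInv.not {P : X → Prop} (h : AInv A {x | P x}) : AInv A {x | ¬ P x} :=
  fun x x' hx => not_congr (h x x' hx)

theorem AInv.and {P Q : X → Prop} (h : AInv A {x | P x}) (h' : AInv A {x | Q x}) :
    AInv A {x | P x ∧ Q x} := fun x x' hx => and_congr (h x x' hx) (h' x x' hx)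

theorem AInv.or {P Q : X → Prop} (h : AInv A {x | P x}) (h' : AInv A {x | Q x}) :
    AInv A {x | P x ∨ Q x} := fun x x' hx => or_congr (h x x' hx) (h' x x' hx)

theorem AInv.imp {P Q : X → Prop} (h : AInv A {x | P x}) (h' : AInv A {x | Q x}) :
    AInv A {x | P x → Q x} := fun x x' hx => imp_congr (h x x' hx) (h' x x' hx)

theorem AInv.iff {P Q : X → Prop} (h : AInv A {x | P x}) (h' : AInv A {x | Q x}) :
    AInv A {x | P x ↔ Q x} := fun x x' hx => iff_congr (h x x' hx) (h' x x' hx)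

theorem AInv.ex {P : X → Y → Prop} (hA : Small A) (h : AInv A {p : X × Y | P p.1 p.2}) :
    AInv A {x | ∃ y, P x y} := by
  have key : ∀ x x' : X, Eqv A x x' → (∃ y, P x y) → ∃ y, P x' y := by
    rintro x x' hx ⟨y, hy⟩
    obtain ⟨y', hy'⟩ := sat_eqv hA hx y
    exact ⟨y', (h _ _ hy').1 hy⟩
  exact fun x x' hx => ⟨key x x' hx, key x' x hx.symm⟩

theorem AInv.all {P : X → Y → Prop} (hA : Small A) (h : AInv A {p : X × Y | P p.1 p.2}) :
    AInv A {x | ∀ y, P x y} := by
  have h1 : AInv A {p : X × Y | ¬ P p.1 p.2} := fun p p' hp => not_congr (h p p' hp)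
  have h2 := AInv.ex (P := fun x y => ¬ P x y) hA h1
  intro x x' hx
  have h3 := h2 x x' hx
  simp only [mem_ofPred_eq, ← not_forall, not_iff_not] at h3
  exact h3

/-- closure under arbitrary unions and intersections -/
theorem AInv.exI {ι : Sort*} {P : ι → X → Prop} (h : ∀ i, AInv A {x | P i x}) :
    AInv A {x | ∃ i, P i x} := fun x x' hx => exists_congr fun i => h i x x' hx

theorem AInv.allI {ι : Sort*} {P : ι → X → Prop} (h : ∀ i, AInv A {x | P i x}) :
    AInv A {x | ∀ i, P i x} := fun x x' hx => forall_congr' fun i => h i x x' hx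

theorem AInv.transfer {P : X → Prop} (h : AInv A {x | P x}) {x x' : X} (hx : Eqv A x x')
    (hP : P x) : P x' := (h x x' hx).1 hP

theorem AInv.fiber {S : Set (X × Y)} (h : AInv A S) (b : Y) : AInv (A ∪ co U b) {x | (x, b) ∈ S} :=
  fun _ _ hx => h _ _ (eqv_union_co.1 hx)

theorem AInv.fiber_of {S : Set (X × Y)} (h : AInv A S) {b : Y} (hb : co U b ⊆ A) :
    AInv A {x | (x, b) ∈ S} := by
  have := h.fiber b
  rwa [Set.union_eq_self_of_subset_right hb] at this

end OMB
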