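import Mathlib

/-!
# MP_fd36ae_lc : basic definitions (everything happens inside a saturated structure `U`)
-/

open FirstOrder Set Cardinal

namespace OMB

universe u

/-- A sort over `U`: a type identified with a finite power of `U`. -/
class DSort (U X : Type u) where
  ι : Type
  fin : Finite ι
  e : X ≃ (ι → U)

attribute [instance] DSort.fin

/-- A `κ`-saturated structure `U` in a language `L` with fewer than `κ` symbols. -/
class Str (U : Type u) where
  L : FirstOrder.Language.{u, u}
  str : L.Structure U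
  κ : Cardinal.{u}
  aleph : ℵ₀ < κ
  card : L.card < κ
  pt : U
  sat : ∀ A : Set U, #A < κ → ∀ F : Set (Set U), (∀ D ∈ F, A.Definable₁ L D) →
    (∀ G : Finset (Set U), (↑G : Set (Set U)) ⊆ F → (⋂₀ (↑G : Set (Set U))).Nonempty) →
    (⋂₀ F).Nonempty

attribute [instance_reducible] Str.str
attribute [instance] Str.str

section Sorts

variable {U : Type u}

instance instU : DSort U U := ⟨Unit, inferInstance, (Equiv.funUnique Unit U).symm⟩

instance instPUnit : DSort U PUnit.{u+1} :=
  ⟨Empty, inferInstance, (Equiv.ofUnique PUnit.{u+1} (Empty → U))⟩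

instance instProd (X Y : Type u) [DSort U X] [DSort U Y] : DSort U (X × Y) :=
  ⟨DSort.ι U X ⊕ DSort.ι U Y, inferInstance,
    (Equiv.prodCongr DSort.e DSort.e).trans (Equiv.sumArrowEquivProdArrow _ _ _).symm⟩

instance instPi (α : Type) [Finite α] : DSort U (α → U) := ⟨α, inferInstance, Equiv.refl _⟩

end Sorts

variable {U : Type u} [Str U] {X Y Z : Type u} [DSort U X] [DSort U Y] [DSort U Z]

/-- The coordinates of a point. -/
def co (U : Type u) {X : Type u} [DSort U X] (x : X) : Set U := Set.range (DSort.e (U := U) x)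

/-- `D` is definable over `A`. -/
def Dfn (A : Set U) (D : Set X) : Prop :=
  A.Definable (Str.L U) {v | (DSort.e (U := U) (X := X)).symm v ∈ D}

/-- `f` is a function definable over `A`. -/
def DfnF (A : Set U) (f : X → Y) : Prop :=
  A.DefinableMap (Str.L U)
    (fun v => DSort.e (U := U) (f ((DSort.e (U := U) (X := X)).symm v)))

/-- `A` is small. -/
def Small (A : Set U) : Prop := #A < Str.κ U

/-- `x ≡_A x'`. -/
def Eqv (A : Set U) (x x' : X) : Prop := ∀ D : Set X, Dfn A D → (x ∈ D ↔ x' ∈ D)

/-- `S` is an `A`-invariant set. -/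
def AInv (A : Set U) (S : Set X) : Prop := ∀ x x' : X, Eqv A x x' → (x ∈ S ↔ x' ∈ S)

/-- Global types, as filters generated by definable sets and deciding all definable sets. -/
structure GType (U : Type u) [Str U] (X : Type u) [DSort U X] where
  F : Filter X
  ne : F.NeBot
  base : ∀ s ∈ F, ∃ D ⊆ s, Dfn (univ : Set U) D ∧ D ∈ F
  ultra : ∀ D : Set X, Dfn (univ : Set U) D → D ∈ F ∨ Dᶜ ∈ F

attribute [instance] GType.ne

/-- `x` realises `π` over `B`. -/
def Rl (π : GType U X) (B : Set U) (x : X) : Prop := ∀ D : Set X, Dfn B D → D ∈ π.F → x ∈ D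

/-- `π` is `A`-invariant. -/
def Inv (A : Set U) (π : GType U X) : Prop :=
  ∀ (n : ℕ) (D : Set (X × (Fin n → U))), Dfn (∅ : Set U) D →
    AInv A {c : Fin n → U | {x | (x, c) ∈ D} ∈ π.F}

/-- `π` is an `A`-equivariant family of types. -/
def Fam (A : Set U) (π : Y → GType U X) : Prop :=
  ∀ (n : ℕ) (D : Set (X × (Y × (Fin n → U)))), Dfn (∅ : Set U) D →
    AInv A {w : Y × (Fin n → U) | {x | (x, w) ∈ D} ∈ (π w.1).F}

/-- `M` is (the universe of) an elementary substructure: Tarski-Vaught. -/
def Elem (M : Set U) : Prop := ∀ D : Set U, Dfn M D → D.Nonempty → ∃ m ∈ M, m ∈ D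

/-- The definable closure. -/
def Dcl (A : Set U) : Set U := {c | Dfn A ({c} : Set U)}

end OMB
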