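import Pool.Agent.Lib.MP_fd36ae_lc.H6c

/-!
# MP_fd36ae_lc : the internal main theorem (paper 8)
-/

open FirstOrder Set Cardinal

namespace OMB

universe u

variable {U : Type u} [Str U] {X Y Z W : Type u} [DSort U X] [DSort U Y] [DSort U Z] [DSort U W]
  {A B M : Set U} [OMS U] {n : ℕ} {q₀ : GType U U}

/-- every non-realised factor is equivalent to an `M`-invariant type -/
theorem factor_inv (hM : Elem M) (hMs : Small M) {m : U} (hm : m ∈ M)
    {q : Fin n → GType U U} (hq : ∃ A : Set U, Small A ∧ ∀ i, Inv A (q i)) {p : GType U X}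
    (hp : Inv M p) (h1 : Dom p (tensor q m)) (h2 : Dom (tensor q m) p) {k : Fin n}
    (hk : NR (q k)) : ∃ π : GType U U, Inv M π ∧ NR π ∧ Img (q k) π := by
  obtain ⟨A, hA, hqA⟩ := hq
  have hi : Img p (q k) := img_of_factor hA hqA h1 hk
  have hpi : ∀ θ : GType U U, NR θ → Img p θ → ∃ k, NR (q k) ∧ Img (q k) θ :=
    fun θ hθ hi => factor_of_img hA hqA h2 hθ hi
  by_cases hnd : ND (q k)
  · have hT : Transp M (q k) :=
      transport hM hMs hm ⟨A, hA, hqA⟩ hp h2 hpi hk ⟨A, hA, hqA k⟩ hi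
    obtain ⟨j, Y, _, ⟨F⟩⟩ := exists_frame hMs hm hnd ⟨A, hA, hqA k⟩ hT
    obtain ⟨P, b, hb, hlo, hhi, hL⟩ := F.exists_pre hM hMs hm
    obtain ⟨π, hπM, hπn, hπ⟩ := descent hM hMs hm P hb hnd hlo hhi ⟨A, hA, hqA k⟩ hL
    exact ⟨π, hπM, hπn, hπ.symm hk⟩
  · exact def_case hM hMs hm hp hpi hk hnd hi

/-- Main theorem, internal form. -/
theorem main_internal (hM : Elem M) (hMs : Small M) {m : U} (hm : m ∈ M)
    {q : Fin n → GType U U} (hq : ∃ A : Set U, Small A ∧ ∀ i, Inv A (q i)) {p : GType U X}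
    (hp : Inv M p) (h1 : Dom p (tensor q m)) (h2 : Dom (tensor q m) p) :
    ∃ q' : Fin n → GType U U, (∀ i, Inv M (q' i)) ∧ Dom p (tensor q' m) ∧
      Dom (tensor q' m) p := by
  have hex : ∀ i, ∃ (π : GType U U) (f g : U → U) (hf : DfnF (univ : Set U) f)
      (_ : DfnF (univ : Set U) g), Inv M π ∧ (q i).map f hf = π ∧
        {x | g (f x) = x} ∈ (q i).F := by
    intro i
    by_cases hi : NR (q i)
    · obtain ⟨π, hπM, hπn, hπ⟩ := factor_inv hM hMs hm hq hp h1 h2 hi
      obtain ⟨f, g, hf, hg, hfπ, _, hgf, _⟩ := hπ.iso hπn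
      exact ⟨π, f, g, hf, hg, hπM, hfπ, hgf⟩
    · obtain ⟨c, hc⟩ := not_NR hi
      refine ⟨rTy m, fun _ => m, fun _ => c, dfnF_const (subset_univ _),
        dfnF_const (subset_univ _), inv_rTy ?_, ?_, ?_⟩
      · rw [co_U]
        exact singleton_subset_iff.2 hm
      · rw [hc]
        exact map_rTy
      · rw [hc]
        exact mem_rTy.2 rfl
  choose π f g hf hg hπM hfπ hgf using hex
  obtain ⟨A, hA, hqA⟩ := hq
  have hbase : ∀ i, ∃ B : Set U, B.Finite ∧ DfnF B (f i) := fun i => exists_small_base (hf i)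
  choose B hBfin hBf using hbase
  have hBs : Small (⋃ i, B i) := small_of_finite (Set.finite_iUnion hBfin)
  have hC : Small ((A ∪ M) ∪ ⋃ i, B i) := (hA.union hMs).union hBs
  have hF : DfnF (univ : Set U) (fun t : Fin n → U => fun i => f i (t i)) :=
    DfnF.pi (fun i => (hf i).comp (dfnF_proj i))
  have hG : DfnF (univ : Set U) (fun t : Fin n → U => fun i => g i (t i)) :=
    DfnF.pi (fun i => (hg i).comp (dfnF_proj i))
  have hmap : (tensor q m).map (fun t => fun i => f i (t i)) hF = tensor π m :=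
    tensor_map hC (Or.inl (Or.inr hm))
      (fun i => (hqA i).mono (subset_union_left.trans subset_union_left))
      (fun i => (hπM i).mono (subset_union_right.trans subset_union_left))
      (fun i => (hBf i).mono ((subset_iUnion B i).trans subset_union_right))
      (fun i => hfπ i) hF
  have hmem : {t : Fin n → U | (fun i => g i ((fun i => f i (t i)) i)) = t} ∈
      (tensor q m).F := by
    have h3 : ∀ k : Fin n, {t : Fin n → U | g k (f k (t k)) = t k} ∈ (tensor q m).F := by
      intro k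
      have h4 := tensor_proj (A := (A ∪ M) ∪ ⋃ i, B i) hC (Or.inl (Or.inr hm))
        (fun i => (hqA i).mono (subset_union_left.trans subset_union_left)) k
      have h5 := hgf k
      rw [← h4] at h5
      exact h5
    have h6 : (⋂ k, {t : Fin n → U | g k (f k (t k)) = t k}) ∈ (tensor q m).F :=
      Filter.iInter_mem.2 h3
    refine Filter.mem_of_superset h6 ?_
    intro t ht
    funext k
    exact Set.mem_iInter.1 ht k
  have hinv : ∃ B, Small B ∧ Inv B (tensor π m) := ⟨M, hMs, tensor_inv hMs hm hπM⟩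
  exact ⟨π, hπM, h1.map_right hF hG hmem hmap hinv, h2.map_left hF hG hmem hmap hinv⟩

end OMB
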