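import Pool.Agent.Lib.MP_fd36ae_lc.B1
import Pool.Agent.Lib.MP_fd36ae_lc.B3
import Pool.Agent.Lib.MP_fd36ae_lc.H7

/-!
# MP_fd36ae_lc : final assembly
-/

open FirstOrder Set
open scoped Cardinal

namespace MPfd36ae

open OMB

universe u

/-- finite unions of small sets -/
private theorem small_iUnion_fin {U : Type u} [Str U] {n : ℕ} (A : Fin n → Set U)
    (h : ∀ i, OMB.Small (A i)) : OMB.Small (⋃ i, A i) := by
  classical
  have key : ∀ s : Finset (Fin n), OMB.Small (⋃ i ∈ s, A i) := by
    intro s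
    induction s using Finset.induction_on with
    | empty => simpa using (small_empty : OMB.Small (∅ : Set U))
    | insert a s _ ih =>
      rw [Finset.set_biUnion_insert]
      exact (h a).union ih
  have h1 := key Finset.univ
  simpa using h1

theorem final (L : FirstOrder.Language.{u, u}) (U : Type u) [L.Structure U]
    [LinearOrder U] [DenselyOrdered U] [NoMinOrder U] [NoMaxOrder U] [Nonempty U]
    (hlt : (∅ : Set U).Definable L {v : Fin 2 → U | v 0 < v 1})
    (hom : OMinimal L U) (κ : Cardinal.{u}) (hκ : ℵ₀ < κ) (hL : L.card < κ)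
    (hsat : Saturated L U κ) (M : L.ElementarySubstructure U) (hM : #M < κ)
    {α : Type} [Finite α] (p : GlobalType L U α) (hp : p.InvariantOver (M : Set U))
    {n : ℕ} (q : Fin n → GlobalType L U (Fin 1))
    (hq : ∀ i, ∃ A : Set U, #A < κ ∧ (q i).InvariantOver A)
    (r : GlobalType L U (Fin n)) (hr : IsProduct κ n q r) (hpr : DomEquiv κ p r) :
    ∃ q' : Fin n → GlobalType L U (Fin 1), (∀ i, (q' i).InvariantOver (M : Set U)) ∧
      ∃ r' : GlobalType L U (Fin n), IsProduct κ n q' r' ∧ DomEquiv κ p r' := by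
  let iS : Str U := mkStr L U κ hκ hL hsat
  let iO : OMS U := mkOMS L U hlt hom κ hκ hL hsat
  have hE : OMB.Elem (M : Set U) := elem_of_elementary L U κ hκ hL hsat M
  have hMs : OMB.Small (M : Set U) := hM
  obtain ⟨m, hm, -⟩ := hE Set.univ dfn_univ ⟨Classical.arbitrary U, trivial⟩
  have hq' : ∃ A : Set U, OMB.Small A ∧ ∀ i, Inv A (toG1 (q i)) := by
    choose A hA hA' using hq
    refine ⟨⋃ i, A i, small_iUnion_fin A fun i => hA i, fun i => ?_⟩
    exact (invariantOver_iff1.1 (hA' i)).mono (Set.subset_iUnion A i)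
  let p' : GlobalType (Str.L U) U α := p
  let r₀ : GlobalType (Str.L U) U (Fin n) := r
  have hp' : Inv (M : Set U) (toG p') := invariantOver_iff.1 hp
  have hr' : toG r₀ = tensor (fun i => toG1 (q i)) m := (isProduct_iff hq m).1 hr
  have h1 : Dom (toG p') (toG r₀) := (dominates_iff (U := U) (p := p') (q := r₀)).1 hpr.1
  have h2 : Dom (toG r₀) (toG p') := (dominates_iff (U := U) (p := r₀) (q := p')).1 hpr.2
  rw [hr'] at h1 h2
  obtain ⟨q₂, hq₂, h3, h4⟩ := main_internal hE hMs hm hq' hp' h1 h2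
  have hinv : ∀ i, (ofG1 (q₂ i)).InvariantOver (M : Set U) := fun i =>
    invariantOver_iff1.2 (by rw [toG1_ofG1]; exact hq₂ i)
  refine ⟨fun i => ofG1 (q₂ i), hinv, ofG (tensor q₂ m), ?_, ?_, ?_⟩
  · refine (isProduct_iff (fun i => ⟨(M : Set U), hMs, hinv i⟩) m).2 ?_
    rw [toG_ofG]
    congr 1
    funext i
    rw [toG1_ofG1]
  · refine dominates_iff.2 ?_
    rw [toG_ofG]
    exact h3
  · refine dominates_iff.2 ?_
    rw [toG_ofG]
    exact h4

end MPfd36ae
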