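import Pool.Agent.Lib.MP_fd36ae_lc.V8

/-!
# MP_fd36ae_lc : elimination (paper section 2, simplified: by the classification of invariant
1-types no monotonicity is needed)
-/

open FirstOrder Set Cardinal

namespace OMB

universe u

variable {U : Type u} [Str U] {X Y Z W : Type u} [DSort U X] [DSort U Y] [DSort U Z] [DSort U W]
  {A B : Set U} [OMS U]

private theorem g1_iff {q : GType U Y} {P : Y → Prop} (hP : AInv A {v | P v}) {v v' : Y}
    (h : Rl q A v) (h' : Rl q A v') : P v ↔ P v' := hP v v' (h.eqv h')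

private theorem g1_small (hA : Small A) (z : U) : Small (A ∪ {z}) := by
  have := hA.union_co z
  rwa [co_U] at this

private theorem g1_dfn_lt {h : Y → U} (hh : DfnF A h) (z : U) :
    Dfn (A ∪ {z}) {v | z < h v} :=
  Dfn.lt (dfnF_const (by rw [co_U]; exact subset_union_right)) (hh.mono subset_union_left)

private theorem g1_dfn_gt {h : Y → U} (hh : DfnF A h) (z : U) :
    Dfn (A ∪ {z}) {v | h v < z} :=
  Dfn.lt (hh.mono subset_union_left) (dfnF_const (by rw [co_U]; exact subset_union_right))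

private theorem g1_dfn_le {h : Y → U} (hh : DfnF A h) (z : U) :
    Dfn (A ∪ {z}) {v | z ≤ h v} :=
  Dfn.le (dfnF_const (by rw [co_U]; exact subset_union_right)) (hh.mono subset_union_left)

/-- to prove `q.map g = θ` it is enough to compare at realisations -/
private theorem g1_map_eq {q : GType U Y} {g : Y → U} (hg : DfnF A g)
    {θ : GType U U} (hθ : NR θ)
    (hlo : ∀ z, Lo θ z → ∃ v, Rl q (A ∪ {z}) v ∧ z < g v)
    (hhi : ∀ z, Hi θ z → ∃ v, Rl q (A ∪ {z}) v ∧ g v < z) :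
    q.map g (hg.mono (subset_univ A)) = θ := by
  refine NR.eq_of_lo_hi hθ (fun z hz => ?_) (fun z hz => ?_)
  · obtain ⟨v, hv, hzv⟩ := hlo z hz
    exact (hv.mem_iff (g1_dfn_lt hg z)).1 hzv
  · obtain ⟨v, hv, hzv⟩ := hhi z hz
    exact (hv.mem_iff (g1_dfn_gt hg z)).1 hzv

/-- paper 2.0 -/
theorem elim_core_s (hA : Small A) {q : GType U Y} (hq : Inv A q) {J : Type u}
    (hJ : #J < Str.κ U) {h : J → Y → U} (hh : ∀ j, DfnF A (h j)) {ν : Y → GType U U}
    (hν : Fam A ν) (hνS : ∀ v, Rl q A v → IsS (ν v) (Set.range fun j => h j v)) {θ : GType U U}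
    (hθ : NR θ) (hθA : Inv A θ)
    (hlo : ∀ z v, Rl q (A ∪ {z}) v → (Lo (ν v) z ↔ Lo θ z)) :
    (∃ j, q.map (h j) ((hh j).mono (subset_univ A)) = θ) ∨ ∀ v, Rl q A v → ν v = θ := by
  by_cases hall : ∀ v, Rl q A v → ν v = θ
  · exact Or.inr hall
  left
  push Not at hall
  obtain ⟨v₀, hv₀, hne⟩ := hall
  by_cases hcase : ∃ v, Rl q A v ∧ ∃ z, Hi θ z ∧ Lo (ν v) z
  · obtain ⟨v₁, hv₁, z, hz, hz'⟩ := hcase
    obtain ⟨k, ⟨j, rfl⟩, hk⟩ := (hνS v₁ hv₁).lo_iff.1 hz'
    have hj : Hi θ (h j v₁) := hz.mono hk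
    have hinv : AInv A {v : Y | Hi θ (h j v)} := by
      have h1 : AInv A {p : U × Y | Hi θ p.1} := (hθA.fam (Y := Y)).hi
      exact h1.preimage (f := fun v : Y => (h j v, v)) ((hh j).prodMk dfnF_id)
    refine ⟨j, g1_map_eq (hh j) hθ (fun w hw => ?_) (fun w hw => ?_)⟩
    · obtain ⟨v, hv⟩ := exists_rl q (g1_small hA w)
      refine ⟨v, hv, ?_⟩
      exact lt_of_lo_hi hw ((g1_iff hinv hv₁ (hv.mono subset_union_left)).1 hj)
    · obtain ⟨v, hv⟩ := exists_rl q (g1_small hA w)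
      refine ⟨v, hv, ?_⟩
      have h1 : ¬ Lo (ν v) w := fun h2 => not_lo_and_hi ((hlo w v hv).1 h2) hw
      rw [(hνS v (hv.mono subset_union_left)).lo_iff] at h1
      push Not at h1
      exact h1 _ ⟨j, rfl⟩
  · push Not at hcase
    have h2a : ∀ v, Rl q A v → ∀ z, Hi θ z → Hi (ν v) z := fun v hv z hz =>
      ((hνS v hv).1.not_lo).1 (hcase v hv z hz)
    have h2b : ∃ z₀, Lo θ z₀ ∧ Hi (ν v₀) z₀ := by
      by_contra hcon
      push Not at hcon
      exact hne (NR.eq_of_lo_hi hθ (fun z hz => ((hνS v₀ hv₀).1.not_hi).1 (hcon z hz))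
        (h2a v₀ hv₀))
    obtain ⟨z₀, hz₀, hz₀'⟩ := h2b
    rcases classify hA hθA hθ with hS | hI
    · exfalso
      obtain ⟨k, ⟨hkA, hk⟩, hzk⟩ := hS.lo_iff.1 hz₀
      have hv₀' : Rl q (A ∪ {k}) v₀ :=
        (rl_dcl.2 hv₀).mono (union_subset subset_dcl (Set.singleton_subset_iff.2 hkA))
      exact not_lo_and_hi ((hlo k v₀ hv₀').2 hk) (hz₀'.mono hzk)
    · have hK : Small {x | x ∈ Dcl A ∧ Hi θ x} := (small_dcl hA).mono fun x hx => hx.1
      obtain ⟨j, hj⟩ := hI.pigeon hK hJ (P := fun j z => ∀ v, Rl q (A ∪ {z}) v → z ≤ h j v) (by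
        intro z hz
        obtain ⟨v, hv⟩ := exists_rl q (g1_small hA z)
        obtain ⟨k, ⟨j, rfl⟩, hk⟩ := (hνS v (hv.mono subset_union_left)).lo_iff.1
          ((hlo z v hv).2 hz)
        refine ⟨j, fun v' hv' => ?_⟩
        exact (hv.eqv hv' _ (g1_dfn_le (hh j) z)).1 hk)
      refine ⟨j, g1_map_eq (hh j) hθ (fun w hw => ?_) (fun w hw => ?_)⟩
      · obtain ⟨z', hz', _, hP⟩ := hj w hw
        obtain ⟨v, hv⟩ := exists_rl q ((g1_small hA w).union (g1_small hA z'))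
        exact ⟨v, hv.mono subset_union_left,
          lt_of_lt_of_le hz' (hP v (hv.mono subset_union_right))⟩
      · obtain ⟨v, hv⟩ := exists_rl q (g1_small hA w)
        refine ⟨v, hv, ?_⟩
        exact ((hνS v (hv.mono subset_union_left)).2 w).1
          (h2a v (hv.mono subset_union_left) w hw) _ ⟨j, rfl⟩

theorem elim_core_i (hA : Small A) {q : GType U Y} (hq : Inv A q) {J : Type u}
    (hJ : #J < Str.κ U) {h : J → Y → U} (hh : ∀ j, DfnF A (h j)) {ν : Y → GType U U}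
    (hν : Fam A ν) (hνS : ∀ v, Rl q A v → IsI (ν v) (Set.range fun j => h j v)) {θ : GType U U}
    (hθ : NR θ) (hθA : Inv A θ)
    (hlo : ∀ z v, Rl q (A ∪ {z}) v → (Lo (ν v) z ↔ Lo θ z)) :
    (∃ j, q.map (h j) ((hh j).mono (subset_univ A)) = θ) ∨ ∀ v, Rl q A v → ν v = θ := by
  refine @elim_core_s U _ Y _ A (OMS.dual U) hA q hq J hJ h hh ν hν (fun v hv => ?_) θ hθ hθA
    (fun z v hv => ?_)
  · exact isI_dual.2 (hνS v hv)
  · have h1 : NR (ν v) := (hνS v (hv.mono subset_union_left)).1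
    have h2 : Hi (ν v) z ↔ Hi θ z := by
      rw [← h1.not_lo, ← hθ.not_lo, hlo z v hv]
    exact h2

private theorem g1_fam_rTy {g : Y → U} (hg : DfnF A g) :
    Fam A (fun v => (rTy (g v) : GType U U)) := by
  intro n D hD
  have h1 : {w : Y × (Fin n → U) | {x | (x, w) ∈ D} ∈ (rTy (g w.1) : GType U U).F} =
      (fun w : Y × (Fin n → U) => (g w.1, w)) ⁻¹' D := by
    ext w
    show {x | (x, w) ∈ D} ∈ (rTy (g w.1) : GType U U).F ↔ (g w.1, w) ∈ D
    rw [mem_rTy]
    rfl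
  rw [h1]
  exact ((hD.mono (empty_subset A)).preimage ((hg.comp dfnF_fst).prodMk dfnF_id)).aInv

private theorem g1_isS_inv (hA : Small A) {J : Type u} {h : J → Y → U}
    (hh : ∀ j, DfnF A (h j)) {ν : Y → GType U U} (hν : Fam A ν) :
    AInv A {v | IsS (ν v) (Set.range fun j => h j v)} := by
  refine AInv.and (P := fun v => NR (ν v))
    (Q := fun v => ∀ z, Hi (ν v) z ↔ ∀ k ∈ Set.range (fun j => h j v), k < z) (hν.nr hA) ?_
  refine AInv.all (P := fun v z => Hi (ν v) z ↔ ∀ k ∈ Set.range (fun j => h j v), k < z) hA ?_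
  refine AInv.iff ?_ ?_
  · exact hν.hi.preimage (f := fun p : Y × U => (p.2, p.1)) (dfnF_snd.prodMk dfnF_fst)
  · have h1 : {p : Y × U | ∀ k ∈ Set.range (fun j => h j p.1), k < p.2} =
        {p : Y × U | ∀ j, h j p.1 < p.2} := by
      ext p
      constructor
      · intro hp j
        exact hp _ ⟨j, rfl⟩
      · rintro hp _ ⟨j, rfl⟩
        exact hp j
    rw [h1]
    exact AInv.allI fun j => (Dfn.lt ((hh j).comp dfnF_fst) dfnF_snd).aInv

private theorem g1_isI_inv (hA : Small A) {J : Type u} {h : J → Y → U}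
    (hh : ∀ j, DfnF A (h j)) {ν : Y → GType U U} (hν : Fam A ν) :
    AInv A {v | IsI (ν v) (Set.range fun j => h j v)} := by
  refine AInv.and (P := fun v => NR (ν v))
    (Q := fun v => ∀ z, Lo (ν v) z ↔ ∀ k ∈ Set.range (fun j => h j v), z < k) (hν.nr hA) ?_
  refine AInv.all (P := fun v z => Lo (ν v) z ↔ ∀ k ∈ Set.range (fun j => h j v), z < k) hA ?_
  refine AInv.iff ?_ ?_
  · exact hν.lo.preimage (f := fun p : Y × U => (p.2, p.1)) (dfnF_snd.prodMk dfnF_fst)
  · have h1 : {p : Y × U | ∀ k ∈ Set.range (fun j => h j p.1), p.2 < k} =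
        {p : Y × U | ∀ j, p.2 < h j p.1} := by
      ext p
      constructor
      · intro hp j
        exact hp _ ⟨j, rfl⟩
      · rintro hp _ ⟨j, rfl⟩
        exact hp j
    rw [h1]
    exact AInv.allI fun j => (Dfn.lt dfnF_snd ((hh j).comp dfnF_fst)).aInv

private theorem g1_card (hA : Small A) (R : (Y → U) → Prop) :
    #{g : Y → U // DfnF A g ∧ R g} < Str.κ U := by
  refine lt_of_le_of_lt ?_ (card_dfnF (X := Y) (Y := U) hA)
  exact Cardinal.mk_subtype_mono fun g hg => hg.1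

/-- elimination for an arbitrary equivariant family of 1-types with marginal `θ` -/
theorem elim_fam (hA : Small A) {m : U} (hm : m ∈ A) {q : GType U Y} (hq : Inv A q)
    {ν : Y → GType U U} (hν : Fam A ν) {θ : GType U U} (hθ : NR θ) (hθA : Inv A θ)
    (hlo : ∀ z v, Rl q (A ∪ {z}) v → (Lo (ν v) z ↔ Lo θ z))
    (hhi : ∀ z v, Rl q (A ∪ {z}) v → (Hi (ν v) z ↔ Hi θ z)) :
    (∃ (g : Y → U) (hg : DfnF A g), q.map g (hg.mono (subset_univ A)) = θ) ∨
      ∀ v, Rl q A v → ν v = θ := by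
  obtain ⟨v₀, hv₀⟩ := exists_rl q hA
  have hν₀ := hν.inv v₀
  have hA₀ := hA.union_co v₀
  by_cases hn : NR (ν v₀)
  · rcases classify hA₀ hν₀ hn with hS | hI
    · have hrange : (Set.range fun j : {g : Y → U // DfnF A g ∧ Lo (ν v₀) (g v₀)} => j.1 v₀) =
          {x | x ∈ Dcl (A ∪ co U v₀) ∧ Lo (ν v₀) x} := by
        ext x
        constructor
        · rintro ⟨j, rfl⟩
          exact ⟨j.2.1.mem_dcl v₀, j.2.2⟩
        · rintro ⟨hx, hx'⟩
          obtain ⟨g, hg, hgx⟩ := dcl_param hm hx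
          exact ⟨⟨g, hg, by rw [hgx]; exact hx'⟩, hgx⟩
      rw [← hrange] at hS
      have hinv := g1_isS_inv hA
        (h := fun j : {g : Y → U // DfnF A g ∧ Lo (ν v₀) (g v₀)} => j.1) (fun j => j.2.1) hν
      rcases elim_core_s hA hq (g1_card hA fun g => Lo (ν v₀) (g v₀))
        (h := fun j => j.1) (fun j => j.2.1) hν
        (fun v hv => (g1_iff hinv hv₀ hv).1 hS) hθ hθA hlo with ⟨j, hj⟩ | hr
      · exact Or.inl ⟨j.1, j.2.1, hj⟩
      · exact Or.inr hr
    · have hrange : (Set.range fun j : {g : Y → U // DfnF A g ∧ Hi (ν v₀) (g v₀)} => j.1 v₀) =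
          {x | x ∈ Dcl (A ∪ co U v₀) ∧ Hi (ν v₀) x} := by
        ext x
        constructor
        · rintro ⟨j, rfl⟩
          exact ⟨j.2.1.mem_dcl v₀, j.2.2⟩
        · rintro ⟨hx, hx'⟩
          obtain ⟨g, hg, hgx⟩ := dcl_param hm hx
          exact ⟨⟨g, hg, by rw [hgx]; exact hx'⟩, hgx⟩
      rw [← hrange] at hI
      have hinv := g1_isI_inv hA
        (h := fun j : {g : Y → U // DfnF A g ∧ Hi (ν v₀) (g v₀)} => j.1) (fun j => j.2.1) hν
      rcases elim_core_i hA hq (g1_card hA fun g => Hi (ν v₀) (g v₀))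
        (h := fun j => j.1) (fun j => j.2.1) hν
        (fun v hv => (g1_iff hinv hv₀ hv).1 hI) hθ hθA hlo with ⟨j, hj⟩ | hr
      · exact Or.inl ⟨j.1, j.2.1, hj⟩
      · exact Or.inr hr
  · left
    obtain ⟨c, hc⟩ := not_NR hn
    rw [hc] at hν₀
    obtain ⟨g, hg, hgc⟩ := dcl_param hm (inv_rTy_mem hA₀ hν₀)
    have heq := Fam.eq hA hν (g1_fam_rTy hg)
    have hall : ∀ v, Rl q A v → ν v = rTy (g v) := fun v hv =>
      (g1_iff heq hv₀ hv).1 (by rw [hc, hgc])
    refine ⟨g, hg, g1_map_eq hg hθ (fun z hz => ?_) (fun z hz => ?_)⟩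
    · obtain ⟨v, hv⟩ := exists_rl q (g1_small hA z)
      refine ⟨v, hv, ?_⟩
      have h1 := (hlo z v hv).2 hz
      rw [hall v (hv.mono subset_union_left)] at h1
      exact (mem_rTy (x := g v) (D := {x : U | z < x})).1 h1
    · obtain ⟨v, hv⟩ := exists_rl q (g1_small hA z)
      refine ⟨v, hv, ?_⟩
      have h1 := (hhi z v hv).2 hz
      rw [hall v (hv.mono subset_union_left)] at h1
      exact (mem_rTy (x := g v) (D := {x : U | x < z})).1 h1

/-- elimination, paper 2.1 -/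
theorem elim_dep (hA : Small A) {m : U} (hm : m ∈ A) {q : GType U Y} (hq : Inv A q)
    {π : Y → GType U X} (hπ : Fam A π) (ok : DepOK q π) {h : Y × X → U} (hh : DfnF A h)
    {hh' : DfnF (univ : Set U) h} {θ : GType U U} (hθ : NR θ) (hθA : Inv A θ)
    (heq : (dep q π ok).map h hh' = θ) :
    (∃ (g : Y → U) (hg : DfnF A g), q.map g (hg.mono (subset_univ A)) = θ) ∨
      ∀ v, Rl q A v → (π v).map (fun x => h (v, x)) (hh.fib' v) = θ := by
  refine elim_fam hA hm hq (hπ.map' hh) hθ hθA (fun z v hv => ?_) (fun z v hv => ?_)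
  · have h1 := mem_dep ok (g1_small hA z) (hq.mono subset_union_left)
      (hπ.mono subset_union_left) (g1_dfn_lt hh z) hv
    rw [← heq]
    exact h1.symm
  · have h1 := mem_dep ok (g1_small hA z) (hq.mono subset_union_left)
      (hπ.mono subset_union_left) (g1_dfn_gt hh z) hv
    rw [← heq]
    exact h1.symm

end OMB
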