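import Pool.Agent.Lib.MP_fd36ae_lc.G1

/-!
# MP_fd36ae_lc : domination (paper 0, 3.1)
-/

open FirstOrder Set Cardinal

namespace OMB

universe u

variable {U : Type u} [Str U] {X Y Z W : Type u} [DSort U X] [DSort U Y] [DSort U Z] [DSort U W]
  {A B : Set U}

/-- the complete type of `w` over `A` witnesses that `p` dominates `q` -/
def DomW (A : Set U) (p : GType U X) (q : GType U Y) (w : X × Y) : Prop :=
  Rl p A w.1 ∧ Rl q A w.2 ∧ ∀ D : Set Y, Dfn (univ : Set U) D → D ∈ q.F →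
    ∃ P ∈ p.F, ∃ R : Set (X × Y), Dfn A R ∧ w ∈ R ∧ ∀ x y, x ∈ P → (x, y) ∈ R → y ∈ D

/-- `p ≥_D q` -/
def Dom (p : GType U X) (q : GType U Y) : Prop :=
  ∃ A : Set U, Small A ∧ Inv A p ∧ Inv A q ∧ ∃ w, DomW A p q w

private theorem g2_fip {p : GType U X} {w : X × Y} (s : Finset (Set (X × Y))) :
    (↑s : Set (Set (X × Y))) ⊆ {S | (∃ P ∈ p.F, S = {z | z.1 ∈ P}) ∨ (Dfn A S ∧ w ∈ S)} →
    ∃ P ∈ p.F, ∃ R : Set (X × Y), Dfn A R ∧ w ∈ R ∧ ∀ z : X × Y, z.1 ∈ P → z ∈ R → ∀ S ∈ s, z ∈ S := by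
  classical
  induction s using Finset.induction_on with
  | empty =>
    intro _
    exact ⟨univ, Filter.univ_mem, univ, dfn_univ, mem_univ w, fun z _ _ S hS =>
      absurd hS (Finset.notMem_empty S)⟩
  | insert T s _ ih =>
    intro hs
    obtain ⟨P, hP, R, hR, hwR, h⟩ := ih (fun S hS => hs (Finset.mem_coe.2
      (Finset.mem_insert_of_mem (Finset.mem_coe.1 hS))))
    rcases hs (Finset.mem_coe.2 (Finset.mem_insert_self T s)) with ⟨P', hP', hT⟩ | ⟨hT, hwT⟩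
    · refine ⟨P ∩ P', Filter.inter_mem hP hP', R, hR, hwR, ?_⟩
      intro z hz1 hz2 S hS
      rcases Finset.mem_insert.1 hS with rfl | hS
      · rw [hT]
        exact hz1.2
      · exact h z hz1.1 hz2 S hS
    · refine ⟨P, hP, R ∩ T, hR.inter hT, ⟨hwR, hwT⟩, ?_⟩
      intro z hz1 hz2 S hS
      rcases Finset.mem_insert.1 hS with rfl | hS
      · exact hz2.2
      · exact h z hz1 hz2.1 S hS

/-- The base of a domination may be enlarged to any bigger small set (paper section 8): take a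
global type containing `p` and the witness, restrict it to `B`. -/
theorem Dom.enlarge {p : GType U X} {q : GType U Y} (h : Dom p q) {C : Set U} (hC : Small C) :
    ∃ B, Small B ∧ C ⊆ B ∧ Inv B p ∧ Inv B q ∧ ∃ w, DomW B p q w := by
  obtain ⟨A, hA, hp, hq, w, hw1, hw2, hw3⟩ := h
  have hB : Small (A ∪ C) := hA.union hC
  refine ⟨A ∪ C, hB, subset_union_right, hp.mono subset_union_left, hq.mono subset_union_left, ?_⟩
  obtain ⟨u, hu⟩ := exists_gtype (U := U) (X := X × Y)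
    {S | (∃ P ∈ p.F, S = {z : X × Y | z.1 ∈ P}) ∨ (Dfn A S ∧ w ∈ S)} (by
      intro s hs
      obtain ⟨P, hP, R, hR, hwR, h⟩ := g2_fip s hs
      have hproj : Dfn A {x : X | ∃ y : Y, (x, y) ∈ R} := Dfn.ex (P := fun x y => (x, y) ∈ R) hR
      have hmem : {x : X | ∃ y : Y, (x, y) ∈ R} ∈ p.F := (hw1.mem_iff hproj).1 ⟨w.2, hwR⟩
      obtain ⟨x, hx1, y, hy⟩ := Filter.nonempty_of_mem (Filter.inter_mem hP hmem)
      exact ⟨(x, y), fun S hS => h (x, y) hx1 hy S (Finset.mem_coe.1 hS)⟩)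
  have hu1 : ∀ P, Dfn (univ : Set U) P → P ∈ p.F → {z : X × Y | z.1 ∈ P} ∈ u.F := fun P hPd hP =>
    hu _ (Or.inl ⟨P, hP, rfl⟩) (hPd.preimage dfnF_fst)
  have hu2 : ∀ R, Dfn A R → w ∈ R → R ∈ u.F := fun R hR hwR =>
    hu R (Or.inr ⟨hR, hwR⟩) (hR.mono (subset_univ A))
  have hu3 : ∀ D, Dfn (univ : Set U) D → D ∈ q.F → {z : X × Y | z.2 ∈ D} ∈ u.F := by
    intro D hDd hD
    obtain ⟨P, hP, R, hR, hwR, h⟩ := hw3 D hDd hD
    obtain ⟨P', hP'1, hP'2, hP'3⟩ := p.base P hP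
    refine Filter.mem_of_superset (Filter.inter_mem (hu1 P' hP'2 hP'3) (hu2 R hR hwR)) ?_
    intro z hz
    exact h z.1 z.2 (hP'1 hz.1) hz.2
  obtain ⟨w', hw'⟩ := exists_rl u hB
  refine ⟨w', ?_, ?_, ?_⟩
  · intro D hD hDp
    exact hw' {z : X × Y | z.1 ∈ D} (hD.preimage dfnF_fst) (hu1 D (hD.mono (subset_univ _)) hDp)
  · intro D hD hDq
    exact hw' {z : X × Y | z.2 ∈ D} (hD.preimage dfnF_snd) (hu3 D (hD.mono (subset_univ _)) hDq)
  · intro D hDd hD
    obtain ⟨P, hP, R, hR, hwR, h⟩ := hw3 D hDd hD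
    exact ⟨P, hP, R, hR.mono subset_union_left, hw' R (hR.mono subset_union_left) (hu2 R hR hwR), h⟩

/-- a small family of definable functions over a small base: every definable function / set is
definable over some small set -/
theorem exists_small_base {f : X → Y} (hf : DfnF (univ : Set U) f) :
    ∃ B : Set U, B.Finite ∧ DfnF B f := by
  obtain ⟨n, c, _, E, hE, hEq⟩ := hf.graph.finite_param
  refine ⟨∅ ∪ co U c, ?_, ?_⟩
  · rw [empty_union]
    exact co_finite c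
  · apply DfnF.of_graph
    rw [hEq]
    exact hE.fiber c

/-- push-forward on the right by an almost invertible map -/
theorem Dom.map_right {p : GType U X} {q : GType U Y} (h : Dom p q) {f : Y → Z} {g : Z → Y}
    (hf : DfnF (univ : Set U) f) (hg : DfnF (univ : Set U) g) (hgf : {y | g (f y) = y} ∈ q.F)
    {q' : GType U Z} (hq' : q.map f hf = q') (hinv : ∃ B, Small B ∧ Inv B q') : Dom p q' := by
  have _ := hinv
  obtain ⟨Bf, hBf, hfB⟩ := exists_small_base hf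
  obtain ⟨Bg, hBg, hgB⟩ := exists_small_base hg
  obtain ⟨B, hB, hCB, hpB, hqB, w, hw1, hw2, hw3⟩ :=
    h.enlarge (C := Bf ∪ Bg) (small_of_finite (hBf.union hBg))
  have hf' : DfnF B f := hfB.mono (subset_union_left.trans hCB)
  have hg' : DfnF B g := hgB.mono (subset_union_right.trans hCB)
  have hgf' : g (f w.2) = w.2 :=
    hw2 {y | g (f y) = y} (Dfn.eq (hg'.comp hf') dfnF_id) hgf
  subst hq'
  refine ⟨B, hB, hpB, hqB.map hf' hf, (w.1, f w.2), hw1, hw2.map hf', ?_⟩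
  intro D hDd hD
  obtain ⟨P, hP, R, hR, hwR, h⟩ := hw3 (f ⁻¹' D) (hDd.preimage hf) hD
  refine ⟨P, hP, {z : X × Z | (z.1, g z.2) ∈ R ∧ f (g z.2) = z.2}, ?_, ?_, ?_⟩
  · have h1 : Dfn B {z : X × Z | (z.1, g z.2) ∈ R} :=
      hR.preimage (f := fun z : X × Z => (z.1, g z.2)) (dfnF_fst.prodMk (hg'.comp dfnF_snd))
    have h2 : Dfn B {z : X × Z | f (g z.2) = z.2} :=
      Dfn.eq (f := fun z : X × Z => f (g z.2)) (g := fun z : X × Z => z.2)
        (hf'.comp (hg'.comp dfnF_snd)) dfnF_snd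
    exact h1.and h2
  · refine ⟨?_, ?_⟩
    · show (w.1, g (f w.2)) ∈ R
      rw [hgf']
      exact hwR
    · show f (g (f w.2)) = f w.2
      rw [hgf']
  · rintro x z hx ⟨hz1, hz2⟩
    have h3 : f (g z) ∈ D := h x (g z) hx hz1
    have h4 : f (g z) = z := hz2
    rwa [h4] at h3

/-- push-forward on the left by an almost invertible map -/
theorem Dom.map_left {p : GType U X} {q : GType U Y} (h : Dom p q) {f : X → Z} {g : Z → X}
    (hf : DfnF (univ : Set U) f) (hg : DfnF (univ : Set U) g) (hgf : {x | g (f x) = x} ∈ p.F)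
    {p' : GType U Z} (hp' : p.map f hf = p') (hinv : ∃ B, Small B ∧ Inv B p') : Dom p' q := by
  have _ := hinv
  obtain ⟨Bf, hBf, hfB⟩ := exists_small_base hf
  obtain ⟨Bg, hBg, hgB⟩ := exists_small_base hg
  obtain ⟨B, hB, hCB, hpB, hqB, w, hw1, hw2, hw3⟩ :=
    h.enlarge (C := Bf ∪ Bg) (small_of_finite (hBf.union hBg))
  have hf' : DfnF B f := hfB.mono (subset_union_left.trans hCB)
  have hg' : DfnF B g := hgB.mono (subset_union_right.trans hCB)
  have hgf' : g (f w.1) = w.1 :=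
    hw1 {x | g (f x) = x} (Dfn.eq (hg'.comp hf') dfnF_id) hgf
  subst hp'
  refine ⟨B, hB, hpB.map hf' hf, hqB, (f w.1, w.2), hw1.map hf', hw2, ?_⟩
  intro D hDd hD
  obtain ⟨P, hP, R, hR, hwR, h⟩ := hw3 D hDd hD
  refine ⟨{z | g z ∈ P}, ?_, {z : Z × Y | (g z.1, z.2) ∈ R}, ?_, ?_, ?_⟩
  · rw [GType.mem_map]
    refine Filter.mem_of_superset (Filter.inter_mem hP hgf) ?_
    rintro x ⟨hx1, hx2⟩
    show g (f x) ∈ P
    have hx3 : g (f x) = x := hx2
    rw [hx3]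
    exact hx1
  · exact hR.preimage (f := fun z : Z × Y => (g z.1, z.2)) ((hg'.comp dfnF_fst).prodMk dfnF_snd)
  · show (g (f w.1), w.2) ∈ R
    rw [hgf']
    exact hwR
  · intro z y hz hzy
    exact h (g z) y hz hzy

end OMB
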