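import Pool.Agent.Lib.MP_fd36ae_lc.G2

/-!
# MP_fd36ae_lc : domination and pigeonhole (paper 3.1)
-/

open FirstOrder Set Cardinal

namespace OMB

universe u

variable {U : Type u} [Str U] {X Y Z W : Type u} [DSort U X] [DSort U Y] [DSort U Z] [DSort U W]
  {A B : Set U}

/-- the projection of the witness is in the dominating type -/
private theorem dom_proj_mem {p : GType U X} {w : X × Y} (h : Rl p A w.1)
    {S : Set (X × Y)} (hS : Dfn A S) (hw : w ∈ S) : {x | ∃ y, (x, y) ∈ S} ∈ p.F := by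
  have h1 : Dfn A {x : X | ∃ y : Y, (x, y) ∈ S} :=
    Dfn.ex (P := fun (x : X) (y : Y) => (x, y) ∈ S) hS
  exact (h.mem_iff h1).1 ⟨w.2, hw⟩

/-- the definable set of values -/
private theorem dom_dfn_vals {S : Set (X × Y)} (hS : Dfn A S) {F : Y → U}
    (hF : DfnF A F) : Dfn A {p : U × X | ∃ y, (p.2, y) ∈ S ∧ F y = p.1} := by
  refine Dfn.ex (P := fun (p : U × X) (y : Y) => (p.2, y) ∈ S ∧ F y = p.1) (Dfn.and ?_ ?_)
  · exact hS.preimage (f := fun w : (U × X) × Y => (w.1.2, w.2))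
      ((dfnF_snd.comp dfnF_fst).prodMk dfnF_snd)
  · exact Dfn.eq (f := fun w : (U × X) × Y => F w.2) (g := fun w => w.1.1)
      (hF.comp dfnF_snd) (dfnF_fst.comp dfnF_fst)

private theorem dom_dfn_vals₁ {S : Set (X × Y)} (hS : Dfn A S) {F : Y → U}
    (hF : DfnF (univ : Set U) F) (x : X) :
    Dfn (univ : Set U) {u | ∃ y, (x, y) ∈ S ∧ F y = u} :=
  (dom_dfn_vals (hS.mono (subset_univ A)) hF).fiber_of (b := x) (subset_univ _)

/-- the definable set of values, with parameters -/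
private theorem dom_dfn_vals₂ {S : Set (X × Y)} (hS : Dfn A S) {F : Y × Z → U}
    (hF : DfnF A F) :
    Dfn A {p : U × (X × Z) | ∃ y, (p.2.1, y) ∈ S ∧ F (y, p.2.2) = p.1} := by
  refine Dfn.ex (P := fun (p : U × (X × Z)) (y : Y) => (p.2.1, y) ∈ S ∧ F (y, p.2.2) = p.1)
    (Dfn.and ?_ ?_)
  · exact hS.preimage (f := fun w : (U × (X × Z)) × Y => (w.1.2.1, w.2))
      ((dfnF_fst.comp (dfnF_snd.comp dfnF_fst)).prodMk dfnF_snd)
  · exact Dfn.eq (f := fun w : (U × (X × Z)) × Y => F (w.2, w.1.2.2)) (g := fun w => w.1.1)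
      (hF.comp (f := fun w : (U × (X × Z)) × Y => (w.2, w.1.2.2))
        (dfnF_snd.prodMk (dfnF_snd.comp (dfnF_snd.comp dfnF_fst)))) (dfnF_fst.comp dfnF_fst)

variable [OMS U]

theorem dfnF_dominf {m : U} {A : Set U} (hm : m ∈ A) {S : Set (X × Y)} (hS : Dfn A S) {F : Y → U}
    (hF : DfnF A F) : DfnF A (fun x => dinf m {u | ∃ y, (x, y) ∈ S ∧ F y = u}) :=
  dfnF_dinf hm (D := {p : U × X | ∃ y, (p.2, y) ∈ S ∧ F y = p.1}) (dom_dfn_vals hS hF)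

theorem dfnF_domsup {m : U} {A : Set U} (hm : m ∈ A) {S : Set (X × Y)} (hS : Dfn A S) {F : Y → U}
    (hF : DfnF A F) : DfnF A (fun x => dsup m {u | ∃ y, (x, y) ∈ S ∧ F y = u}) :=
  dfnF_dsup hm (D := {p : U × X | ∃ y, (p.2, y) ∈ S ∧ F y = p.1}) (dom_dfn_vals hS hF)

/-- paper 3.1, case `s(K)` -/
theorem dom_push_s (hA : Small A) {p : GType U X} {q : GType U Y} {w : X × Y} (h : DomW A p q w)
    {F : Y → U} (hF : DfnF (univ : Set U) F) {K : Set U} (hK : Small K)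
    (hθ : IsS (q.map F hF) K) (m : U) : ∃ S : Set (X × Y), Dfn A S ∧ w ∈ S ∧
      ∀ hY : DfnF (univ : Set U) (fun x => dsup m {u | ∃ y, (x, y) ∈ S ∧ F y = u}),
        p.map _ hY = q.map F hF := by
  obtain ⟨hp, hq, hdom⟩ := h
  let J : Type u := {S : Set (X × Y) // Dfn A S ∧ w ∈ S}
  have hJ : #J < Str.κ U := by
    refine lt_of_le_of_lt ?_ (card_dfn (X := X × Y) hA)
    refine Cardinal.mk_le_of_injective
      (f := fun S : J => (⟨S.1, S.2.1⟩ : {D : Set (X × Y) // Dfn A D})) ?_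
    intro S T hST
    exact Subtype.ext (congrArg (fun D : {D : Set (X × Y) // Dfn A D} => D.1) hST)
  obtain ⟨S, hS⟩ := hθ.pigeon hK hJ
    (P := fun S z => ∃ P ∈ p.F, ∀ x y, x ∈ P → (x, y) ∈ S.1 → F y < z) (by
      intro z hz
      have hz' : {y | F y < z} ∈ q.F := hz
      obtain ⟨P, hP, R, hR, hwR, hPR⟩ := hdom _ (Dfn.lt hF (dfnF_const (subset_univ _))) hz'
      exact ⟨⟨R, hR, hwR⟩, P, hP, hPR⟩)
  refine ⟨S.1, S.2.1, S.2.2, fun hY => ?_⟩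
  refine hθ.1.eq_of_lo_hi (fun z hz => ?_) (fun z hz => ?_)
  · obtain ⟨k, hk, hzk⟩ := hθ.lo_iff.1 hz
    have hk' : {y | k < F y} ∈ q.F := hθ.lo_iff.2 ⟨k, hk, le_rfl⟩
    obtain ⟨P, hP, R, hR, hwR, hPR⟩ := hdom _ (Dfn.lt (dfnF_const (subset_univ _)) hF) hk'
    obtain ⟨z₁, hz₁, -⟩ := hθ.big hK (Z := ∅) small_empty (fun z hz => hz.elim)
    obtain ⟨z₂, -, -, P₂, hP₂, hb⟩ := hS z₁ hz₁
    have h1 := dom_proj_mem (w := w) hp (S.2.1.inter hR) ⟨S.2.2, hwR⟩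
    show {x | z < dsup m {u | ∃ y, (x, y) ∈ S.1 ∧ F y = u}} ∈ p.F
    refine Filter.mem_of_superset (Filter.inter_mem h1 (Filter.inter_mem hP hP₂)) ?_
    rintro x ⟨⟨y, hyS, hyR⟩, hxP, hxP₂⟩
    have h2 : IsLUB {u | ∃ y, (x, y) ∈ S.1 ∧ F y = u} (dsup m {u | ∃ y, (x, y) ∈ S.1 ∧ F y = u}) := by
      refine isLUB_dsup (dom_dfn_vals₁ S.2.1 hF x) ⟨F y, y, hyS, rfl⟩ ⟨z₂, ?_⟩
      rintro u ⟨y', hy', rfl⟩
      exact (hb x y' hxP₂ hy').le
    have h3 : F y ≤ dsup m {u | ∃ y, (x, y) ∈ S.1 ∧ F y = u} := h2.1 ⟨y, hyS, rfl⟩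
    exact lt_of_le_of_lt hzk (lt_of_lt_of_le (hPR x y hxP hyR) h3)
  · obtain ⟨z₂, hz₂, -, P₂, hP₂, hb⟩ := hS z hz
    have h1 := dom_proj_mem (w := w) hp S.2.1 S.2.2
    show {x | dsup m {u | ∃ y, (x, y) ∈ S.1 ∧ F y = u} < z} ∈ p.F
    refine Filter.mem_of_superset (Filter.inter_mem h1 hP₂) ?_
    rintro x ⟨⟨y, hyS⟩, hxP₂⟩
    have hub : z₂ ∈ upperBounds {u | ∃ y, (x, y) ∈ S.1 ∧ F y = u} := by
      rintro u ⟨y', hy', rfl⟩
      exact (hb x y' hxP₂ hy').le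
    have h2 : IsLUB {u | ∃ y, (x, y) ∈ S.1 ∧ F y = u} (dsup m {u | ∃ y, (x, y) ∈ S.1 ∧ F y = u}) :=
      isLUB_dsup (dom_dfn_vals₁ S.2.1 hF x) ⟨F y, y, hyS, rfl⟩ ⟨z₂, hub⟩
    exact lt_of_le_of_lt (h2.2 hub) hz₂

/-- paper 3.1, case `i(K)` -/
theorem dom_push_i (hA : Small A) {p : GType U X} {q : GType U Y} {w : X × Y} (h : DomW A p q w)
    {F : Y → U} (hF : DfnF (univ : Set U) F) {K : Set U} (hK : Small K)
    (hθ : IsI (q.map F hF) K) (m : U) : ∃ S : Set (X × Y), Dfn A S ∧ w ∈ S ∧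
      ∀ hY : DfnF (univ : Set U) (fun x => dinf m {u | ∃ y, (x, y) ∈ S ∧ F y = u}),
        p.map _ hY = q.map F hF := by
  obtain ⟨hp, hq, hdom⟩ := h
  let J : Type u := {S : Set (X × Y) // Dfn A S ∧ w ∈ S}
  have hJ : #J < Str.κ U := by
    refine lt_of_le_of_lt ?_ (card_dfn (X := X × Y) hA)
    refine Cardinal.mk_le_of_injective
      (f := fun S : J => (⟨S.1, S.2.1⟩ : {D : Set (X × Y) // Dfn A D})) ?_
    intro S T hST
    exact Subtype.ext (congrArg (fun D : {D : Set (X × Y) // Dfn A D} => D.1) hST)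
  obtain ⟨S, hS⟩ := hθ.pigeon hK hJ
    (P := fun S z => ∃ P ∈ p.F, ∀ x y, x ∈ P → (x, y) ∈ S.1 → z < F y) (by
      intro z hz
      have hz' : {y | z < F y} ∈ q.F := hz
      obtain ⟨P, hP, R, hR, hwR, hPR⟩ := hdom _ (Dfn.lt (dfnF_const (subset_univ _)) hF) hz'
      exact ⟨⟨R, hR, hwR⟩, P, hP, hPR⟩)
  refine ⟨S.1, S.2.1, S.2.2, fun hY => ?_⟩
  refine hθ.1.eq_of_lo_hi (fun z hz => ?_) (fun z hz => ?_)
  · obtain ⟨z₂, hz₂, -, P₂, hP₂, hb⟩ := hS z hz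
    have h1 := dom_proj_mem (w := w) hp S.2.1 S.2.2
    show {x | z < dinf m {u | ∃ y, (x, y) ∈ S.1 ∧ F y = u}} ∈ p.F
    refine Filter.mem_of_superset (Filter.inter_mem h1 hP₂) ?_
    rintro x ⟨⟨y, hyS⟩, hxP₂⟩
    have hub : z₂ ∈ lowerBounds {u | ∃ y, (x, y) ∈ S.1 ∧ F y = u} := by
      rintro u ⟨y', hy', rfl⟩
      exact (hb x y' hxP₂ hy').le
    have h2 : IsGLB {u | ∃ y, (x, y) ∈ S.1 ∧ F y = u} (dinf m {u | ∃ y, (x, y) ∈ S.1 ∧ F y = u}) :=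
      isGLB_dinf (dom_dfn_vals₁ S.2.1 hF x) ⟨F y, y, hyS, rfl⟩ ⟨z₂, hub⟩
    exact lt_of_lt_of_le hz₂ (h2.2 hub)
  · obtain ⟨k, hk, hzk⟩ := hθ.hi_iff.1 hz
    have hk' : {y | F y < k} ∈ q.F := hθ.hi_iff.2 ⟨k, hk, le_rfl⟩
    obtain ⟨P, hP, R, hR, hwR, hPR⟩ := hdom _ (Dfn.lt hF (dfnF_const (subset_univ _))) hk'
    obtain ⟨z₁, hz₁, -⟩ := hθ.big hK (Z := ∅) small_empty (fun z hz => hz.elim)
    obtain ⟨z₂, -, -, P₂, hP₂, hb⟩ := hS z₁ hz₁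
    have h1 := dom_proj_mem (w := w) hp (S.2.1.inter hR) ⟨S.2.2, hwR⟩
    show {x | dinf m {u | ∃ y, (x, y) ∈ S.1 ∧ F y = u} < z} ∈ p.F
    refine Filter.mem_of_superset (Filter.inter_mem h1 (Filter.inter_mem hP hP₂)) ?_
    rintro x ⟨⟨y, hyS, hyR⟩, hxP, hxP₂⟩
    have h2 : IsGLB {u | ∃ y, (x, y) ∈ S.1 ∧ F y = u} (dinf m {u | ∃ y, (x, y) ∈ S.1 ∧ F y = u}) := by
      refine isGLB_dinf (dom_dfn_vals₁ S.2.1 hF x) ⟨F y, y, hyS, rfl⟩ ⟨z₂, ?_⟩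
      rintro u ⟨y', hy', rfl⟩
      exact (hb x y' hxP₂ hy').le
    have h3 : dinf m {u | ∃ y, (x, y) ∈ S.1 ∧ F y = u} ≤ F y := h2.1 ⟨y, hyS, rfl⟩
    exact lt_of_lt_of_le (lt_of_le_of_lt h3 (hPR x y hxP hyR)) hzk

/-- paper 3.1 with parameters: if `p` dominates `q` over `A` and `F : Y × Z → U` is `A`-definable
with `q.map F(·,d)` non-realised, there is an `A`-definable `G` with
`p.map G(·,d') = q.map F(·,d')` for all `d' ≡_A d`. -/
theorem dom_push (hA : Small A) {m : U} (hm : m ∈ A) {p : GType U X} {q : GType U Y}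
    (hp : Inv A p) (hq : Inv A q) {w : X × Y} (h : DomW A p q w) {F : Y × Z → U}
    (hF : DfnF A F) {d : Z} (hn : NR (q.map (fun y => F (y, d)) (hF.fib d))) :
    ∃ (G : X × Z → U) (hG : DfnF A G), ∀ d', Eqv A d d' →
      p.map (fun x => G (x, d')) (hG.fib d') = q.map (fun y => F (y, d')) (hF.fib d') := by
  have hfam : Fam A (fun d : Z => q.map (fun y => F (y, d)) (hF.fib d)) := (hq.fam (Y := Z)).mapc hF
  have hAd : Small (A ∪ co U d) := hA.union_co d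
  have hinv : Inv (A ∪ co U d) (q.map (fun y => F (y, d)) (hF.fib d)) := hfam.inv d
  rcases classify hAd hinv hn with hs | hs
  · have hK : Small {x | x ∈ Dcl (A ∪ co U d) ∧ Lo (q.map (fun y => F (y, d)) (hF.fib d)) x} :=
      (small_dcl hAd).mono (fun x hx => hx.1)
    obtain ⟨S, hSA, hwS, hS⟩ := dom_push_s hA h (hF.fib d) hK hs m
    have hG : DfnF A (fun t : X × Z => dsup m {u | ∃ y, (t.1, y) ∈ S ∧ F (y, t.2) = u}) :=
      dfnF_dsup hm (D := {p : U × (X × Z) | ∃ y, (p.2.1, y) ∈ S ∧ F (y, p.2.2) = p.1})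
        (dom_dfn_vals₂ hSA hF)
    refine ⟨_, hG, fun d' hd' => ?_⟩
    have hfam' : Fam A (fun d : Z => p.map
        (fun x => (fun t : X × Z => dsup m {u | ∃ y, (t.1, y) ∈ S ∧ F (y, t.2) = u}) (x, d))
        (hG.fib d)) := (hp.fam (Y := Z)).mapc hG
    exact (Fam.eq hA hfam' hfam d d' hd').1 (hS (hG.fib d))
  · have hK : Small {x | x ∈ Dcl (A ∪ co U d) ∧ Hi (q.map (fun y => F (y, d)) (hF.fib d)) x} :=
      (small_dcl hAd).mono (fun x hx => hx.1)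
    obtain ⟨S, hSA, hwS, hS⟩ := dom_push_i hA h (hF.fib d) hK hs m
    have hG : DfnF A (fun t : X × Z => dinf m {u | ∃ y, (t.1, y) ∈ S ∧ F (y, t.2) = u}) :=
      dfnF_dinf hm (D := {p : U × (X × Z) | ∃ y, (p.2.1, y) ∈ S ∧ F (y, p.2.2) = p.1})
        (dom_dfn_vals₂ hSA hF)
    refine ⟨_, hG, fun d' hd' => ?_⟩
    have hfam' : Fam A (fun d : Z => p.map
        (fun x => (fun t : X × Z => dinf m {u | ∃ y, (t.1, y) ∈ S ∧ F (y, t.2) = u}) (x, d))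
        (hG.fib d)) := (hp.fam (Y := Z)).mapc hG
    exact (Fam.eq hA hfam' hfam d d' hd').1 (hS (hG.fib d))

/-- corollary: definable images of the dominated type are definable images of the dominating one -/
theorem Dom.img {p : GType U X} {q : GType U Y} (h : Dom p q) {θ : GType U U} (hθ : NR θ)
    (hi : Img q θ) : Img p θ := by
  obtain ⟨A, hA, hp, hq, w, hw⟩ := h
  obtain ⟨B, hB, -, hBθ⟩ := hi.inv hA hq
  obtain ⟨F, hF, rfl⟩ := hi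
  rcases classify hB hBθ hθ with hs | hs
  · obtain ⟨S, hSA, -, hS⟩ := dom_push_s hA hw hF ((small_dcl hB).mono (fun x hx => hx.1)) hs
      (Str.pt : U)
    have hY := dfnF_domsup (mem_univ (Str.pt : U)) (hSA.mono (subset_univ A)) hF
    exact ⟨_, hY, hS hY⟩
  · obtain ⟨S, hSA, -, hS⟩ := dom_push_i hA hw hF ((small_dcl hB).mono (fun x hx => hx.1)) hs
      (Str.pt : U)
    have hY := dfnF_dominf (mem_univ (Str.pt : U)) (hSA.mono (subset_univ A)) hF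
    exact ⟨_, hY, hS hY⟩

end OMB
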