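import Pool.Agent.Lib.MP_fd36ae_lc.G2b

/-!
# MP_fd36ae_lc : products of 1-types along lists of indices
-/

open FirstOrder Set Cardinal

namespace OMB

universe u

variable {U : Type u} [Str U] {X Y Z W : Type u} [DSort U X] [DSort U Y] [DSort U Z] [DSort U W]
  {A B : Set U} {n : ℕ}

theorem dfnF_update (i : Fin n) :
    DfnF A (fun p : (Fin n → U) × U => Function.update p.1 i p.2) := by
  refine DfnF.pi fun j => ?_
  by_cases hj : j = i
  · subst hj
    simp only [Function.update_self]
    exact dfnF_snd
  · have h1 : (fun p : (Fin n → U) × U => Function.update p.1 i p.2 j) = fun p => p.1 j := by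
      funext p
      rw [Function.update_of_ne hj]
    rw [h1]
    exact (dfnF_proj j).comp dfnF_fst

open Classical in
/-- the product of the types `q i`, `i ∈ ω`, realised from the end of the list to its head; the
remaining coordinates are `m`. Junk if the types are not invariant. -/
noncomputable def prodL (q : Fin n → GType U U) (m : U) : List (Fin n) → GType U (Fin n → U)
  | [] => rTy (fun _ => m)
  | i :: ω =>
    if h : DepOK (prodL q m ω) (fun _ => q i) then
      (dep (prodL q m ω) (fun _ => q i) h).map (fun p => Function.update p.1 i p.2)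
        (dfnF_update i)
    else rTy (fun _ => m)

theorem prodL_nil (q : Fin n → GType U U) (m : U) : prodL q m [] = rTy (fun _ => m) := rfl

private theorem g3_const {m : U} (hm : m ∈ A) : co U (fun _ : Fin n => m) ⊆ A := by
  rw [co_pi]
  rintro _ ⟨_, rfl⟩
  exact hm

private theorem g3_inv (hA : Small A) {m : U} (hm : m ∈ A) {q : Fin n → GType U U}
    (hq : ∀ i, Inv A (q i)) (ω : List (Fin n)) : Inv A (prodL q m ω) := by
  induction ω with
  | nil => exact inv_rTy (g3_const hm)
  | cons i ω ih =>
    have ok : DepOK (prodL q m ω) (fun _ => q i) := ⟨A, hA, ih, (hq i).fam⟩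
    rw [prodL, dif_pos ok]
    exact (Inv.dep ok hA ih (hq i).fam).map (dfnF_update i) _

theorem prodL_ok (hA : Small A) {m : U} (hm : m ∈ A) {q : Fin n → GType U U}
    (hq : ∀ i, Inv A (q i)) (i : Fin n) (ω : List (Fin n)) :
    Inv A (prodL q m ω) ∧ DepOK (prodL q m ω) (fun _ => q i) :=
  ⟨g3_inv hA hm hq ω, A, hA, g3_inv hA hm hq ω, (hq i).fam⟩

theorem prodL_inv (hA : Small A) {m : U} (hm : m ∈ A) {q : Fin n → GType U U}
    (hq : ∀ i, Inv A (q i)) (ω : List (Fin n)) : Inv A (prodL q m ω) :=
  g3_inv hA hm hq ω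

theorem prodL_cons {q : Fin n → GType U U} {m : U} {i : Fin n} {ω : List (Fin n)}
    (ok : DepOK (prodL q m ω) (fun _ => q i)) : prodL q m (i :: ω) =
      (dep (prodL q m ω) (fun _ => q i) ok).map (fun p => Function.update p.1 i p.2)
        (dfnF_update i) := by
  rw [prodL, dif_pos ok]

/-- `t` realises over `A` the product along `ω` (flat form, coordinates outside `ω` are free) -/
def RL (q : Fin n → GType U U) (A : Set U) : List (Fin n) → (Fin n → U) → Prop
  | [], _ => True
  | i :: ω, t => RL q A ω t ∧ Rl (q i) (A ∪ {x | ∃ j ∈ ω, x = t j}) (t i)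

private theorem g3_congr {q : Fin n → GType U U} {ω : List (Fin n)} {t t' : Fin n → U}
    (h : ∀ j ∈ ω, t j = t' j) (ht : RL q A ω t) : RL q A ω t' := by
  induction ω with
  | nil => exact trivial
  | cons i ω ih =>
    refine ⟨ih (fun j hj => h j (List.mem_cons_of_mem i hj)) ht.1, ?_⟩
    have h2 := ht.2
    rw [h i List.mem_cons_self] at h2
    refine h2.mono (union_subset_union_right A ?_)
    rintro x ⟨j, hj, rfl⟩
    exact ⟨j, hj, (h j (List.mem_cons_of_mem i hj)).symm⟩

theorem rl_prodL (hA : Small A) {m : U} (hm : m ∈ A) {q : Fin n → GType U U}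
    (hq : ∀ i, Inv A (q i)) {ω : List (Fin n)} (hω : ω.Nodup) {t : Fin n → U} :
    Rl (prodL q m ω) A t ↔ RL q A ω t ∧ ∀ j, j ∉ ω → t j = m := by
  induction ω generalizing t with
  | nil =>
    constructor
    · intro h
      refine ⟨trivial, fun j _ => ?_⟩
      have h1 : t ∈ ({fun _ : Fin n => m} : Set (Fin n → U)) :=
        h _ (dfn_singleton (g3_const hm)) (mem_rTy.2 (Set.mem_singleton _))
      rw [Set.mem_singleton_iff] at h1
      rw [h1]
    · rintro ⟨-, h⟩ D _ hD
      have h1 : t = fun _ => m := funext fun j => h j List.not_mem_nil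
      rw [h1]
      exact mem_rTy.1 hD
  | cons i ω ih =>
    have hi : i ∉ ω := (List.nodup_cons.1 hω).1
    have ih := @ih (List.nodup_cons.1 hω).2
    have hinv := g3_inv hA hm hq ω
    have ok : DepOK (prodL q m ω) (fun _ => q i) := (prodL_ok hA hm hq i ω).2
    rw [prodL_cons ok]
    have hfam : Fam A (fun _ : Fin n → U => q i) := (hq i).fam
    constructor
    · intro h
      obtain ⟨w, hw⟩ := exists_rl (dep (prodL q m ω) (fun _ => q i) ok) hA
      have h1 := hw.map (dfnF_update (A := A) i)
      have h2 : Eqv A (Function.update w.1 i w.2) t := h1.eqv h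
      obtain ⟨w', hw'⟩ := sat_eqv hA h2 w
      have h3 : Rl (dep (prodL q m ω) (fun _ => q i) ok) A w' := hw.of_eqv hw'.snd
      have h4 : Function.update w'.1 i w'.2 = t := by
        have hD : Dfn A {p : (Fin n → U) × ((Fin n → U) × U) |
            Function.update p.2.1 i p.2.2 = p.1} :=
          Dfn.eq ((dfnF_update i).comp dfnF_snd) dfnF_fst
        exact (hw' _ hD).1 rfl
      obtain ⟨t', x'⟩ := w'
      obtain ⟨h5, h6⟩ := (rl_dep ok hA hinv hfam).1 h3
      obtain ⟨h7, h8⟩ := ih.1 h5
      simp only at h4
      have h9 : ∀ j, j ≠ i → t j = t' j := by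
        intro j hj
        rw [← h4, Function.update_of_ne hj]
      have h10 : t i = x' := by rw [← h4, Function.update_self]
      have h11 : ∀ j ∈ ω, t' j = t j := fun j hj => (h9 j (fun e => hi (e ▸ hj))).symm
      refine ⟨⟨g3_congr h11 h7, ?_⟩, ?_⟩
      · rw [h10]
        refine h6.mono (union_subset_union_right A ?_)
        rintro x ⟨j, hj, rfl⟩
        rw [co_pi]
        exact ⟨j, h11 j hj⟩
      · intro j hj
        rw [List.mem_cons, not_or] at hj
        rw [h9 j hj.1]
        exact h8 j hj.2
    · rintro ⟨⟨h1, h2⟩, h3⟩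
      have h4 : Rl (prodL q m ω) A (Function.update t i m) := by
        refine ih.2 ⟨g3_congr (t := t) (fun j hj => ?_) h1, fun j hj => ?_⟩
        · rw [Function.update_of_ne (fun e : j = i => hi (e ▸ hj))]
        · by_cases hji : j = i
          · rw [hji, Function.update_self]
          · rw [Function.update_of_ne hji]
            exact h3 j (by rw [List.mem_cons, not_or]; exact ⟨hji, hj⟩)
      have h5 : Rl (q i) (A ∪ co U (Function.update t i m)) (t i) := by
        refine h2.mono (union_subset subset_union_left ?_)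
        rw [co_pi]
        rintro _ ⟨j, rfl⟩
        by_cases hji : j = i
        · rw [hji, Function.update_self]
          exact Or.inl hm
        · rw [Function.update_of_ne hji]
          by_cases hj : j ∈ ω
          · exact Or.inr ⟨j, hj, rfl⟩
          · rw [h3 j (by rw [List.mem_cons, not_or]; exact ⟨hji, hj⟩)]
            exact Or.inl hm
      have h6 : Rl (dep (prodL q m ω) (fun _ => q i) ok) A (Function.update t i m, t i) :=
        (rl_dep ok hA hinv hfam).2 ⟨h4, h5⟩
      have h7 := h6.map (dfnF_update (A := A) i)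
      have h8 : Function.update (Function.update t i m) i (t i) = t := by
        rw [Function.update_idem, Function.update_eq_self]
      simp only at h7
      rw [h8] at h7
      exact h7

theorem RL.mono {q : Fin n → GType U U} {ω : List (Fin n)} {t : Fin n → U} (h : RL q B ω t)
    (hAB : A ⊆ B) : RL q A ω t := by
  induction ω with
  | nil => exact trivial
  | cons i ω ih => exact ⟨ih h.1, h.2.mono (union_subset_union_left _ hAB)⟩

/-- lists with the same elements and comparable realisations give the same product -/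
theorem prodL_congr (hA : Small A) {m : U} (hm : m ∈ A) {q : Fin n → GType U U}
    (hq : ∀ i, Inv A (q i)) {ω ω' : List (Fin n)} (hω : ω.Nodup) (hω' : ω'.Nodup)
    (hmem : ∀ j, j ∈ ω ↔ j ∈ ω')
    (h : ∀ B, Small B → A ⊆ B → ∀ t, RL q B ω t → RL q B ω' t) :
    prodL q m ω = prodL q m ω' := by
  refine GType.ext_rl hA fun B hB hAB => ?_
  obtain ⟨t, ht⟩ := exists_rl (prodL q m ω) hB
  refine ⟨t, ht, ?_⟩
  have hq' : ∀ i, Inv B (q i) := fun i => (hq i).mono hAB
  obtain ⟨h1, h2⟩ := (rl_prodL hB (hAB hm) hq' hω).1 ht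
  exact (rl_prodL hB (hAB hm) hq' hω').2
    ⟨h B hB hAB t h1, fun j hj => h2 j (fun hj' => hj ((hmem j).1 hj'))⟩

end OMB
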