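import Pool.Agent.Lib.MP_fd36ae_lc.G3b

/-!
# MP_fd36ae_lc : avoidance, commuting, the box lemma (paper 5.0, 5.1, 6.1)
-/

open FirstOrder Set Cardinal

namespace OMB

universe u

variable {U : Type u} [Str U] {X Y Z W : Type u} [DSort U X] [DSort U Y] [DSort U Z] [DSort U W]
  {A B : Set U} [OMS U]

private theorem small_insert (hA : Small A) (z : U) : Small (A ∪ {z}) :=
  hA.union (small_of_finite (Set.finite_singleton z))

private theorem dfnF_par {z : U} : DfnF (A ∪ {z}) (fun _ : Y => z) :=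
  dfnF_const (by rw [co_U]; exact subset_union_right)

/-- paper 5.0 -/
theorem avoid_hi (hA : Small A) {𝒲 : GType U Y} (hW : Inv A 𝒲) {q : GType U U} (hn : NR q)
    (hav : ¬ Img 𝒲 q) {g : Y → U} (hg : DfnF A g) (h : ∀ v, Rl 𝒲 A v → Hi q (g v)) :
    ∃ t, Hi q t ∧ {v | t ≤ g v} ∈ 𝒲.F := by
  by_contra hcon
  push Not at hcon
  refine hav ⟨g, hg.mono (subset_univ _), ?_⟩
  refine hn.eq_of_lo_hi (fun z hz => ?_) (fun z hz => ?_)
  · show {v | z < g v} ∈ 𝒲.F
    have hD : Dfn (A ∪ {z}) {v | z < g v} := Dfn.lt dfnF_par (hg.mono subset_union_left)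
    rw [GType.mem_iff_rl hD (small_insert hA z)]
    intro v hv
    exact lt_of_lo_hi hz (h v (hv.mono subset_union_left))
  · show {v | g v < z} ∈ 𝒲.F
    have hD : Dfn (A ∪ {z}) {v | z ≤ g v} := Dfn.le dfnF_par (hg.mono subset_union_left)
    have h1 := (𝒲.not_eventually (hD.mono (subset_univ _))).2 (hcon z hz)
    refine Filter.mem_of_superset h1 (fun v hv => ?_)
    exact lt_of_not_ge hv

theorem avoid_lo (hA : Small A) {𝒲 : GType U Y} (hW : Inv A 𝒲) {q : GType U U} (hn : NR q)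
    (hav : ¬ Img 𝒲 q) {g : Y → U} (hg : DfnF A g) (h : ∀ v, Rl 𝒲 A v → Lo q (g v)) :
    ∃ t, Lo q t ∧ {v | g v ≤ t} ∈ 𝒲.F := by
  by_contra hcon
  push Not at hcon
  refine hav ⟨g, hg.mono (subset_univ _), ?_⟩
  refine hn.eq_of_lo_hi (fun z hz => ?_) (fun z hz => ?_)
  · show {v | z < g v} ∈ 𝒲.F
    have hD : Dfn (A ∪ {z}) {v | g v ≤ z} := Dfn.le (hg.mono subset_union_left) dfnF_par
    have h1 := (𝒲.not_eventually (hD.mono (subset_univ _))).2 (hcon z hz)
    refine Filter.mem_of_superset h1 (fun v hv => ?_)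
    exact lt_of_not_ge hv
  · show {v | g v < z} ∈ 𝒲.F
    have hD : Dfn (A ∪ {z}) {v | g v < z} := Dfn.lt (hg.mono subset_union_left) dfnF_par
    rw [GType.mem_iff_rl hD (small_insert hA z)]
    intro v hv
    exact lt_of_lo_hi (h v (hv.mono subset_union_left)) hz

/-- `{v : g v < q}` is invariant -/
private theorem lo_aInv {q : GType U U} (hq : Inv A q) {g : Y → U} (hg : DfnF A g) :
    AInv A {v | Lo q (g v)} := by
  have h1 : AInv A {p : U × PUnit.{u+1} | Lo q p.1} := (hq.fam (Y := PUnit.{u+1})).lo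
  have h2 : DfnF A (fun v : Y => (g v, PUnit.unit.{u+1})) :=
    hg.prodMk (dfnF_const (by rw [co_punit]; exact empty_subset _))
  exact h1.preimage h2

private theorem hi_aInv {q : GType U U} (hq : Inv A q) {g : Y → U} (hg : DfnF A g) :
    AInv A {v | Hi q (g v)} := by
  have h1 : AInv A {p : U × PUnit.{u+1} | Hi q p.1} := (hq.fam (Y := PUnit.{u+1})).hi
  have h2 : DfnF A (fun v : Y => (g v, PUnit.unit.{u+1})) :=
    hg.prodMk (dfnF_const (by rw [co_punit]; exact empty_subset _))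
  exact h1.preimage h2

private theorem commute_hi (hA : Small A) {𝒲 : GType U Y} (hW : Inv A 𝒲)
    {q : GType U U} (hq : Inv A q) (hn : NR q) (hav : ¬ Img 𝒲 q) {τ : U} {v : Y}
    (hτ : Rl q A τ) (hv : Rl 𝒲 (A ∪ {τ}) v) {f : Y → U} (hf : DfnF A f) (hfv : Hi q (f v)) :
    τ < f v := by
  by_contra hcon
  rw [not_lt] at hcon
  -- `{τ' : f ≤ τ'} ∈ 𝒲`
  have hP : Dfn A {p : Y × U | f p.1 ≤ p.2} := Dfn.le (hf.comp dfnF_fst) dfnF_snd
  have hS : AInv A {τ' : U | {v | f v ≤ τ'} ∈ 𝒲.F} := hW.gen hP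
  have hτS : {v | f v ≤ τ} ∈ 𝒲.F := by
    have hD : Dfn (A ∪ {τ}) {v | f v ≤ τ} := Dfn.le (hf.mono subset_union_left) dfnF_par
    exact (hv.mem_iff hD).1 hcon
  refine hav ⟨f, hf.mono (subset_univ _), ?_⟩
  refine hn.eq_of_lo_hi (fun z hz => ?_) (fun z hz => ?_)
  · show {v | z < f v} ∈ 𝒲.F
    have hD : Dfn (A ∪ {z}) {v | z < f v} := Dfn.lt dfnF_par (hf.mono subset_union_left)
    rw [GType.mem_iff_rl hD (small_insert hA z)]
    intro v' hv'
    have h1 : Eqv A v v' := (hv.mono subset_union_left).eqv (hv'.mono subset_union_left)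
    exact lt_of_lo_hi hz ((hi_aInv hq hf).transfer h1 hfv)
  · show {v | f v < z} ∈ 𝒲.F
    obtain ⟨τ', hτ'⟩ := exists_rl q (small_insert hA z)
    have h1 : Eqv A τ τ' := hτ.eqv (hτ'.mono subset_union_left)
    have h2 : {v | f v ≤ τ'} ∈ 𝒲.F := hS.transfer (P := fun τ' => {v | f v ≤ τ'} ∈ 𝒲.F) h1 hτS
    have h3 : τ' < z := hτ' {x : U | x < z} (dfn_Iio (Or.inr rfl)) hz
    exact Filter.mem_of_superset h2 (fun v hv => lt_of_le_of_lt hv h3)

private theorem commute_lo (hA : Small A) {𝒲 : GType U Y} (hW : Inv A 𝒲)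
    {q : GType U U} (hq : Inv A q) (hn : NR q) (hav : ¬ Img 𝒲 q) {τ : U} {v : Y}
    (hτ : Rl q A τ) (hv : Rl 𝒲 (A ∪ {τ}) v) {f : Y → U} (hf : DfnF A f) (hfv : Lo q (f v)) :
    f v < τ := by
  by_contra hcon
  rw [not_lt] at hcon
  have hP : Dfn A {p : Y × U | p.2 ≤ f p.1} := Dfn.le dfnF_snd (hf.comp dfnF_fst)
  have hS : AInv A {τ' : U | {v | τ' ≤ f v} ∈ 𝒲.F} := hW.gen hP
  have hτS : {v | τ ≤ f v} ∈ 𝒲.F := by
    have hD : Dfn (A ∪ {τ}) {v | τ ≤ f v} := Dfn.le dfnF_par (hf.mono subset_union_left)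
    exact (hv.mem_iff hD).1 hcon
  refine hav ⟨f, hf.mono (subset_univ _), ?_⟩
  refine hn.eq_of_lo_hi (fun z hz => ?_) (fun z hz => ?_)
  · show {v | z < f v} ∈ 𝒲.F
    obtain ⟨τ', hτ'⟩ := exists_rl q (small_insert hA z)
    have h1 : Eqv A τ τ' := hτ.eqv (hτ'.mono subset_union_left)
    have h2 : {v | τ' ≤ f v} ∈ 𝒲.F := hS.transfer (P := fun τ' => {v | τ' ≤ f v} ∈ 𝒲.F) h1 hτS
    have h3 : z < τ' := hτ' {x : U | z < x} (dfn_Ioi (Or.inr rfl)) hz
    exact Filter.mem_of_superset h2 (fun v hv => lt_of_lt_of_le h3 hv)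
  · show {v | f v < z} ∈ 𝒲.F
    have hD : Dfn (A ∪ {z}) {v | f v < z} := Dfn.lt (hf.mono subset_union_left) dfnF_par
    rw [GType.mem_iff_rl hD (small_insert hA z)]
    intro v' hv'
    have h1 : Eqv A v v' := (hv.mono subset_union_left).eqv (hv'.mono subset_union_left)
    exact lt_of_lo_hi ((lo_aInv hq hf).transfer h1 hfv) hz

/-- commuting, paper 5.1 -/
theorem commute (hA : Small A) {m : U} (hm : m ∈ A) {𝒲 : GType U Y} (hW : Inv A 𝒲)
    {q : GType U U} (hq : Inv A q) (hn : NR q) (hav : ¬ Img 𝒲 q) {τ : U} {v : Y}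
    (hτ : Rl q A τ) (hv : Rl 𝒲 (A ∪ {τ}) v) : Rl q (A ∪ co U v) τ := by
  intro D hD hDq
  obtain ⟨E, hE, hED⟩ := hn.basis hD hDq
  refine hED (fun e he => ?_)
  obtain ⟨f, hf, hfe⟩ := dcl_param hm (hE he)
  subst hfe
  exact ⟨commute_lo hA hW hq hn hav hτ hv hf, commute_hi hA hW hq hn hav hτ hv hf⟩

/-- box lemma: if `{x : P x v} ∈ q` for all `v ⊨ 𝒲|_A`, there are `s < q < t` such that for
`𝒲`-almost all `v` the whole interval `(s,t)` satisfies `P · v`. -/
theorem box (hA : Small A) {m : U} (hm : m ∈ A) {𝒲 : GType U Y} (hW : Inv A 𝒲)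
    {q : GType U U} (hq : Inv A q) (hn : ND q) (hav : ¬ Img 𝒲 q) {P : U → Y → Prop}
    (hP : Dfn A {p : U × Y | P p.1 p.2}) (h : ∀ v, Rl 𝒲 A v → {x | P x v} ∈ q.F) :
    ∃ s t, Lo q s ∧ Hi q t ∧ {v | ∀ x, s < x → x < t → P x v} ∈ 𝒲.F := by
  classical
  obtain ⟨hNR, ⟨a₀, ha₀⟩, ⟨b₀, hb₀⟩, -, -⟩ := hn
  obtain ⟨v₀, hv₀⟩ := exists_rl 𝒲 hA
  obtain ⟨E, hE, hED⟩ := hNR.basis (hP.fiber v₀) (h v₀ hv₀)
  have hg : ∀ e : U, ∃ g : Y → U, e ∈ E → DfnF A g ∧ g v₀ = e := by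
    intro e
    by_cases he : e ∈ E
    · obtain ⟨g, hg⟩ := dcl_param hm (hE he)
      exact ⟨g, fun _ => hg⟩
    · exact ⟨fun _ => e, fun h => absurd h he⟩
  choose g hg using hg
  -- a common pair `s < q < t`
  have key : ∀ F : Finset U, F ⊆ E → ∃ s t, Lo q s ∧ Hi q t ∧ ∀ e ∈ F,
      (Lo q e → {v | g e v ≤ s} ∈ 𝒲.F) ∧ (Hi q e → {v | t ≤ g e v} ∈ 𝒲.F) := by
    intro F
    induction F using Finset.induction_on with
    | empty => exact fun _ => ⟨a₀, b₀, ha₀, hb₀, fun e he => absurd he (Finset.notMem_empty e)⟩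
    | insert e F _ ih =>
      intro hF
      obtain ⟨s, t, hs, ht, hst⟩ := ih (fun x hx => hF (Finset.mem_insert_of_mem hx))
      obtain ⟨hge, hgv⟩ := hg e (hF (Finset.mem_insert_self e F))
      rcases hNR.lo_or_hi e with he | he
      · obtain ⟨s', hs', hs''⟩ := avoid_lo hA hW hNR hav hge (fun v hv =>
          (lo_aInv hq hge).transfer (hv₀.eqv hv) (by rw [hgv]; exact he))
        refine ⟨max s s', t, ?_, ht, ?_⟩
        · rcases max_choice s s' with h1 | h1 <;> rw [h1] <;> assumption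
        · intro e' he'
          rcases Finset.mem_insert.1 he' with rfl | he'
          · exact ⟨fun _ => Filter.mem_of_superset hs'' (fun v hv => le_trans hv (le_max_right _ _)),
              fun h' => (not_lo_and_hi he h').elim⟩
          · exact ⟨fun h' => Filter.mem_of_superset ((hst e' he').1 h')
              (fun v hv => le_trans hv (le_max_left _ _)), (hst e' he').2⟩
      · obtain ⟨t', ht', ht''⟩ := avoid_hi hA hW hNR hav hge (fun v hv =>
          (hi_aInv hq hge).transfer (hv₀.eqv hv) (by rw [hgv]; exact he))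
        refine ⟨s, min t t', hs, ?_, ?_⟩
        · rcases min_choice t t' with h1 | h1 <;> rw [h1] <;> assumption
        · intro e' he'
          rcases Finset.mem_insert.1 he' with rfl | he'
          · exact ⟨fun h' => (not_lo_and_hi h' he).elim,
              fun _ => Filter.mem_of_superset ht'' (fun v hv => le_trans (min_le_right _ _) hv)⟩
          · exact ⟨(hst e' he').1, fun h' => Filter.mem_of_superset ((hst e' he').2 h')
              (fun v hv => le_trans (min_le_left _ _) hv)⟩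
  obtain ⟨s, t, hs, ht, hst⟩ := key E (Finset.Subset.refl E)
  -- the `A`-definable condition
  have hC : Dfn A {v : Y | ∀ x, (∀ e ∈ E, (Lo q e → g e v < x) ∧ (Hi q e → x < g e v)) → P x v} := by
    refine Dfn.all (P := fun (v : Y) (x : U) =>
      (∀ e ∈ E, (Lo q e → g e v < x) ∧ (Hi q e → x < g e v)) → P x v) (Dfn.imp ?_ ?_)
    · refine Dfn.allFin E (P := fun (e : U) (p : Y × U) =>
        (Lo q e → g e p.1 < p.2) ∧ (Hi q e → p.2 < g e p.1)) (fun e he => ?_)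
      have hge : DfnF A (fun p : Y × U => g e p.1) := (hg e he).1.comp dfnF_fst
      exact ((dfn_const _).imp (Dfn.lt hge dfnF_snd)).and
        ((dfn_const _).imp (Dfn.lt dfnF_snd hge))
    · exact hP.preimage (f := fun p : Y × U => (p.2, p.1)) (dfnF_snd.prodMk dfnF_fst)
  have hC0 : v₀ ∈ {v : Y | ∀ x, (∀ e ∈ E, (Lo q e → g e v < x) ∧ (Hi q e → x < g e v)) →
      P x v} := by
    intro x hx
    refine hED (fun e he => ?_)
    have h1 := hx e he
    rw [(hg e he).2] at h1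
    exact h1
  have hCm := (hv₀.mem_iff hC).1 hC0
  have hFin : {v : Y | ∀ e ∈ E, (Lo q e → g e v ≤ s) ∧ (Hi q e → t ≤ g e v)} ∈ 𝒲.F := by
    have h1 : (⋂ e ∈ E, {v : Y | (Lo q e → g e v ≤ s) ∧ (Hi q e → t ≤ g e v)}) ∈ 𝒲.F := by
      rw [Filter.biInter_finset_mem]
      intro e he
      rcases hNR.lo_or_hi e with h' | h'
      · exact Filter.mem_of_superset ((hst e he).1 h')
          (fun v hv => ⟨fun _ => hv, fun h'' => (not_lo_and_hi h' h'').elim⟩)
      · exact Filter.mem_of_superset ((hst e he).2 h')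
          (fun v hv => ⟨fun h'' => (not_lo_and_hi h'' h').elim, fun _ => hv⟩)
    refine Filter.mem_of_superset h1 (fun v hv e he => ?_)
    exact Set.mem_iInter₂.1 hv e he
  refine ⟨s, t, hs, ht, Filter.mem_of_superset (Filter.inter_mem hCm hFin) ?_⟩
  rintro v ⟨hv1, hv2⟩ x hsx hxt
  exact hv1 x (fun e he => ⟨fun h' => lt_of_le_of_lt ((hv2 e he).1 h') hsx,
    fun h' => lt_of_lt_of_le hxt ((hv2 e he).2 h')⟩)

end OMB
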