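import Pool.Agent.Lib.MP_fd36ae_lc.G4

/-!
# MP_fd36ae_lc : reordering of products, elimination along a list, commuting with a product
(paper 3.2, 5.3)
-/

open FirstOrder Set Cardinal

namespace OMB

universe u

variable {U : Type u} [Str U] {X Y Z W : Type u} [DSort U X] [DSort U Y] [DSort U Z] [DSort U W]
  {A B : Set U} [OMS U] {n : ℕ}

/-- elimination along a list, paper 3.2 -/
theorem prodL_elim (hA : Small A) {m : U} (hm : m ∈ A) {q : Fin n → GType U U}
    (hq : ∀ i, Inv A (q i)) {θ : GType U U} (hθ : NR θ) (hθA : Inv A θ) (ω : List (Fin n))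
    {h : (Fin n → U) → U} (hh : DfnF A h)
    (heq : (prodL q m ω).map h (hh.mono (subset_univ A)) = θ) :
    ∃ (ω₁ : List (Fin n)) (k : Fin n) (ω₂ : List (Fin n)), ω = ω₁ ++ k :: ω₂ ∧
      ∃ (T : U × (Fin n → U) → U) (hT : DfnF A T), ∀ t, Rl (prodL q m ω₂) A t →
        (q k).map (fun x => T (x, t)) (hT.fib t) = θ := by
  induction ω generalizing h with
  | nil =>
    exfalso
    have h1 : (rTy (h (fun _ => m)) : GType U U) = θ := by
      rw [← heq]
      exact (map_rTy (X := Fin n → U) (x := fun _ => m) (f := h)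
        (hf := hh.mono (subset_univ A))).symm
    rw [← h1] at hθ
    exact not_nr_rTy _ hθ
  | cons i ω ih =>
    obtain ⟨_, ok⟩ := prodL_ok hA hm hq i ω
    have hh2 : DfnF A (fun p : (Fin n → U) × U => h (Function.update p.1 i p.2)) :=
      hh.comp (dfnF_update i)
    have heq2 : (dep (prodL q m ω) (fun _ => q i) ok).map
        (fun p : (Fin n → U) × U => h (Function.update p.1 i p.2))
        (hh2.mono (subset_univ A)) = θ := by
      rw [← heq, ← GType.map_map (hf := dfnF_update i) (hg := hh.mono (subset_univ A)),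
        ← prodL_cons ok]
    rcases elim_dep hA hm (prodL_inv hA hm hq ω) ((hq i).fam) ok hh2 hθ hθA heq2 with
      ⟨g, hg, h1⟩ | h1
    · obtain ⟨ω₁, k, ω₂, h2, h3⟩ := ih hg h1
      exact ⟨i :: ω₁, k, ω₂, by rw [h2]; rfl, h3⟩
    · refine ⟨[], i, ω, rfl, fun p => h (Function.update p.2 i p.1),
        hh2.comp (DfnF.prodMk dfnF_snd dfnF_fst), ?_⟩
      intro t ht
      exact h1 t ht

omit [Str U] [OMS U] in
private theorem g5_set_cons {t : Fin n → U} {i : Fin n} {ω : List (Fin n)} :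
    {x | ∃ j ∈ i :: ω, x = t j} = {x | ∃ j ∈ ω, x = t j} ∪ {t i} := by
  ext x
  constructor
  · rintro ⟨j, hj, hx⟩
    rcases List.mem_cons.1 hj with h | h
    · right
      rw [hx, h]
      exact rfl
    · exact Or.inl ⟨j, h, hx⟩
  · rintro (⟨j, hj, hx⟩ | hx)
    · exact ⟨j, List.mem_cons_of_mem _ hj, hx⟩
    · exact ⟨i, List.mem_cons_self .., hx⟩

omit [OMS U] in
private theorem g5_small (hA : Small A) {t : Fin n → U} {ω : List (Fin n)} :
    Small (A ∪ {x | ∃ j ∈ ω, x = t j}) := by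
  refine hA.union (small_of_finite ((Set.finite_range t).subset ?_))
  rintro x ⟨j, _, hx⟩
  exact ⟨j, hx.symm⟩

omit [OMS U] in
private theorem g5_mem {q : Fin n → GType U U} {t : Fin n → U} {i : Fin n}
    {ω ω' : List (Fin n)} (h : ∀ j, j ∈ ω' → j ∈ ω)
    (hi : Rl (q i) (A ∪ {x | ∃ j ∈ ω, x = t j}) (t i)) :
    Rl (q i) (A ∪ {x | ∃ j ∈ ω', x = t j}) (t i) := by
  refine hi.mono (union_subset_union_right _ ?_)
  rintro x ⟨j, hj, hx⟩
  exact ⟨j, h j hj, hx⟩

/-- one step of the reordering: an index `i` which avoids `q j` can be realised before `j` -/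
theorem RL.swap (hA : Small A) {m : U} (hm : m ∈ A) {q : Fin n → GType U U}
    (hq : ∀ i, Inv A (q i)) {i j : Fin n} (hij : NR (q j) → ¬ Img (q i) (q j)) {ω : List (Fin n)}
    {t : Fin n → U} (h : RL q A (i :: j :: ω) t) : RL q A (j :: i :: ω) t := by
  obtain ⟨⟨h1, h2⟩, h3⟩ := h
  have hC : Small (A ∪ {x | ∃ k ∈ ω, x = t k}) := g5_small hA
  rw [g5_set_cons, ← union_assoc] at h3
  refine ⟨⟨h1, h3.mono subset_union_left⟩, ?_⟩
  rw [g5_set_cons, ← union_assoc]
  by_cases hn : NR (q j)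
  · have h4 := commute hC (mem_union_left _ hm) ((hq i).mono subset_union_left)
      ((hq j).mono subset_union_left) hn (hij hn) h2 h3
    rw [co_U] at h4
    exact h4
  · obtain ⟨c, hc⟩ := not_NR hn
    have hqj := hq j
    rw [hc] at hqj
    have hcA : c ∈ Dcl A := inv_rTy_mem hA hqj
    have h4 : t j = c := by
      have h5 : Dfn (A ∪ {x | ∃ k ∈ ω, x = t k}) ({c} : Set U) := Dfn.mono hcA subset_union_left
      exact h2 {c} h5 (by rw [hc, mem_rTy]; exact rfl)
    intro D _ hD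
    rw [hc, mem_rTy] at hD
    rw [h4]
    exact hD

private theorem g5_move (hA : Small A) {m : U} (hm : m ∈ A) {q : Fin n → GType U U}
    (hq : ∀ i, Inv A (q i)) {i : Fin n} (L1 L2 : List (Fin n))
    (hL : ∀ j ∈ L1, NR (q j) → ¬ Img (q i) (q j)) {t : Fin n → U}
    (h : RL q A (i :: (L1 ++ L2)) t) : RL q A (L1 ++ i :: L2) t := by
  induction L1 with
  | nil => exact h
  | cons j L1 ih =>
    have h1 : RL q A (j :: i :: (L1 ++ L2)) t :=
      RL.swap hA hm hq (hL j (List.mem_cons_self ..)) h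
    obtain ⟨h2, h3⟩ := h1
    have h4 := ih (fun k hk => hL k (List.mem_cons_of_mem _ hk)) h2
    refine ⟨h4, g5_mem ?_ h3⟩
    intro k hk
    have hk' : k ∈ L1 ++ i :: L2 := hk
    rw [List.mem_append, List.mem_cons] at hk'
    rw [List.mem_cons, List.mem_append]
    tauto

open Classical in
/-- Reordering: the indices satisfying `Q` can be realised first. -/
theorem RL.reorder (hA : Small A) {m : U} (hm : m ∈ A) {q : Fin n → GType U U}
    (hq : ∀ i, Inv A (q i)) (Q : Fin n → Prop)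
    (hQ : ∀ i j, Q i → ¬ Q j → NR (q j) → ¬ Img (q i) (q j)) {ω : List (Fin n)}
    {t : Fin n → U} (h : RL q A ω t) :
    RL q A (ω.filter (fun i => ¬ Q i) ++ ω.filter (fun i => Q i)) t := by
  induction ω with
  | nil => exact h
  | cons i ω ih =>
    obtain ⟨h1, h2⟩ := h
    have h3 := ih h1
    have h4 : RL q A (i :: (ω.filter (fun i => ¬ Q i) ++ ω.filter (fun i => Q i))) t := by
      refine ⟨h3, g5_mem ?_ h2⟩
      intro j hj
      rw [List.mem_append] at hj
      rcases hj with hj | hj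
      · exact (List.mem_filter.1 hj).1
      · exact (List.mem_filter.1 hj).1
    by_cases hi : Q i
    · have e1 : (i :: ω).filter (fun i => ¬ Q i) = ω.filter (fun i => ¬ Q i) := by
        simp [hi]
      have e2 : (i :: ω).filter (fun i => Q i) = i :: ω.filter (fun i => Q i) := by
        simp [hi]
      rw [e1, e2]
      refine g5_move hA hm hq _ _ (fun j hj => hQ i j hi ?_) h4
      simpa using (List.mem_filter.1 hj).2
    · have e1 : (i :: ω).filter (fun i => ¬ Q i) = i :: ω.filter (fun i => ¬ Q i) := by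
        simp [hi]
      have e2 : (i :: ω).filter (fun i => Q i) = ω.filter (fun i => Q i) := by
        simp [hi]
      rw [e1, e2]
      exact h4

/-- a type avoiding all `q i`, `i ∈ ω`, commutes with the product along `ω` -/
theorem RL.commute (hA : Small A) {m : U} (hm : m ∈ A) {q : Fin n → GType U U}
    (hq : ∀ i, Inv A (q i)) {𝒲 : GType U Y} (hW : Inv A 𝒲) {ω : List (Fin n)}
    (hω : ∀ i ∈ ω, NR (q i) ∧ ¬ Img 𝒲 (q i)) {t : Fin n → U} {v : Y} (ht : RL q A ω t)
    (hv : Rl 𝒲 (A ∪ Set.range t) v) : RL q (A ∪ co U v) ω t := by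
  induction ω with
  | nil => trivial
  | cons i ω ih =>
    obtain ⟨h1, h2⟩ := ht
    refine ⟨ih (fun j hj => hω j (List.mem_cons_of_mem _ hj)) h1, ?_⟩
    obtain ⟨hn, hav⟩ := hω i (List.mem_cons_self ..)
    have hC : Small (A ∪ {x | ∃ k ∈ ω, x = t k}) := g5_small hA
    have h3 := OMB.commute hC (mem_union_left _ hm) (hW.mono subset_union_left)
      ((hq i).mono subset_union_left) hn hav h2 (hv.mono (by
        refine union_subset (union_subset_union_right _ ?_) ?_
        · rintro x ⟨j, _, hx⟩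
          exact ⟨j, hx.symm⟩
        · rintro x rfl
          exact mem_union_right _ ⟨i, rfl⟩))
    rw [union_right_comm] at h3
    exact h3

/-- Transport through a product (case `j = l` of paper 5.3). Let `θ` be an `A`-equivariant family
of non-realised types such that `tensor q` maps to `θ v` by `Y(·,v)` for `v ⊨ 𝒲|_A`, `𝒲` avoids
`q₀` and all `θ v` are images of `q₀`. Then `θ v` is a uniform image of `q₀`. -/
theorem transport_prod (hA : Small A) {m : U} (hm : m ∈ A) {q : Fin n → GType U U}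
    (hq : ∀ i, Inv A (q i)) {𝒲 : GType U Y} (hW : Inv A 𝒲) {q₀ : GType U U} (hn₀ : NR q₀)
    (hq₀ : Inv A q₀) (hav : ¬ Img 𝒲 q₀) {θ : Y → GType U U} (hθ : Fam A θ)
    (hθn : ∀ v, Rl 𝒲 A v → NR (θ v)) (hθq : ∀ v, Rl 𝒲 A v → Img q₀ (θ v))
    {G : (Fin n → U) × Y → U} (hG : DfnF A G)
    (h : ∀ v, Rl 𝒲 A v → (tensor q m).map (fun t => G (t, v)) (hG.fib v) = θ v) :
    ∃ B, Small B ∧ A ⊆ B ∧ ∃ (T : U × Y → U) (hT : DfnF B T), ∀ v, Rl 𝒲 B v →
      q₀.map (fun x => T (x, v)) (hT.fib v) = θ v := by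
  classical
  obtain ⟨Q, hQd⟩ : ∃ Q : Fin n → Prop, ∀ i, Q i ↔ (NR (q i) ∧ Img q₀ (q i)) :=
    ⟨_, fun _ => Iff.rfl⟩
  obtain ⟨v₀, hv₀⟩ := exists_rl 𝒲 hA
  have hA' : Small (A ∪ co U v₀) := hA.union_co v₀
  have hQ : ∀ i j, Q i → ¬ Q j → NR (q j) → ¬ Img (q i) (q j) := by
    intro i j hi hj hn him
    exact hj ((hQd j).2 ⟨hn, ((hQd i).1 hi).2.trans him⟩)
  set ωN := (List.finRange n).filter (fun i => ¬ Q i) with hωN
  set ωQ := (List.finRange n).filter (fun i => Q i) with hωQ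
  have hnd : (ωN ++ ωQ).Nodup := by
    refine List.Nodup.append ((List.nodup_finRange n).filter _) ((List.nodup_finRange n).filter _) ?_
    intro i hi hi'
    have h1 : ¬ Q i := by simpa using (List.mem_filter.1 hi).2
    have h2 : Q i := by simpa using (List.mem_filter.1 hi').2
    exact h1 h2
  have hten : tensor q m = prodL q m (ωN ++ ωQ) := by
    refine prodL_congr hA hm hq (List.nodup_finRange n) hnd ?_ ?_
    · intro j
      constructor
      · intro _
        rw [List.mem_append]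
        by_cases hj : Q j
        · right
          exact List.mem_filter.2 ⟨List.mem_finRange j, by simpa using hj⟩
        · left
          exact List.mem_filter.2 ⟨List.mem_finRange j, by simpa using hj⟩
      · intro _
        exact List.mem_finRange j
    · intro B hB hAB t ht
      exact RL.reorder hB (hAB hm) (fun i => (hq i).mono hAB) Q hQ ht
  have heq : (prodL q m (ωN ++ ωQ)).map (fun t => G (t, v₀))
      ((hG.fiber v₀).mono (subset_univ _)) = θ v₀ := by
    rw [← hten]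
    exact h v₀ hv₀
  obtain ⟨ω₁, k, ω₂, hω, T, hT, hTθ⟩ := prodL_elim hA' (mem_union_left _ hm)
    (fun i => (hq i).mono subset_union_left) (hθn v₀ hv₀) (hθ.inv v₀) (ωN ++ ωQ)
    (hG.fiber v₀) heq
  -- `k` satisfies `Q`
  obtain ⟨t₀, ht₀⟩ := exists_rl (prodL q m ω₂) hA'
  have hk1 := hTθ t₀ ht₀
  have hkI : Img (q k) (θ v₀) := ⟨_, _, hk1⟩
  have hkQ : Q k := by
    refine (hQd k).2 ⟨hkI.nr (hθn v₀ hv₀), ?_⟩
    exact (hθq v₀ hv₀).trans (hkI.symm (hθn v₀ hv₀))
  have hω₂ : ∀ i ∈ ω₂, Q i := by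
    intro i hi
    rcases List.append_eq_append_iff.1 hω with ⟨a, h1, h2⟩ | ⟨c, h1, h2⟩
    · have h3 : i ∈ ωQ := by
        rw [h2]
        exact List.mem_append_right _ (List.mem_cons_of_mem _ hi)
      simpa using (List.mem_filter.1 h3).2
    · cases c with
      | nil =>
        have h3 : i ∈ ωQ := by
          rw [List.nil_append] at h2
          rw [← h2]
          exact List.mem_cons_of_mem _ hi
        simpa using (List.mem_filter.1 h3).2
      | cons c0 c =>
        exfalso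
        rw [List.cons_append, List.cons.injEq] at h2
        have h3 : k ∈ ωN := by
          rw [h1, h2.1]
          exact List.mem_append_right _ (List.mem_cons_self ..)
        have h4 : ¬ Q k := by simpa using (List.mem_filter.1 h3).2
        exact h4 hkQ
  have hnd₂ : ω₂.Nodup := by
    rw [hω] at hnd
    exact (List.nodup_cons.1 (List.Nodup.of_append_right hnd)).2
  -- uniform version
  obtain ⟨T₁, hT₁, hT₁'⟩ := DfnF.param hm hT
  have hf1 : DfnF A (fun p : U × ((Fin n → U) × Y) => T₁ ((p.1, p.2.1), p.2.2)) :=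
    hT₁.comp (DfnF.prodMk (DfnF.prodMk dfnF_fst (dfnF_fst.comp dfnF_snd))
      (dfnF_snd.comp dfnF_snd))
  have hfam1 : Fam A (fun p : (Fin n → U) × Y =>
      (q k).map (fun x => T₁ ((x, p.1), p.2)) (hf1.fib p)) :=
    Fam.mapc ((hq k).fam (Y := (Fin n → U) × Y)) hf1
  have hfam2 : Fam A (fun p : (Fin n → U) × Y => θ p.2) := hθ.comp dfnF_snd
  have hinv1 : AInv A {p : (Fin n → U) × Y | Rl (prodL q m ω₂) (A ∪ co U p.2) p.1 →
      (q k).map (fun x => T₁ ((x, p.1), p.2)) (hf1.fib p) = θ p.2} :=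
    AInv.imp (Inv.rl_aInv (prodL_inv hA hm hq ω₂)) (Fam.eq hA hfam1 hfam2)
  have hinv2 : AInv A {v : Y | ∀ t : Fin n → U, Rl (prodL q m ω₂) (A ∪ co U v) t →
      (q k).map (fun x => T₁ ((x, t), v)) (hf1.fib (t, v)) = θ v} := by
    refine AInv.all (P := fun (v : Y) (t : Fin n → U) => Rl (prodL q m ω₂) (A ∪ co U v) t →
      (q k).map (fun x => T₁ ((x, t), v)) (hf1.fib (t, v)) = θ v) hA ?_
    have h9 := hinv1.preimage (f := fun p : Y × (Fin n → U) => (p.2, p.1))
      (DfnF.prodMk dfnF_snd dfnF_fst)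
    exact h9
  have hv₀' : ∀ t : Fin n → U, Rl (prodL q m ω₂) (A ∪ co U v₀) t →
      (q k).map (fun x => T₁ ((x, t), v₀)) (hf1.fib (t, v₀)) = θ v₀ := by
    intro t ht
    rw [← hTθ t ht]
    refine GType.map_congr (Filter.univ_mem' ?_)
    intro x
    exact hT₁' (x, t)
  have hall : ∀ v, Rl 𝒲 A v → ∀ t : Fin n → U, Rl (prodL q m ω₂) (A ∪ co U v) t →
      (q k).map (fun x => T₁ ((x, t), v)) (hf1.fib (t, v)) = θ v := by
    intro v hv
    exact hinv2.transfer (hv₀.eqv hv) hv₀'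
  -- the parameters
  obtain ⟨τ, hτ⟩ := exists_rl (prodL q m ω₂) hA
  obtain ⟨g, hg, hgk⟩ := ((hQd k).1 hkQ).2
  obtain ⟨B', hB', hgB⟩ := exists_small_base hg
  have hBs : Small (A ∪ co U τ ∪ B') := (hA.union_co τ).union (small_of_finite hB')
  have hAB : A ⊆ A ∪ co U τ ∪ B' := fun x hx => Or.inl (Or.inl hx)
  have hτB : co U τ ⊆ A ∪ co U τ ∪ B' := fun x hx => Or.inl (Or.inr hx)
  have hgB' : DfnF (A ∪ co U τ ∪ B') g := hgB.mono subset_union_right
  have hTB : DfnF (A ∪ co U τ ∪ B') (fun p : U × Y => T₁ ((g p.1, τ), p.2)) :=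
    (hT₁.mono hAB).comp (DfnF.prodMk (DfnF.prodMk (hgB'.comp dfnF_fst) (dfnF_const hτB))
      dfnF_snd)
  refine ⟨A ∪ co U τ ∪ B', hBs, hAB, fun p => T₁ ((g p.1, τ), p.2), hTB, ?_⟩
  intro v hv
  have hvA : Rl 𝒲 A v := hv.mono hAB
  have hRL : RL q A ω₂ τ ∧ ∀ j, j ∉ ω₂ → τ j = m := (rl_prodL hA hm hq hnd₂).1 hτ
  have hcomm : RL q (A ∪ co U v) ω₂ τ := by
    refine RL.commute hA hm hq hW ?_ hRL.1 (hv.mono ?_)
    · intro i hi
      obtain ⟨hn, him⟩ := (hQd i).1 (hω₂ i hi)
      exact ⟨hn, fun h1 => hav (h1.trans (him.symm hn))⟩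
    · intro x hx
      exact Or.inl hx
  have hτv : Rl (prodL q m ω₂) (A ∪ co U v) τ :=
    (rl_prodL (hA.union_co v) (mem_union_left _ hm) (fun i => (hq i).mono subset_union_left)
      hnd₂).2 ⟨hcomm, hRL.2⟩
  have h1 := hall v hvA τ hτv
  rw [← h1]
  have h2 : ∀ (ρ : GType U U) (hρ : q₀.map g hg = ρ),
      q₀.map (fun x => T₁ ((g x, τ), v)) (hTB.fib v) =
        ρ.map (fun x => T₁ ((x, τ), v)) (hf1.fib (τ, v)) := by
    rintro ρ rfl
    rw [GType.map_map]
  exact h2 (q k) hgk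

end OMB
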