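import Pool.Agent.Lib.MP_fd36ae_lc.G5

/-!
# MP_fd36ae_lc : consequences of domination by a product (paper 3.3)
-/

open FirstOrder Set Cardinal

namespace OMB

universe u

variable {U : Type u} [Str U] {X Y Z W : Type u} [DSort U X] [DSort U Y] [DSort U Z] [DSort U W]
  {A B M : Set U} [OMS U] {n : ℕ}

/-- paper 3.3 (a) -/
theorem img_of_factor (hA : Small A) {m : U} {q : Fin n → GType U U}
    (hq : ∀ i, Inv A (q i)) {p : GType U X} (h : Dom p (tensor q m)) {k : Fin n}
    (hk : NR (q k)) : Img p (q k) := by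
  have hm : m ∈ A ∪ co U m := by
    rw [co_U]
    exact Or.inr rfl
  have hq' : ∀ i, Inv (A ∪ co U m) (q i) := fun i => (hq i).mono subset_union_left
  exact h.img hk ⟨fun t => t k, dfnF_proj k, tensor_proj (hA.union_co m) hm hq' k⟩

/-- paper 3.3 (b) -/
theorem factor_of_img (hA : Small A) {m : U} {q : Fin n → GType U U}
    (hq : ∀ i, Inv A (q i)) {p : GType U X} (h : Dom (tensor q m) p) {θ : GType U U}
    (hθ : NR θ) (hi : Img p θ) : ∃ k, NR (q k) ∧ Img (q k) θ := by
  obtain ⟨f, hf, hfθ⟩ := h.img hθ hi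
  obtain ⟨B, hB, hfB⟩ := exists_small_base hf
  have hA' : Small ((A ∪ co U m) ∪ B) := (hA.union_co m).union (small_of_finite hB)
  have hm : m ∈ (A ∪ co U m) ∪ B := by
    refine Or.inl ?_
    rw [co_U]
    exact Or.inr rfl
  have hq' : ∀ i, Inv ((A ∪ co U m) ∪ B) (q i) := fun i =>
    (hq i).mono (subset_union_left.trans subset_union_left)
  have hf' : DfnF ((A ∪ co U m) ∪ B) f := hfB.mono subset_union_right
  have hθA : Inv ((A ∪ co U m) ∪ B) θ := by
    rw [← hfθ]
    exact (tensor_inv hA' hm hq').map hf' hf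
  obtain ⟨ω₁, k, ω₂, -, T, hT, hTt⟩ := prodL_elim hA' hm hq' hθ hθA (List.finRange n) hf' hfθ
  obtain ⟨t, ht⟩ := exists_rl (prodL q m ω₂) hA'
  have hi' : Img (q k) θ := ⟨fun x => T (x, t), hT.fib t, hTt t ht⟩
  exact ⟨k, hi'.nr hθ, hi'⟩

omit [OMS U] in
/-- realisations of an invariant type over conjugate points are conjugate -/
private theorem eqv_pair {ρ : GType U Z} (hρ : Inv M ρ) {x x' e e' : Z} (hx : Eqv M x x')
    (he : Rl ρ (M ∪ co U x) e) (he' : Rl ρ (M ∪ co U x') e') : Eqv M (x, e) (x', e') := by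
  intro D hD
  have hD' : Dfn M {p : Z × Z | (p.2, p.1) ∈ D} := hD.preimage (dfnF_snd.prodMk dfnF_fst)
  have h1 : (x, e) ∈ D ↔ {y | (x, y) ∈ D} ∈ ρ.F := he.mem_iff (hD'.fiber x)
  have h2 : (x', e') ∈ D ↔ {y | (x', y) ∈ D} ∈ ρ.F := he'.mem_iff (hD'.fiber x')
  rw [h1, h2]
  exact hρ.gen hD' x x' hx

/-- Morley sequence pigeonhole (paper 3.3 (c)): an `M`-invariant relation on the class of `d` which
is symmetric, transitive and has at most `n` classes has only one class. -/
theorem one_class (hM : Elem M) (hMs : Small M) {d : Z} {E : Z → Z → Prop}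
    (hE : AInv M {p : Z × Z | E p.1 p.2})
    (hsymm : ∀ a b, Eqv M d a → Eqv M d b → E a b → E b a)
    (htrans : ∀ a b c, Eqv M d a → Eqv M d b → Eqv M d c → E a b → E b c → E a c)
    (n : ℕ) (hn : ∀ a : ℕ → Z, (∀ i, Eqv M d (a i)) → ∃ i j, i < j ∧ j ≤ n ∧ E (a i) (a j)) :
    ∀ a, Eqv M d a → E d a := by
  obtain ⟨ρ, hρ, hρd⟩ := exists_coheir hM d
  let B : ℕ → {B : Set U // Small B} := fun i => Nat.rec ⟨M, hMs⟩
    (fun _ C => ⟨C.1 ∪ co U (exists_rl ρ C.2).choose, C.2.union_co _⟩) i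
  let s : ℕ → Z := fun i => (exists_rl ρ (B i).2).choose
  have hs : ∀ i, Rl ρ (B i).1 (s i) := fun i => (exists_rl ρ (B i).2).choose_spec
  have hB : ∀ i, (B (i + 1)).1 = (B i).1 ∪ co U (s i) := fun i => rfl
  have hmono : ∀ i j, i ≤ j → (B i).1 ⊆ (B j).1 := by
    intro i j hij
    induction hij with
    | refl => exact Subset.rfl
    | step _ ih => exact ih.trans (by rw [hB]; exact subset_union_left)
  have hMB : ∀ i, M ⊆ (B i).1 := fun i => hmono 0 i (Nat.zero_le i)
  obtain ⟨i, j, hij, -, hEij⟩ := hn s (fun i => hρd.eqv ((hs i).mono (hMB i)))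
  have hsj : Rl ρ (M ∪ co U (s i)) (s j) := by
    refine (hs j).mono (union_subset (hMB j) ?_)
    refine Subset.trans ?_ (hmono (i + 1) j hij)
    rw [hB]
    exact subset_union_right
  have key : ∀ x e, Eqv M d x → Rl ρ (M ∪ co U x) e → E x e := by
    intro x e hx he
    have h1 : Eqv M (s i) x := (((hs i).mono (hMB i)).eqv hρd).trans hx
    exact (hE _ _ (eqv_pair hρ h1 hsj he)).1 hEij
  intro a ha
  obtain ⟨e, he⟩ := exists_rl ρ ((hMs.union_co d).union_co a)
  have he1 : Rl ρ (M ∪ co U d) e := he.mono subset_union_left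
  have he2 : Rl ρ (M ∪ co U a) e :=
    he.mono (union_subset (subset_union_left.trans subset_union_left) subset_union_right)
  have hde : Eqv M d e := hρd.eqv (he.mono (subset_union_left.trans subset_union_left))
  exact htrans d e a (Eqv.refl d) hde ha (key d e (Eqv.refl d) he1)
    (hsymm a e ha hde (key a e ha he2))

/-- paper 3.3 (c) -/
theorem img_conj (hM : Elem M) (hMs : Small M) {m : U} (hm : m ∈ M) {q : Fin n → GType U U}
    {p : GType U X} (hp : Inv M p)
    (hpi : ∀ θ : GType U U, NR θ → Img p θ → ∃ k, NR (q k) ∧ Img (q k) θ)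
    {F : X × Z → U} (hF : DfnF M F) {d : Z} (hn : NR (p.map (fun x => F (x, d)) (hF.fib d)))
    {d' : Z} (hd : Eqv M d d') :
    Img (p.map (fun x => F (x, d)) (hF.fib d)) (p.map (fun x => F (x, d')) (hF.fib d')) := by
  have hπ : Fam M (fun z : Z => p.map (fun x => F (x, z)) (hF.fib z)) := (hp.fam (Y := Z)).mapc hF
  have hnr : ∀ a, Eqv M d a → NR (p.map (fun x => F (x, a)) (hF.fib a)) := fun a ha =>
    ((hπ.nr hMs) d a ha).1 hn
  refine one_class (E := fun a b => Img (p.map (fun x => F (x, a)) (hF.fib a))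
    (p.map (fun x => F (x, b)) (hF.fib b))) hM hMs ?_ ?_ ?_ n ?_ d' hd
  · exact Fam.img (Y := Z × Z) hMs hm (hπ.comp dfnF_fst) (hπ.comp dfnF_snd)
  · intro a b _ hb h
    exact h.symm (hnr b hb)
  · intro a b c _ _ _ h h'
    exact h.trans h'
  · intro a ha
    have h1 : ∀ i, ∃ k, NR (q k) ∧ Img (q k) (p.map (fun x => F (x, a i)) (hF.fib (a i))) :=
      fun i => hpi _ (hnr _ (ha i)) ⟨fun x => F (x, a i), hF.fib (a i), rfl⟩
    choose k hk hk' using h1
    obtain ⟨i, j, hij, hkij⟩ := Fintype.exists_ne_map_eq_of_card_lt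
      (fun i : Fin (n + 1) => k i) (by simp)
    have h2 : ∀ i j : Fin (n + 1), k i = k j →
        Img (p.map (fun x => F (x, a i)) (hF.fib (a i)))
          (p.map (fun x => F (x, a j)) (hF.fib (a j))) := by
      intro i j hkij
      have h3 : Img (p.map (fun x => F (x, a i)) (hF.fib (a i))) (q (k i)) :=
        (hk' i).symm (hnr _ (ha i))
      have h4 : Img (q (k i)) (p.map (fun x => F (x, a j)) (hF.fib (a j))) := by
        rw [hkij]
        exact hk' j
      exact h3.trans h4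
    rcases lt_or_gt_of_ne hij with h | h
    · exact ⟨i, j, h, Nat.lt_succ_iff.1 j.2, h2 i j hkij⟩
    · exact ⟨j, i, h, Nat.lt_succ_iff.1 i.2, h2 j i hkij.symm⟩

end OMB
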