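import Pool.Agent.Lib.MP_fd36ae_lc.G6

/-!
# MP_fd36ae_lc : M-definable types, towers (paper 5.2, 6.3)
-/

open FirstOrder Set Cardinal

namespace OMB

universe u

variable {U : Type u} [Str U] {X Y Z W : Type u} [DSort U X] [DSort U Y] [DSort U Z] [DSort U W]
  {A B M : Set U}

/-- `M`-definable types -/
def MD (M : Set U) (ρ : GType U Y) : Prop :=
  ∀ (n : ℕ) (D : Set (Y × (Fin n → U))), Dfn (∅ : Set U) D →
    Dfn M {c : Fin n → U | {y | (y, c) ∈ D} ∈ ρ.F}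

/-- encode the parameters of a definable family by a tuple -/
private theorem g7_enc {D : Set (X × Z)} (hD : Dfn A D) :
    ∃ (N : ℕ) (D' : Set (X × (Fin N → U))) (enc : Z → Fin N → U),
      Dfn (∅ : Set U) D' ∧ DfnF A enc ∧ ∀ x z, (x, enc z) ∈ D' ↔ (x, z) ∈ D := by
  obtain ⟨n, c, hc, E, hE, rfl⟩ := hD.finite_param
  let q : DSort.ι U Z ≃ Fin (Nat.card (DSort.ι U Z)) := Finite.equivFin _
  refine ⟨Nat.card (DSort.ι U Z) + n,
    {p | ((p.1, (DSort.e (U := U) (X := Z)).symm (fun i => p.2 (Fin.castAdd n (q i)))),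
      fun j => p.2 (Fin.natAdd (Nat.card (DSort.ι U Z)) j)) ∈ E},
    fun z => Fin.append (fun i => DSort.e (U := U) z (q.symm i)) c, ?_, ?_, ?_⟩
  · refine hE.preimage (f := fun p : X × (Fin (Nat.card (DSort.ι U Z) + n) → U) =>
      ((p.1, (DSort.e (U := U) (X := Z)).symm (fun i => p.2 (Fin.castAdd n (q i)))),
      fun j => p.2 (Fin.natAdd (Nat.card (DSort.ι U Z)) j))) ?_
    refine (dfnF_fst.prodMk ?_).prodMk ?_
    · exact dfnF_dec.comp (f := fun p : X × (Fin (Nat.card (DSort.ι U Z) + n) → U) =>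
        fun i => p.2 (Fin.castAdd n (q i)))
        (DfnF.pi fun i => (dfnF_proj (Fin.castAdd n (q i))).comp dfnF_snd)
    · exact DfnF.pi fun j => (dfnF_proj (Fin.natAdd _ j)).comp dfnF_snd
  · refine DfnF.pi fun i => ?_
    refine Fin.addCases (fun i => ?_) (fun j => ?_) i
    · simp only [Fin.append_left]
      exact dfnF_coord (q.symm i)
    · simp only [Fin.append_right]
      refine dfnF_const ?_
      rw [co_U]
      exact Set.singleton_subset_iff.2 (hc ⟨j, rfl⟩)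
  · intro x z
    simp only [Set.mem_ofPred_eq, Fin.append_left, Fin.append_right, Equiv.symm_apply_apply]

private theorem g7_small_base {D : Set X} (hD : Dfn (univ : Set U) D) (hM : Small M) :
    ∃ B : Set U, Small B ∧ M ⊆ B ∧ Dfn B D := by
  obtain ⟨n, c, _, E, hE, rfl⟩ := hD.finite_param
  refine ⟨M ∪ co U c, hM.union_co c, subset_union_left, ?_⟩
  exact (hE.mono (empty_subset M)).fiber c

theorem MD.gen {ρ : GType U Y} (h : MD M ρ) {P : Y → Z → Prop}
    (hD : Dfn M {p : Y × Z | P p.1 p.2}) : Dfn M {z | {y | P y z} ∈ ρ.F} := by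
  obtain ⟨N, D', enc, hD', henc, hiff⟩ := g7_enc hD
  have h1 := (h N D' hD').preimage henc
  have h2 : enc ⁻¹' {c : Fin N → U | {y | (y, c) ∈ D'} ∈ ρ.F} = {z | {y | P y z} ∈ ρ.F} := by
    ext z
    have h3 : {y | (y, enc z) ∈ D'} = {y | P y z} := by
      ext y
      exact hiff y z
    show {y | (y, enc z) ∈ D'} ∈ ρ.F ↔ {y | P y z} ∈ ρ.F
    rw [h3]
  rwa [h2] at h1

theorem MD.inv {ρ : GType U Y} (h : MD M ρ) : Inv M ρ :=
  fun n D hD => (h n D hD).aInv

theorem md_rTy {y : Y} (hy : co U y ⊆ M) : MD M (rTy y : GType U Y) := by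
  intro n D hD
  have h1 : Dfn M {c : Fin n → U | (y, c) ∈ D} :=
    Dfn.preimage (f := fun c : Fin n → U => (y, c)) (hD.mono (empty_subset M))
      ((dfnF_const hy).prodMk dfnF_id)
  have h2 : {c : Fin n → U | {y' | (y', c) ∈ D} ∈ (rTy y : GType U Y).F} =
      {c : Fin n → U | (y, c) ∈ D} := by
    ext c
    exact mem_rTy (U := U) (x := y) (D := {y' | (y', c) ∈ D})
  rw [h2]
  exact h1

/-- A tower: an `M`-invariant type extending `tp(d/M)` which is approximated by a small family of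
`M`-definable types. -/
structure Tow (M : Set U) (𝒲 : GType U Y) (d : Y) : Prop where
  inv : Inv M 𝒲
  rl : Rl 𝒲 M d
  approx : ∃ (Λ : Type u) (ρ : Λ → GType U Y), #Λ < Str.κ U ∧ (∀ l, MD M (ρ l)) ∧
    ∀ D, Dfn (univ : Set U) D → D ∈ 𝒲.F → ∃ l, D ∈ (ρ l).F

theorem tow_punit (M : Set U) : Tow M (rTy PUnit.unit : GType U PUnit.{u+1}) PUnit.unit := by
  have hco : co U (PUnit.unit : PUnit.{u+1}) ⊆ M := by
    rw [co_punit]
    exact empty_subset M
  refine ⟨inv_rTy hco, fun D _ hDF => mem_rTy.1 hDF, PUnit.{u+1}, fun _ => rTy PUnit.unit, ?_,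
    fun _ => md_rTy hco, fun D _ hD => ⟨PUnit.unit, hD⟩⟩
  rw [Cardinal.mk_punit]
  exact lt_trans Cardinal.one_lt_aleph0 Str.aleph

variable [OMS U]

/-- sets in `s(K)` contain an interval just above `K` -/
theorem IsS.mem_elim {π : GType U U} {K : Set U} (h : IsS π K) (hK : Small K) {D : Set U}
    (hD : D ∈ π.F) :
    ∃ e, (∀ k ∈ K, k < e) ∧ ((∀ x, x < e → x ∈ D) ∨ ∃ k ∈ K, ∀ x, k < x → x < e → x ∈ D) := by
  classical
  obtain ⟨E, hE⟩ := h.1.basis' hD
  have hZf : ({e : U | e ∈ E ∧ Hi π e} : Set U).Finite :=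
    E.finite_toSet.subset (fun e he => he.1)
  obtain ⟨z, hz, hzE⟩ := h.big hK (small_of_finite hZf) (fun e he => he.2)
  refine ⟨z, (h.2 z).1 hz, ?_⟩
  by_cases hl : (E.filter (fun e => Lo π e)).Nonempty
  · right
    obtain ⟨l, hlE, hmax⟩ := (E.filter (fun e => Lo π e)).exists_max_image id hl
    obtain ⟨k, hkK, hlk⟩ := h.lo_iff.1 (Finset.mem_filter.1 hlE).2
    refine ⟨k, hkK, fun x hkx hxz => hE ?_⟩
    intro e he
    refine ⟨fun h1 => ?_, fun h1 => hxz.trans (hzE e ⟨he, h1⟩)⟩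
    exact lt_of_le_of_lt ((hmax e (Finset.mem_filter.2 ⟨he, h1⟩)).trans hlk) hkx
  · left
    refine fun x hxz => hE ?_
    intro e he
    refine ⟨fun h1 => (hl ⟨e, Finset.mem_filter.2 ⟨he, h1⟩⟩).elim, fun h1 => hxz.trans (hzE e ⟨he, h1⟩)⟩

theorem mem_sT_singleton {a : U} {D : Set U} (hD : Dfn (univ : Set U) D) :
    D ∈ (sT {a} : GType U U).F ↔ ∃ e, a < e ∧ ∀ x, a < x → x < e → x ∈ D := by
  have hK : Small ({a} : Set U) := small_of_finite (Set.finite_singleton a)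
  have hS := isS_sT hK
  constructor
  · intro h
    obtain ⟨e, he, h1 | ⟨k, hk, h1⟩⟩ := hS.mem_elim hK h
    · exact ⟨e, he a rfl, fun x _ hx => h1 x hx⟩
    · have hka : k = a := hk
      subst hka
      exact ⟨e, he k rfl, h1⟩
  · rintro ⟨e, hae, h1⟩
    have hlo : Lo (sT {a}) a := hS.lo_iff.2 ⟨a, rfl, le_refl a⟩
    have hhi : Hi (sT {a}) e := (hS.2 e).2 (fun k hk => by
      have hka : k = a := hk
      rw [hka]
      exact hae)
    exact Filter.mem_of_superset (Filter.inter_mem hlo hhi) (fun x hx => h1 x hx.1 hx.2)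

theorem mem_sT_empty {D : Set U} (hD : Dfn (univ : Set U) D) :
    D ∈ (sT ∅ : GType U U).F ↔ ∃ e, ∀ x, x < e → x ∈ D := by
  have hK : Small (∅ : Set U) := small_empty
  have hS := isS_sT hK
  constructor
  · intro h
    obtain ⟨e, _, h1 | ⟨k, hk, _⟩⟩ := hS.mem_elim hK h
    · exact ⟨e, h1⟩
    · exact hk.elim
  · rintro ⟨e, h1⟩
    have hhi : Hi (sT ∅) e := (hS.2 e).2 (fun k hk => hk.elim)
    exact Filter.mem_of_superset hhi (fun x hx => h1 x hx)

private theorem g7_fam1 (hMs : Small M) {l : Y → U} (hl : DfnF M l) :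
    Fam M (fun v => (sT {l v} : GType U U)) := by
  have h1 := fam_sT (J := PUnit.{u+1}) hMs (by
    rw [Cardinal.mk_punit]
    exact lt_trans Cardinal.one_lt_aleph0 Str.aleph) (l := fun _ => l) (fun _ => hl)
  have h2 : (fun v => (sT (Set.range fun _ : PUnit.{u+1} => l v) : GType U U)) =
      (fun v => (sT {l v} : GType U U)) := by
    funext v
    rw [Set.range_const]
  rwa [h2] at h1

private theorem g7_fam0 (hMs : Small M) : Fam M (fun _ : Y => (sT ∅ : GType U U)) := by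
  have h1 := fam_sT (Y := Y) (J := PEmpty.{u+1}) hMs (by
    rw [Cardinal.mk_pempty]
    exact lt_trans Cardinal.aleph0_pos Str.aleph) (l := fun j _ => j.elim) (fun j => j.elim)
  have h2 : (fun v : Y => (sT (Set.range fun j : PEmpty.{u+1} => (j.elim : U)) : GType U U)) =
      (fun _ : Y => (sT ∅ : GType U U)) := by
    funext v
    rw [Set.range_eq_empty]
  rwa [h2] at h1

private theorem g7_dfn1 {l : Y → U} (hl : DfnF A l) {D : Set ((Y × U) × Z)} (hD : Dfn A D) :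
    Dfn A {p : Y × Z | ∃ e, l p.1 < e ∧ ∀ x, l p.1 < x → x < e → ((p.1, x), p.2) ∈ D} := by
  refine Dfn.ex (P := fun (p : Y × Z) (e : U) =>
    l p.1 < e ∧ ∀ x, l p.1 < x → x < e → ((p.1, x), p.2) ∈ D) ?_
  refine Dfn.and (P := fun r : (Y × Z) × U => l r.1.1 < r.2)
    (Q := fun r : (Y × Z) × U => ∀ x, l r.1.1 < x → x < r.2 → ((r.1.1, x), r.1.2) ∈ D)
    (Dfn.lt (hl.comp (dfnF_fst.comp dfnF_fst)) dfnF_snd) ?_
  refine Dfn.all (P := fun (r : (Y × Z) × U) (x : U) =>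
    l r.1.1 < x → x < r.2 → ((r.1.1, x), r.1.2) ∈ D) ?_
  refine Dfn.imp (P := fun s : ((Y × Z) × U) × U => l s.1.1.1 < s.2)
    (Q := fun s : ((Y × Z) × U) × U => s.2 < s.1.2 → ((s.1.1.1, s.2), s.1.1.2) ∈ D)
    (Dfn.lt (hl.comp (dfnF_fst.comp (dfnF_fst.comp dfnF_fst))) dfnF_snd) ?_
  refine Dfn.imp (P := fun s : ((Y × Z) × U) × U => s.2 < s.1.2)
    (Q := fun s : ((Y × Z) × U) × U => ((s.1.1.1, s.2), s.1.1.2) ∈ D)
    (Dfn.lt dfnF_snd (dfnF_snd.comp dfnF_fst)) ?_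
  exact Dfn.preimage (f := fun s : ((Y × Z) × U) × U => ((s.1.1.1, s.2), s.1.1.2)) hD
    (((dfnF_fst.comp (dfnF_fst.comp dfnF_fst)).prodMk dfnF_snd).prodMk
      (dfnF_snd.comp (dfnF_fst.comp dfnF_fst)))

private theorem g7_dfn0 {D : Set ((Y × U) × Z)} (hD : Dfn A D) :
    Dfn A {p : Y × Z | ∃ e : U, ∀ x, x < e → ((p.1, x), p.2) ∈ D} := by
  refine Dfn.ex (P := fun (p : Y × Z) (e : U) => ∀ x, x < e → ((p.1, x), p.2) ∈ D) ?_
  refine Dfn.all (P := fun (r : (Y × Z) × U) (x : U) => x < r.2 → ((r.1.1, x), r.1.2) ∈ D) ?_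
  refine Dfn.imp (P := fun s : ((Y × Z) × U) × U => s.2 < s.1.2)
    (Q := fun s : ((Y × Z) × U) × U => ((s.1.1.1, s.2), s.1.1.2) ∈ D)
    (Dfn.lt dfnF_snd (dfnF_snd.comp dfnF_fst)) ?_
  exact Dfn.preimage (f := fun s : ((Y × Z) × U) × U => ((s.1.1.1, s.2), s.1.1.2)) hD
    (((dfnF_fst.comp (dfnF_fst.comp dfnF_fst)).prodMk dfnF_snd).prodMk
      (dfnF_snd.comp (dfnF_fst.comp dfnF_fst)))

private theorem g7_mem1 (hA : Small A) {ρ : GType U Y} (hρ : Inv A ρ) {l : Y → U} (hl : DfnF A l)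
    (ok : DepOK ρ (fun v => sT {l v})) {D : Set (Y × U)} (hD : Dfn A D) :
    D ∈ (dep ρ (fun v => sT {l v}) ok).F ↔
      {v | ∃ e, l v < e ∧ ∀ x, l v < x → x < e → (v, x) ∈ D} ∈ ρ.F := by
  obtain ⟨v, hv⟩ := exists_rl ρ hA
  have hQ : Dfn A {v : Y | ∃ e, l v < e ∧ ∀ x, l v < x → x < e → (v, x) ∈ D} := by
    have h1 := g7_dfn1 (Z := PUnit.{u+1}) hl (D := {r | r.1 ∈ D}) (hD.preimage dfnF_fst)
    exact Dfn.preimage (f := fun v : Y => (v, (PUnit.unit : PUnit.{u+1}))) h1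
      (dfnF_id.prodMk (dfnF_const (by
        rw [co_punit]
        exact empty_subset A)))
  rw [mem_dep ok hA hρ (g7_fam1 hA hl) hD hv, ← hv.mem_iff hQ]
  exact mem_sT_singleton (Dfn.preimage (f := fun x : U => (v, x)) (hD.mono (subset_univ A))
    ((dfnF_const (subset_univ _)).prodMk dfnF_id))

private theorem g7_mem0 (hA : Small A) {ρ : GType U Y} (hρ : Inv A ρ)
    (ok : DepOK ρ (fun _ : Y => (sT ∅ : GType U U))) {D : Set (Y × U)} (hD : Dfn A D) :
    D ∈ (dep ρ (fun _ => sT ∅) ok).F ↔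
      {v | ∃ e : U, ∀ x, x < e → (v, x) ∈ D} ∈ ρ.F := by
  obtain ⟨v, hv⟩ := exists_rl ρ hA
  have hQ : Dfn A {v : Y | ∃ e : U, ∀ x, x < e → (v, x) ∈ D} := by
    have h1 := g7_dfn0 (Z := PUnit.{u+1}) (D := {r | r.1 ∈ D}) (hD.preimage dfnF_fst)
    exact Dfn.preimage (f := fun v : Y => (v, (PUnit.unit : PUnit.{u+1}))) h1
      (dfnF_id.prodMk (dfnF_const (by
        rw [co_punit]
        exact empty_subset A)))
  rw [mem_dep ok hA hρ (g7_fam0 hA) hD hv, ← hv.mem_iff hQ]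
  exact mem_sT_empty (Dfn.preimage (f := fun x : U => (v, x)) (hD.mono (subset_univ A))
    ((dfnF_const (subset_univ _)).prodMk dfnF_id))

/-- `ρ ⋉ (l^+)` is `M`-definable -/
theorem MD.dep_sT (hMs : Small M) {ρ : GType U Y} (h : MD M ρ) {l : Y → U} (hl : DfnF M l)
    (ok : DepOK ρ (fun v => sT {l v})) : MD M (dep ρ (fun v => sT {l v}) ok) := by
  intro n D hD
  have hDM : Dfn M D := hD.mono (empty_subset M)
  have h1 := h.gen (P := fun (v : Y) (c : Fin n → U) =>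
    ∃ e, l v < e ∧ ∀ x, l v < x → x < e → ((v, x), c) ∈ D) (g7_dfn1 hl hDM)
  have h2 : {c : Fin n → U | {p | (p, c) ∈ D} ∈ (dep ρ (fun v => sT {l v}) ok).F} =
      {c : Fin n → U | {v | ∃ e, l v < e ∧ ∀ x, l v < x → x < e → ((v, x), c) ∈ D} ∈ ρ.F} := by
    ext c
    exact g7_mem1 (hMs.union_co c) (h.inv.mono subset_union_left) (hl.mono subset_union_left) ok
      (hDM.fiber c)
  rw [h2]
  exact h1

theorem MD.dep_sT_empty (hMs : Small M) {ρ : GType U Y} (h : MD M ρ)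
    (ok : DepOK ρ (fun _ : Y => (sT ∅ : GType U U))) :
    MD M (dep ρ (fun _ => sT ∅) ok) := by
  intro n D hD
  have hDM : Dfn M D := hD.mono (empty_subset M)
  have h1 := h.gen (P := fun (v : Y) (c : Fin n → U) =>
    ∃ e : U, ∀ x, x < e → ((v, x), c) ∈ D) (g7_dfn0 hDM)
  have h2 : {c : Fin n → U | {p | (p, c) ∈ D} ∈ (dep ρ (fun _ => sT ∅) ok).F} =
      {c : Fin n → U | {v | ∃ e : U, ∀ x, x < e → ((v, x), c) ∈ D} ∈ ρ.F} := by
    ext c
    exact g7_mem0 (hMs.union_co c) (h.inv.mono subset_union_left) ok (hDM.fiber c)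
  rw [h2]
  exact h1

/-- the step of the tower -/
theorem tow_step (hMs : Small M) {m : U} (hm : m ∈ M) {𝒲 : GType U Y} {d : Y} (h : Tow M 𝒲 d)
    {c : U} (hc : c ∉ Dcl (M ∪ co U d)) :
    ∃ θ : Y → GType U U, Fam M θ ∧ (∀ v, NR (θ v)) ∧ ∃ ok : DepOK 𝒲 θ,
      Tow M (dep 𝒲 θ ok) (d, c) := by
  classical
  have hne : Nonempty U := ⟨c⟩
  let L : Type u := {f : Y → U // DfnF M f ∧ f d < c}
  have hL : #L < Str.κ U := by
    refine lt_of_le_of_lt ?_ (card_dfnF (X := Y) (Y := U) hMs)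
    exact Cardinal.mk_subtype_mono (fun f hf => hf.1)
  have hFam : Fam M (fun v => (sT (Set.range fun f : L => f.1 v) : GType U U)) :=
    fam_sT hMs hL (fun f => f.2.1)
  have hKs : ∀ v, Small (Set.range fun f : L => f.1 v) := fun v => small_range hL _
  have ok : DepOK 𝒲 (fun v => (sT (Set.range fun f : L => f.1 v) : GType U U)) :=
    ⟨M, hMs, h.inv, hFam⟩
  refine ⟨_, hFam, fun v => (isS_sT (hKs v)).1, ok, ?_⟩
  refine ⟨Inv.dep ok hMs h.inv hFam, ?_, ?_⟩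
  · rw [rl_dep ok hMs h.inv hFam]
    refine ⟨h.rl, fun D hD hDF => ?_⟩
    obtain ⟨e, he, hcase⟩ := (isS_sT (hKs d)).mem_elim (hKs d) hDF
    obtain ⟨E, hEd, hE⟩ := endpoints hD
    have hEc : ∀ a ∈ E, a ≠ c := by
      intro a ha hac
      rw [← hac] at hc
      exact hc (hEd ha)
    have hEK : ∀ a ∈ E, a < c → ∃ f : L, f.1 d = a := by
      intro a ha hac
      obtain ⟨g, hg, hga⟩ := dcl_param hm (hEd ha)
      exact ⟨⟨g, hg, by rw [hga]; exact hac⟩, hga⟩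
    have hKc : ∀ f : L, f.1 d < c := fun f => f.2.2
    -- a point of the same position as `c` between `lo` and `e`
    have hpt : ∀ lo : Finset U, (∀ a ∈ lo, ∃ f : L, f.1 d = a) → ∃ x, (∀ a ∈ lo, a < x) ∧ x < e ∧
        SamePos E c x := by
      intro lo hlo
      obtain ⟨x, hx1, hx2⟩ := Order.exists_between_finsets
        (lo ∪ E.filter (fun a => a < c)) (insert e (E.filter (fun a => c < a))) (by
          intro a ha b hb
          have hak : ∃ f : L, f.1 d = a := by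
            rcases Finset.mem_union.1 ha with ha | ha
            · exact hlo a ha
            · exact hEK a (Finset.mem_filter.1 ha).1 (Finset.mem_filter.1 ha).2
          obtain ⟨f, rfl⟩ := hak
          rcases Finset.mem_insert.1 hb with rfl | hb
          · exact he _ ⟨f, rfl⟩
          · exact (hKc f).trans (Finset.mem_filter.1 hb).2)
      refine ⟨x, fun a ha => hx1 a (Finset.mem_union_left _ ha), hx2 e (Finset.mem_insert_self _ _),
        fun a ha => ?_⟩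
      rcases lt_or_gt_of_ne (hEc a ha) with hac | hac
      · have h1 := hx1 a (Finset.mem_union_right _ (Finset.mem_filter.2 ⟨ha, hac⟩))
        exact ⟨⟨fun h2 => (lt_asymm h2 hac).elim, fun h2 => (lt_asymm h2 h1).elim⟩,
          ⟨fun _ => h1, fun _ => hac⟩⟩
      · have h1 := hx2 a (Finset.mem_insert_of_mem (Finset.mem_filter.2 ⟨ha, hac⟩))
        exact ⟨⟨fun _ => h1, fun _ => hac⟩,
          ⟨fun h2 => (lt_asymm h2 hac).elim, fun h2 => (lt_asymm h2 h1).elim⟩⟩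
    rcases hcase with h1 | ⟨k, ⟨f, hf⟩, h1⟩
    · obtain ⟨x, _, hxe, hpos⟩ := hpt ∅ (by simp)
      exact (hE c x hpos).2 (h1 x hxe)
    · obtain ⟨x, hx, hxe, hpos⟩ := hpt {k} (by
        intro a ha
        rw [Finset.mem_singleton.1 ha]
        exact ⟨f, hf⟩)
      exact (hE c x hpos).2 (h1 x (hx k (Finset.mem_singleton_self k)) hxe)
  · obtain ⟨Λ, ρ, hΛ, hMD, happ⟩ := h.approx
    have ok0 : ∀ l : Λ, DepOK (ρ l) (fun _ : Y => (sT ∅ : GType U U)) :=
      fun l => ⟨M, hMs, (hMD l).inv, g7_fam0 hMs⟩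
    have ok1 : ∀ (l : Λ) (f : L), DepOK (ρ l) (fun v => (sT {f.1 v} : GType U U)) :=
      fun l f => ⟨M, hMs, (hMD l).inv, g7_fam1 hMs f.2.1⟩
    refine ⟨Λ × Option L, fun p => match p.2 with
      | none => dep (ρ p.1) _ (ok0 p.1)
      | some f => dep (ρ p.1) _ (ok1 p.1 f), ?_, ?_, ?_⟩
    · rw [Cardinal.mk_prod, Cardinal.lift_id, Cardinal.lift_id]
      refine Cardinal.mul_lt_of_lt Str.aleph.le hΛ ?_
      rw [Cardinal.mk_option]
      exact Cardinal.add_lt_of_lt Str.aleph.le hL (lt_trans Cardinal.one_lt_aleph0 Str.aleph)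
    · rintro ⟨l, _ | f⟩
      · exact (hMD l).dep_sT_empty hMs (ok0 l)
      · exact (hMD l).dep_sT hMs f.2.1 (ok1 l f)
    · intro D hD hDF
      obtain ⟨B, hB, hMB, hDB⟩ := g7_small_base hD hMs
      obtain ⟨v₀, hv₀⟩ := exists_rl 𝒲 hB
      have h2 := (mem_dep ok hB (h.inv.mono hMB) (hFam.mono hMB) hDB hv₀).1 hDF
      obtain ⟨e, he, hcase⟩ := (isS_sT (hKs v₀)).mem_elim (hKs v₀) h2
      rcases hcase with h1 | ⟨k, ⟨f, hf⟩, h1⟩
      · have hQ : Dfn B {v : Y | ∃ e : U, ∀ x, x < e → (v, x) ∈ D} := by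
          have h3 := g7_dfn0 (Z := PUnit.{u+1}) (D := {r | r.1 ∈ D}) (hDB.preimage dfnF_fst)
          exact Dfn.preimage (f := fun v : Y => (v, (PUnit.unit : PUnit.{u+1}))) h3
            (dfnF_id.prodMk (dfnF_const (by
              rw [co_punit]
              exact empty_subset B)))
        obtain ⟨l, hl⟩ := happ _ (hQ.mono (subset_univ B)) ((hv₀.mem_iff hQ).1 ⟨e, h1⟩)
        exact ⟨(l, none), (g7_mem0 hB ((hMD l).inv.mono hMB) (ok0 l) hDB).2 hl⟩
      · have hfB : DfnF B f.1 := f.2.1.mono hMB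
        have hQ : Dfn B {v : Y | ∃ e, f.1 v < e ∧ ∀ x, f.1 v < x → x < e → (v, x) ∈ D} := by
          have h3 := g7_dfn1 (Z := PUnit.{u+1}) hfB (D := {r | r.1 ∈ D}) (hDB.preimage dfnF_fst)
          exact Dfn.preimage (f := fun v : Y => (v, (PUnit.unit : PUnit.{u+1}))) h3
            (dfnF_id.prodMk (dfnF_const (by
              rw [co_punit]
              exact empty_subset B)))
        have hf' : f.1 v₀ = k := hf
        obtain ⟨l, hl⟩ := happ _ (hQ.mono (subset_univ B)) ((hv₀.mem_iff hQ).1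
          ⟨e, he _ ⟨f, rfl⟩, fun x hx hxe => h1 x (by rw [← hf']; exact hx) hxe⟩)
        exact ⟨(l, some f), (g7_mem1 hB ((hMD l).inv.mono hMB) hfB (ok1 l f) hDB).2 hl⟩

end OMB
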