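import Pool.Agent.Lib.MP_fd36ae_lc.G7

/-!
# MP_fd36ae_lc : uniform transport (paper 5.3)
-/

open FirstOrder Set Cardinal

set_option linter.unusedSectionVars false

namespace OMB

universe u

variable {U : Type u} [Str U] {X Y Z W : Type u} [DSort U X] [DSort U Y] [DSort U Z] [DSort U W]
  {A B M : Set U} [OMS U] {n : ℕ}

/-- the conclusion of uniform transport -/
def Transp (M : Set U) (q₀ : GType U U) : Prop :=
  ∃ (Y : Type u) (_ : DSort U Y) (𝒲 : GType U Y) (d : Y), Tow M 𝒲 d ∧ ¬ Img 𝒲 q₀ ∧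
    ∃ θ : Y → GType U U, Fam M θ ∧ (∀ v, Eqv M d v → NR (θ v)) ∧
      ∃ B, Small B ∧ M ⊆ B ∧ ∃ (T : U × Y → U) (hT : DfnF B T), ∀ v, Rl 𝒲 B v →
        q₀.map (fun x => T (x, v)) (hT.fib v) = θ v

/-- case `j < l` of paper 5.3 -/
theorem transport_step (hMs : Small M) {m : U} (hm : m ∈ M) {𝒲 : GType U Y} {d : Y}
    (hT : Tow M 𝒲 d) {q₀ : GType U U} (hn₀ : NR q₀) (hq₀ : ∃ B, Small B ∧ Inv B q₀)
    (hav : ¬ Img 𝒲 q₀) {θ : Y → GType U U} (hθ : Fam M θ) (hθn : ∀ v, NR (θ v))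
    (ok : DepOK 𝒲 θ) (hi : Img (dep 𝒲 θ ok) q₀) : Transp M q₀ := by
  obtain ⟨f, hf, hfe⟩ := hi
  obtain ⟨B₀, hB₀, hqB⟩ := hq₀
  obtain ⟨B₁, hB₁, hfB⟩ := exists_small_base hf
  obtain ⟨A, hAdef⟩ : ∃ A : Set U, A = M ∪ B₀ ∪ B₁ := ⟨_, rfl⟩
  have hA : Small A := by
    rw [hAdef]
    exact (hMs.union hB₀).union (small_of_finite hB₁)
  have hMA : M ⊆ A := by
    rw [hAdef]
    exact subset_union_left.trans subset_union_left
  have hmA : m ∈ A := hMA hm
  have hfA : DfnF A f := hfB.mono (by rw [hAdef]; exact subset_union_right)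
  have hqA : Inv A q₀ := hqB.mono (by rw [hAdef]; exact subset_union_right.trans subset_union_left)
  have hWA : Inv A 𝒲 := hT.inv.mono hMA
  have hθA : Fam A θ := hθ.mono hMA
  rcases elim_dep hA hmA hWA hθA ok hfA hn₀ hqA hfe with ⟨g, hg, hge⟩ | h
  · exact absurd ⟨g, _, hge⟩ hav
  obtain ⟨v₀, hv₀⟩ := exists_rl 𝒲 hA
  have hf₀ : DfnF (A ∪ co U v₀) (fun x => f (v₀, x)) :=
    (hfA.mono subset_union_left).comp ((dfnF_const subset_union_right).prodMk dfnF_id)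
  have hn : NR ((θ v₀).map (fun x => f (v₀, x)) (hfA.fib' v₀)) := by
    rw [h v₀ hv₀]
    exact hn₀
  obtain ⟨g, hg, hgf⟩ := exists_inverse (subset_union_left hmA) hf₀ hn
  obtain ⟨T, hTA, hTg⟩ := DfnF.param hmA hg
  have hgu : DfnF (univ : Set U) g := hg.mono (subset_univ _)
  have h0 : q₀.map g hgu = θ v₀ := by
    rw [← h v₀ hv₀, GType.map_map]
    exact GType.map_id' hgf
  have h1 : q₀.map (fun x => T (x, v₀)) (hTA.fib v₀) = θ v₀ := by
    rw [← h0]
    refine GType.map_congr ?_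
    simp only [hTg]
    simp
  refine ⟨Y, inferInstance, 𝒲, d, hT, hav, θ, hθ, fun v _ => hθn v, A, hA, hMA, T, hTA, ?_⟩
  intro v hv
  have hF : Fam A (fun v : Y => q₀.map (fun x => T (x, v)) (hTA.fib v)) :=
    Fam.mapc (hqA.fam) hTA
  exact (Fam.eq hA hF hθA).transfer (hv₀.eqv hv) h1

/-- case `j = l` of paper 5.3 -/
theorem transport_last (hM : Elem M) (hMs : Small M) {m : U} (hm : m ∈ M)
    {q : Fin n → GType U U} (hq : ∃ A : Set U, Small A ∧ ∀ i, Inv A (q i)) {p : GType U X}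
    (hp : Inv M p) (hdom : Dom (tensor q m) p)
    (hpi : ∀ θ : GType U U, NR θ → Img p θ → ∃ k, NR (q k) ∧ Img (q k) θ)
    {q₀ : GType U U} (hn₀ : NR q₀) (hq₀ : ∃ B, Small B ∧ Inv B q₀)
    {𝒲 : GType U Y} {d : Y} (hT : Tow M 𝒲 d) (hav : ¬ Img 𝒲 q₀)
    {F : X × Y → U} (hF : DfnF M F) (hn : NR (p.map (fun x => F (x, d)) (hF.fib d)))
    (hi : Img q₀ (p.map (fun x => F (x, d)) (hF.fib d))) : Transp M q₀ := by
  obtain ⟨A₁, hA₁, hqA₁⟩ := hq
  obtain ⟨B₁, hB₁, hqB₁⟩ := hq₀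
  have hθ : Fam M (fun v : Y => p.map (fun x => F (x, v)) (hF.fib v)) := Fam.mapc (hp.fam) hF
  have hθn : ∀ v, Eqv M d v → NR (p.map (fun x => F (x, v)) (hF.fib v)) := fun v hv =>
    (Fam.nr hMs hθ).transfer hv hn
  have hθi : ∀ v, Eqv M d v → Img q₀ (p.map (fun x => F (x, v)) (hF.fib v)) := fun v hv =>
    hi.trans (img_conj hM hMs hm hp hpi hF hn hv)
  obtain ⟨B, hB, hCB, hBt, hBp, w, hw⟩ := hdom.enlarge (C := M ∪ A₁ ∪ B₁) ((hMs.union hA₁).union hB₁)
  have hMB : M ⊆ B := (subset_union_left.trans subset_union_left).trans hCB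
  have hA₁B : A₁ ⊆ B := (subset_union_right.trans subset_union_left).trans hCB
  have hB₁B : B₁ ⊆ B := subset_union_right.trans hCB
  have hev : ∀ v, Rl 𝒲 B v → Eqv M d v := fun v hv => hT.rl.eqv (hv.mono hMB)
  obtain ⟨v₀, hv₀⟩ := exists_rl 𝒲 hB
  have hFB : DfnF B F := hF.mono hMB
  obtain ⟨G, hG, hGe⟩ := dom_push hB (hMB hm) hBt hBp hw hFB (hθn v₀ (hev v₀ hv₀))
  obtain ⟨B', hB', hBB', T, hTT, hTe⟩ := transport_prod hB (hMB hm) (fun i => (hqA₁ i).mono hA₁B)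
    (hT.inv.mono hMB) hn₀ (hqB₁.mono hB₁B) hav (hθ.mono hMB) (fun v hv => hθn v (hev v hv))
    (fun v hv => hθi v (hev v hv)) hG (fun v hv => hGe v (hv₀.eqv hv))
  exact ⟨Y, inferInstance, 𝒲, d, hT, hav, _, hθ, hθn, B', hB', hMB.trans hBB', T, hTT, hTe⟩

private theorem G8_cons (n : ℕ) :
    DfnF A (fun p : U × (Fin n → U) => (Fin.cons p.1 p.2 : Fin (n + 1) → U)) := by
  refine DfnF.pi fun i => ?_
  refine Fin.cases ?_ (fun j => ?_) i
  · simpa using (dfnF_fst : DfnF A (fun p : U × (Fin n → U) => p.1))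
  · simpa using ((dfnF_proj j).comp dfnF_snd : DfnF A (fun p : U × (Fin n → U) => p.2 j))

private theorem G8_cons' {f : Z → U} {g : Z → Fin n → U} (hf : DfnF A f) (hg : DfnF A g) :
    DfnF A (fun z => (Fin.cons (f z) (g z) : Fin (n + 1) → U)) :=
  (G8_cons n).comp (hf.prodMk hg)

/-- the induction on the number of remaining coordinates -/
theorem transport_ind (hM : Elem M) (hMs : Small M) {m : U} (hm : m ∈ M)
    {q : Fin n → GType U U} (hq : ∃ A : Set U, Small A ∧ ∀ i, Inv A (q i)) {p : GType U X}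
    (hp : Inv M p) (hdom : Dom (tensor q m) p)
    (hpi : ∀ θ : GType U U, NR θ → Img p θ → ∃ k, NR (q k) ∧ Img (q k) θ)
    {q₀ : GType U U} (hn₀ : NR q₀) (hq₀ : ∃ B, Small B ∧ Inv B q₀) (k : ℕ) :
    ∀ (Y : Type u) [DSort U Y] (𝒲 : GType U Y) (d : Y) (e : Fin k → U)
      (F : X × (Y × (Fin k → U)) → U) (hF : DfnF M F), Tow M 𝒲 d → ¬ Img 𝒲 q₀ →
      NR (p.map (fun x => F (x, (d, e))) (hF.fib (d, e))) →
      Img q₀ (p.map (fun x => F (x, (d, e))) (hF.fib (d, e))) → Transp M q₀ := by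
  induction k with
  | zero =>
    intro Y _ 𝒲 d e F hF hT hav hn hi
    have hF' : DfnF M (fun z : X × Y => F (z.1, (z.2, e))) :=
      hF.comp (dfnF_fst.prodMk (dfnF_snd.prodMk (dfnF_const (by
        rw [co_pi, Set.range_eq_empty]
        exact empty_subset _))))
    exact transport_last hM hMs hm hq hp hdom hpi hn₀ hq₀ hT hav hF' hn hi
  | succ k ih =>
    intro Y _ 𝒲 d e F hF hT hav hn hi
    have hce : (Fin.cons (e 0) (Fin.tail e) : Fin (k + 1) → U) = e := Fin.cons_self_tail e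
    by_cases hc : e 0 ∈ Dcl (M ∪ co U d)
    · obtain ⟨f, hf, hfd⟩ := dcl_param hm hc
      have hF' : DfnF M (fun z : X × (Y × (Fin k → U)) =>
          F (z.1, (z.2.1, (Fin.cons (f z.2.1) z.2.2 : Fin (k + 1) → U)))) :=
        hF.comp (dfnF_fst.prodMk ((dfnF_fst.comp dfnF_snd).prodMk
          (G8_cons' (hf.comp (dfnF_fst.comp dfnF_snd)) (dfnF_snd.comp dfnF_snd))))
      have heq : p.map (fun x => F (x, (d, e))) (hF.fib (d, e)) =
          p.map (fun x => F (x, (d, (Fin.cons (f d) (Fin.tail e) : Fin (k + 1) → U))))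
            (hF'.fib (d, Fin.tail e)) := by
        refine GType.map_congr ?_
        rw [hfd, hce]
        simp
      rw [heq] at hn hi
      exact ih Y 𝒲 d (Fin.tail e) _ hF' hT hav hn hi
    · obtain ⟨θ, hθ, hθn, ok, hT'⟩ := tow_step hMs hm hT hc
      by_cases hI : Img (dep 𝒲 θ ok) q₀
      · exact transport_step hMs hm hT hn₀ hq₀ hav hθ hθn ok hI
      · have hF' : DfnF M (fun z : X × ((Y × U) × (Fin k → U)) =>
            F (z.1, (z.2.1.1, (Fin.cons z.2.1.2 z.2.2 : Fin (k + 1) → U)))) :=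
          hF.comp (dfnF_fst.prodMk ((dfnF_fst.comp (dfnF_fst.comp dfnF_snd)).prodMk
            (G8_cons' (dfnF_snd.comp (dfnF_fst.comp dfnF_snd)) (dfnF_snd.comp dfnF_snd))))
        have heq : p.map (fun x => F (x, (d, e))) (hF.fib (d, e)) =
            p.map (fun x => F (x, (d, (Fin.cons (e 0) (Fin.tail e) : Fin (k + 1) → U))))
              (hF'.fib ((d, e 0), Fin.tail e)) := by
          refine GType.map_congr ?_
          rw [hce]
          simp
        rw [heq] at hn hi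
        exact ih (Y × U) (dep 𝒲 θ ok) (d, e 0) (Fin.tail e) _ hF' hT' hI hn hi

/-- uniform transport, paper 5.3 -/
theorem transport (hM : Elem M) (hMs : Small M) {m : U} (hm : m ∈ M)
    {q : Fin n → GType U U} (hq : ∃ A : Set U, Small A ∧ ∀ i, Inv A (q i)) {p : GType U X}
    (hp : Inv M p) (hdom : Dom (tensor q m) p)
    (hpi : ∀ θ : GType U U, NR θ → Img p θ → ∃ k, NR (q k) ∧ Img (q k) θ)
    {q₀ : GType U U} (hn₀ : NR q₀) (hq₀ : ∃ B, Small B ∧ Inv B q₀) (hi : Img p q₀) :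
    Transp M q₀ := by
  obtain ⟨f, hf, hfe⟩ := hi
  obtain ⟨k, b, -, g, hg, hgf⟩ := DfnF.finite_param hm (subset_univ M) hf
  have hF' : DfnF M (fun z : X × (PUnit.{u + 1} × (Fin k → U)) => g (z.1, z.2.2)) :=
    hg.comp (dfnF_fst.prodMk (dfnF_snd.comp dfnF_snd))
  have heq : p.map (fun x => g (x, b)) (hF'.fib (PUnit.unit, b)) = q₀ := by
    rw [← hfe]
    refine GType.map_congr ?_
    simp only [hgf]
    simp
  refine transport_ind hM hMs hm hq hp hdom hpi hn₀ hq₀ k PUnit.{u + 1} (rTy PUnit.unit) PUnit.unit b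
    _ hF' (tow_punit M) ?_ ?_ ?_
  · rintro ⟨f', hf', he'⟩
    rw [map_rTy] at he'
    rw [← he'] at hn₀
    exact not_nr_rTy _ hn₀
  · show NR (p.map (fun x => g (x, b)) (hF'.fib (PUnit.unit, b)))
    rw [heq]
    exact hn₀
  · show Img q₀ (p.map (fun x => g (x, b)) (hF'.fib (PUnit.unit, b)))
    rw [heq]
    exact Img.refl _

end OMB
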