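import Pool.Agent.Lib.MP_fd36ae_lc.G8

/-!
# MP_fd36ae_lc : classes containing a definable type (paper 4, via coheirs)
-/

open FirstOrder Set Cardinal

namespace OMB

universe u

variable {U : Type u} [Str U] {X Y Z W : Type u} [DSort U X] [DSort U Y] [DSort U Z] [DSort U W]
  {A B M : Set U} [OMS U] {n : ℕ}

private theorem g9_isS (a : U) : IsS (sT {a} : GType U U) {a} :=
  isS_sT (small_of_finite (Set.finite_singleton a))

/-- the relation `g(·,e)_* y^+ = c^+` is definable -/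
theorem dfn_map_sT {G : U × Z → U} (hG : DfnF M G) :
    Dfn M {p : (U × U) × Z | (sT {p.1.1} : GType U U).map (fun x => G (x, p.2)) (hG.fib p.2)
      = sT {p.1.2}} := by
  have he : {p : (U × U) × Z | (sT {p.1.1} : GType U U).map (fun x => G (x, p.2)) (hG.fib p.2)
      = sT {p.1.2}} = {p : (U × U) × Z | ∀ w, (w ≤ p.1.2 →
        ∃ e, p.1.1 < e ∧ ∀ x, p.1.1 < x → x < e → w < G (x, p.2)) ∧
        (p.1.2 < w → ∃ e, p.1.1 < e ∧ ∀ x, p.1.1 < x → x < e → G (x, p.2) < w)} := by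
    ext p
    have hlo : ∀ w, Lo ((sT {p.1.1} : GType U U).map (fun x => G (x, p.2)) (hG.fib p.2)) w ↔
        ∃ e, p.1.1 < e ∧ ∀ x, p.1.1 < x → x < e → w < G (x, p.2) := by
      intro w
      have h1 : Dfn (univ : Set U) {x : U | w < G (x, p.2)} :=
        Dfn.lt (dfnF_const (subset_univ _)) (hG.fib p.2)
      exact mem_sT_singleton h1
    have hhi : ∀ w, Hi ((sT {p.1.1} : GType U U).map (fun x => G (x, p.2)) (hG.fib p.2)) w ↔
        ∃ e, p.1.1 < e ∧ ∀ x, p.1.1 < x → x < e → G (x, p.2) < w := by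
      intro w
      have h1 : Dfn (univ : Set U) {x : U | G (x, p.2) < w} :=
        Dfn.lt (hG.fib p.2) (dfnF_const (subset_univ _))
      exact mem_sT_singleton h1
    have hS := g9_isS p.1.2
    constructor
    · intro h w
      have h' : (sT {p.1.1} : GType U U).map (fun x => G (x, p.2)) (hG.fib p.2) = sT {p.1.2} := h
      constructor
      · intro hw
        rw [← hlo w, h', hS.lo_iff]
        exact ⟨p.1.2, rfl, hw⟩
      · intro hw
        rw [← hhi w, h', hS.2 w]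
        intro k hk
        rw [mem_singleton_iff.1 hk]
        exact hw
    · intro h
      show (sT {p.1.1} : GType U U).map (fun x => G (x, p.2)) (hG.fib p.2) = sT {p.1.2}
      refine hS.1.eq_of_lo_hi ?_ ?_
      · intro w hw
        rw [hS.lo_iff] at hw
        obtain ⟨k, hk, hwk⟩ := hw
        rw [mem_singleton_iff.1 hk] at hwk
        exact (hlo w).2 ((h w).1 hwk)
      · intro w hw
        rw [hS.2 w] at hw
        exact (hhi w).2 ((h w).2 (hw _ rfl))
  rw [he]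
  refine Dfn.all (P := fun (p : (U × U) × Z) (w : U) => (w ≤ p.1.2 →
        ∃ e, p.1.1 < e ∧ ∀ x, p.1.1 < x → x < e → w < G (x, p.2)) ∧
        (p.1.2 < w → ∃ e, p.1.1 < e ∧ ∀ x, p.1.1 < x → x < e → G (x, p.2) < w)) ?_
  refine Dfn.and (Dfn.imp (Dfn.le dfnF_snd (dfnF_snd.comp (dfnF_fst.comp dfnF_fst))) ?_)
    (Dfn.imp (Dfn.lt (dfnF_snd.comp (dfnF_fst.comp dfnF_fst)) dfnF_snd) ?_)
  · refine Dfn.ex (P := fun (p : ((U × U) × Z) × U) (e : U) =>
      p.1.1.1 < e ∧ ∀ x, p.1.1.1 < x → x < e → p.2 < G (x, p.1.2)) ?_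
    refine Dfn.and (Dfn.lt (dfnF_fst.comp (dfnF_fst.comp (dfnF_fst.comp dfnF_fst))) dfnF_snd) ?_
    refine Dfn.all (P := fun (p : (((U × U) × Z) × U) × U) (x : U) =>
      p.1.1.1.1 < x → x < p.2 → p.1.2 < G (x, p.1.1.2)) ?_
    refine Dfn.imp (Dfn.lt
      (dfnF_fst.comp (dfnF_fst.comp (dfnF_fst.comp (dfnF_fst.comp dfnF_fst)))) dfnF_snd)
      (Dfn.imp (Dfn.lt dfnF_snd (dfnF_snd.comp dfnF_fst)) ?_)
    exact Dfn.lt (dfnF_snd.comp (dfnF_fst.comp dfnF_fst))
      (hG.comp (f := fun p : ((((U × U) × Z) × U) × U) × U => (p.2, p.1.1.1.2))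
        (dfnF_snd.prodMk (dfnF_snd.comp (dfnF_fst.comp (dfnF_fst.comp dfnF_fst)))))
  · refine Dfn.ex (P := fun (p : ((U × U) × Z) × U) (e : U) =>
      p.1.1.1 < e ∧ ∀ x, p.1.1.1 < x → x < e → G (x, p.1.2) < p.2) ?_
    refine Dfn.and (Dfn.lt (dfnF_fst.comp (dfnF_fst.comp (dfnF_fst.comp dfnF_fst))) dfnF_snd) ?_
    refine Dfn.all (P := fun (p : (((U × U) × Z) × U) × U) (x : U) =>
      p.1.1.1.1 < x → x < p.2 → G (x, p.1.1.2) < p.1.2) ?_
    refine Dfn.imp (Dfn.lt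
      (dfnF_fst.comp (dfnF_fst.comp (dfnF_fst.comp (dfnF_fst.comp dfnF_fst)))) dfnF_snd)
      (Dfn.imp (Dfn.lt dfnF_snd (dfnF_snd.comp dfnF_fst)) ?_)
    exact Dfn.lt
      (hG.comp (f := fun p : ((((U × U) × Z) × U) × U) × U => (p.2, p.1.1.1.2))
        (dfnF_snd.prodMk (dfnF_snd.comp (dfnF_fst.comp (dfnF_fst.comp dfnF_fst)))))
      (dfnF_snd.comp (dfnF_fst.comp dfnF_fst))

/-- points with the same cut over `M` are equivalent over `M` -/
private theorem g9_eqv (hM : Elem M) {c c' : U} (hc : c ∉ M)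
    (h1 : ∀ a ∈ M, a < c → a < c') (h2 : ∀ a ∈ M, c < a → c' < a) : Eqv M c c' := by
  intro D hD
  obtain ⟨E, hE, hpos⟩ := endpoints hD
  apply hpos
  intro e he
  have heM : e ∈ M := by
    have := hE (Finset.mem_coe.2 he)
    rwa [hM.dcl] at this
  rcases lt_trichotomy e c with h | h | h
  · have h' := h1 e heM h
    exact ⟨⟨fun c => absurd c (not_lt.2 h.le), fun c => absurd c (not_lt.2 h'.le)⟩,
      ⟨fun _ => h', fun _ => h⟩⟩
  · exact absurd (by rw [← h]; exact heM) hc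
  · have h' := h2 e heM h
    exact ⟨⟨fun _ => h', fun _ => h⟩,
      ⟨fun c => absurd c (not_lt.2 h.le), fun c => absurd c (not_lt.2 h'.le)⟩⟩

/-- the cut of a point outside `M` has no endpoint in `M` on one side -/
private theorem g9_cut (hM : Elem M) {m : U} (hm : m ∈ M) {c : U} (hc : c ∉ M) :
    ((∃ l ∈ M, l < c) ∧ ∀ l ∈ M, l < c → ∃ l' ∈ M, l < l' ∧ l' < c) ∨
      ((∃ r ∈ M, c < r) ∧ ∀ r ∈ M, c < r → ∃ r' ∈ M, r' < r ∧ c < r') := by
  have hne : ∀ x ∈ M, x < c ∨ c < x := by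
    intro x hx
    rcases lt_trichotomy x c with h | h | h
    · exact Or.inl h
    · exact absurd (by rw [← h]; exact hx) hc
    · exact Or.inr h
  by_cases hL : ∃ l ∈ M, l < c
  · by_cases hL' : ∀ l ∈ M, l < c → ∃ l' ∈ M, l < l' ∧ l' < c
    · exact Or.inl ⟨hL, hL'⟩
    · push Not at hL'
      obtain ⟨a, haM, hac, ha⟩ := hL'
      right
      constructor
      · obtain ⟨x, hxM, hx⟩ := hM {x | a < x} (dfn_Ioi haM) ⟨c, hac⟩
        rcases hne x hxM with h | h
        · exact absurd h (not_lt.2 (ha x hxM hx))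
        · exact ⟨x, hxM, h⟩
      · intro r hrM hcr
        obtain ⟨x, hxM, hx1, hx2⟩ := hM {x | a < x ∧ x < r}
          (Dfn.and (dfn_Ioi haM) (dfn_Iio hrM)) ⟨c, hac, hcr⟩
        rcases hne x hxM with h | h
        · exact absurd h (not_lt.2 (ha x hxM hx1))
        · exact ⟨x, hxM, hx2, h⟩
  · right
    constructor
    · rcases hne m hm with h | h
      · exact absurd ⟨m, hm, h⟩ hL
      · exact ⟨m, hm, h⟩
    · intro r hrM hcr
      obtain ⟨x, hxM, hx⟩ := hM {x | x < r} (dfn_Iio hrM) ⟨c, hcr⟩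
      rcases hne x hxM with h | h
      · exact absurd ⟨x, hxM, h⟩ hL
      · exact ⟨x, hxM, hx, h⟩

theorem def_case_s (hM : Elem M) (hMs : Small M) {m : U} (hm : m ∈ M)
    {q : Fin n → GType U U} {p : GType U X} (hp : Inv M p)
    (hpi : ∀ θ : GType U U, NR θ → Img p θ → ∃ k, NR (q k) ∧ Img (q k) θ)
    {c : U} (hi : Img p (sT {c})) : ∃ c' ∈ M, Img (sT {c} : GType U U) (sT {c'}) := by
  by_cases hc : c ∈ M
  · exact ⟨c, hc, Img.refl _⟩
  have hconj : ∀ c', Eqv M c c' → Img (sT {c} : GType U U) (sT {c'}) := by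
    intro c' hcc
    obtain ⟨f, hf, hfe⟩ := hi
    obtain ⟨k, b, _, F, hF, hFb⟩ := hf.finite_param hm (subset_univ M)
    have h0 : p.map (fun x => F (x, b)) (hF.fib b) = sT {c} := by
      rw [← hfe]
      exact GType.map_congr (by simp [hFb])
    obtain ⟨b', hb'⟩ := sat_eqv hMs hcc b
    have hF' : DfnF M (fun r : X × (U × (Fin k → U)) => F (r.1, r.2.2)) :=
      hF.comp (f := fun r : X × (U × (Fin k → U)) => (r.1, r.2.2))
        (dfnF_fst.prodMk (dfnF_snd.comp dfnF_snd))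
    have hfam1 : Fam M (fun v : U × (Fin k → U) => p.map (fun x => F (x, v.2)) (hF.fib v.2)) :=
      (hp.fam (Y := U × (Fin k → U))).map hF' (fun v => hF.fib v.2)
    have hfam2 : Fam M (fun v : U × (Fin k → U) => (sT {v.1} : GType U U)) := by
      have hJ : #PUnit.{u+1} < Str.κ U := by
        rw [Cardinal.mk_punit]
        exact Cardinal.one_lt_aleph0.trans Str.aleph
      have h1 := fam_sT hMs hJ (l := fun (_ : PUnit.{u+1}) (v : U × (Fin k → U)) => v.1)
        (fun _ => dfnF_fst)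
      have h2 : (fun v : U × (Fin k → U) => sT (Set.range fun _ : PUnit.{u+1} => v.1)) =
          (fun v : U × (Fin k → U) => (sT {v.1} : GType U U)) := by
        funext v
        rw [Set.range_const]
      rw [← h2]
      exact h1
    have h1 : p.map (fun x => F (x, b')) (hF.fib b') = sT {c'} :=
      (Fam.eq hMs hfam1 hfam2 (c, b) (c', b') hb').1 h0
    have h2 : NR (p.map (fun x => F (x, b)) (hF.fib b)) := by
      rw [h0]
      exact (g9_isS c).1
    have h3 := img_conj hM hMs hm hp hpi hF h2 hb'.snd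
    rw [h0, h1] at h3
    exact h3
  have key : ∀ π : GType U U, (∀ a ∈ M, a < c → Lo π a) → (∀ a ∈ M, c < a → Hi π a) →
      (∀ D : Set U, D ∈ π.F → ∃ a ∈ M, a ∈ D) → ∃ c' ∈ M, Img (sT {c} : GType U U) (sT {c'}) := by
    intro π h1 h2 h3
    obtain ⟨c', hc'⟩ := exists_rl π (hMs.union_co c)
    have hcM : Rl π M c' := hc'.mono subset_union_left
    have heq : Eqv M c c' := g9_eqv hM hc
      (fun a ha hac => hcM _ (dfn_Ioi ha) (h1 a ha hac))
      (fun a ha hca => hcM _ (dfn_Iio ha) (h2 a ha hca))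
    obtain ⟨f, hf, hfe⟩ := (hconj c' heq).symm (g9_isS c').1
    obtain ⟨k, e, _, g, hg, hge⟩ := hf.finite_param hm (subset_univ M)
    have h4 : (sT {c'} : GType U U).map (fun x => g (x, e)) (hg.fib e) = sT {c} := by
      rw [← hfe]
      exact GType.map_congr (by simp [hge])
    have hZ : Dfn (M ∪ co U c) {y : U | ∃ e : Fin k → U,
        (sT {y} : GType U U).map (fun x => g (x, e)) (hg.fib e) = sT {c}} := by
      refine Dfn.ex (P := fun (y : U) (e : Fin k → U) =>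
        (sT {y} : GType U U).map (fun x => g (x, e)) (hg.fib e) = sT {c}) ?_
      exact Dfn.preimage (f := fun r : U × (Fin k → U) => ((r.1, c), r.2))
        ((dfn_map_sT hg).mono subset_union_left)
        ((dfnF_fst.prodMk (dfnF_const subset_union_right)).prodMk dfnF_snd)
    have hmem := (hc'.mem_iff hZ).1 ⟨e, h4⟩
    obtain ⟨a, haM, e', ha⟩ := h3 _ hmem
    have h5 : Img (sT {a} : GType U U) (sT {c}) := ⟨_, hg.fib e', ha⟩
    exact ⟨a, haM, h5.symm (g9_isS c).1⟩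
  rcases g9_cut hM hm hc with ⟨⟨l, hlM, hlc⟩, hmax⟩ | ⟨⟨r, hrM, hcr⟩, hmin⟩
  · have hK : Small {x | x ∈ M ∧ x < c} := hMs.mono (fun x hx => hx.1)
    have hS := isS_sT hK
    refine key (sT {x | x ∈ M ∧ x < c}) ?_ ?_ ?_
    · intro a ha hac
      exact hS.lo_iff.2 ⟨a, ⟨ha, hac⟩, le_refl a⟩
    · intro a ha hca
      exact (hS.2 a).2 (fun k hk => hk.2.trans hca)
    · intro D hD
      obtain ⟨e, he, h | ⟨k, hk, h⟩⟩ := hS.mem_elim hK hD
      · exact ⟨l, hlM, h l (he l ⟨hlM, hlc⟩)⟩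
      · obtain ⟨l', hl'M, h1, h2⟩ := hmax k hk.1 hk.2
        exact ⟨l', hl'M, h l' h1 (he l' ⟨hl'M, h2⟩)⟩
  · have hK : Small {x | x ∈ M ∧ c < x} := hMs.mono (fun x hx => hx.1)
    have hS := isI_iT hK
    refine key (iT {x | x ∈ M ∧ c < x}) ?_ ?_ ?_
    · intro a ha hac
      exact (hS.2 a).2 (fun k hk => hac.trans hk.2)
    · intro a ha hca
      exact hS.hi_iff.2 ⟨a, ⟨ha, hca⟩, le_refl a⟩
    · intro D hD
      have hel := @IsS.mem_elim U _ (OMS.dual U) _ _ hS hK D hD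
      obtain ⟨e, he, h | ⟨k, hk, h⟩⟩ := hel
      · exact ⟨r, hrM, h r (he r ⟨hrM, hcr⟩)⟩
      · obtain ⟨r', hr'M, h1, h2⟩ := hmin k hk.1 hk.2
        exact ⟨r', hr'M, h r' h1 (he r' ⟨hr'M, h2⟩)⟩

theorem def_case_i (hM : Elem M) (hMs : Small M) {m : U} (hm : m ∈ M)
    {q : Fin n → GType U U} {p : GType U X} (hp : Inv M p)
    (hpi : ∀ θ : GType U U, NR θ → Img p θ → ∃ k, NR (q k) ∧ Img (q k) θ)
    {c : U} (hi : Img p (iT {c})) : ∃ c' ∈ M, Img (iT {c} : GType U U) (iT {c'}) := by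
  exact @def_case_s U _ X _ M (OMS.dual U) n hM hMs m hm q p hp hpi c hi

/-- paper section 4 -/
theorem def_case (hM : Elem M) (hMs : Small M) {m : U} (hm : m ∈ M)
    {q : Fin n → GType U U} {p : GType U X} (hp : Inv M p)
    (hpi : ∀ θ : GType U U, NR θ → Img p θ → ∃ k, NR (q k) ∧ Img (q k) θ)
    {q₀ : GType U U} (hn₀ : NR q₀) (hnd : ¬ ND q₀) (hi : Img p q₀) :
    ∃ π : GType U U, Inv M π ∧ NR π ∧ Img q₀ π := by
  have hsm : ∀ c : U, Small ({c} : Set U) := fun c => small_of_finite (Set.finite_singleton c)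
  rcases hn₀.not_nd hnd with ⟨c, hc⟩ | ⟨c, hc⟩ | h | h
  · have e : q₀ = sT {c} := hc.eq (isS_sT (hsm c))
    rw [e] at hi ⊢
    obtain ⟨c', hc'M, hc'⟩ := def_case_s hM hMs hm hp hpi hi
    have hS := isS_sT (hsm c')
    exact ⟨sT {c'}, hS.inv hMs (singleton_subset_iff.2 (subset_dcl hc'M)), hS.1, hc'⟩
  · have e : q₀ = iT {c} := hc.eq (isI_iT (hsm c))
    rw [e] at hi ⊢
    obtain ⟨c', hc'M, hc'⟩ := def_case_i hM hMs hm hp hpi hi
    have hS := isI_iT (hsm c')
    exact ⟨iT {c'}, hS.inv hMs (singleton_subset_iff.2 (subset_dcl hc'M)), hS.1, hc'⟩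
  · exact ⟨q₀, h.inv hMs (empty_subset _), hn₀, Img.refl _⟩
  · exact ⟨q₀, h.inv hMs (empty_subset _), hn₀, Img.refl _⟩

end OMB
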