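import Pool.Agent.Lib.MP_fd36ae_lc.G9

/-!
# MP_fd36ae_lc : frames (paper 6.1, 6.2)
-/

open FirstOrder Set Cardinal

namespace OMB

universe u

variable {U : Type u} [Str U] {X Y Z W : Type u} [DSort U X] [DSort U Y] [DSort U Z] [DSort U W]
  {A B M : Set U} [OMS U] {n : ℕ}

/-- The data of paper section 6. `R` is `<` or `>` on the target, `T(·,(b,v))` is strictly
`R`-increasing on `(s b, t b)` and maps `q₀` to `θ v`; `qx x` is an equivariant family with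
`qx b = q₀`. -/
structure Frame (M : Set U) (q₀ : GType U U) (Y Z : Type u) [DSort U Y] [DSort U Z] where
  𝒲 : GType U Y
  invW : Inv M 𝒲
  avoid : ¬ Img 𝒲 q₀
  Λ : Type u
  ρ : Λ → GType U Y
  cardΛ : #Λ < Str.κ U
  md : ∀ l, MD M (ρ l)
  approx : ∀ D, Dfn (univ : Set U) D → D ∈ 𝒲.F → ∃ l, D ∈ (ρ l).F
  R : U → U → Prop
  sto : IsStrictTotalOrder U R
  dfnR : Dfn M {p : U × U | R p.1 p.2}
  b : Z
  s : Z → U
  t : Z → U
  hs : DfnF M s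
  ht : DfnF M t
  T : U × (Z × Y) → U
  hT : DfnF M T
  qx : Z → GType U U
  famq : Fam M qx
  qb : qx b = q₀
  nd : ND q₀
  los : Lo q₀ (s b)
  hit : Hi q₀ (t b)
  θ : Y → GType U U
  famθ : Fam M θ
  mono : ∀ v, Rl 𝒲 (M ∪ co U b) v → ∀ y y', s b < y → y < y' → y' < t b →
    R (T (y, (b, v))) (T (y', (b, v)))
  map : ∀ v, Rl 𝒲 (M ∪ co U b) v →
    q₀.map (fun y => T (y, (b, v))) (hT.fib (b, v)) = θ v
  orient : (∀ x, ∃ K, Small K ∧ IsS (qx x) K) ∨ (∀ x, ∃ K, Small K ∧ IsI (qx x) K)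

/-- 6.1: `M ∪ co b`-invariance of `q₀` from the transport data -/
theorem inv_of_transport (hMs : Small M) {q₀ : GType U U} (hnd : ND q₀) {𝒲 : GType U Y}
    (hW : Inv M 𝒲) {θ : Y → GType U U} (hθ : Fam M θ) {R : U → U → Prop}
    (sto : IsStrictTotalOrder U R) (hR : Dfn M {p : U × U | R p.1 p.2}) {b : Z} {s t : Z → U}
    (hs : DfnF M s) (ht : DfnF M t) (los : Lo q₀ (s b)) (hit : Hi q₀ (t b))
    {T : U × (Z × Y) → U} (hT : DfnF M T)
    (hB : Small B) (hMB : M ∪ co U b ⊆ B)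
    (mono : ∀ v, Rl 𝒲 (M ∪ co U b) v → ∀ y y', s b < y → y < y' → y' < t b →
      R (T (y, (b, v))) (T (y', (b, v))))
    (map : ∀ v, Rl 𝒲 B v → q₀.map (fun y => T (y, (b, v))) (hT.fib (b, v)) = θ v) :
    Inv (M ∪ co U b) q₀ := by
  have hA : Small (M ∪ co U b) := hMs.union_co b
  have hb : co U b ⊆ M ∪ co U b := subset_union_right
  have hMA : M ⊆ M ∪ co U b := subset_union_left
  have hsw : DfnF (M ∪ co U b) (fun p : U × Y => (p.2, p.1)) := dfnF_snd.prodMk dfnF_fst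
  have hRl : AInv (M ∪ co U b) {p : U × Y | Rl 𝒲 ((M ∪ co U b) ∪ co U p.1) p.2} :=
    AInv.sub (P := fun p : Y × U => Rl 𝒲 ((M ∪ co U b) ∪ co U p.2) p.1)
      (f := fun p : U × Y => (p.2, p.1)) (Inv.rl_aInv (Z := U) (hW.mono hMA)) hsw
  have hD : Dfn (M ∪ co U b) {p : U × (U × Y) | R (T (p.2.1, (b, p.2.2))) p.1} :=
    Dfn.sub (P := fun p : U × U => R p.1 p.2) (hR.mono hMA)
      (((hT.mono hMA).comp ((dfnF_fst.comp dfnF_snd).prodMk
        ((dfnF_const hb).prodMk (dfnF_snd.comp dfnF_snd)))).prodMk dfnF_fst)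
  have hTh : AInv (M ∪ co U b) {p : U × Y | {u | R (T (p.1, (b, p.2))) u} ∈ (θ p.2).F} :=
    (hθ.mono hMA).aInv (P := fun (u : U) (p : U × Y) => R (T (p.1, (b, p.2))) u) hD
      (g := fun p : U × Y => p.2) dfnF_snd
  have hQ : AInv (M ∪ co U b) {z : U | ∀ v : Y, Rl 𝒲 ((M ∪ co U b) ∪ co U z) v →
      {u | R (T (z, (b, v))) u} ∈ (θ v).F} := AInv.all hA (hRl.imp hTh)
  have hsb : DfnF (M ∪ co U b) (fun _ : U => s b) := (hs.mono hMA).comp (dfnF_const hb)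
  have htb : DfnF (M ∪ co U b) (fun _ : U => t b) := (ht.mono hMA).comp (dfnF_const hb)
  have hkey : ∀ z, s b < z → z < t b → (Lo q₀ z ↔ ∀ v : Y, Rl 𝒲 ((M ∪ co U b) ∪ co U z) v →
      {u | R (T (z, (b, v))) u} ∈ (θ v).F) := by
    intro z hz1 hz2
    obtain ⟨v₁, hv₁⟩ := exists_rl 𝒲 (hB.union_co z)
    have hv₁A : Rl 𝒲 (M ∪ co U b) v₁ := hv₁.mono (hMB.trans subset_union_left)
    have hv₁z : Rl 𝒲 ((M ∪ co U b) ∪ co U z) v₁ := hv₁.mono (union_subset_union_left _ hMB)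
    have h1 : {u | R (T (z, (b, v₁))) u} ∈ (θ v₁).F ↔ Lo q₀ z := by
      rw [← map v₁ (hv₁.mono subset_union_left), GType.mem_map]
      constructor
      · intro h
        refine (hnd.1.lo_or_hi z).resolve_right fun hhi => ?_
        obtain ⟨y, hy1, hy2, hy3⟩ :=
          Filter.nonempty_of_mem (Filter.inter_mem h (Filter.inter_mem los hhi))
        have := sto
        exact asymm (r := R) hy1 (mono v₁ hv₁A y z hy2 hy3 hz2)
      · intro h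
        filter_upwards [h, hit] with y hy1 hy2
        exact mono v₁ hv₁A z y hz1 hy1 hy2
    have h2 : AInv ((M ∪ co U b) ∪ co U z) {v : Y | {u | R (T (z, (b, v))) u} ∈ (θ v).F} :=
      AInv.sub (P := fun p : U × Y => {u | R (T (p.1, (b, p.2))) u} ∈ (θ p.2).F)
        (hTh.mono subset_union_left) ((dfnF_const subset_union_right).prodMk dfnF_id)
    constructor
    · intro h v hv
      exact (h2 v v₁ (hv.eqv hv₁z)).2 (h1.2 h)
    · intro h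
      exact h1.1 (h v₁ hv₁z)
  refine inv_of_lo hA hnd.1 ?_
  have e : {z : U | Lo q₀ z} = {z : U | z ≤ s b ∨ (z < t b ∧
      ∀ v : Y, Rl 𝒲 ((M ∪ co U b) ∪ co U z) v → {u | R (T (z, (b, v))) u} ∈ (θ v).F)} := by
    ext z
    show Lo q₀ z ↔ z ≤ s b ∨ (z < t b ∧
      ∀ v : Y, Rl 𝒲 ((M ∪ co U b) ∪ co U z) v → {u | R (T (z, (b, v))) u} ∈ (θ v).F)
    constructor
    · intro h
      rcases le_or_gt z (s b) with h1 | h1
      · exact Or.inl h1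
      · have h2 := lt_of_lo_hi h hit
        exact Or.inr ⟨h2, (hkey z h1 h2).1 h⟩
    · rintro (h | ⟨h2, h⟩)
      · exact los.mono h
      · rcases le_or_gt z (s b) with h1 | h1
        · exact los.mono h1
        · exact (hkey z h1 h2).2 h
  rw [e]
  exact (Dfn.le dfnF_id hsb).aInv.or ((Dfn.lt dfnF_id htb).aInv.and hQ)

private theorem H1_dfn {R : U → U → Prop} (hR : Dfn B {p : U × U | R p.1 p.2}) {T : U × Y → U}
    (hT : DfnF B T) : Dfn B {p : U × Y | ∃ y z, y < p.1 ∧ p.1 < z ∧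
      ∀ u u', y < u → u < u' → u' < z → R (T (u, p.2)) (T (u', p.2))} := by
  have d0 : DfnF B (fun w : ((((U × Y) × U) × U) × U) × U => w.1.1.1.1.2) :=
    dfnF_snd.comp (dfnF_fst.comp (dfnF_fst.comp (dfnF_fst.comp dfnF_fst)))
  have d1 : DfnF B (fun w : ((((U × Y) × U) × U) × U) × U => w.1.1.1.2) :=
    dfnF_snd.comp (dfnF_fst.comp (dfnF_fst.comp dfnF_fst))
  have d2 : DfnF B (fun w : ((((U × Y) × U) × U) × U) × U => w.1.1.2) :=
    dfnF_snd.comp (dfnF_fst.comp dfnF_fst)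
  have d3 : DfnF B (fun w : ((((U × Y) × U) × U) × U) × U => w.1.2) := dfnF_snd.comp dfnF_fst
  have d4 : DfnF B (fun w : ((((U × Y) × U) × U) × U) × U => w.2) := dfnF_snd
  have h : Dfn B {w : ((((U × Y) × U) × U) × U) × U | w.1.1.1.2 < w.1.2 → w.1.2 < w.2 →
      w.2 < w.1.1.2 → R (T (w.1.2, w.1.1.1.1.2)) (T (w.2, w.1.1.1.1.2))} :=
    (Dfn.lt d1 d3).imp ((Dfn.lt d3 d4).imp ((Dfn.lt d4 d2).imp
      (Dfn.sub (P := fun p : U × U => R p.1 p.2) hR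
        ((hT.comp (d3.prodMk d0)).prodMk (hT.comp (d4.prodMk d0))))))
  have h1 : Dfn B {w : (((U × Y) × U) × U) × U | ∀ u', w.1.1.2 < w.2 → w.2 < u' →
      u' < w.1.2 → R (T (w.2, w.1.1.1.2)) (T (u', w.1.1.1.2))} :=
    Dfn.all (P := fun (w : (((U × Y) × U) × U) × U) (u' : U) => w.1.1.2 < w.2 → w.2 < u' →
      u' < w.1.2 → R (T (w.2, w.1.1.1.2)) (T (u', w.1.1.1.2))) h
  have h2 : Dfn B {w : ((U × Y) × U) × U | ∀ u u', w.1.2 < u → u < u' →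
      u' < w.2 → R (T (u, w.1.1.2)) (T (u', w.1.1.2))} :=
    Dfn.all (P := fun (w : ((U × Y) × U) × U) (u : U) => ∀ u', w.1.2 < u → u < u' →
      u' < w.2 → R (T (u, w.1.1.2)) (T (u', w.1.1.2))) h1
  have e1 : DfnF B (fun w : ((U × Y) × U) × U => w.1.2) := dfnF_snd.comp dfnF_fst
  have e2 : DfnF B (fun w : ((U × Y) × U) × U => w.1.1.1) :=
    dfnF_fst.comp (dfnF_fst.comp dfnF_fst)
  have e3 : DfnF B (fun w : ((U × Y) × U) × U => w.2) := dfnF_snd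
  have h3 : Dfn B {w : ((U × Y) × U) × U | w.1.2 < w.1.1.1 ∧ w.1.1.1 < w.2 ∧
      ∀ u u', w.1.2 < u → u < u' → u' < w.2 → R (T (u, w.1.1.2)) (T (u', w.1.1.2))} :=
    Dfn.and (P := fun w : ((U × Y) × U) × U => w.1.2 < w.1.1.1)
      (Q := fun w : ((U × Y) × U) × U => w.1.1.1 < w.2 ∧
        ∀ u u', w.1.2 < u → u < u' → u' < w.2 → R (T (u, w.1.1.2)) (T (u', w.1.1.2)))
      (Dfn.lt e1 e2) (Dfn.and (P := fun w : ((U × Y) × U) × U => w.1.1.1 < w.2)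
        (Q := fun w : ((U × Y) × U) × U => ∀ u u', w.1.2 < u → u < u' → u' < w.2 →
          R (T (u, w.1.1.2)) (T (u', w.1.1.2))) (Dfn.lt e2 e3) h2)
  have h4 : Dfn B {q : (U × Y) × U | ∃ z, q.2 < q.1.1 ∧ q.1.1 < z ∧
      ∀ u u', q.2 < u → u < u' → u' < z → R (T (u, q.1.2)) (T (u', q.1.2))} :=
    Dfn.ex (P := fun (q : (U × Y) × U) (z : U) => q.2 < q.1.1 ∧ q.1.1 < z ∧
      ∀ u u', q.2 < u → u < u' → u' < z → R (T (u, q.1.2)) (T (u', q.1.2))) h3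
  exact Dfn.ex (P := fun (p : U × Y) (y : U) => ∃ z, y < p.1 ∧ p.1 < z ∧
      ∀ u u', y < u → u < u' → u' < z → R (T (u, p.2)) (T (u', p.2))) h4

private theorem H1_box (hB : Small B) {m : U} (hm : m ∈ B) {q₀ : GType U U} (hq₀ : Inv B q₀)
    (hnd : ND q₀) {𝒲 : GType U Y} (hW : Inv B 𝒲) (hav : ¬ Img 𝒲 q₀) {T : U × Y → U}
    (hT : DfnF B T) {R : U → U → Prop} (hR : Dfn B {p : U × U | R p.1 p.2})
    (hloc : ∀ f : U → U, DfnF (univ : Set U) f → ∀ I : Set U, I.OrdConnected →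
      (∀ x ∈ I, ∃ y z, y < x ∧ x < z ∧ ∀ u u', y < u → u < u' → u' < z → R (f u) (f u')) →
      ∀ u ∈ I, ∀ u' ∈ I, u < u' → R (f u) (f u'))
    {v₀ : Y} (hv₀ : Rl 𝒲 B v₀) {I : Set U} (hI : I ∈ q₀.F)
    (hmono : ∀ u ∈ I, ∀ u' ∈ I, u < u' → R (T (u, v₀)) (T (u', v₀))) :
    ∃ s t, Lo q₀ s ∧ Hi q₀ t ∧
      {v | ∀ y y', s < y → y < y' → y' < t → R (T (y, v)) (T (y', v))} ∈ 𝒲.F := by
  have hP := H1_dfn hR hT
  obtain ⟨a, b, ha, hb, hab⟩ := hnd.basis hI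
  have h0 : {x | ∃ y z, y < x ∧ x < z ∧
      ∀ u u', y < u → u < u' → u' < z → R (T (u, v₀)) (T (u', v₀))} ∈ q₀.F := by
    filter_upwards [ha, hb] with x hx1 hx2
    refine ⟨a, b, hx1, hx2, fun u u' h1 h2 h3 => ?_⟩
    exact hmono u (hab ⟨h1.le, (h2.trans h3).le⟩) u' (hab ⟨(h1.trans h2).le, h3.le⟩) h2
  have h1 : AInv B {v : Y | {x | ∃ y z, y < x ∧ x < z ∧
      ∀ u u', y < u → u < u' → u' < z → R (T (u, v)) (T (u', v))} ∈ q₀.F} :=
    hq₀.aInv (P := fun (x : U) (v : Y) => ∃ y z, y < x ∧ x < z ∧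
      ∀ u u', y < u → u < u' → u' < z → R (T (u, v)) (T (u', v))) hP
  obtain ⟨s, t, hs, ht, hst⟩ := box hB hm hW hq₀ hnd hav
    (P := fun (x : U) (v : Y) => ∃ y z, y < x ∧ x < z ∧
      ∀ u u', y < u → u < u' → u' < z → R (T (u, v)) (T (u', v))) hP
    (fun v hv => (h1 v₀ v (hv₀.eqv hv)).1 h0)
  refine ⟨s, t, hs, ht, Filter.mem_of_superset hst fun v hv y y' h2 h3 h4 => ?_⟩
  exact hloc (fun x => T (x, v)) (hT.fib v) (Ioo s t) ordConnected_Ioo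
    (fun x hx => hv x hx.1 hx.2) y ⟨h2, h3.trans h4⟩ y' ⟨h2.trans h3, h4⟩ h3

/-- 6.1: a box on which `T(·,v)` is strictly monotone for `𝒲`-almost all `v` -/
theorem mono_box (hB : Small B) {m : U} (hm : m ∈ B) {q₀ : GType U U} (hq₀ : Inv B q₀)
    (hnd : ND q₀) {𝒲 : GType U Y} (hW : Inv B 𝒲) (hav : ¬ Img 𝒲 q₀) {T : U × Y → U}
    (hT : DfnF B T)
    (hn : ∀ v, Rl 𝒲 B v → NR (q₀.map (fun x => T (x, v)) (hT.fib v))) :
    ∃ s t, Lo q₀ s ∧ Hi q₀ t ∧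
      ({v | ∀ y y', s < y → y < y' → y' < t → T (y, v) < T (y', v)} ∈ 𝒲.F ∨
        {v | ∀ y y', s < y → y < y' → y' < t → T (y', v) < T (y, v)} ∈ 𝒲.F) := by
  obtain ⟨v₀, hv₀⟩ := exists_rl 𝒲 hB
  obtain ⟨I, hI, -, -, h | h | h⟩ := local_mono hnd.1 (hT.fiber v₀)
  · exfalso
    obtain ⟨u₀, hu₀⟩ := Filter.nonempty_of_mem hI
    have h1 := hn v₀ hv₀ (T (u₀, v₀))
    rw [GType.mem_map] at h1
    obtain ⟨x, hx1, hx2⟩ := Filter.nonempty_of_mem (Filter.inter_mem h1 hI)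
    exact hx1 (h x hx2 u₀ hu₀)
  · obtain ⟨s, t, hs, ht, hst⟩ := H1_box hB hm hq₀ hnd hW hav hT
      (R := fun x y => x < y) (Dfn.lt dfnF_fst dfnF_snd)
      (fun f hf I hIc hl u hu u' hu' huu' => by
        refine strictMonoOn_of_locally hf hIc (fun x hx => ?_) hu hu' huu'
        obtain ⟨y, z, h1, h2, h3⟩ := hl x hx
        exact ⟨y, z, h1, h2, fun c hc c' hc' hcc' => h3 c c' hc.1 hcc' hc'.2⟩)
      hv₀ hI (fun u hu u' hu' huu' => h hu hu' huu')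
    exact ⟨s, t, hs, ht, Or.inl hst⟩
  · obtain ⟨s, t, hs, ht, hst⟩ := H1_box hB hm hq₀ hnd hW hav hT
      (R := fun x y => y < x) (Dfn.lt dfnF_snd dfnF_fst)
      (fun f hf I hIc hl u hu u' hu' huu' => by
        refine strictAntiOn_of_locally hf hIc (fun x hx => ?_) hu hu' huu'
        obtain ⟨y, z, h1, h2, h3⟩ := hl x hx
        exact ⟨y, z, h1, h2, fun c hc c' hc' hcc' => h3 c c' hc.1 hcc' hc'.2⟩)
      hv₀ hI (fun u hu u' hu' huu' => h hu hu' huu')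
    exact ⟨s, t, hs, ht, Or.inr hst⟩

end OMB
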