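import Pool.Agent.Lib.MP_fd36ae_lc.H1

/-!
# MP_fd36ae_lc : existence of frames (paper 6.1, 6.2)
-/

open FirstOrder Set Cardinal

namespace OMB

universe u

variable {U : Type u} [Str U] {X Y Z W : Type u} [DSort U X] [DSort U Y] [DSort U Z] [DSort U W]
  {A B M : Set U} [OMS U] {n : ℕ}

/-- 6.2: the equivariant family through `q₀` -/
private theorem H1b_qx (hMs : Small M) {m : U} (hm : m ∈ M) {q₀ : GType U U} (hnr : NR q₀)
    {b : Z} (hq₀ : Inv (M ∪ co U b) q₀) :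
    ∃ qx : Z → GType U U, Fam M qx ∧ qx b = q₀ ∧
      ((∀ x, ∃ K, Small K ∧ IsS (qx x) K) ∨ (∀ x, ∃ K, Small K ∧ IsI (qx x) K)) := by
  rcases classify (hMs.union_co b) hq₀ hnr with h | h
  · have hJ : #{f : Z → U // DfnF M f ∧ Lo q₀ (f b)} < Str.κ U :=
      lt_of_le_of_lt (Cardinal.mk_subtype_mono (fun f hf => hf.1)) (card_dfnF (X := Z) (Y := U) hMs)
    have hK : ∀ x : Z, Small (Set.range fun f : {f : Z → U // DfnF M f ∧ Lo q₀ (f b)} => f.1 x) :=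
      fun x => small_range hJ _
    refine ⟨fun x => sT (Set.range fun f : {f : Z → U // DfnF M f ∧ Lo q₀ (f b)} => f.1 x),
      fam_sT hMs hJ (fun j => j.2.1), ?_, Or.inl (fun x => ⟨_, hK x, isS_sT (hK x)⟩)⟩
    have hr : (Set.range fun f : {f : Z → U // DfnF M f ∧ Lo q₀ (f b)} => f.1 b) =
        {x | x ∈ Dcl (M ∪ co U b) ∧ Lo q₀ x} := by
      ext x
      constructor
      · rintro ⟨f, rfl⟩
        exact ⟨f.2.1.mem_dcl b, f.2.2⟩
      · rintro ⟨hx, hx'⟩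
        obtain ⟨g, hg, rfl⟩ := dcl_param hm hx
        exact ⟨⟨g, hg, hx'⟩, rfl⟩
    refine IsS.eq (isS_sT (hK b)) ?_
    rw [hr]
    exact h
  · have hJ : #{f : Z → U // DfnF M f ∧ Hi q₀ (f b)} < Str.κ U :=
      lt_of_le_of_lt (Cardinal.mk_subtype_mono (fun f hf => hf.1)) (card_dfnF (X := Z) (Y := U) hMs)
    have hK : ∀ x : Z, Small (Set.range fun f : {f : Z → U // DfnF M f ∧ Hi q₀ (f b)} => f.1 x) :=
      fun x => small_range hJ _
    refine ⟨fun x => iT (Set.range fun f : {f : Z → U // DfnF M f ∧ Hi q₀ (f b)} => f.1 x),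
      fam_iT hMs hJ (fun j => j.2.1), ?_, Or.inr (fun x => ⟨_, hK x, isI_iT (hK x)⟩)⟩
    have hr : (Set.range fun f : {f : Z → U // DfnF M f ∧ Hi q₀ (f b)} => f.1 b) =
        {x | x ∈ Dcl (M ∪ co U b) ∧ Hi q₀ x} := by
      ext x
      constructor
      · rintro ⟨f, rfl⟩
        exact ⟨f.2.1.mem_dcl b, f.2.2⟩
      · rintro ⟨hx, hx'⟩
        obtain ⟨g, hg, rfl⟩ := dcl_param hm hx
        exact ⟨⟨g, hg, hx'⟩, rfl⟩
    refine IsI.eq (isI_iT (hK b)) ?_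
    rw [hr]
    exact h

private theorem H1b_core (hMs : Small M) {m : U} (hm : m ∈ M) {q₀ : GType U U} (hnd : ND q₀)
    {𝒲 : GType U Y} {d : Y} (hTow : Tow M 𝒲 d) (hav : ¬ Img 𝒲 q₀) {θ : Y → GType U U}
    (hθ : Fam M θ) (hB : Small B) (hMB : M ⊆ B) {T₁ : U × Y → U} (hT₁ : DfnF B T₁)
    (hmap : ∀ v, Rl 𝒲 B v → q₀.map (fun x => T₁ (x, v)) (hT₁.fib v) = θ v)
    {R : U → U → Prop} (sto : IsStrictTotalOrder U R) (hR : Dfn M {p : U × U | R p.1 p.2})
    {s₀ t₀ : U} (hs₀ : Lo q₀ s₀) (ht₀ : Hi q₀ t₀)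
    (hmono : {v | ∀ y y', s₀ < y → y < y' → y' < t₀ → R (T₁ (y, v)) (T₁ (y', v))} ∈ 𝒲.F) :
    ∃ k : ℕ, Nonempty (Frame M q₀ Y (Fin k → U)) := by
  obtain ⟨n, b₀, hb₀, g, hg, hgT⟩ := DfnF.finite_param hm hMB hT₁
  obtain ⟨Λ, ρ, hΛ, hρ, happ⟩ := hTow.approx
  let b : Fin (n + 2) → U := Fin.cons s₀ (Fin.cons t₀ b₀)
  let T : U × ((Fin (n + 2) → U) × Y) → U :=
    fun p => g ((p.1, p.2.2), fun i => p.2.1 i.succ.succ)
  have hT : DfnF M T := by
    refine hg.comp ((dfnF_fst.prodMk (dfnF_snd.comp dfnF_snd)).prodMk ?_)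
    exact DfnF.pi (fun i => (dfnF_proj (U := U) i.succ.succ).comp (dfnF_fst.comp dfnF_snd))
  have hTb : ∀ y v, T (y, (b, v)) = T₁ (y, v) := by
    intro y v
    rw [← hgT]
    rfl
  have hs : DfnF M (fun x : Fin (n + 2) → U => x 0) := dfnF_proj 0
  have ht : DfnF M (fun x : Fin (n + 2) → U => x 1) := dfnF_proj 1
  have b0 : b 0 = s₀ := rfl
  have b1 : b 1 = t₀ := rfl
  have hAs : Small (M ∪ co U b) := hMs.union_co b
  have hMA : M ⊆ M ∪ co U b := subset_union_left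
  -- monotonicity
  have mono : ∀ v, Rl 𝒲 (M ∪ co U b) v → ∀ y y', b 0 < y → y < y' → y' < b 1 →
      R (T (y, (b, v))) (T (y', (b, v))) := by
    have hD : Dfn M {p : Y × (Fin (n + 2) → U) | ∀ y y', p.2 0 < y → y < y' → y' < p.2 1 →
        R (T (y, (p.2, p.1))) (T (y', (p.2, p.1)))} := by
      refine Dfn.all (Y := U) (Dfn.all (Y := U) ?_)
      have e1 : DfnF M (fun q : ((Y × (Fin (n + 2) → U)) × U) × U => q.1.1.2) :=
        dfnF_snd.comp (dfnF_fst.comp dfnF_fst)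
      have e2 : DfnF M (fun q : ((Y × (Fin (n + 2) → U)) × U) × U => q.1.1.1) :=
        dfnF_fst.comp (dfnF_fst.comp dfnF_fst)
      have e3 : DfnF M (fun q : ((Y × (Fin (n + 2) → U)) × U) × U => q.1.2) :=
        dfnF_snd.comp dfnF_fst
      have e4 : DfnF M (fun q : ((Y × (Fin (n + 2) → U)) × U) × U => q.2) := dfnF_snd
      refine Dfn.imp (Dfn.lt (hs.comp e1) e3) (Dfn.imp (Dfn.lt e3 e4)
        (Dfn.imp (Dfn.lt e4 (ht.comp e1)) ?_))
      exact hR.preimage ((hT.comp (e3.prodMk (e1.prodMk e2))).prodMk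
        (hT.comp (e4.prodMk (e1.prodMk e2))))
    intro v hv
    refine hv _ (hD.fiber b) (Filter.mem_of_superset hmono ?_)
    intro v hv y y' h1 h2 h3
    rw [hTb, hTb]
    exact hv y y' h1 h2 h3
  have hBb : Small (B ∪ co U b) := hB.union_co b
  have map1 : ∀ v, Rl 𝒲 (B ∪ co U b) v →
      q₀.map (fun y => T (y, (b, v))) (hT.fib (b, v)) = θ v := by
    intro v hv
    rw [← hmap v (hv.mono subset_union_left)]
    congr 1
    funext y
    exact hTb y v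
  have hMB' : M ∪ co U b ⊆ B ∪ co U b := union_subset_union_left _ hMB
  have hq : Inv (M ∪ co U b) q₀ :=
    inv_of_transport hMs hnd hTow.inv hθ sto hR hs ht hs₀ ht₀ hT hBb hMB' mono map1
  obtain ⟨qx, famq, hqb, hor⟩ := H1b_qx hMs hm hnd.1 hq
  refine ⟨n + 2, ⟨{
    𝒲 := 𝒲
    invW := hTow.inv
    avoid := hav
    Λ := Λ
    ρ := ρ
    cardΛ := hΛ
    md := hρ
    approx := happ
    R := R
    sto := sto
    dfnR := hR
    b := b
    s := fun x => x 0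
    t := fun x => x 1
    hs := hs
    ht := ht
    T := T
    hT := hT
    qx := qx
    famq := famq
    qb := hqb
    nd := hnd
    los := hs₀
    hit := ht₀
    θ := θ
    famθ := hθ
    mono := mono
    map := ?_
    orient := hor }⟩⟩
  intro v hv
  have hTb' : DfnF (M ∪ co U b) (fun p : U × Y => T (p.1, (b, p.2))) :=
    (hT.mono hMA).comp (dfnF_fst.prodMk ((dfnF_const subset_union_right).prodMk dfnF_snd))
  have h1 : AInv (M ∪ co U b) {v : Y | q₀.map (fun y => T (y, (b, v))) (hTb'.fib v) = θ v} :=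
    Fam.eq hAs ((hq.fam (Y := Y)).mapc hTb') (hθ.mono hMA)
  obtain ⟨v₁, hv₁⟩ := exists_rl 𝒲 hBb
  exact h1.transfer ((hv₁.mono hMB').eqv hv) (map1 v₁ hv₁)

/-- 6.1, 6.2: existence of a frame -/
theorem exists_frame (hMs : Small M) {m : U} (hm : m ∈ M) {q₀ : GType U U} (hnd : ND q₀)
    (hq₀ : ∃ B, Small B ∧ Inv B q₀) (h : Transp M q₀) :
    ∃ (k : ℕ) (Y : Type u) (_ : DSort U Y), Nonempty (Frame M q₀ Y (Fin k → U)) := by
  obtain ⟨Y, _, 𝒲, d, hTow, hav, θ, hθ, hθn, B, hB, hMB, T, hT, hmap⟩ := h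
  obtain ⟨C, hC, hqC⟩ := hq₀
  have hBC : Small (B ∪ C) := hB.union hC
  have hT' : DfnF (B ∪ C) T := hT.mono subset_union_left
  have hMB' : M ⊆ B ∪ C := hMB.trans subset_union_left
  have hmap' : ∀ v, Rl 𝒲 (B ∪ C) v → q₀.map (fun x => T (x, v)) (hT'.fib v) = θ v :=
    fun v hv => hmap v (hv.mono subset_union_left)
  obtain ⟨s, t, hs, ht, hmono⟩ := mono_box hBC (hMB' hm) (hqC.mono subset_union_right) hnd
    (hTow.inv.mono hMB') hav hT' (by
      intro v hv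
      rw [hmap' v hv]
      exact hθn v (hTow.rl.eqv (hv.mono hMB')))
  rcases hmono with hmono | hmono
  · obtain ⟨k, hk⟩ := H1b_core hMs hm hnd hTow hav hθ hBC hMB' hT' hmap' (R := (· < ·))
      inferInstance (Dfn.lt dfnF_fst dfnF_snd) hs ht hmono
    exact ⟨k, Y, _, hk⟩
  · obtain ⟨k, hk⟩ := H1b_core hMs hm hnd hTow hav hθ hBC hMB' hT' hmap' (R := (· > ·))
      inferInstance (Dfn.lt dfnF_snd dfnF_fst) hs ht hmono
    exact ⟨k, Y, _, hk⟩

end OMB
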