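import Pool.Agent.Lib.MP_fd36ae_lc.H1b

/-!
# MP_fd36ae_lc : frames, transfer to conjugates and compatibility (paper 6.2 - 6.5)
-/

open FirstOrder Set Cardinal

namespace OMB

universe u

variable {U : Type u} [Str U] {X Y Z W : Type u} [DSort U X] [DSort U Y] [DSort U Z] [DSort U W]
  {A B M : Set U} [OMS U] {n : ℕ} {q₀ : GType U U}

namespace Frame

/-- the points `x` with `T(·,(x,w))` strictly increasing on `(s x, t x)` for `ρ l`-almost all `w` -/
def dom (F : Frame M q₀ Y Z) (l : F.Λ) : Set Z :=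
  {x | F.s x < F.t x ∧ {w | ∀ y y', F.s x < y → y < y' → y' < F.t x →
    F.R (F.T (y, (x, w))) (F.T (y', (x, w)))} ∈ (F.ρ l).F}

/-- `(x,y) ≤ (x',y')` -/
def le (F : Frame M q₀ Y Z) (l : F.Λ) (e e' : Z × U) : Prop :=
  {w | ¬ F.R (F.T (e'.2, (e'.1, w))) (F.T (e.2, (e.1, w)))} ∈ (F.ρ l).F

/-- compatibility of two points, paper 6.5 -/
def Compat (F : Frame M q₀ Y Z) (l : F.Λ) (b b' : Z) : Prop :=
  (∀ a z', F.s b < a → a < F.t b → Lo (F.qx b) a → F.s b' < z' → z' < F.t b' →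
    Hi (F.qx b') z' → ¬ F.le l (b', z') (b, a)) ∧
  (∀ z a', F.s b < z → z < F.t b → Hi (F.qx b) z → F.s b' < a' → a' < F.t b' →
    Lo (F.qx b') a' → ¬ F.le l (b, z) (b', a'))

/-- all properties of the frame at a conjugate point `b'` (paper 6.2) -/
theorem at_conj (hMs : Small M) {m : U} (hm : m ∈ M) (F : Frame M q₀ Y Z) {b' : Z}
    (h : Eqv M F.b b') :
    ND (F.qx b') ∧ Lo (F.qx b') (F.s b') ∧ Hi (F.qx b') (F.t b') ∧ ¬ Img F.𝒲 (F.qx b') ∧
    Inv (M ∪ co U b') (F.qx b') ∧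
    (∀ v, Rl F.𝒲 (M ∪ co U b') v → ∀ y y', F.s b' < y → y < y' → y' < F.t b' →
      F.R (F.T (y, (b', v))) (F.T (y', (b', v)))) ∧
    (∀ v, Rl F.𝒲 (M ∪ co U b') v →
      (F.qx b').map (fun y => F.T (y, (b', v))) (F.hT.fib (b', v)) = F.θ v) := by
  have hrl : AInv M {p : Z × Y | Rl F.𝒲 (M ∪ co U p.1) p.2} :=
    (F.invW.rl_aInv (Z := Z)).preimage (f := fun p : Z × Y => (p.2, p.1))
      (dfnF_snd.prodMk dfnF_fst)
  refine ⟨?_, ?_, ?_, ?_, F.famq.inv b', ?_, ?_⟩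
  · have h1 : AInv M {x | ND (F.qx x)} := F.famq.nd hMs
    exact h1.transfer h (by rw [F.qb]; exact F.nd)
  · have h1 : AInv M {x | Lo (F.qx x) (F.s x)} :=
      F.famq.lo.preimage (f := fun x : Z => (F.s x, x)) (F.hs.prodMk dfnF_id)
    exact h1.transfer (P := fun x => Lo (F.qx x) (F.s x)) h (by rw [F.qb]; exact F.los)
  · have h1 : AInv M {x | Hi (F.qx x) (F.t x)} :=
      F.famq.hi.preimage (f := fun x : Z => (F.t x, x)) (F.ht.prodMk dfnF_id)
    exact h1.transfer (P := fun x => Hi (F.qx x) (F.t x)) h (by rw [F.qb]; exact F.hit)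
  · have h1 : AInv M {x : Z | Img F.𝒲 (F.qx x)} :=
      Fam.img hMs hm (F.invW.fam (Y := Z)) F.famq
    exact h1.not.transfer (P := fun x => ¬ Img F.𝒲 (F.qx x)) h (by rw [F.qb]; exact F.avoid)
  · have h2 : Dfn M {p : Z × Y | ∀ y y', F.s p.1 < y → y < y' → y' < F.t p.1 →
        F.R (F.T (y, (p.1, p.2))) (F.T (y', (p.1, p.2)))} := by
      refine Dfn.all (Y := U) (Dfn.all (Y := U) ?_)
      have e1 : DfnF M (fun q : ((Z × Y) × U) × U => q.1.1.1) :=
        dfnF_fst.comp (dfnF_fst.comp dfnF_fst)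
      have e2 : DfnF M (fun q : ((Z × Y) × U) × U => q.1.1.2) :=
        dfnF_snd.comp (dfnF_fst.comp dfnF_fst)
      have e3 : DfnF M (fun q : ((Z × Y) × U) × U => q.1.2) := dfnF_snd.comp dfnF_fst
      have e4 : DfnF M (fun q : ((Z × Y) × U) × U => q.2) := dfnF_snd
      refine Dfn.imp (Dfn.lt (F.hs.comp e1) e3) (Dfn.imp (Dfn.lt e3 e4)
        (Dfn.imp (Dfn.lt e4 (F.ht.comp e1)) ?_))
      exact F.dfnR.preimage ((F.hT.comp (e3.prodMk (e1.prodMk e2))).prodMk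
        (F.hT.comp (e4.prodMk (e1.prodMk e2))))
    have h1 : AInv M {x : Z | ∀ v, Rl F.𝒲 (M ∪ co U x) v → ∀ y y', F.s x < y → y < y' →
        y' < F.t x → F.R (F.T (y, (x, v))) (F.T (y', (x, v)))} :=
      AInv.all hMs (AInv.imp hrl h2.aInv)
    exact h1.transfer h F.mono
  · have h2 : AInv M {p : Z × Y | (F.qx p.1).map (fun y => F.T (y, (p.1, p.2)))
        (F.hT.fib (p.1, p.2)) = F.θ p.2} := by
      have h3 : Fam M (fun p : Z × Y => (F.qx p.1).map (fun y => F.T (y, p)) (F.hT.fib p)) :=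
        (F.famq.comp (g := fun p : Z × Y => p.1) dfnF_fst).mapc F.hT
      have h4 : Fam M (fun p : Z × Y => F.θ p.2) :=
        F.famθ.comp (g := fun p : Z × Y => p.2) dfnF_snd
      exact Fam.eq hMs h3 h4
    have h1 : AInv M {x : Z | ∀ v, Rl F.𝒲 (M ∪ co U x) v →
        (F.qx x).map (fun y => F.T (y, (x, v))) (F.hT.fib (x, v)) = F.θ v} :=
      AInv.all hMs (AInv.imp hrl h2)
    refine h1.transfer h ?_
    intro v hv
    have h5 := F.map v hv
    rw [← h5]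
    congr 1
    exact F.qb

/-- paper 6.5, the comparison step: for `z'` above `qx b'` there is `z` above `qx b` with
`T(z,(b,v)) < T(z',(b',v))` for `𝒲`-almost all `v` -/
theorem compare_hi (hMs : Small M) {m : U} (hm : m ∈ M) (F : Frame M q₀ Y Z) {b b' : Z}
    (h : Eqv M F.b b) (h' : Eqv M F.b b') {z' : U} (hz1 : z' < F.t b')
    (hz2 : Hi (F.qx b') z') : ∃ z, F.s b < z ∧ z < F.t b ∧ Hi (F.qx b) z ∧
      {v | F.R (F.T (z, (b, v))) (F.T (z', (b', v)))} ∈ F.𝒲.F := by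
  obtain ⟨nd1, lo1, hi1, av1, inv1, mono1, map1⟩ := F.at_conj hMs hm h
  obtain ⟨nd2, lo2, hi2, av2, inv2, mono2, map2⟩ := F.at_conj hMs hm h'
  have hA : Small (M ∪ co U b ∪ co U b' ∪ {z'}) :=
    ((hMs.union_co b).union_co b').union (small_of_finite (Set.finite_singleton z'))
  have hMA : M ⊆ M ∪ co U b ∪ co U b' ∪ {z'} := fun x hx => Or.inl (Or.inl (Or.inl hx))
  have hbA : M ∪ co U b ⊆ M ∪ co U b ∪ co U b' ∪ {z'} := fun x hx => Or.inl (Or.inl hx)
  have hb'A : M ∪ co U b' ⊆ M ∪ co U b ∪ co U b' ∪ {z'} := by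
    rintro x (hx | hx)
    · exact hMA hx
    · exact Or.inl (Or.inr hx)
  have cb : co U b ⊆ M ∪ co U b ∪ co U b' ∪ {z'} := subset_union_right.trans hbA
  have cb' : co U b' ⊆ M ∪ co U b ∪ co U b' ∪ {z'} := subset_union_right.trans hb'A
  have cz' : co U z' ⊆ M ∪ co U b ∪ co U b' ∪ {z'} := by
    rw [co_U]; exact subset_union_right
  have hT := F.hT.mono hMA
  have hP : Dfn (M ∪ co U b ∪ co U b' ∪ {z'})
      {p : U × Y | F.R (F.T (p.1, (b, p.2))) (F.T (z', (b', p.2)))} :=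
    (F.dfnR.mono hMA).preimage ((hT.comp (dfnF_fst.prodMk ((dfnF_const cb).prodMk dfnF_snd))).prodMk
      (hT.comp ((dfnF_const cz').prodMk ((dfnF_const cb').prodMk dfnF_snd))))
  obtain ⟨s, t, hs, ht, hst⟩ := box (P := fun y v => F.R (F.T (y, (b, v))) (F.T (z', (b', v))))
    hA (hMA hm) (F.invW.mono hMA) (inv1.mono hbA) nd1 av1 hP (by
      intro v hv
      have e1 := map1 v (hv.mono hbA)
      have e2 := map2 v (hv.mono hb'A)
      have h1 : {y | F.s b' < y ∧ y < z'} ∈ (F.qx b').F := Filter.inter_mem lo2 hz2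
      have h2 : {y | F.R (F.T (y, (b', v))) (F.T (z', (b', v)))} ∈ (F.qx b').F :=
        Filter.mem_of_superset h1 (fun y hy => mono2 v (hv.mono hb'A) y z' hy.1 hy.2 hz1)
      have h3 : {u | F.R u (F.T (z', (b', v)))} ∈ (F.θ v).F := by
        rw [← e2]
        exact h2
      rw [← e1] at h3
      exact h3)
  have hI : {x | (s < x ∧ x < t) ∧ F.s b < x ∧ x < F.t b} ∈ (F.qx b).F :=
    Filter.inter_mem (Filter.inter_mem hs ht) (Filter.inter_mem lo1 hi1)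
  obtain ⟨z, ⟨⟨hz1, hz2⟩, hz3, hz4⟩, hz5⟩ := nd1.exists_hi hI
  exact ⟨z, hz3, hz4, hz5, Filter.mem_of_superset hst (fun v hv => hv z hz1 hz2)⟩

end Frame

end OMB
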