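import Pool.Agent.Lib.MP_fd36ae_lc.H2

/-!
# MP_fd36ae_lc : compatibility, case s(K) (paper 6.5)
-/

open FirstOrder Set Cardinal

namespace OMB

universe u

variable {U : Type u} [Str U] {X Y Z W : Type u} [DSort U X] [DSort U Y] [DSort U Z] [DSort U W]
  {A B M : Set U} [OMS U] {n : ℕ} {q₀ : GType U U}

namespace Frame

private theorem dfn_mono_at (F : Frame M q₀ Y Z) (x : Z) :
    Dfn (M ∪ co U x) {v : Y | ∀ y y', F.s x < y → y < y' → y' < F.t x →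
      F.R (F.T (y, (x, v))) (F.T (y', (x, v)))} := by
  have h0 : Dfn M {p : Y × Z | ∀ y y', F.s p.2 < y → y < y' → y' < F.t p.2 →
      F.R (F.T (y, (p.2, p.1))) (F.T (y', (p.2, p.1)))} := by
    refine Dfn.all (P := fun (p : Y × Z) (y : U) => ∀ y', F.s p.2 < y → y < y' → y' < F.t p.2 →
      F.R (F.T (y, (p.2, p.1))) (F.T (y', (p.2, p.1)))) ?_
    refine Dfn.all (P := fun (q : (Y × Z) × U) (y' : U) => F.s q.1.2 < q.2 → q.2 < y' →
      y' < F.t q.1.2 → F.R (F.T (q.2, (q.1.2, q.1.1))) (F.T (y', (q.1.2, q.1.1)))) ?_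
    have hz : DfnF M (fun r : ((Y × Z) × U) × U => r.1.1.2) :=
      dfnF_snd.comp (dfnF_fst.comp dfnF_fst)
    have hv : DfnF M (fun r : ((Y × Z) × U) × U => r.1.1.1) :=
      dfnF_fst.comp (dfnF_fst.comp dfnF_fst)
    have hy : DfnF M (fun r : ((Y × Z) × U) × U => r.1.2) := dfnF_snd.comp dfnF_fst
    have hy' : DfnF M (fun r : ((Y × Z) × U) × U => r.2) := dfnF_snd
    refine Dfn.imp (Dfn.lt (F.hs.comp hz) hy)
      (Dfn.imp (Dfn.lt hy hy') (Dfn.imp (Dfn.lt hy' (F.ht.comp hz)) ?_))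
    exact F.dfnR.sub (f := fun r : ((Y × Z) × U) × U => (F.T (r.1.2, (r.1.1.2, r.1.1.1)),
      F.T (r.2, (r.1.1.2, r.1.1.1))))
      ((F.hT.comp (hy.prodMk (hz.prodMk hv))).prodMk (F.hT.comp (hy'.prodMk (hz.prodMk hv))))
  exact h0.fiber x

/-- paper 6.5, case `s(K)` -/
theorem compat_s (hMs : Small M) {m : U} (hm : m ∈ M) (F : Frame M q₀ Y Z)
    (hor : ∀ x, ∃ K, Small K ∧ IsS (F.qx x) K) {b' : Z} (h : Eqv M F.b b') :
    ∃ l, F.b ∈ F.dom l ∧ b' ∈ F.dom l ∧ F.Compat l F.b b' := by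
  classical
  by_contra hcon
  have := F.sto
  obtain ⟨_, los', hit', _, _, mono', _⟩ := F.at_conj hMs hm h
  have losb : Lo (F.qx F.b) (F.s F.b) := by rw [F.qb]; exact F.los
  have hitb : Hi (F.qx F.b) (F.t F.b) := by rw [F.qb]; exact F.hit
  have key : ∀ l, ∃ f1 f2 : U, Hi (F.qx b') f1 ∧ Hi (F.qx F.b) f2 ∧
      (F.b ∈ F.dom l → b' ∈ F.dom l →
        (∃ a, F.s F.b < a ∧ Lo (F.qx F.b) a ∧ f1 < F.t b' ∧ F.le l (b', f1) (F.b, a)) ∨
        (∃ a', F.s b' < a' ∧ Lo (F.qx b') a' ∧ f2 < F.t F.b ∧ F.le l (F.b, f2) (b', a'))) := by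
    intro l
    by_cases hd : F.b ∈ F.dom l ∧ b' ∈ F.dom l
    · have hn : ¬ F.Compat l F.b b' := fun hc => hcon ⟨l, hd.1, hd.2, hc⟩
      rw [Compat, not_and_or] at hn
      rcases hn with h1 | h2
      · push Not at h1
        obtain ⟨a, z', ha1, _, ha3, _, hz2, hz3, hle⟩ := h1
        exact ⟨z', F.t F.b, hz3, hitb, fun _ _ => Or.inl ⟨a, ha1, ha3, hz2, hle⟩⟩
      · push Not at h2
        obtain ⟨z, a', _, hz2, hz3, ha1, _, ha3, hle⟩ := h2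
        exact ⟨F.t b', z, hit', hz3, fun _ _ => Or.inr ⟨a', ha1, ha3, hz2, hle⟩⟩
    · exact ⟨F.t b', F.t F.b, hit', hitb, fun h1 h2 => absurd ⟨h1, h2⟩ hd⟩
  choose f1 f2 hf1 hf2 hf using key
  obtain ⟨K, hKs, hK⟩ := hor F.b
  obtain ⟨K', hKs', hK'⟩ := hor b'
  obtain ⟨z1, hz1, hz1'⟩ := hK.big hKs (Z := {F.t F.b} ∪ Set.range f2)
    ((small_of_finite (Set.finite_singleton _)).union (small_range F.cardΛ f2))
    (by
      rintro z (hz | ⟨l, rfl⟩)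
      · rw [Set.mem_singleton_iff.1 hz]
        exact hitb
      · exact hf2 l)
  obtain ⟨y1, hy1, hy1'⟩ := hK'.big hKs' (Z := {F.t b'} ∪ Set.range f1)
    ((small_of_finite (Set.finite_singleton _)).union (small_range F.cardΛ f1))
    (by
      rintro z (hz | ⟨l, rfl⟩)
      · rw [Set.mem_singleton_iff.1 hz]
        exact hit'
      · exact hf1 l)
  obtain ⟨z2, _, hz2t, hz2h, hz2R⟩ := F.compare_hi hMs hm (Eqv.refl F.b) h
    (hy1' _ (Or.inl rfl)) hy1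
  obtain ⟨y2, _, hy2t, hy2h, hy2R⟩ := F.compare_hi hMs hm h (Eqv.refl F.b)
    (hz1' _ (Or.inl rfl)) hz1
  have hmb := (GType.mem_iff_rl (π := F.𝒲) (F.dfn_mono_at F.b) (hMs.union_co F.b)).2 F.mono
  have hmb' := (GType.mem_iff_rl (π := F.𝒲) (F.dfn_mono_at b') (hMs.union_co b')).2 mono'
  obtain ⟨D, hDs, hDd, hDF⟩ := F.𝒲.base _
    (Filter.inter_mem (Filter.inter_mem hmb hmb') (Filter.inter_mem hz2R hy2R))
  obtain ⟨l, hl⟩ := F.approx D hDd hDF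
  have hl' := Filter.mem_of_superset hl hDs
  have hlb : F.b ∈ F.dom l := ⟨lt_of_lo_hi losb hitb,
    Filter.mem_of_superset hl' (fun w hw => hw.1.1)⟩
  have hlb' : b' ∈ F.dom l := ⟨lt_of_lo_hi los' hit',
    Filter.mem_of_superset hl' (fun w hw => hw.1.2)⟩
  rcases hf l hlb hlb' with ⟨a, ha1, ha2, ht, hle⟩ | ⟨a', ha1, ha2, ht, hle⟩
  · obtain ⟨w, hw, hw'⟩ := (F.ρ l).F.nonempty_of_mem (Filter.inter_mem hl' hle)
    exact hw' (_root_.trans (hw.1.1 a z2 ha1 (lt_of_lo_hi ha2 hz2h) hz2t) (_root_.trans hw.2.1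
      (hw.1.2 y1 (f1 l) (lt_of_lo_hi los' hy1) (hy1' _ (Or.inr ⟨l, rfl⟩)) ht)))
  · obtain ⟨w, hw, hw'⟩ := (F.ρ l).F.nonempty_of_mem (Filter.inter_mem hl' hle)
    exact hw' (_root_.trans (hw.1.2 a' y2 ha1 (lt_of_lo_hi ha2 hy2h) hy2t) (_root_.trans hw.2.2
      (hw.1.1 z1 (f2 l) (lt_of_lo_hi losb hz1) (hz1' _ (Or.inr ⟨l, rfl⟩)) ht)))

end Frame

end OMB
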