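import Pool.Agent.Lib.MP_fd36ae_lc.H2b

/-!
# MP_fd36ae_lc : dual frame, compatibility in general (paper 6.5)
-/

open FirstOrder Set Cardinal

namespace OMB

universe u

variable {U : Type u} [Str U] {X Y Z W : Type u} [DSort U X] [DSort U Y] [DSort U Z] [DSort U W]
  {A B M : Set U} [OMS U] {n : ℕ} {q₀ : GType U U}

namespace Frame

/-- the frame for the reversed order on the source: `R` is flipped, `s` and `t` are exchanged -/
def dual (F : Frame M q₀ Y Z) : @Frame U _ (OMS.dual U) M q₀ Y Z _ _ :=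
  @Frame.mk U _ (OMS.dual U) M q₀ Y Z _ _ F.𝒲 F.invW F.avoid F.Λ F.ρ F.cardΛ F.md F.approx
    (fun a b => F.R b a)
    { trichotomous := fun a b h1 h2 => F.sto.trichotomous a b h2 h1
      irrefl := fun a => F.sto.irrefl a
      trans := fun a b c h1 h2 => F.sto.trans c b a h2 h1 }
    (F.dfnR.preimage (f := fun p : U × U => (p.2, p.1)) (dfnF_snd.prodMk dfnF_fst))
    F.b F.t F.s F.ht F.hs F.T F.hT F.qx F.famq F.qb
    ⟨F.nd.1, F.nd.2.2.1, F.nd.2.1, F.nd.2.2.2.2, F.nd.2.2.2.1⟩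
    F.hit F.los F.θ F.famθ
    (fun v hv y y' h1 h2 h3 => F.mono v hv y' y h3 h2 h1)
    F.map F.orient.symm

/-- paper 6.5 -/
theorem compat (hMs : Small M) {m : U} (hm : m ∈ M) (F : Frame M q₀ Y Z) {b' : Z}
    (h : Eqv M F.b b') : ∃ l, F.b ∈ F.dom l ∧ b' ∈ F.dom l ∧ F.Compat l F.b b' := by
  rcases F.orient with hor | hor
  · exact F.compat_s hMs hm hor h
  · obtain ⟨l, h1, h2, h3, h4⟩ :=
      @Frame.compat_s U _ Y Z _ _ M (OMS.dual U) q₀ hMs m hm F.dual hor b' h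
    have hdom : ∀ x : Z, x ∈ @Frame.dom U _ Y Z _ _ M (OMS.dual U) q₀ F.dual l → x ∈ F.dom l := by
      intro x hx
      refine ⟨hx.1, Filter.mem_of_superset hx.2 ?_⟩
      intro w hw y y' e1 e2 e3
      exact hw y' y e3 e2 e1
    refine ⟨l, hdom _ h1, hdom _ h2, ?_, ?_⟩
    · intro a z' e1 e2 e3 e4 e5 e6 e7
      exact h4 a z' e2 e1 e3 e5 e4 e6 e7
    · intro z a' e1 e2 e3 e4 e5 e6 e7
      exact h3 z a' e2 e1 e3 e5 e4 e6 e7

end Frame

end OMB
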