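import Pool.Agent.Lib.MP_fd36ae_lc.H3

/-!
# MP_fd36ae_lc : M-definable preorders; the M-invariant lower cut (paper 6.4, 6.6)
-/

open FirstOrder Set Cardinal

namespace OMB

universe u

variable {U : Type u} [Str U] {X Y Z W : Type u} [DSort U X] [DSort U Y] [DSort U Z] [DSort U W]
  {A B M : Set U} [OMS U] {n : ℕ} {q₀ : GType U U}

/-- an `M`-definable total preorder on the box `{(x,y) : x ∈ X, s x < y < t x}`, strictly
increasing in `y` -/
structure Pre (M : Set U) (Z : Type u) [DSort U Z] where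
  X : Set Z
  dX : Dfn M X
  s : Z → U
  t : Z → U
  ds : DfnF M s
  dt : DfnF M t
  le : Z × U → Z × U → Prop
  dle : Dfn M {p : (Z × U) × (Z × U) | le p.1 p.2}
  total : ∀ e e' : Z × U, (e.1 ∈ X ∧ s e.1 < e.2 ∧ e.2 < t e.1) →
    (e'.1 ∈ X ∧ s e'.1 < e'.2 ∧ e'.2 < t e'.1) → le e e' ∨ le e' e
  trans : ∀ e e' e'' : Z × U, (e.1 ∈ X ∧ s e.1 < e.2 ∧ e.2 < t e.1) →
    (e'.1 ∈ X ∧ s e'.1 < e'.2 ∧ e'.2 < t e'.1) →
    (e''.1 ∈ X ∧ s e''.1 < e''.2 ∧ e''.2 < t e''.1) → le e e' → le e' e'' → le e e''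
  strict : ∀ (x : Z) (y y' : U), x ∈ X → s x < y → y < y' → y' < t x →
    le (x, y) (x, y') ∧ ¬ le (x, y') (x, y)

/-- the domain of the preorder -/
def Pre.box (P : Pre M Z) : Set (Z × U) := {e | e.1 ∈ P.X ∧ P.s e.1 < e.2 ∧ e.2 < P.t e.1}

/-- the set below the cut of `q` on the fibre of `b` -/
def Pre.lower (P : Pre M Z) (q : GType U U) (b : Z) : Set (Z × U) :=
  {e | e ∈ P.box ∧ ∃ a, P.s b < a ∧ a < P.t b ∧ Lo q a ∧ P.le e (b, a)}

private theorem frame_TR (F : Frame M q₀ Y Z) {V : Type u} [DSort U V] {f g : V → U}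
    {x x' : V → Z} {w : V → Y} (hf : DfnF M f) (hg : DfnF M g) (hx : DfnF M x) (hx' : DfnF M x')
    (hw : DfnF M w) :
    Dfn M {v : V | F.R (F.T (f v, (x v, w v))) (F.T (g v, (x' v, w v)))} :=
  F.dfnR.sub (f := fun v : V => (F.T (f v, (x v, w v)), F.T (g v, (x' v, w v))))
    ((F.hT.comp (hf.prodMk (hx.prodMk hw))).prodMk (F.hT.comp (hg.prodMk (hx'.prodMk hw))))

private theorem frame_dX (F : Frame M q₀ Y Z) (l : F.Λ) : Dfn M (F.dom l) := by
  have h : Dfn M {p : Y × Z | ∀ y y', F.s p.2 < y → y < y' → y' < F.t p.2 →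
      F.R (F.T (y, (p.2, p.1))) (F.T (y', (p.2, p.1)))} := by
    apply Dfn.all (P := fun (p : Y × Z) (y : U) => ∀ y', F.s p.2 < y → y < y' → y' < F.t p.2 →
      F.R (F.T (y, (p.2, p.1))) (F.T (y', (p.2, p.1))))
    apply Dfn.all (P := fun (q : (Y × Z) × U) (y' : U) => F.s q.1.2 < q.2 → q.2 < y' →
      y' < F.t q.1.2 → F.R (F.T (q.2, (q.1.2, q.1.1))) (F.T (y', (q.1.2, q.1.1))))
    have a1 : DfnF M (fun r : ((Y × Z) × U) × U => r.1.1.2) :=
      dfnF_snd.comp (dfnF_fst.comp dfnF_fst)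
    have a0 : DfnF M (fun r : ((Y × Z) × U) × U => r.1.1.1) :=
      dfnF_fst.comp (dfnF_fst.comp dfnF_fst)
    have a2 : DfnF M (fun r : ((Y × Z) × U) × U => r.1.2) := dfnF_snd.comp dfnF_fst
    have a3 : DfnF M (fun r : ((Y × Z) × U) × U => r.2) := dfnF_snd
    exact (Dfn.lt (F.hs.comp a1) a2).imp ((Dfn.lt a2 a3).imp ((Dfn.lt a3 (F.ht.comp a1)).imp
      (frame_TR F a2 a3 a1 a1 a0)))
  exact (Dfn.lt F.hs F.ht).and (MD.gen (F.md l) h)

private theorem frame_dle (F : Frame M q₀ Y Z) (l : F.Λ) :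
    Dfn M {p : (Z × U) × (Z × U) | F.le l p.1 p.2} := by
  have h : Dfn M {p : Y × ((Z × U) × (Z × U)) |
      ¬ F.R (F.T (p.2.2.2, (p.2.2.1, p.1))) (F.T (p.2.1.2, (p.2.1.1, p.1)))} := by
    have a0 : DfnF M (fun p : Y × ((Z × U) × (Z × U)) => p.1) := dfnF_fst
    have a1 : DfnF M (fun p : Y × ((Z × U) × (Z × U)) => p.2.2.2) :=
      dfnF_snd.comp (dfnF_snd.comp dfnF_snd)
    have a2 : DfnF M (fun p : Y × ((Z × U) × (Z × U)) => p.2.2.1) :=
      dfnF_fst.comp (dfnF_snd.comp dfnF_snd)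
    have a3 : DfnF M (fun p : Y × ((Z × U) × (Z × U)) => p.2.1.2) :=
      dfnF_snd.comp (dfnF_fst.comp dfnF_snd)
    have a4 : DfnF M (fun p : Y × ((Z × U) × (Z × U)) => p.2.1.1) :=
      dfnF_fst.comp (dfnF_fst.comp dfnF_snd)
    exact (frame_TR F a1 a3 a2 a4 a0).not
  exact MD.gen (F.md l) (P := fun (w : Y) (p : (Z × U) × (Z × U)) =>
    ¬ F.R (F.T (p.2.2, (p.2.1, w))) (F.T (p.1.2, (p.1.1, w)))) h

private theorem frame_TU (F : Frame M q₀ Y Z) (y y' : U) (x x' : Z) :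
    Dfn (univ : Set U) {w : Y | ¬ F.R (F.T (y, (x, w))) (F.T (y', (x', w)))} := by
  have hT : DfnF (univ : Set U) F.T := F.hT.mono (subset_univ M)
  have hR : Dfn (univ : Set U) {p : U × U | F.R p.1 p.2} := F.dfnR.mono (subset_univ M)
  have h : Dfn (univ : Set U) {w : Y | F.R (F.T (y, (x, w))) (F.T (y', (x', w)))} :=
    hR.sub (f := fun w : Y => (F.T (y, (x, w)), F.T (y', (x', w))))
      ((hT.comp ((dfnF_const (subset_univ _)).prodMk
        ((dfnF_const (subset_univ _)).prodMk dfnF_id))).prodMk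
        (hT.comp ((dfnF_const (subset_univ _)).prodMk
        ((dfnF_const (subset_univ _)).prodMk dfnF_id))))
  exact h.not

/-- the preorder given by a frame and an index `l` -/
def Frame.pre (F : Frame M q₀ Y Z) (l : F.Λ) : Pre M Z where
  X := F.dom l
  dX := frame_dX F l
  s := F.s
  t := F.t
  ds := F.hs
  dt := F.ht
  le := F.le l
  dle := frame_dle F l
  total := by
    intro e e' _ _
    have := F.sto
    have h := (F.ρ l).or_iff (frame_TU F e'.2 e.2 e'.1 e.1) (frame_TU F e.2 e'.2 e.1 e'.1)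
    apply h.1
    filter_upwards [] with w
    by_contra hc
    push Not at hc
    exact asymm_of F.R hc.1 hc.2
  trans := by
    intro e e' e'' _ _ _ h1 h2
    have := F.sto
    have h1' : ∀ᶠ w in (F.ρ l).F, ¬ F.R (F.T (e'.2, (e'.1, w))) (F.T (e.2, (e.1, w))) := h1
    have h2' : ∀ᶠ w in (F.ρ l).F, ¬ F.R (F.T (e''.2, (e''.1, w))) (F.T (e'.2, (e'.1, w))) := h2
    show ∀ᶠ w in (F.ρ l).F, ¬ F.R (F.T (e''.2, (e''.1, w))) (F.T (e.2, (e.1, w)))
    filter_upwards [h1', h2'] with w g1 g2 g3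
    rcases trichotomous_of F.R (F.T (e.2, (e.1, w))) (F.T (e'.2, (e'.1, w))) with h | h | h
    · exact g2 (trans_of F.R g3 h)
    · rw [h] at g3
      exact g2 g3
    · exact g1 h
  strict := by
    intro x y y' hx h1 h2 h3
    have := F.sto
    have hm : ∀ᶠ w in (F.ρ l).F, ∀ y y', F.s x < y → y < y' → y' < F.t x →
      F.R (F.T (y, (x, w))) (F.T (y', (x, w))) := hx.2
    refine ⟨?_, ?_⟩
    · show ∀ᶠ w in (F.ρ l).F, ¬ F.R (F.T (y', (x, w))) (F.T (y, (x, w)))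
      filter_upwards [hm] with w g g'
      exact asymm_of F.R (g y y' h1 h2 h3) g'
    · intro hc
      have hc' : ∀ᶠ w in (F.ρ l).F, ¬ F.R (F.T (y, (x, w))) (F.T (y', (x, w))) := hc
      obtain ⟨w, g1, g2⟩ := (hm.and hc').exists
      exact g2 (g1 y y' h1 h2 h3)

end OMB
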