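import Pool.Agent.Lib.MP_fd36ae_lc.H4

/-!
# MP_fd36ae_lc : the M-invariant lower cut (paper 6.6)
-/

open FirstOrder Set Cardinal

namespace OMB

universe u

variable {U : Type u} [Str U] {X Y Z W : Type u} [DSort U X] [DSort U Y] [DSort U Z] [DSort U W]
  {A B M : Set U} [OMS U] {n : ℕ} {q₀ : GType U U}

/-- the good points of a preorder with respect to a family -/
private def H4b_Q (P : Pre M Z) (qx : Z → GType U U) (x : Z) : Prop :=
  x ∈ P.X ∧ ND (qx x) ∧ Lo (qx x) (P.s x) ∧ Hi (qx x) (P.t x)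

/-- the first half of compatibility -/
private def H4b_C (P : Pre M Z) (qx : Z → GType U U) (x y : Z) : Prop :=
  ∀ a z', P.s x < a → a < P.t x → Lo (qx x) a → P.s y < z' → z' < P.t y →
    Hi (qx y) z' → ¬ P.le (y, z') (x, a)

private theorem H4b_Q_aInv (hMs : Small M) (P : Pre M Z) {qx : Z → GType U U} (hq : Fam M qx) :
    AInv M {x : Z | H4b_Q P qx x} := by
  refine AInv.and P.dX.aInv (AInv.and (Fam.nd hMs hq) (AInv.and ?_ ?_))
  · exact (Fam.lo hq).sub (f := fun x : Z => (P.s x, x)) (P.ds.prodMk dfnF_id)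
  · exact (Fam.hi hq).sub (f := fun x : Z => (P.t x, x)) (P.dt.prodMk dfnF_id)

private theorem H4b_C_aInv (hMs : Small M) (P : Pre M Z) {qx : Z → GType U U} (hq : Fam M qx) :
    AInv M {p : Z × Z | H4b_C P qx p.1 p.2} := by
  have f1 : DfnF M (fun r : ((Z × Z) × U) × U => r.1.1.1) :=
    dfnF_fst.comp (dfnF_fst.comp dfnF_fst)
  have f2 : DfnF M (fun r : ((Z × Z) × U) × U => r.1.1.2) :=
    dfnF_snd.comp (dfnF_fst.comp dfnF_fst)
  have f3 : DfnF M (fun r : ((Z × Z) × U) × U => r.1.2) := dfnF_snd.comp dfnF_fst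
  have f4 : DfnF M (fun r : ((Z × Z) × U) × U => r.2) := dfnF_snd
  refine AInv.all hMs (P := fun (p : Z × Z) (a : U) => ∀ z', P.s p.1 < a → a < P.t p.1 →
    Lo (qx p.1) a → P.s p.2 < z' → z' < P.t p.2 → Hi (qx p.2) z' → ¬ P.le (p.2, z') (p.1, a)) ?_
  refine AInv.all hMs (P := fun (p : (Z × Z) × U) (z' : U) => P.s p.1.1 < p.2 → p.2 < P.t p.1.1 →
    Lo (qx p.1.1) p.2 → P.s p.1.2 < z' → z' < P.t p.1.2 → Hi (qx p.1.2) z' →
    ¬ P.le (p.1.2, z') (p.1.1, p.2)) ?_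
  refine AInv.imp (Dfn.lt (P.ds.comp f1) f3).aInv ?_
  refine AInv.imp (Dfn.lt f3 (P.dt.comp f1)).aInv ?_
  refine AInv.imp ((Fam.lo hq).sub (f := fun r : ((Z × Z) × U) × U => (r.1.2, r.1.1.1))
    (f3.prodMk f1)) ?_
  refine AInv.imp (Dfn.lt (P.ds.comp f2) f4).aInv ?_
  refine AInv.imp (Dfn.lt f4 (P.dt.comp f2)).aInv ?_
  refine AInv.imp ((Fam.hi hq).sub (f := fun r : ((Z × Z) × U) × U => (r.2, r.1.1.2))
    (f4.prodMk f2)) ?_
  exact AInv.not (P.dle.aInv.sub (f := fun r : ((Z × Z) × U) × U =>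
    ((r.1.1.2, r.2), (r.1.1.1, r.1.2))) ((f2.prodMk f4).prodMk (f1.prodMk f3)))

private theorem H4b_lower_aInv (hMs : Small M) (P : Pre M Z) {qx : Z → GType U U}
    (hq : Fam M qx) : AInv M {p : (Z × U) × Z | p.1 ∈ P.lower (qx p.2) p.2} := by
  have g1 : DfnF M (fun r : (Z × U) × Z => r.1.1) := dfnF_fst.comp dfnF_fst
  have g2 : DfnF M (fun r : (Z × U) × Z => r.1.2) := dfnF_snd.comp dfnF_fst
  have f1 : DfnF M (fun r : ((Z × U) × Z) × U => r.1.1) := dfnF_fst.comp dfnF_fst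
  have f2 : DfnF M (fun r : ((Z × U) × Z) × U => r.1.2) := dfnF_snd.comp dfnF_fst
  have f3 : DfnF M (fun r : ((Z × U) × Z) × U => r.2) := dfnF_snd
  refine AInv.and (AInv.and (P.dX.aInv.preimage g1)
    (AInv.and (Dfn.lt (P.ds.comp g1) g2).aInv (Dfn.lt g2 (P.dt.comp g1)).aInv)) ?_
  refine AInv.ex hMs (P := fun (p : (Z × U) × Z) (a : U) => P.s p.2 < a ∧ a < P.t p.2 ∧
    Lo (qx p.2) a ∧ P.le p.1 (p.2, a)) ?_
  refine AInv.and (Dfn.lt (P.ds.comp f2) f3).aInv (AInv.and (Dfn.lt f3 (P.dt.comp f2)).aInv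
    (AInv.and ?_ ?_))
  · exact (Fam.lo hq).sub (f := fun r : ((Z × U) × Z) × U => (r.2, r.1.2)) (f3.prodMk f2)
  · exact P.dle.aInv.sub (f := fun r : ((Z × U) × Z) × U => (r.1.1, (r.1.2, r.2)))
      (f1.prodMk (f2.prodMk f3))

/-- the cover -/
private theorem H4b_cover (P : Pre M Z) {qx : Z → GType U U} {x : Z} (h : H4b_Q P qx x)
    {e : Z × U} (he : e ∈ P.box) : e ∈ P.lower (qx x) x ∨
      ∃ z, P.s x < z ∧ z < P.t x ∧ Hi (qx x) z ∧ P.le (x, z) e := by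
  by_contra hcon
  rw [not_or] at hcon
  obtain ⟨h1, h2⟩ := hcon
  have hD : Dfn (univ : Set U) {u : U | P.le e (x, u)} := by
    have h3 : Dfn M {p : U × ((Z × U) × Z) | P.le p.2.1 (p.2.2, p.1)} :=
      P.dle.sub (f := fun p : U × ((Z × U) × Z) => (p.2.1, (p.2.2, p.1)))
        ((dfnF_fst.comp dfnF_snd).prodMk ((dfnF_snd.comp dfnF_snd).prodMk dfnF_fst))
    exact (h3.mono (subset_univ _)).fiber_of (b := (e, x)) (subset_univ _)
  refine ND.not_dfn h.2.1 h.2.2.1 h.2.2.2 hD (fun z hz1 hz2 => ⟨fun hz => ?_, fun hz => ?_⟩)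
  · rcases h.2.1.1.lo_or_hi z with h4 | h4
    · exact absurd ⟨he, z, hz1, hz2, h4, hz⟩ h1
    · exact h4
  · rcases P.total e (x, z) he ⟨h.1, hz1, hz2⟩ with h4 | h4
    · exact h4
    · exact absurd ⟨z, hz1, hz2, hz, h4⟩ h2

private theorem H4b_sub (P : Pre M Z) {qx : Z → GType U U} {x y : Z} (hx : H4b_Q P qx x)
    (hy : H4b_Q P qx y) (hC : H4b_C P qx x y) : P.lower (qx x) x ⊆ P.lower (qx y) y := by
  rintro e ⟨he, a, ha1, ha2, ha3, ha4⟩
  rcases H4b_cover P hy he with h | ⟨z, hz1, hz2, hz3, hz4⟩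
  · exact h
  · exact absurd (P.trans (y, z) e (x, a) ⟨hy.1, hz1, hz2⟩ he ⟨hx.1, ha1, ha2⟩ hz4 ha4)
      (hC a z ha1 ha2 ha3 hz1 hz2 hz3)

private theorem H4b_eq (P : Pre M Z) {qx : Z → GType U U} {x y : Z} (hx : H4b_Q P qx x)
    (hy : H4b_Q P qx y) (hC : H4b_C P qx x y) (hC' : H4b_C P qx y x) :
    P.lower (qx x) x = P.lower (qx y) y :=
  Subset.antisymm (H4b_sub P hx hy hC) (H4b_sub P hy hx hC')

/-- paper 6.6: invariance of the lower cut, from compatibility with one realisation of a coheir -/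
theorem Pre.lower_inv (hMs : Small M) (P : Pre M Z) {qx : Z → GType U U} (hq : Fam M qx) {b : Z}
    (hb : b ∈ P.X) (hnd : ND (qx b)) (hlo : Lo (qx b) (P.s b)) (hhi : Hi (qx b) (P.t b))
    {ρ : GType U Z} (hρ : Inv M ρ) (hρb : Rl ρ M b) {b'' : Z} (hb'' : Rl ρ (M ∪ co U b) b'')
    (h1 : ∀ a z', P.s b < a → a < P.t b → Lo (qx b) a → P.s b'' < z' → z' < P.t b'' →
      Hi (qx b'') z' → ¬ P.le (b'', z') (b, a))
    (h2 : ∀ z a', P.s b < z → z < P.t b → Hi (qx b) z → P.s b'' < a' → a' < P.t b'' →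
      Lo (qx b'') a' → ¬ P.le (b, z) (b'', a')) :
    AInv M (P.lower (qx b) b) := by
  have hQb : H4b_Q P qx b := ⟨hb, hnd, hlo, hhi⟩
  have hQ : ∀ x, Eqv M b x → H4b_Q P qx x := fun x hx => (H4b_Q_aInv hMs P hq).transfer hx hQb
  have hCb : H4b_C P qx b b'' := h1
  have hCb' : H4b_C P qx b'' b := fun a z' e1 e2 e3 e4 e5 e6 => h2 z' a e4 e5 e6 e1 e2 e3
  have hC2 : AInv M {p : Z × Z | H4b_C P qx p.1 p.2 ∧ H4b_C P qx p.2 p.1} :=
    AInv.and (H4b_C_aInv hMs P hq) ((H4b_C_aInv hMs P hq).sub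
      (f := fun p : Z × Z => (p.2, p.1)) (dfnF_snd.prodMk dfnF_fst))
  -- all conjugates have the same lower set
  have key : ∀ b', Eqv M b b' → P.lower (qx b) b = P.lower (qx b') b' := by
    intro b' hb'
    obtain ⟨e, he⟩ := exists_rl ρ ((hMs.union_co b).union_co b')
    have he1 : Rl ρ (M ∪ co U b) e := he.mono subset_union_left
    have he2 : Rl ρ M e := he1.mono subset_union_left
    have hEe : Eqv M b e := hρb.eqv he2
    have hQe : H4b_Q P qx e := hQ e hEe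
    have hEq1 : Eqv M (b'', b) (e, b) := eqv_union_co.1 (hb''.eqv he1)
    have hEq2 : Eqv M (e, b) (e, b') := by
      intro D hD
      have h3 : Dfn M {p : Z × Z | p ∈ D} := hD
      have h4 := hρ.gen hD b b' hb'
      have h5 : (e, b) ∈ D ↔ {x | (x, b) ∈ D} ∈ ρ.F := by
        have h6 : Dfn (M ∪ co U b ∪ co U b') {x | (x, b) ∈ D} := (hD.fiber b).mono subset_union_left
        exact (he.mem_iff h6)
      have h7 : (e, b') ∈ D ↔ {x | (x, b') ∈ D} ∈ ρ.F := by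
        have h6 : Dfn (M ∪ co U b ∪ co U b') {x | (x, b') ∈ D} :=
          (hD.fiber b').mono (union_subset (subset_union_left.trans subset_union_left)
            subset_union_right)
        exact (he.mem_iff h6)
      rw [h5, h7]
      exact h4
    have c1 : H4b_C P qx e b ∧ H4b_C P qx b e :=
      hC2.transfer (P := fun p : Z × Z => H4b_C P qx p.1 p.2 ∧ H4b_C P qx p.2 p.1) hEq1
        ⟨hCb', hCb⟩
    have c2 : H4b_C P qx e b' ∧ H4b_C P qx b' e :=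
      hC2.transfer (P := fun p : Z × Z => H4b_C P qx p.1 p.2 ∧ H4b_C P qx p.2 p.1) hEq2 c1
    rw [H4b_eq P hQb hQe c1.2 c1.1, H4b_eq P hQe (hQ b' hb') c2.1 c2.2]
  have dir : ∀ e e' : Z × U, Eqv M e e' → e ∈ P.lower (qx b) b → e' ∈ P.lower (qx b) b := by
    intro e e' hee he
    obtain ⟨b', hb'⟩ := sat_eqv hMs hee b
    have h3 : e' ∈ P.lower (qx b') b' := (H4b_lower_aInv hMs P hq).transfer
      (P := fun p : (Z × U) × Z => p.1 ∈ P.lower (qx p.2) p.2) hb' he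
    rw [key b' hb'.snd]
    exact h3
  exact fun e e' hee => ⟨dir e e' hee, dir e' e hee.symm⟩

/-- paper 6.6: a frame gives an `M`-definable preorder with an `M`-invariant cut -/
theorem Frame.exists_pre (hM : Elem M) (hMs : Small M) {m : U} (hm : m ∈ M)
    (F : Frame M q₀ Y Z) :
    ∃ (P : Pre M Z) (b : Z), b ∈ P.X ∧ Lo q₀ (P.s b) ∧ Hi q₀ (P.t b) ∧
      AInv M (P.lower q₀ b) := by
  obtain ⟨ρ, hρ, hρb⟩ := exists_coheir hM F.b
  obtain ⟨b'', hb''⟩ := exists_rl ρ (hMs.union_co F.b)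
  have hE : Eqv M F.b b'' := hρb.eqv (hb''.mono subset_union_left)
  obtain ⟨l, hl1, hl2, hl3⟩ := F.compat hMs hm hE
  refine ⟨F.pre l, F.b, hl1, F.los, F.hit, ?_⟩
  have hnd : ND (F.qx F.b) := by
    rw [F.qb]
    exact F.nd
  have hlo : Lo (F.qx F.b) (F.s F.b) := by
    rw [F.qb]
    exact F.los
  have hhi : Hi (F.qx F.b) (F.t F.b) := by
    rw [F.qb]
    exact F.hit
  have h := Pre.lower_inv hMs (F.pre l) F.famq (b := F.b) hl1 hnd hlo hhi hρ hρb hb'' hl3.1 hl3.2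
  rw [F.qb] at h
  exact h

end OMB
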