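import Pool.Agent.Lib.MP_fd36ae_lc.H4b

/-!
# MP_fd36ae_lc : good points and density (paper 7.1, 7.2)
-/

open FirstOrder Set Cardinal

namespace OMB

universe u

variable {U : Type u} [Str U] {X Y Z W : Type u} [DSort U X] [DSort U Y] [DSort U Z] [DSort U W]
  {A B M : Set U} [OMS U] {n : ℕ} {q₀ : GType U U}

private theorem h5_between (lo hi : Finset U) (h : ∀ x ∈ lo, ∀ y ∈ hi, x < y) :
    ∃ m : U, (∀ x ∈ lo, x < m) ∧ ∀ y ∈ hi, m < y := by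
  have : Nonempty U := ⟨Str.pt⟩
  exact Order.exists_between_finsets lo hi h

/-- every initial segment is the cut of a non-realised type -/
theorem exists_cut (C : Set U) (hC : ∀ x y, x ≤ y → y ∈ C → x ∈ C) :
    ∃ π : GType U U, NR π ∧ ∀ z, Lo π z ↔ z ∈ C := by
  classical
  have fip : ∀ s : Finset (Set U),
      (↑s : Set (Set U)) ⊆ {D | (∃ k ∈ C, D = {x | k < x}) ∨ ∃ z, z ∉ C ∧ D = {x | x < z}} →
      ∃ lo hi : Finset U, (∀ a ∈ lo, a ∈ C) ∧ (∀ b ∈ hi, b ∉ C) ∧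
        ∀ x, (∀ a ∈ lo, a < x) → (∀ b ∈ hi, x < b) → ∀ D ∈ s, x ∈ D := by
    intro s
    induction s using Finset.induction_on with
    | empty =>
      intro _
      exact ⟨∅, ∅, by simp, by simp, by simp⟩
    | insert D s _ ih =>
      intro hs
      obtain ⟨lo, hi, h1, h2, h3⟩ := ih (fun E hE => hs (Finset.mem_coe.2
        (Finset.mem_insert_of_mem (Finset.mem_coe.1 hE))))
      rcases hs (Finset.mem_coe.2 (Finset.mem_insert_self D s)) with ⟨k, hk, hD⟩ | ⟨z, hz, hD⟩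
      · refine ⟨insert k lo, hi, ?_, h2, ?_⟩
        · intro a ha
          rcases Finset.mem_insert.1 ha with rfl | ha
          · exact hk
          · exact h1 a ha
        · intro x hx1 hx2 E hE
          rcases Finset.mem_insert.1 hE with rfl | hE
          · rw [hD]
            exact hx1 k (Finset.mem_insert_self k lo)
          · exact h3 x (fun a ha => hx1 a (Finset.mem_insert_of_mem ha)) hx2 E hE
      · refine ⟨lo, insert z hi, h1, ?_, ?_⟩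
        · intro b hb
          rcases Finset.mem_insert.1 hb with rfl | hb
          · exact hz
          · exact h2 b hb
        · intro x hx1 hx2 E hE
          rcases Finset.mem_insert.1 hE with rfl | hE
          · rw [hD]
            exact hx2 z (Finset.mem_insert_self z hi)
          · exact h3 x hx1 (fun b hb => hx2 b (Finset.mem_insert_of_mem hb)) E hE
  have hlt : ∀ x ∈ C, ∀ y, y ∉ C → x < y := fun x hx y hy =>
    lt_of_not_ge fun hyx => hy (hC y x hyx hx)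
  obtain ⟨π, hπ⟩ := exists_gtype (U := U)
    {D : Set U | (∃ k ∈ C, D = {x | k < x}) ∨ ∃ z, z ∉ C ∧ D = {x | x < z}} (by
      intro s hs
      obtain ⟨lo, hi, h1, h2, h3⟩ := fip s hs
      obtain ⟨m, hm1, hm2⟩ := h5_between lo hi (fun x hx y hy => hlt x (h1 x hx) y (h2 y hy))
      exact ⟨m, fun D hD => h3 m hm1 hm2 D (Finset.mem_coe.1 hD)⟩)
  have hlo : ∀ k ∈ C, Lo π k := fun k hk =>
    hπ _ (Or.inl ⟨k, hk, rfl⟩) (dfn_Ioi (mem_univ k))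
  have hhi : ∀ z, z ∉ C → Hi π z := fun z hz =>
    hπ _ (Or.inr ⟨z, hz, rfl⟩) (dfn_Iio (mem_univ z))
  refine ⟨π, ?_, ?_⟩
  · intro c
    by_cases hc : c ∈ C
    · exact Filter.mem_of_superset (hlo c hc) (fun x hx => ne_of_gt hx)
    · exact Filter.mem_of_superset (hhi c hc) (fun x hx => ne_of_lt hx)
  · intro z
    refine ⟨fun hz => ?_, hlo z⟩
    by_contra hzC
    exact not_lo_and_hi hz (hhi z hzC)

/-- `x` is good for the set `Lw` (the lower cut): the fibre of `Lw` over `x` is nonempty without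
maximum, its complement is nonempty without minimum -/
def Pre.Good (P : Pre M Z) (Lw : Set (Z × U)) (x : Z) : Prop :=
  x ∈ P.X ∧ (∃ y, P.s x < y ∧ y < P.t x ∧ (x, y) ∈ Lw) ∧
  (∀ y, P.s x < y → y < P.t x → (x, y) ∈ Lw → ∃ y', y < y' ∧ y' < P.t x ∧ (x, y') ∈ Lw) ∧
  (∃ y, P.s x < y ∧ y < P.t x ∧ (x, y) ∉ Lw) ∧
  (∀ y, P.s x < y → y < P.t x → (x, y) ∉ Lw → ∃ y', P.s x < y' ∧ y' < y ∧ (x, y') ∉ Lw)

theorem Pre.good_aInv (hMs : Small M) (P : Pre M Z) {Lw : Set (Z × U)} (h : AInv M Lw) :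
    AInv M {x | P.Good Lw x} := by
  have dX : AInv M {x : Z | x ∈ P.X} := P.dX.aInv
  have hs1 : AInv M {p : Z × U | P.s p.1 < p.2} :=
    (Dfn.lt (P.ds.comp dfnF_fst) dfnF_snd).aInv
  have ht1 : AInv M {p : Z × U | p.2 < P.t p.1} :=
    (Dfn.lt dfnF_snd (P.dt.comp dfnF_fst)).aInv
  have hL : AInv M {p : Z × U | (p.1, p.2) ∈ Lw} := h
  have hlt : AInv M {p : (Z × U) × U | p.1.2 < p.2} :=
    (Dfn.lt (dfnF_snd.comp dfnF_fst) dfnF_snd).aInv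
  have hgt : AInv M {p : (Z × U) × U | p.2 < p.1.2} :=
    (Dfn.lt dfnF_snd (dfnF_snd.comp dfnF_fst)).aInv
  have hf : DfnF M (fun p : (Z × U) × U => (p.1.1, p.2)) :=
    (dfnF_fst.comp dfnF_fst).prodMk dfnF_snd
  have hs2 : AInv M {p : (Z × U) × U | P.s p.1.1 < p.2} :=
    hs1.sub (P := fun q : Z × U => P.s q.1 < q.2) hf
  have ht2 : AInv M {p : (Z × U) × U | p.2 < P.t p.1.1} :=
    ht1.sub (P := fun q : Z × U => q.2 < P.t q.1) hf
  have hL2 : AInv M {p : (Z × U) × U | (p.1.1, p.2) ∈ Lw} :=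
    hL.sub (P := fun q : Z × U => (q.1, q.2) ∈ Lw) hf
  refine dX.and (AInv.and ?_ (AInv.and ?_ (AInv.and ?_ ?_)))
  · exact AInv.ex hMs (hs1.and (ht1.and hL))
  · refine AInv.all hMs (hs1.imp (ht1.imp (hL.imp ?_)))
    exact AInv.ex hMs (P := fun (p : Z × U) (y' : U) => p.2 < y' ∧ y' < P.t p.1 ∧ (p.1, y') ∈ Lw)
      (hlt.and (ht2.and hL2))
  · exact AInv.ex hMs (hs1.and (ht1.and hL.not))
  · refine AInv.all hMs (hs1.imp (ht1.imp (hL.not.imp ?_)))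
    exact AInv.ex hMs (P := fun (p : Z × U) (y' : U) => P.s p.1 < y' ∧ y' < p.2 ∧ (p.1, y') ∉ Lw)
      (hs2.and (hgt.and hL2.not))

/-- `x` is dense on `[a,t]` with respect to the fibre of `b` -/
def Pre.Dense (P : Pre M Z) (b x : Z) (a t : U) : Prop :=
  x ∈ P.X ∧ ∀ u₁ u₂, a ≤ u₁ → u₁ < u₂ → u₂ ≤ t →
    ∃ y, P.s x < y ∧ y < P.t x ∧ P.le (b, u₁) (x, y) ∧ P.le (x, y) (b, u₂)

theorem Pre.dense_dfn (P : Pre M Z) :
    Dfn M {p : (Z × Z) × (U × U) | P.Dense p.1.1 p.1.2 p.2.1 p.2.2} := by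
  have e1 : Dfn M {q : ((((Z × Z) × (U × U)) × U) × U) × U |
      P.s q.1.1.1.1.2 < q.2 ∧ q.2 < P.t q.1.1.1.1.2 ∧
        P.le (q.1.1.1.1.1, q.1.1.2) (q.1.1.1.1.2, q.2) ∧
        P.le (q.1.1.1.1.2, q.2) (q.1.1.1.1.1, q.1.2)} := by
    have fx : DfnF M (fun q : ((((Z × Z) × (U × U)) × U) × U) × U => q.1.1.1.1.2) :=
      dfnF_snd.comp (dfnF_fst.comp (dfnF_fst.comp (dfnF_fst.comp dfnF_fst)))
    have fb : DfnF M (fun q : ((((Z × Z) × (U × U)) × U) × U) × U => q.1.1.1.1.1) :=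
      dfnF_fst.comp (dfnF_fst.comp (dfnF_fst.comp (dfnF_fst.comp dfnF_fst)))
    have fy : DfnF M (fun q : ((((Z × Z) × (U × U)) × U) × U) × U => q.2) := dfnF_snd
    have fu1 : DfnF M (fun q : ((((Z × Z) × (U × U)) × U) × U) × U => q.1.1.2) :=
      dfnF_snd.comp (dfnF_fst.comp dfnF_fst)
    have fu2 : DfnF M (fun q : ((((Z × Z) × (U × U)) × U) × U) × U => q.1.2) :=
      dfnF_snd.comp dfnF_fst
    refine (Dfn.lt (P.ds.comp fx) fy).and ((Dfn.lt fy (P.dt.comp fx)).and (Dfn.and ?_ ?_))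
    · exact P.dle.sub (P := fun r : (Z × U) × (Z × U) => P.le r.1 r.2)
        (f := fun q : ((((Z × Z) × (U × U)) × U) × U) × U =>
          ((q.1.1.1.1.1, q.1.1.2), (q.1.1.1.1.2, q.2)))
        ((fb.prodMk fu1).prodMk (fx.prodMk fy))
    · exact P.dle.sub (P := fun r : (Z × U) × (Z × U) => P.le r.1 r.2)
        (f := fun q : ((((Z × Z) × (U × U)) × U) × U) × U =>
          ((q.1.1.1.1.2, q.2), (q.1.1.1.1.1, q.1.2)))
        ((fx.prodMk fy).prodMk (fb.prodMk fu2))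
  have e2 : Dfn M {q : ((((Z × Z) × (U × U)) × U) × U) | ∃ y,
      P.s q.1.1.1.2 < y ∧ y < P.t q.1.1.1.2 ∧
        P.le (q.1.1.1.1, q.1.2) (q.1.1.1.2, y) ∧ P.le (q.1.1.1.2, y) (q.1.1.1.1, q.2)} :=
    e1.ex
  have e3 : Dfn M {q : ((((Z × Z) × (U × U)) × U) × U) | q.1.1.2.1 ≤ q.1.2 → q.1.2 < q.2 →
      q.2 ≤ q.1.1.2.2 → ∃ y,
      P.s q.1.1.1.2 < y ∧ y < P.t q.1.1.1.2 ∧
        P.le (q.1.1.1.1, q.1.2) (q.1.1.1.2, y) ∧ P.le (q.1.1.1.2, y) (q.1.1.1.1, q.2)} := by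
    have fa : DfnF M (fun q : (((Z × Z) × (U × U)) × U) × U => q.1.1.2.1) :=
      dfnF_fst.comp (dfnF_snd.comp (dfnF_fst.comp dfnF_fst))
    have ft : DfnF M (fun q : (((Z × Z) × (U × U)) × U) × U => q.1.1.2.2) :=
      dfnF_snd.comp (dfnF_snd.comp (dfnF_fst.comp dfnF_fst))
    have fu1 : DfnF M (fun q : (((Z × Z) × (U × U)) × U) × U => q.1.2) :=
      dfnF_snd.comp dfnF_fst
    have fu2 : DfnF M (fun q : (((Z × Z) × (U × U)) × U) × U => q.2) := dfnF_snd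
    exact (Dfn.le fa fu1).imp ((Dfn.lt fu1 fu2).imp ((Dfn.le fu2 ft).imp e2))
  have e4 : Dfn M {p : (Z × Z) × (U × U) | ∀ u₁ u₂, p.2.1 ≤ u₁ → u₁ < u₂ → u₂ ≤ p.2.2 →
      ∃ y, P.s p.1.2 < y ∧ y < P.t p.1.2 ∧ P.le (p.1.1, u₁) (p.1.2, y) ∧
        P.le (p.1.2, y) (p.1.1, u₂)} := by
    refine Dfn.all ?_
    exact Dfn.all (P := fun (q : ((Z × Z) × (U × U)) × U) (u₂ : U) => q.1.2.1 ≤ q.2 → q.2 < u₂ →
      u₂ ≤ q.1.2.2 → ∃ y, P.s q.1.1.2 < y ∧ y < P.t q.1.1.2 ∧ P.le (q.1.1.1, q.2) (q.1.1.2, y) ∧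
        P.le (q.1.1.2, y) (q.1.1.1, u₂)) e3
  have e5 : Dfn M {p : (Z × Z) × (U × U) | p.1.2 ∈ P.X} :=
    P.dX.sub (P := fun z : Z => z ∈ P.X) (dfnF_snd.comp dfnF_fst)
  exact e5.and e4

theorem Pre.Dense.mono {P : Pre M Z} {b x : Z} {a t a' t' : U} (h : P.Dense b x a t)
    (ha : a ≤ a') (ht : t' ≤ t) : P.Dense b x a' t' :=
  ⟨h.1, fun u₁ u₂ h1 h2 h3 => h.2 u₁ u₂ (ha.trans h1) h2 (h3.trans ht)⟩

/-- the base point is good -/
theorem Pre.good_base (P : Pre M Z) {b : Z} (hb : b ∈ P.X) (hnd : ND q₀) (hlo : Lo q₀ (P.s b))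
    (hhi : Hi q₀ (P.t b)) : P.Good (P.lower q₀ b) b := by
  obtain ⟨hnr, -, -, hmax, hmin⟩ := hnd
  have key : ∀ y, P.s b < y → y < P.t b → ((b, y) ∈ P.lower q₀ b ↔ Lo q₀ y) := by
    intro y h1 h2
    constructor
    · rintro ⟨_, a, ha1, ha2, ha, hle⟩
      rcases hnr.lo_or_hi y with hl | hh
      · exact hl
      · exact absurd hle (P.strict b a y hb ha1 (lt_of_lo_hi ha hh) h2).2
    · intro hl
      have hbox : ((b, y) : Z × U).1 ∈ P.X ∧ P.s ((b, y) : Z × U).1 < ((b, y) : Z × U).2 ∧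
          ((b, y) : Z × U).2 < P.t ((b, y) : Z × U).1 := ⟨hb, h1, h2⟩
      exact ⟨hbox, y, h1, h2, hl, (P.total _ _ hbox hbox).elim id id⟩
  refine ⟨hb, ?_, ?_, ?_, ?_⟩
  · obtain ⟨z, hz1, hz2⟩ := hmax _ hlo
    have hzt := lt_of_lo_hi hz2 hhi
    exact ⟨z, hz1, hzt, (key z hz1 hzt).2 hz2⟩
  · intro y h1 h2 hy
    obtain ⟨z, hz1, hz2⟩ := hmax _ ((key y h1 h2).1 hy)
    have hzt := lt_of_lo_hi hz2 hhi
    exact ⟨z, hz1, hzt, (key z (h1.trans hz1) hzt).2 hz2⟩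
  · obtain ⟨z, hz1, hz2⟩ := hmin _ hhi
    have hzs := lt_of_lo_hi hlo hz2
    exact ⟨z, hzs, hz1, fun h => not_lo_and_hi ((key z hzs hz1).1 h) hz2⟩
  · intro y h1 h2 hy
    have hyh : Hi q₀ y := (hnr.lo_or_hi y).resolve_left fun h => hy ((key y h1 h2).2 h)
    obtain ⟨z, hz1, hz2⟩ := hmin _ hyh
    have hzs := lt_of_lo_hi hlo hz2
    exact ⟨z, hzs, hz1, fun h => not_lo_and_hi ((key z hzs (hz1.trans h2)).1 h) hz2⟩

end OMB
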