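import Pool.Agent.Lib.MP_fd36ae_lc.H5

/-!
# MP_fd36ae_lc : good points and density (paper 7.1, 7.2)
-/

open FirstOrder Set Cardinal

namespace OMB

universe u

variable {U : Type u} [Str U] {X Y Z W : Type u} [DSort U X] [DSort U Y] [DSort U Z] [DSort U W]
  {A B M : Set U} [OMS U] {n : ℕ} {q₀ : GType U U}

/-! ## preparations -/

private theorem H5b_le (P : Pre M Z) {x : Z} {y y' : U} (hx : x ∈ P.X) (h1 : P.s x < y)
    (h2 : y ≤ y') (h3 : y' < P.t x) : P.le (x, y) (x, y') := by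
  rcases h2.lt_or_eq with h | h
  · exact (P.strict x y y' hx h1 h h3).1
  · subst h
    rcases P.total (x, y) (x, y) ⟨hx, h1, h3⟩ ⟨hx, h1, h3⟩ with h | h <;> exact h

private theorem H5b_base (P : Pre M Z) {b : Z} (hb : b ∈ P.X) {u v : U} (hv : P.s b < v)
    (hu : u < P.t b) (h : P.le (b, u) (b, v)) : u ≤ v := by
  by_contra hcon
  exact (P.strict b v u hb hv (not_le.1 hcon) hu).2 h

private theorem H5b_chain (P : Pre M Z) {b x : Z} (hb : b ∈ P.X) (hx : x ∈ P.X) {u v y : U}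
    (hu1 : P.s b < u) (hu2 : u < P.t b) (hv1 : P.s b < v) (hv2 : v < P.t b) (hy1 : P.s x < y)
    (hy2 : y < P.t x) (h1 : P.le (b, u) (x, y)) (h2 : P.le (x, y) (b, v)) : u ≤ v :=
  H5b_base P hb hv1 hu2 (P.trans (b, u) (x, y) (b, v) ⟨hb, hu1, hu2⟩ ⟨hx, hy1, hy2⟩
    ⟨hb, hv1, hv2⟩ h1 h2)

private theorem H5b_notMem (P : Pre M Z) {b x : Z} (hb : b ∈ P.X) (hx : x ∈ P.X) {z y : U}
    (hz1 : P.s b < z) (hz2 : z < P.t b) (hy1 : P.s x < y) (hy2 : y < P.t x)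
    (hz : Hi q₀ z) (h : P.le (b, z) (x, y)) : (x, y) ∉ P.lower q₀ b := by
  rintro ⟨-, a, ha1, ha2, ha, hle⟩
  have h1 := H5b_chain P hb hx hz1 hz2 ha1 ha2 hy1 hy2 h hle
  exact absurd (lt_of_lo_hi ha hz) (not_lt.2 h1)

private theorem H5b_dfn (P : Pre M Z) (b x : Z) (y : U) :
    Dfn (univ : Set U) {u : U | ¬ P.le (b, u) (x, y)} := by
  have h1 : DfnF (univ : Set U) (fun u : U => (((b, u), (x, y)) : (Z × U) × (Z × U))) :=
    ((dfnF_const (subset_univ _)).prodMk dfnF_id).prodMk (dfnF_const (subset_univ _))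
  exact Dfn.not (Dfn.sub (P := fun p : (Z × U) × (Z × U) => P.le p.1 p.2)
    (P.dle.mono (subset_univ M)) h1)

private theorem H5b_above (P : Pre M Z) {b : Z} (hb : b ∈ P.X) (hnd : ND q₀)
    (hlo : Lo q₀ (P.s b)) (hhi : Hi q₀ (P.t b)) {x : Z} {y : U} (hx : x ∈ P.X)
    (hy1 : P.s x < y) (hy2 : y < P.t x) (h : (x, y) ∉ P.lower q₀ b) :
    ∃ z, P.s b < z ∧ z < P.t b ∧ Hi q₀ z ∧ P.le (b, z) (x, y) := by
  by_contra hcon
  push Not at hcon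
  refine hnd.not_dfn hlo hhi (H5b_dfn P b x y) (fun z hz1 hz2 => ?_)
  constructor
  · intro hz
    by_contra hhz
    have hl : Lo q₀ z := hnd.1.not_hi.1 hhz
    rcases P.total (b, z) (x, y) ⟨hb, hz1, hz2⟩ ⟨hx, hy1, hy2⟩ with h1 | h1
    · exact hz h1
    · exact h ⟨⟨hx, hy1, hy2⟩, z, hz1, hz2, hl, h1⟩
  · intro hz
    exact hcon z hz1 hz2 hz

/-- the crossing function -/
private noncomputable def H5b_k (P : Pre M Z) (b x : Z) (y : U) : U :=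
  dsup (P.s b) {u | (u, y) ∈ {p : U × U | P.s b < p.1 ∧ p.1 < P.t b ∧ P.le (b, p.1) (x, p.2)}}

private theorem H5b_kdfn (P : Pre M Z) (b x : Z) : DfnF (univ : Set U) (H5b_k P b x) := by
  refine dfnF_dsup (mem_univ _) ?_
  refine Dfn.and (Dfn.lt (dfnF_const (subset_univ _)) dfnF_fst)
    (Dfn.and (Dfn.lt dfnF_fst (dfnF_const (subset_univ _))) ?_)
  have h1 : DfnF (univ : Set U)
      (fun p : U × U => (((b, p.1), (x, p.2)) : (Z × U) × (Z × U))) :=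
    ((dfnF_const (subset_univ _)).prodMk dfnF_fst).prodMk
      ((dfnF_const (subset_univ _)).prodMk dfnF_snd)
  exact Dfn.sub (P := fun p : (Z × U) × (Z × U) => P.le p.1 p.2)
    (P.dle.mono (subset_univ M)) h1

private theorem H5b_klub (P : Pre M Z) (b x : Z) (y : U) :
    IsLUB {u | P.s b < u ∧ u < P.t b ∧ P.le (b, u) (x, y)} (H5b_k P b x y) ∨
      H5b_k P b x y = P.s b := by
  by_cases h : ∃ u, IsLUB {u | P.s b < u ∧ u < P.t b ∧ P.le (b, u) (x, y)} u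
  · obtain ⟨u, hu⟩ := h
    left
    have h1 : H5b_k P b x y = u := dsup_eq hu
    rw [h1]
    exact hu
  · right
    exact dif_neg h

private theorem H5b_klo (P : Pre M Z) {b : Z} (hb : b ∈ P.X)
    (hlo : Lo q₀ (P.s b)) {x : Z} {y : U} (h : (x, y) ∈ P.lower q₀ b) :
    Lo q₀ (H5b_k P b x y) := by
  obtain ⟨⟨hx, hy1, hy2⟩, a, ha1, ha2, ha, hle⟩ := h
  rcases H5b_klub P b x y with h1 | h1
  · refine Lo.mono ha (h1.2 ?_)
    rintro u ⟨hu1, hu2, hu3⟩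
    exact H5b_chain P hb hx hu1 hu2 ha1 ha2 hy1 hy2 hu3 hle
  · rw [h1]
    exact hlo

private theorem H5b_khi (P : Pre M Z) {b : Z} (hb : b ∈ P.X) (hnd : ND q₀)
    (hlo : Lo q₀ (P.s b)) (hhi : Hi q₀ (P.t b)) {x : Z} {y : U} (hx : x ∈ P.X)
    (hy1 : P.s x < y) (hy2 : y < P.t x) (h : (x, y) ∉ P.lower q₀ b) :
    Hi q₀ (H5b_k P b x y) := by
  obtain ⟨z, hz1, hz2, hz, hle⟩ := H5b_above P hb hnd hlo hhi hx hy1 hy2 h
  have hlub : IsLUB {u | P.s b < u ∧ u < P.t b ∧ P.le (b, u) (x, y)} (H5b_k P b x y) := by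
    refine isLUB_dsup ?_ ⟨z, hz1, hz2, hle⟩ ⟨P.t b, fun u hu => hu.2.1.le⟩
    refine Dfn.and (Dfn.lt (dfnF_const (subset_univ _)) dfnF_id)
      (Dfn.and (Dfn.lt dfnF_id (dfnF_const (subset_univ _))) ?_)
    have h1 : DfnF (univ : Set U) (fun u : U => (((b, u), (x, y)) : (Z × U) × (Z × U))) :=
      ((dfnF_const (subset_univ _)).prodMk dfnF_id).prodMk (dfnF_const (subset_univ _))
    exact Dfn.sub (P := fun p : (Z × U) × (Z × U) => P.le p.1 p.2)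
      (P.dle.mono (subset_univ M)) h1
  exact Hi.mono hz (hlub.1 ⟨hz1, hz2, hle⟩)

/-- the cut of a good point -/
private theorem H5b_main (P : Pre M Z) {b : Z} (hb : b ∈ P.X) (hnd : ND q₀)
    (hlo : Lo q₀ (P.s b)) (hhi : Hi q₀ (P.t b)) {x : Z} (hx : P.Good (P.lower q₀ b) x) :
    ∃ π : GType U U, ND π ∧ (∀ z, Lo π z ↔ z ≤ P.s x ∨ (x, z) ∈ P.lower q₀ b) ∧
      Ioo (P.s x) (P.t x) ∈ π.F ∧ π.map (H5b_k P b x) (H5b_kdfn P b x) = q₀ := by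
  obtain ⟨hxX, ⟨y₁, h11, h12, h13⟩, hmax, ⟨y₂, h21, h22, h23⟩, hmin⟩ := hx
  obtain ⟨π, hπ, hcut⟩ := exists_cut {z : U | z ≤ P.s x ∨ (x, z) ∈ P.lower q₀ b} (by
    rintro u v huv (hv | hv)
    · exact Or.inl (huv.trans hv)
    · by_cases hu : u ≤ P.s x
      · exact Or.inl hu
      · right
        obtain ⟨⟨-, hv1, hv2⟩, a, ha1, ha2, ha, hle⟩ := hv
        have hu' : P.s x < u := not_le.1 hu
        have hut : u < P.t x := lt_of_le_of_lt huv hv2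
        refine ⟨⟨hxX, hu', hut⟩, a, ha1, ha2, ha, ?_⟩
        exact P.trans (x, u) (x, v) (b, a) ⟨hxX, hu', hut⟩ ⟨hxX, hv1, hv2⟩ ⟨hb, ha1, ha2⟩
          (H5b_le P hxX hu' huv hv2) hle)
  have hcut' : ∀ z, Lo π z ↔ z ≤ P.s x ∨ (x, z) ∈ P.lower q₀ b := hcut
  have hHi : ∀ z, Hi π z ↔ P.s x < z ∧ (x, z) ∉ P.lower q₀ b := by
    intro z
    rw [← hπ.not_lo, hcut' z, not_or, not_le]
  have hndπ : ND π := by
    refine ⟨hπ, ⟨y₁, (hcut' y₁).2 (Or.inr h13)⟩, ⟨y₂, (hHi y₂).2 ⟨h21, h23⟩⟩, ?_, ?_⟩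
    · intro z hz
      rcases (hcut' z).1 hz with h | h
      · exact ⟨y₁, lt_of_le_of_lt h h11, (hcut' y₁).2 (Or.inr h13)⟩
      · obtain ⟨y', hy1, hy2, hy3⟩ := hmax z h.1.2.1 h.1.2.2 h
        exact ⟨y', hy1, (hcut' y').2 (Or.inr hy3)⟩
    · intro z hz
      obtain ⟨hz1, hz2⟩ := (hHi z).1 hz
      by_cases hzt : z < P.t x
      · obtain ⟨y', hy1, hy2, hy3⟩ := hmin z hz1 hzt hz2
        exact ⟨y', hy2, (hHi y').2 ⟨hy1, hy3⟩⟩
      · exact ⟨y₂, lt_of_lt_of_le h22 (not_lt.1 hzt), (hHi y₂).2 ⟨h21, h23⟩⟩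
  refine ⟨π, hndπ, hcut', ?_, ?_⟩
  · have h1 : Lo π (P.s x) := (hcut' _).2 (Or.inl (le_refl _))
    have h2 : Hi π (P.t x) := (hHi _).2 ⟨h11.trans h12, fun h => lt_irrefl _ h.1.2.2⟩
    exact Filter.inter_mem h1 h2
  · refine crossing hnd.1 (H5b_kdfn P b x) ?_ ?_
    · intro I hI
      obtain ⟨u, v, hu, hv, hsub⟩ := hndπ.basis hI
      have hL : Lo π (max u y₁) := by
        rcases max_choice u y₁ with h | h
        · rw [h]; exact hu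
        · rw [h]; exact (hcut' y₁).2 (Or.inr h13)
      refine ⟨max u y₁, hsub ⟨le_max_left _ _, (lt_of_lo_hi hL hv).le⟩, ?_⟩
      rcases (hcut' _).1 hL with h | h
      · exact absurd (lt_of_lt_of_le h11 (le_max_right u y₁)) (not_lt.2 h)
      · exact H5b_klo P hb hlo h
    · intro I hI
      obtain ⟨u, v, hu, hv, hsub⟩ := hndπ.basis hI
      have hH : Hi π (min v y₂) := by
        rcases min_choice v y₂ with h | h
        · rw [h]; exact hv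
        · rw [h]; exact (hHi y₂).2 ⟨h21, h23⟩
      refine ⟨min v y₂, hsub ⟨(lt_of_lo_hi hu hH).le, min_le_left _ _⟩, ?_⟩
      obtain ⟨h1, h2⟩ := (hHi _).1 hH
      exact H5b_khi P hb hnd hlo hhi hxX h1 (lt_of_le_of_lt (min_le_right v y₂) h22) h2

/-- paper 7.1: the cut of a good point is an image of / has image `q₀` -/
theorem Pre.Good.img (P : Pre M Z) {b : Z} (hb : b ∈ P.X) (hnd : ND q₀)
    (hlo : Lo q₀ (P.s b)) (hhi : Hi q₀ (P.t b)) {x : Z} (hx : P.Good (P.lower q₀ b) x) :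
    ∃ π : GType U U, NR π ∧ (∀ z, Lo π z ↔ z ≤ P.s x ∨ (x, z) ∈ P.lower q₀ b) ∧ Img π q₀ := by
  obtain ⟨π, h1, h2, -, h3⟩ := H5b_main P hb hnd hlo hhi hx
  exact ⟨π, h1.1, h2, _, _, h3⟩

/-- paper 7.2 (⇒) -/
theorem Pre.Good.dense (P : Pre M Z) {b : Z} (hb : b ∈ P.X) (hnd : ND q₀)
    (hlo : Lo q₀ (P.s b)) (hhi : Hi q₀ (P.t b)) {x : Z} (hx : P.Good (P.lower q₀ b) x) :
    ∃ a t, P.s b < a ∧ t < P.t b ∧ Lo q₀ a ∧ Hi q₀ t ∧ P.Dense b x a t := by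
  obtain ⟨π, -, -, h2, h3⟩ := H5b_main P hb hnd hlo hhi hx
  have h4 : H5b_k P b x '' Ioo (P.s x) (P.t x) ∈ q₀.F := by
    rw [← h3]
    refine GType.mem_map.2 (Filter.mem_of_superset h2 (fun y hy => ?_))
    exact ⟨y, hy, rfl⟩
  obtain ⟨a, t, ha, ht, hsub⟩ := hnd.basis (Filter.inter_mem h4 (Filter.inter_mem hlo hhi))
  have hat : a < t := lt_of_lo_hi ha ht
  have ha' : P.s b < a := (hsub ⟨le_refl a, hat.le⟩).2.1
  have ht' : t < P.t b := (hsub ⟨hat.le, le_refl t⟩).2.2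
  refine ⟨a, t, ha', ht', ha, ht, hx.1, ?_⟩
  intro u₁ u₂ hu1 hu12 hu2
  obtain ⟨u, h5, h6⟩ := exists_between hu12
  have hau : a < u := lt_of_le_of_lt hu1 h5
  obtain ⟨⟨y, ⟨hy1, hy2⟩, hyu⟩, -⟩ := hsub ⟨hau.le, (h6.trans_le hu2).le⟩
  have hlub : IsLUB {v | P.s b < v ∧ v < P.t b ∧ P.le (b, v) (x, y)} u := by
    rcases H5b_klub P b x y with h | h
    · rw [hyu] at h
      exact h
    · rw [hyu] at h
      exact absurd (ha'.trans hau) (not_lt.2 h.le)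
  have hu1b : P.s b < u₁ := ha'.trans_le hu1
  have hu2b : u₂ < P.t b := lt_of_le_of_lt hu2 ht'
  refine ⟨y, hy1, hy2, ?_, ?_⟩
  · obtain ⟨v, hv, hv'⟩ : ∃ v ∈ {v | P.s b < v ∧ v < P.t b ∧ P.le (b, v) (x, y)}, u₁ < v := by
      by_contra hcon
      push Not at hcon
      exact absurd (hlub.2 (fun v hv => hcon v hv)) (not_le.2 h5)
    obtain ⟨hv1, hv2, hv3⟩ := hv
    exact P.trans (b, u₁) (b, v) (x, y) ⟨hb, hu1b, hv'.trans hv2⟩ ⟨hb, hv1, hv2⟩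
      ⟨hx.1, hy1, hy2⟩ (P.strict b u₁ v hb hu1b hv' hv2).1 hv3
  · rcases P.total (b, u₂) (x, y) ⟨hb, hu1b.trans hu12, hu2b⟩ ⟨hx.1, hy1, hy2⟩ with h | h
    · exact absurd (hlub.1 ⟨hu1b.trans hu12, hu2b, h⟩) (not_le.2 h6)
    · exact h

/-- paper 7.2 (⇐) -/
theorem Pre.Dense.good (P : Pre M Z) {b : Z} (hb : b ∈ P.X) (hnd : ND q₀) {x : Z} {a t : U}
    (ha1 : P.s b < a) (ht1 : t < P.t b) (ha : Lo q₀ a) (ht : Hi q₀ t) (hx : P.Dense b x a t) :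
    P.Good (P.lower q₀ b) x := by
  obtain ⟨hxX, hd⟩ := hx
  have hat : a < t := lt_of_lo_hi ha ht
  have hlo : Lo q₀ (P.s b) := Lo.mono ha ha1.le
  have hhi : Hi q₀ (P.t b) := Hi.mono ht ht1.le
  refine ⟨hxX, ?_, ?_, ?_, ?_⟩
  · obtain ⟨a', h1, h2⟩ := hnd.2.2.2.1 a ha
    have h3 : a' < t := lt_of_lo_hi h2 ht
    obtain ⟨y, hy1, hy2, -, hy4⟩ := hd a a' (le_refl a) h1 h3.le
    exact ⟨y, hy1, hy2, ⟨hxX, hy1, hy2⟩, a', ha1.trans h1, h3.trans ht1, h2, hy4⟩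
  · rintro y hy1 hy2 ⟨-, a₀, h01, h02, h03, h04⟩
    have hL : Lo q₀ (max a₀ a) := by
      rcases max_choice a₀ a with h | h
      · rw [h]; exact h03
      · rw [h]; exact ha
    obtain ⟨a₂, h1, h2⟩ := hnd.2.2.2.1 _ hL
    obtain ⟨a₃, h3, h4⟩ := hnd.2.2.2.1 _ h2
    have haa : a < a₂ := lt_of_le_of_lt (le_max_right _ _) h1
    have h0a : a₀ < a₂ := lt_of_le_of_lt (le_max_left _ _) h1
    have h5 : a₃ < t := lt_of_lo_hi h4 ht
    obtain ⟨y', hy1', hy2', hy3', hy4'⟩ := hd a₂ a₃ haa.le h3 h5.le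
    refine ⟨y', ?_, hy2', ⟨hxX, hy1', hy2'⟩, a₃, (ha1.trans haa).trans h3, h5.trans ht1, h4, hy4'⟩
    by_contra hcon
    have h6 : P.le (x, y') (x, y) := H5b_le P hxX hy1' (not_lt.1 hcon) hy2
    have h7 : P.le (b, a₂) (x, y) := P.trans (b, a₂) (x, y') (x, y)
      ⟨hb, ha1.trans haa, (h3.trans h5).trans ht1⟩ ⟨hxX, hy1', hy2'⟩ ⟨hxX, hy1, hy2⟩ hy3' h6
    have h8 := H5b_chain P hb hxX (ha1.trans haa) ((h3.trans h5).trans ht1) h01 h02 hy1 hy2 h7 h04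
    exact absurd h0a (not_lt.2 h8)
  · obtain ⟨t', h1, h2⟩ := hnd.2.2.2.2 t ht
    have h3 : a < t' := lt_of_lo_hi ha h2
    obtain ⟨y, hy1, hy2, hy3, -⟩ := hd t' t h3.le h1 (le_refl t)
    exact ⟨y, hy1, hy2, H5b_notMem P hb hxX (ha1.trans h3) (h1.trans ht1) hy1 hy2 h2 hy3⟩
  · intro y hy1 hy2 hy
    obtain ⟨z, hz1, hz2, hz, hle⟩ := H5b_above P hb hnd hlo hhi hxX hy1 hy2 hy
    have hH : Hi q₀ (min z t) := by
      rcases min_choice z t with h | h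
      · rw [h]; exact hz
      · rw [h]; exact ht
    obtain ⟨t₂, h1, h2⟩ := hnd.2.2.2.2 _ hH
    obtain ⟨t₃, h3, h4⟩ := hnd.2.2.2.2 _ h2
    have h5 : t₂ < t := lt_of_lt_of_le h1 (min_le_right _ _)
    have h6 : t₂ < z := lt_of_lt_of_le h1 (min_le_left _ _)
    have h7 : a < t₃ := lt_of_lo_hi ha h4
    obtain ⟨y', hy1', hy2', hy3', hy4'⟩ := hd t₃ t₂ h7.le h3 h5.le
    refine ⟨y', hy1', ?_, H5b_notMem P hb hxX (ha1.trans h7) ((h3.trans h5).trans ht1) hy1' hy2'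
      h4 hy3'⟩
    by_contra hcon
    have h8 : P.le (x, y) (x, y') := H5b_le P hxX hy1 (not_lt.1 hcon) hy2'
    have h9 : P.le (b, z) (x, y') := P.trans (b, z) (x, y) (x, y') ⟨hb, hz1, hz2⟩
      ⟨hxX, hy1, hy2⟩ ⟨hxX, hy1', hy2'⟩ hle h8
    have h10 := H5b_chain P hb hxX hz1 hz2 ((ha1.trans h7).trans h3) (h5.trans ht1) hy1' hy2' h9
      hy4'
    exact absurd h6 (not_lt.2 h10)

end OMB
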