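import Pool.Agent.Lib.MP_fd36ae_lc.H5b

/-!
# MP_fd36ae_lc : descent to an M-point (paper 7.3)
-/

open FirstOrder Set Cardinal

namespace OMB

universe u

variable {U : Type u} [Str U] {X Y Z W : Type u} [DSort U X] [DSort U Y] [DSort U Z] [DSort U W]
  {A B M : Set U} [OMS U] {n : ℕ} {q₀ : GType U U}

omit [OMS U] in
/-- a small family of definable sets has a small set of parameters -/
private theorem H6_params {J : Type u} (hJ : #J < Str.κ U) (D : J → Set X)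
    (hD : ∀ j, Dfn (univ : Set U) (D j)) : ∃ A : Set U, Small A ∧ ∀ j, Dfn A (D j) := by
  have h1 : ∀ j, ∃ F : Set U, F.Finite ∧ Dfn F (D j) := by
    intro j
    obtain ⟨n, c, -, E, hE, hDE⟩ := (hD j).finite_param
    refine ⟨Set.range c, Set.finite_range c, ?_⟩
    rw [hDE]
    refine (hE.mono (empty_subset _)).fiber_of ?_
    rw [co_pi]
  choose F hF hFD using h1
  exact ⟨⋃ j, F j, small_iUnion_finite hJ F hF, fun j => (hFD j).mono (subset_iUnion F j)⟩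

/-- the supremum of a definable set of points below a nondefinable cut lies below the cut -/
private theorem H6_lo_dsup (hnd : ND q₀) {k : U} (hk : Lo q₀ k) {D : Set U}
    (hD : Dfn (univ : Set U) D) (h : ∀ u ∈ D, Lo q₀ u) : Lo q₀ (dsup k D) := by
  rcases D.eq_empty_or_nonempty with h0 | h0
  · have h1 : ¬ ∃ u, IsLUB D u := by
      rintro ⟨u, hu⟩
      rw [h0, isLUB_empty_iff] at hu
      exact not_isBot u hu
    have h2 : dsup k D = k := by
      unfold dsup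
      rw [dif_neg h1]
    rw [h2]
    exact hk
  · obtain ⟨z, hz⟩ := hnd.2.2.1
    have hbd : BddAbove D := ⟨z, fun u hu => (lt_of_lo_hi (h u hu) hz).le⟩
    have hlub := isLUB_dsup (m := k) hD h0 hbd
    rcases hnd.1.lo_or_hi (dsup k D) with h1 | h1
    · exact h1
    · exfalso
      obtain ⟨z', hz', hz''⟩ := hnd.2.2.2.2 _ h1
      have h2 : dsup k D ≤ z' := hlub.2 (fun u hu => (lt_of_lo_hi (h u hu) hz'').le)
      exact absurd hz' (not_lt.2 h2)

/-- descent step for `q₀ = s(K)`: with a coheir `ρ` of `y₀` over `M` and the crossing lemma -/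
theorem descent_step_s (hM : Elem M) (hMs : Small M) {m : U} (hm : m ∈ M) (P : Pre M Z) {b : Z}
    (hb : b ∈ P.X) (hnd : ND q₀) (hlo : Lo q₀ (P.s b)) (hhi : Hi q₀ (P.t b))
    (hL : AInv M (P.lower q₀ b)) {K : Set U} (hK : Small K) (hqK : IsS q₀ K)
    {S : Set (U × Z)} (hS : Dfn M S) {y₀ : U} (h : ∃ x, (y₀, x) ∈ S ∧ P.Good (P.lower q₀ b) x) :
    (∃ π : GType U U, Inv M π ∧ NR π ∧ Img π q₀) ∨
      ∃ y ∈ M, ∃ x, (y, x) ∈ S ∧ P.Good (P.lower q₀ b) x := by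
  by_cases hr : ∃ y ∈ M, ∃ x, (y, x) ∈ S ∧ P.Good (P.lower q₀ b) x
  · exact Or.inr hr
  left
  obtain ⟨ρ, hρ, hρy, hρM⟩ := exists_coheir' hM y₀
  have hMρ : ∀ D ∈ ρ.F, ∃ y ∈ D, y ∈ M := by
    intro D hD
    obtain ⟨y, hy, hyM⟩ := hρM D hD
    refine ⟨y, hy, hyM ?_⟩
    rw [co_U]
    rfl
  -- `ρ` is not realised
  have hn : NR ρ := by
    intro c
    have hc : Dfn (univ : Set U) ({c} : Set U) := dfn_singleton (subset_univ _)
    rcases ρ.ultra _ hc with h1 | h1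
    · exfalso
      obtain ⟨y, hy, hyM⟩ := hMρ _ h1
      have hyc : y = c := hy
      rw [hyc] at hyM
      have h2 : Dfn M ({c} : Set U) := dfn_singleton (by
        rw [co_U]
        exact singleton_subset_iff.2 hyM)
      have h3 : y₀ = c := hρy _ h2 h1
      exact hr ⟨y₀, h3 ▸ hyM, h⟩
    · exact h1
  -- the property `G`
  have hG : AInv M {y : U | ∃ x, (y, x) ∈ S ∧ P.Good (P.lower q₀ b) x} := by
    refine AInv.ex (P := fun (y : U) (x : Z) => (y, x) ∈ S ∧ P.Good (P.lower q₀ b) x) hMs ?_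
    refine AInv.and ?_ ?_
    · exact hS.aInv
    · exact AInv.sub (f := fun p : U × Z => p.2) (P.good_aInv hMs hL) dfnF_snd
  -- the claim
  have claim : ∃ k ∈ K, P.s b < k ∧ ∀ I ∈ ρ.F, ∃ y ∈ I, ∃ t, Hi q₀ t ∧ t < P.t b ∧
      ∃ x, (y, x) ∈ S ∧ P.Dense b x k t := by
    by_contra hc
    push Not at hc
    have h1 : ∀ k : K, ∃ I : Set U, I ∈ ρ.F ∧ Dfn (univ : Set U) I ∧
        (P.s b < k.1 → ∀ y ∈ I, ∀ t, Hi q₀ t → t < P.t b → ∀ x, (y, x) ∈ S →
          ¬ P.Dense b x k.1 t) := by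
      intro k
      by_cases hk : P.s b < k.1
      · obtain ⟨I, hI, hI'⟩ := hc k.1 k.2 hk
        obtain ⟨D, hDI, hD, hDF⟩ := ρ.base I hI
        exact ⟨D, hDF, hD, fun _ y hy => hI' y (hDI hy)⟩
      · exact ⟨univ, Filter.univ_mem, dfn_univ, fun h => absurd h hk⟩
    choose I hI hId hI' using h1
    obtain ⟨B, hB, hBI⟩ := H6_params hK I hId
    obtain ⟨y, hy⟩ := exists_rl ρ (hMs.union hB)
    have hyM : Eqv M y₀ y := hρy.eqv (hy.mono subset_union_left)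
    obtain ⟨x, hxS, hx⟩ := AInv.transfer
      (P := fun y : U => ∃ x, (y, x) ∈ S ∧ P.Good (P.lower q₀ b) x) hG hyM h
    obtain ⟨a, t, h2, h3, h4, h5, h6⟩ := Pre.Good.dense P hb hnd hlo hhi hx
    obtain ⟨k, hkK, hak⟩ := hqK.lo_iff.1 h4
    have h7 : y ∈ I ⟨k, hkK⟩ :=
      hy _ ((hBI ⟨k, hkK⟩).mono subset_union_right) (hI ⟨k, hkK⟩)
    exact hI' ⟨k, hkK⟩ (h2.trans_le hak) y h7 t h5 h3 x hxS (h6.mono hak le_rfl)
  obtain ⟨k, hkK, hsk, hk⟩ := claim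
  have hlok : Lo q₀ k := hqK.lo_iff.2 ⟨k, hkK, le_rfl⟩
  -- the function `ε`
  have hD : Dfn (univ : Set U) {p : U × U | k < p.1 ∧ p.1 < P.t b ∧
      ∃ x, (p.2, x) ∈ S ∧ P.Dense b x k p.1} := by
    refine Dfn.and (Dfn.lt (dfnF_const (subset_univ _)) dfnF_fst)
      (Dfn.and (Dfn.lt dfnF_fst (dfnF_const (subset_univ _))) ?_)
    refine Dfn.ex (P := fun (p : U × U) (x : Z) => (p.2, x) ∈ S ∧ P.Dense b x k p.1) ?_
    refine Dfn.and ?_ ?_
    · exact Dfn.sub (P := fun y : U × Z => y ∈ S) (f := fun q : (U × U) × Z => (q.1.2, q.2))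
        (hS.mono (subset_univ _)) ((dfnF_snd.comp dfnF_fst).prodMk dfnF_snd)
    · exact Dfn.sub (P := fun p : (Z × Z) × (U × U) => P.Dense p.1.1 p.1.2 p.2.1 p.2.2)
        (f := fun q : (U × U) × Z => ((b, q.2), (k, q.1.1)))
        (P.dense_dfn.mono (subset_univ _))
        (((dfnF_const (subset_univ _)).prodMk dfnF_snd).prodMk
          ((dfnF_const (subset_univ _)).prodMk (dfnF_fst.comp dfnF_fst)))
  have hε := dfnF_dsup (m := k) (mem_univ k) hD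
  refine ⟨ρ, hρ, hn, _, hε, ?_⟩
  have hDy : ∀ y : U, Dfn (univ : Set U) {u : U | (u, y) ∈ {p : U × U | k < p.1 ∧ p.1 < P.t b ∧
      ∃ x, (p.2, x) ∈ S ∧ P.Dense b x k p.1}} := fun y => hD.fiber_of (subset_univ _)
  refine crossing hnd.1 hε ?_ ?_
  · intro I hI
    obtain ⟨y, hy, hyM⟩ := hMρ I hI
    refine ⟨y, hy, H6_lo_dsup hnd hlok (hDy y) ?_⟩
    rintro u ⟨h1, h2, x, h3, h4⟩
    rcases hnd.1.lo_or_hi u with h5 | h5
    · exact h5
    · exfalso
      exact hr ⟨y, hyM, x, h3, Pre.Dense.good P hb hnd hsk h2 hlok h5 h4⟩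
  · intro I hI
    obtain ⟨y, hy, t, h1, h2, x, h3, h4⟩ := hk I hI
    refine ⟨y, hy, ?_⟩
    have h5 : t ∈ {u : U | (u, y) ∈ {p : U × U | k < p.1 ∧ p.1 < P.t b ∧
        ∃ x, (p.2, x) ∈ S ∧ P.Dense b x k p.1}} := ⟨lt_of_lo_hi hlok h1, h2, x, h3, h4⟩
    have h6 := isLUB_dsup (m := k) (hDy y) ⟨t, h5⟩ ⟨P.t b, fun u hu => hu.2.1.le⟩
    exact h1.mono (h6.1 h5)

end OMB
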