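import Pool.Agent.Lib.MP_fd36ae_lc.H6

/-!
# MP_fd36ae_lc : descent step, case i(K) (paper 7.3)
-/

open FirstOrder Set Cardinal

namespace OMB

universe u

variable {U : Type u} [Str U] {X Y Z W : Type u} [DSort U X] [DSort U Y] [DSort U Z] [DSort U W]
  {A B M : Set U} [OMS U] {n : ℕ} {q₀ : GType U U}

omit [OMS U] in
/-- a definable set is definable over a finite set -/
private theorem h6b_finite {D : Set X} (hD : Dfn (univ : Set U) D) :
    ∃ A : Set U, A.Finite ∧ Dfn A D := by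
  obtain ⟨n, c, -, E, hE, rfl⟩ := hD.finite_param
  refine ⟨Set.range c, Set.finite_range c, ?_⟩
  exact Dfn.fiber_of (hE.mono (empty_subset _)) (by rw [co_pi])

/-- the infimum used in the descent step is on the right side of `q₀` -/
private theorem h6b_hi (hnd : ND q₀) {k s : U} (hk : Hi q₀ k) {D : Set U}
    (hD : Dfn (univ : Set U) D) (hs : ∀ a ∈ D, s ≤ a) (h : ∀ a ∈ D, ¬ Lo q₀ a) :
    Hi q₀ (dinf k D) := by
  rcases D.eq_empty_or_nonempty with h0 | h0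
  · have hno : ¬ ∃ u, IsGLB D u := by
      rintro ⟨u, hu⟩
      obtain ⟨v, hv⟩ := exists_gt u
      have h1 : v ∈ lowerBounds D := by
        rw [h0, lowerBounds_empty]
        exact mem_univ v
      exact absurd (hu.2 h1) (not_le.2 hv)
    unfold dinf
    rw [dif_neg hno]
    exact hk
  · have hG := isGLB_dinf (m := k) hD h0 ⟨s, fun a ha => hs a ha⟩
    rcases hnd.1.lo_or_hi (dinf k D) with h1 | h1
    · obtain ⟨z', hz', hlo'⟩ := hnd.2.2.2.1 _ h1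
      exfalso
      have h2 : z' ∉ lowerBounds D := fun h2 => absurd (hG.2 h2) (not_le.2 hz')
      rw [mem_lowerBounds] at h2
      push Not at h2
      obtain ⟨a, ha, haz⟩ := h2
      exact h a ha (hlo'.mono haz.le)
    · exact h1

/-- descent step for `q₀ = i(K)` -/
theorem descent_step_i (hM : Elem M) (hMs : Small M) {m : U} (hm : m ∈ M) (P : Pre M Z) {b : Z}
    (hb : b ∈ P.X) (hnd : ND q₀) (hlo : Lo q₀ (P.s b)) (hhi : Hi q₀ (P.t b))
    (hL : AInv M (P.lower q₀ b)) {K : Set U} (hK : Small K) (hqK : IsI q₀ K)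
    {S : Set (U × Z)} (hS : Dfn M S) {y₀ : U} (h : ∃ x, (y₀, x) ∈ S ∧ P.Good (P.lower q₀ b) x) :
    (∃ π : GType U U, Inv M π ∧ NR π ∧ Img π q₀) ∨
      ∃ y ∈ M, ∃ x, (y, x) ∈ S ∧ P.Good (P.lower q₀ b) x := by
  by_cases hcase : ∃ y ∈ M, ∃ x, (y, x) ∈ S ∧ P.Good (P.lower q₀ b) x
  · exact Or.inr hcase
  left
  obtain ⟨ρ, hρ, hρy, hco⟩ := exists_coheir' hM y₀
  have hρn : NR ρ := by
    by_contra hn
    obtain ⟨c, rfl⟩ := not_NR hn
    have hc : c ∈ M := by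
      have h1 := inv_rTy_mem hMs hρ
      rwa [hM.dcl] at h1
    have h2 : y₀ ∈ ({c} : Set U) := hρy {c} (dfn_singleton (by
      rw [co_U]
      exact singleton_subset_iff.2 hc)) (by
        rw [mem_rTy]
        exact mem_singleton c)
    rw [mem_singleton_iff] at h2
    exact hcase ⟨y₀, by rw [h2]; exact hc, h⟩
  -- goodness is invariant
  have hG : AInv M {y : U | ∃ x, (y, x) ∈ S ∧ P.Good (P.lower q₀ b) x} := by
    refine AInv.ex (P := fun (y : U) (x : Z) => (y, x) ∈ S ∧ P.Good (P.lower q₀ b) x) hMs ?_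
    refine AInv.and ?_ ?_
    · exact hS.aInv
    · exact AInv.sub (P := fun x : Z => P.Good (P.lower q₀ b) x) (P.good_aInv hMs hL) dfnF_snd
  -- the claim
  have hclaim : ∃ k ∈ K, k < P.t b ∧ ∀ I ∈ ρ.F, ∃ y ∈ I, ∃ a, Lo q₀ a ∧ P.s b < a ∧
      ∃ x, (y, x) ∈ S ∧ P.Dense b x a k := by
    by_contra hno
    push Not at hno
    have hch : ∀ k : K, ∃ I : Set U, I ∈ ρ.F ∧ ((k : U) < P.t b → ∀ y ∈ I, ∀ a, Lo q₀ a →
        P.s b < a → ∀ x, (y, x) ∈ S → ¬ P.Dense b x a k) := by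
      intro k
      by_cases hk : (k : U) < P.t b
      · obtain ⟨I, hI, hI'⟩ := hno k k.2 hk
        exact ⟨I, hI, fun _ => hI'⟩
      · exact ⟨univ, Filter.univ_mem, fun h1 => absurd h1 hk⟩
    choose I hI hI' using hch
    have hch2 : ∀ k : K, ∃ D A : Set U, D ⊆ I k ∧ D ∈ ρ.F ∧ A.Finite ∧ Dfn A D := by
      intro k
      obtain ⟨D, hDI, hD, hDF⟩ := ρ.base (I k) (hI k)
      obtain ⟨A, hA, hDA⟩ := h6b_finite hD
      exact ⟨D, A, hDI, hDF, hA, hDA⟩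
    choose D A hDI hDF hA hDA using hch2
    have hBs : Small (M ∪ ⋃ k, A k) := hMs.union (small_iUnion_finite hK A hA)
    obtain ⟨y, hy⟩ := exists_rl ρ hBs
    have hyM : Eqv M y₀ y := hρy.eqv (hy.mono subset_union_left)
    obtain ⟨x, hxS, hx⟩ := hG.transfer hyM h
    obtain ⟨a, t, ha, ht, hla, hht, hd⟩ := hx.dense P hb hnd hlo hhi
    obtain ⟨k, hkK, hkt⟩ := hqK.hi_iff.1 hht
    refine hI' ⟨k, hkK⟩ (lt_of_le_of_lt hkt ht) y ?_ a hla ha x hxS (hd.mono (le_refl a) hkt)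
    exact hDI ⟨k, hkK⟩ (hy _ ((hDA ⟨k, hkK⟩).mono (subset_union_of_subset_right
      (subset_iUnion A ⟨k, hkK⟩) M)) (hDF ⟨k, hkK⟩))
  obtain ⟨k, hkK, hkt, hk⟩ := hclaim
  have hkHi : Hi q₀ k := hqK.hi_iff.2 ⟨k, hkK, le_refl k⟩
  -- the function
  have hden : Dfn (univ : Set U) {p : U × U | P.s b < p.1 ∧ p.1 < k ∧
      ∃ x, (p.2, x) ∈ S ∧ P.Dense b x p.1 k} := by
    refine Dfn.and (Dfn.lt (dfnF_const (subset_univ _)) dfnF_fst)
      (Dfn.and (Dfn.lt dfnF_fst (dfnF_const (subset_univ _))) ?_)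
    refine Dfn.ex (P := fun (p : U × U) (x : Z) => (p.2, x) ∈ S ∧ P.Dense b x p.1 k) ?_
    refine Dfn.and ?_ ?_
    · exact Dfn.sub (P := fun p : U × Z => p ∈ S) (hS.mono (subset_univ _))
        (DfnF.prodMk (dfnF_snd.comp dfnF_fst) dfnF_snd)
    · exact Dfn.sub (P := fun p : (Z × Z) × (U × U) => P.Dense p.1.1 p.1.2 p.2.1 p.2.2)
        (P.dense_dfn.mono (subset_univ _))
        (DfnF.prodMk (DfnF.prodMk (dfnF_const (subset_univ _)) dfnF_snd)
          (DfnF.prodMk (dfnF_fst.comp dfnF_fst) (dfnF_const (subset_univ _))))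
  have hε := dfnF_dinf (m := k) (mem_univ k) hden
  refine ⟨ρ, hρ, hρn, fun y => dinf k {u | (u, y) ∈ {p : U × U | P.s b < p.1 ∧ p.1 < k ∧
      ∃ x, (p.2, x) ∈ S ∧ P.Dense b x p.1 k}}, hε, ?_⟩
  have hfib : ∀ y : U, Dfn (univ : Set U) {u | (u, y) ∈ {p : U × U | P.s b < p.1 ∧ p.1 < k ∧
      ∃ x, (p.2, x) ∈ S ∧ P.Dense b x p.1 k}} := fun y => hden.fiber_of (subset_univ _)
  refine crossing hnd.1 hε ?_ ?_
  · intro I hI
    obtain ⟨y, hyI, a, hla, ha, x, hxS, hd⟩ := hk I hI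
    refine ⟨y, hyI, ?_⟩
    have hmem : a ∈ {u | (u, y) ∈ {p : U × U | P.s b < p.1 ∧ p.1 < k ∧
      ∃ x, (p.2, x) ∈ S ∧ P.Dense b x p.1 k}} := ⟨ha, lt_of_lo_hi hla hkHi, x, hxS, hd⟩
    have hglb := isGLB_dinf (m := k) (hfib y) ⟨a, hmem⟩ ⟨P.s b, fun u hu => hu.1.le⟩
    exact hla.mono (hglb.1 hmem)
  · intro I hI
    obtain ⟨y, hyI, hyM⟩ := hco I hI
    refine ⟨y, hyI, ?_⟩
    have hyM' : y ∈ M := hyM (by rw [co_U]; exact mem_singleton y)
    refine h6b_hi hnd hkHi (hfib y) (s := P.s b) (fun a ha => ha.1.le) ?_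
    rintro a ⟨ha, -, x, hxS, hd⟩ hla
    exact hcase ⟨y, hyM', x, hxS, hd.good P hb hnd ha hkt hla hkHi⟩

end OMB
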