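import Pool.Agent.Lib.MP_fd36ae_lc.H6b

/-!
# MP_fd36ae_lc : descent (paper 7.3)
-/

open FirstOrder Set Cardinal

namespace OMB

universe u

variable {U : Type u} [Str U] {X Y Z W : Type u} [DSort U X] [DSort U Y] [DSort U Z] [DSort U W]
  {A B M : Set U} [OMS U] {n : ℕ} {q₀ : GType U U}

/-- descent: moving the coordinates of the base point into `M` one by one -/
theorem descent (hM : Elem M) (hMs : Small M) {m : U} (hm : m ∈ M) {k : ℕ}
    (P : Pre M (Fin k → U)) {b : Fin k → U}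
    (hb : b ∈ P.X) (hnd : ND q₀) (hlo : Lo q₀ (P.s b)) (hhi : Hi q₀ (P.t b))
    (hq₀ : ∃ B, Small B ∧ Inv B q₀) (hL : AInv M (P.lower q₀ b)) :
    ∃ π : GType U U, Inv M π ∧ NR π ∧ Img π q₀ := by
  obtain ⟨B, hB, hqB⟩ := hq₀
  have hsm := small_dcl hB
  have step : ∀ (S : Set (U × (Fin k → U))), Dfn M S → ∀ y₀ : U,
      (∃ x, (y₀, x) ∈ S ∧ P.Good (P.lower q₀ b) x) →
      (∃ π : GType U U, Inv M π ∧ NR π ∧ Img π q₀) ∨
        ∃ y ∈ M, ∃ x, (y, x) ∈ S ∧ P.Good (P.lower q₀ b) x := by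
    intro S hS y₀ h
    rcases classify hB hqB hnd.1 with hK | hK
    · exact descent_step_s hM hMs hm P hb hnd hlo hhi hL (hsm.mono fun x hx => hx.1) hK hS h
    · exact descent_step_i hM hMs hm P hb hnd hlo hhi hL (hsm.mono fun x hx => hx.1) hK hS h
  by_contra hcon
  have main : ∀ i : ℕ, i ≤ k → ∃ x : Fin k → U, P.Good (P.lower q₀ b) x ∧
      ∀ j : Fin k, (j : ℕ) < i → x j ∈ M := by
    intro i
    induction i with
    | zero =>
      intro _
      exact ⟨b, P.good_base hb hnd hlo hhi, fun j hj => absurd hj (Nat.not_lt_zero _)⟩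
    | succ i ih =>
      intro hi
      obtain ⟨x, hx, hxM⟩ := ih (by omega)
      have hik : i < k := hi
      let S : Set (U × (Fin k → U)) := {p | p.2 ⟨i, hik⟩ = p.1 ∧
        ∀ j ∈ Finset.univ.filter (fun j : Fin k => (j : ℕ) < i), p.2 j = x j}
      have hS : Dfn M S := by
        refine Dfn.and (Dfn.eq ((dfnF_proj (⟨i, hik⟩ : Fin k)).comp dfnF_snd) dfnF_fst) ?_
        refine Dfn.allFin _ (P := fun (j : Fin k) (p : U × (Fin k → U)) => p.2 j = x j) ?_
        intro j hj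
        refine Dfn.eq ((dfnF_proj j).comp dfnF_snd) (dfnF_const ?_)
        rw [co_U]
        exact Set.singleton_subset_iff.2 (hxM j (Finset.mem_filter.1 hj).2)
      rcases step S hS (x ⟨i, hik⟩) ⟨x, ⟨rfl, fun j _ => rfl⟩, hx⟩ with h | ⟨y, hy, x', hx', hg⟩
      · exact absurd h hcon
      · refine ⟨x', hg, fun j hj => ?_⟩
        rcases Nat.lt_succ_iff_lt_or_eq.1 hj with hj' | hj'
        · have e : x' j = x j := hx'.2 j (Finset.mem_filter.2 ⟨Finset.mem_univ _, hj'⟩)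
          rw [e]
          exact hxM j hj'
        · have hje : j = ⟨i, hik⟩ := Fin.ext hj'
          have e : x' ⟨i, hik⟩ = y := hx'.1
          rw [hje, e]
          exact hy
  obtain ⟨x, hx, hxM⟩ := main k le_rfl
  have hco : co U x ⊆ M := by
    rw [co_pi]
    rintro _ ⟨j, rfl⟩
    exact hxM j j.2
  obtain ⟨π, hπ, hπlo, hπi⟩ := hx.img P hb hnd hlo hhi
  apply hcon
  refine ⟨π, inv_of_lo hMs hπ ?_, hπ, hπi⟩
  have h1 : {z : U | Lo π z} = {z : U | z ≤ P.s x ∨ (x, z) ∈ P.lower q₀ b} := by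
    ext z
    exact hπlo z
  rw [h1]
  refine AInv.or ?_ ?_
  · have h2 : Dfn M {p : U × (Fin k → U) | p.1 ≤ P.s p.2} := Dfn.le dfnF_fst (P.ds.comp dfnF_snd)
    exact (h2.fiber_of hco).aInv
  · exact hL.preimage (f := fun z : U => (x, z)) ((dfnF_const hco).prodMk dfnF_id)

end OMB
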