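import Mathlib

/-!
# MP_fd36ae_lc : the definitions used in the statement

`L` is a first-order language, `U` an `L`-structure. `Small κ A` means `#A < κ`.
-/

open FirstOrder Set
open scoped Cardinal

namespace MPfd36ae

universe u

variable (L : FirstOrder.Language.{u, u}) {U : Type u} [L.Structure U]

/-- `U` is o-minimal: every subset of `U` definable with parameters is a finite union of points and
open intervals with endpoints in `U ∪ {±∞}`. -/
def OMinimal (U : Type u) [L.Structure U] [LinearOrder U] : Prop :=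
  ∀ D : Set U, (univ : Set U).Definable₁ L D → ∃ S : Set (Set U), S.Finite ∧ D = ⋃₀ S ∧
    ∀ I ∈ S, (∃ a, I = {a}) ∨ (∃ a b, I = Ioo a b) ∨ (∃ a, I = Ioi a) ∨ (∃ a, I = Iio a) ∨
      I = univ

/-- `U` is `κ`-saturated: every finitely satisfiable family of sets definable over a set of fewer
than `κ` parameters, in one variable, has a common point. -/
def Saturated (U : Type u) [L.Structure U] (κ : Cardinal.{u}) : Prop :=
  ∀ A : Set U, #A < κ → ∀ F : Set (Set U), (∀ D ∈ F, A.Definable₁ L D) →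
    (∀ G : Finset (Set U), (↑G : Set (Set U)) ⊆ F → (⋂₀ (↑G : Set (Set U))).Nonempty) →
    (⋂₀ F).Nonempty

/-- A complete type over `A` in the variables `α`, as an ultrafilter of `A`-definable sets. -/
structure CType (A : Set U) (α : Type) where
  sets : Set (Set (α → U))
  definable : ∀ D ∈ sets, A.Definable L D
  univ_mem : univ ∈ sets
  empty_notMem : ∅ ∉ sets
  inter_mem : ∀ D ∈ sets, ∀ E ∈ sets, D ∩ E ∈ sets
  mem_of_superset : ∀ D ∈ sets, ∀ E, A.Definable L E → D ⊆ E → E ∈ sets
  complete : ∀ D, A.Definable L D → D ∈ sets ∨ Dᶜ ∈ sets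

/-- A global type: a complete type over `U`. -/
abbrev GlobalType (U : Type u) [L.Structure U] (α : Type) : Type u := CType L (univ : Set U) α

variable {L}

/-- `b ≡_A b'`. -/
def SameType (L : FirstOrder.Language.{u, u}) {U : Type u} [L.Structure U] (A : Set U) {β : Type}
    (b b' : β → U) : Prop :=
  ∀ E : Set (β → U), A.Definable L E → (b ∈ E ↔ b' ∈ E)

/-- The global type `p` is `A`-invariant: for every formula `φ(x, y)` without parameters and all
`b ≡_A b'`, `φ(x, b) ∈ p` iff `φ(x, b') ∈ p`. -/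
def CType.InvariantOver {α : Type} (p : GlobalType L U α) (A : Set U) : Prop :=
  ∀ (n : ℕ) (D : Set (α ⊕ Fin n → U)), (∅ : Set U).Definable L D → ∀ b b' : Fin n → U,
    SameType L A b b' →
      ({x : α → U | Sum.elim x b ∈ D} ∈ p.sets ↔ {x : α → U | Sum.elim x b' ∈ D} ∈ p.sets)

/-- The point `x` of `U` realises the restriction of the global type `p` to `B`. -/
def CType.Realizes {α : Type} (p : GlobalType L U α) (B : Set U) (x : α → U) : Prop :=
  ∀ D ∈ p.sets, B.Definable L D → x ∈ D

/-- `r = q 0 ⊗ q 1 ⊗ … ⊗ q (n-1)`: `r = q 0 ⊗ r'` with `r' = q 1 ⊗ … ⊗ q (n-1)`. Here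
`D(x, y) ∈ q 0 ⊗ r'` iff there is a small set `B` such that `D(x, b) ∈ q 0` for every realisation
`b` of `r'` over `B`. -/
def IsProduct (κ : Cardinal.{u}) : (n : ℕ) → (Fin n → GlobalType L U (Fin 1)) →
    GlobalType L U (Fin n) → Prop
  | 0, _, _ => True
  | n + 1, q, r => ∃ r' : GlobalType L U (Fin n), IsProduct κ n (fun i => q i.succ) r' ∧
      ∀ D : Set (Fin (n + 1) → U), (univ : Set U).Definable L D →
        (D ∈ r.sets ↔ ∃ B : Set U, #B < κ ∧ ∀ b : Fin n → U, r'.Realizes B b →
          {x : Fin 1 → U | Fin.cons (x 0) b ∈ D} ∈ (q 0).sets)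

/-- `p ≥_D q`: there are a small set `A`, over which both are invariant, and a complete type `r`
over `A` in the variables of `p` and `q`, extending `p|_A` and `q|_A`, with `p ∪ r ⊢ q`. -/
def Dominates (κ : Cardinal.{u}) {α β : Type} (p : GlobalType L U α) (q : GlobalType L U β) :
    Prop :=
  ∃ A : Set U, #A < κ ∧ p.InvariantOver A ∧ q.InvariantOver A ∧
    ∃ r : CType L A (α ⊕ β),
      (∀ D ∈ p.sets, A.Definable L D → {z : α ⊕ β → U | z ∘ Sum.inl ∈ D} ∈ r.sets) ∧
      (∀ D ∈ q.sets, A.Definable L D → {z : α ⊕ β → U | z ∘ Sum.inr ∈ D} ∈ r.sets) ∧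
      ∀ D ∈ q.sets, ∃ P ∈ p.sets, ∃ R ∈ r.sets, ∀ (x : α → U) (y : β → U),
        x ∈ P → Sum.elim x y ∈ R → y ∈ D

/-- domination-equivalence -/
def DomEquiv (κ : Cardinal.{u}) {α β : Type} (p : GlobalType L U α) (q : GlobalType L U β) :
    Prop := Dominates κ p q ∧ Dominates κ q p

end MPfd36ae
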