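import Pool.Agent.Lib.MP_fd36ae_lc.C7

/-!
# MP_fd36ae_lc : basics; extension: every filter-like family with fip over definable sets extends to a type
-/

open FirstOrder Set Cardinal

namespace OMB

universe u

variable {U : Type u} [Str U] {X Y Z W : Type u} [DSort U X] [DSort U Y] [DSort U Z] [DSort U W]
  {A B : Set U}

/-! ## basics -/

theorem GType.empty_notMem (π : GType U X) : (∅ : Set X) ∉ π.F := by
  exact Filter.empty_notMem π.F

theorem GType.mem_compl_iff (π : GType U X) {D : Set X} (hD : Dfn (univ : Set U) D) :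
    Dᶜ ∈ π.F ↔ D ∉ π.F := by
  constructor
  · intro h1 h2
    have h3 := Filter.inter_mem h1 h2
    rw [Set.compl_inter_self] at h3
    exact π.empty_notMem h3
  · intro h
    exact (π.ultra D hD).resolve_left h

theorem GType.not_eventually (π : GType U X) {P : X → Prop} (hD : Dfn (univ : Set U) {x | P x}) :
    {x | ¬ P x} ∈ π.F ↔ ¬ {x | P x} ∈ π.F := by
  exact π.mem_compl_iff hD

theorem GType.ext_dfn {π π' : GType U X}
    (h : ∀ D, Dfn (univ : Set U) D → D ∈ π.F → D ∈ π'.F) : π = π' := by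
  have hF : π.F = π'.F := by
    ext s
    constructor
    · intro hs
      obtain ⟨D, hDs, hD, hDF⟩ := π.base s hs
      exact Filter.mem_of_superset (h D hD hDF) hDs
    · intro hs
      obtain ⟨D, hDs, hD, hDF⟩ := π'.base s hs
      refine Filter.mem_of_superset ?_ hDs
      by_contra hn
      exact (π'.mem_compl_iff hD).1 (h Dᶜ hD.compl ((π.mem_compl_iff hD).2 hn)) hDF
  cases π
  cases π'
  simp only at hF
  subst hF
  rfl

theorem GType.or_iff (π : GType U X) {P Q : X → Prop} (hP : Dfn (univ : Set U) {x | P x})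
    (hQ : Dfn (univ : Set U) {x | Q x}) :
    {x | P x ∨ Q x} ∈ π.F ↔ {x | P x} ∈ π.F ∨ {x | Q x} ∈ π.F := by
  constructor
  · intro h
    by_contra hn
    push Not at hn
    have h1 := (π.not_eventually hP).2 hn.1
    have h2 := (π.not_eventually hQ).2 hn.2
    have h3 := Filter.inter_mem h (Filter.inter_mem h1 h2)
    refine π.empty_notMem (Filter.mem_of_superset h3 ?_)
    rintro x ⟨hx1, hx2, hx3⟩
    exact (hx1.elim hx2 hx3).elim
  · rintro (h | h)
    · exact Filter.mem_of_superset h (fun x hx => Or.inl hx)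
    · exact Filter.mem_of_superset h (fun x hx => Or.inr hx)

theorem GType.and_iff (π : GType U X) {P Q : X → Prop} :
    {x | P x ∧ Q x} ∈ π.F ↔ {x | P x} ∈ π.F ∧ {x | Q x} ∈ π.F := by
  exact Filter.inter_mem_iff

/-- a filter base criterion: construct a type from a family of definable sets -/
def GType.mk' (S : Set (Set X)) (h0 : ∀ D ∈ S, Dfn (univ : Set U) D) (h1 : (univ : Set X) ∈ S)
    (h2 : ∅ ∉ S) (h3 : ∀ D ∈ S, ∀ E ∈ S, D ∩ E ∈ S)
    (h4 : ∀ D, Dfn (univ : Set U) D → D ∈ S ∨ Dᶜ ∈ S) : GType U X where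
  F := { sets := {s | ∃ D ∈ S, D ⊆ s}
         univ_sets := ⟨univ, h1, Subset.rfl⟩
         sets_of_superset := fun ⟨D, hD, h⟩ h' => ⟨D, hD, h.trans h'⟩
         inter_sets := fun ⟨D, hD, h⟩ ⟨E, hE, h'⟩ => ⟨D ∩ E, h3 D hD E hE, inter_subset_inter h h'⟩ }
  ne := by
    constructor
    intro hbot
    have : (∅ : Set X) ∈ (⊥ : Filter X) := Filter.mem_bot
    rw [← hbot] at this
    obtain ⟨D, hD, h⟩ := this
    exact h2 (Set.subset_empty_iff.1 h ▸ hD)
  base := fun _ ⟨D, hD, h⟩ => ⟨D, h, h0 D hD, D, hD, Subset.rfl⟩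
  ultra := fun D hD => (h4 D hD).imp (fun h => ⟨D, h, Subset.rfl⟩) (fun h => ⟨Dᶜ, h, Subset.rfl⟩)

theorem GType.mem_mk' {S : Set (Set X)} {h0 : ∀ D ∈ S, Dfn (univ : Set U) D} {h1 : (univ : Set X) ∈ S}
    {h2 : ∅ ∉ S} {h3 : ∀ D ∈ S, ∀ E ∈ S, D ∩ E ∈ S}
    {h4 : ∀ D, Dfn (univ : Set U) D → D ∈ S ∨ Dᶜ ∈ S} {D : Set X} (hD : Dfn (univ : Set U) D) :
    D ∈ (GType.mk' S h0 h1 h2 h3 h4).F ↔ D ∈ S := by
  constructor
  · rintro ⟨E, hE, hED⟩
    rcases h4 D hD with h | h
    · exact h
    · exfalso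
      apply h2
      have h5 := h3 E hE Dᶜ h
      have h6 : E ∩ Dᶜ = ∅ := by
        ext x
        constructor
        · rintro ⟨hx1, hx2⟩
          exact hx2 (hED hx1)
        · intro hx
          exact hx.elim
      rw [h6] at h5
      exact h5
  · intro h
    exact ⟨D, h, Subset.rfl⟩

/-- the realised type at a point -/
def rTy (x : X) : GType U X where
  F := pure x
  ne := Filter.pure_neBot
  base := fun s hs => ⟨{x}, by simpa using hs, dfn_singleton (subset_univ _), by simp⟩
  ultra := fun D _ => by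
    by_cases h : x ∈ D
    · exact Or.inl (by simpa using h)
    · exact Or.inr (by simpa using h)

@[simp] theorem mem_rTy {x : X} {D : Set X} : D ∈ (rTy x : GType U X).F ↔ x ∈ D := by
  exact Filter.mem_pure

/-! ## extension: every filter-like family with fip over definable sets extends to a type -/

theorem exists_gtype (S : Set (Set X)) (hS : ∀ s : Finset (Set X), (↑s : Set (Set X)) ⊆ S →
    (⋂₀ (↑s : Set (Set X))).Nonempty) : ∃ π : GType U X, ∀ D ∈ S, Dfn (univ : Set U) D → D ∈ π.F := by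
  have hne : (Filter.generate S).NeBot := by
    rw [Filter.generate_neBot_iff]
    intro t ht hf
    have := hS hf.toFinset (by rw [hf.coe_toFinset]; exact ht)
    rw [hf.coe_toFinset] at this
    exact this
  set V : Ultrafilter X := Ultrafilter.of (Filter.generate S) with hV
  have hle : (V : Filter X) ≤ Filter.generate S := Ultrafilter.of_le _
  refine ⟨GType.mk' {D | Dfn (univ : Set U) D ∧ D ∈ V} (fun D hD => hD.1)
    ⟨dfn_univ, Filter.univ_mem⟩ (fun h => Filter.empty_notMem (V : Filter X) h.2)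
    (fun D hD E hE => ⟨hD.1.inter hE.1, Filter.inter_mem hD.2 hE.2⟩)
    (fun D hD => ?_), ?_⟩
  · rcases V.mem_or_compl_mem D with h | h
    · exact Or.inl ⟨hD, h⟩
    · exact Or.inr ⟨hD.compl, h⟩
  · intro D hDS hD
    exact (GType.mem_mk' hD).2 ⟨hD, hle (Filter.mem_generate_of_mem hDS)⟩

end OMB
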