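import Pool.Agent.Lib.MP_fd36ae_lc.T1

/-!
# MP_fd36ae_lc : realisations
-/

open FirstOrder Set Cardinal

namespace OMB

universe u

variable {U : Type u} [Str U] {X Y Z W : Type u} [DSort U X] [DSort U Y] [DSort U Z] [DSort U W]
  {A B : Set U}

/-! ## realisations -/

theorem Rl.mono {π : GType U X} {x : X} (h : Rl π B x) (hAB : A ⊆ B) : Rl π A x :=
  fun D hD => h D (hD.mono hAB)

theorem Rl.mem_iff {π : GType U X} {x : X} (h : Rl π B x) {D : Set X} (hD : Dfn B D) :
    x ∈ D ↔ D ∈ π.F := by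
  refine ⟨fun hx => ?_, h D hD⟩
  by_contra hn
  exact h Dᶜ hD.compl ((π.mem_compl_iff (hD.mono (subset_univ _))).2 hn) hx

theorem exists_rl (π : GType U X) (hB : Small B) : ∃ x, Rl π B x := by
  have hJ : #{D : Set X // Dfn B D ∧ D ∈ π.F} < Str.κ U := by
    refine lt_of_le_of_lt ?_ (card_dfn (X := X) hB)
    exact Cardinal.mk_subtype_mono fun D hD => hD.1
  obtain ⟨x, hx⟩ := sat_family hJ (fun D => D.1) (fun D => D.2.1.mono (subset_univ _)) (by
    intro s
    have hs : (⋂ j ∈ s, (j.1 : Set X)) ∈ π.F :=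
      (Filter.biInter_finset_mem s).2 fun j _ => j.2.2
    obtain ⟨x, hx⟩ := Filter.nonempty_of_mem hs
    exact ⟨x, fun j hj => Set.mem_iInter₂.1 hx j hj⟩)
  exact ⟨x, fun D hD hDF => hx ⟨D, hD, hDF⟩⟩

/-- realise a type over `B` inside a given member of the type -/
theorem Rl.eqv {π : GType U X} {x x' : X} (h : Rl π B x) (h' : Rl π B x') : Eqv B x x' :=
  fun _ hD => (h.mem_iff hD).trans (h'.mem_iff hD).symm

theorem Rl.of_eqv {π : GType U X} {x x' : X} (h : Rl π B x) (hx : Eqv B x x') : Rl π B x' :=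
  fun D hD hDF => (hx D hD).1 (h D hD hDF)

theorem rl_dcl {π : GType U X} {x : X} : Rl π (Dcl A) x ↔ Rl π A x :=
  ⟨fun h => h.mono subset_dcl, fun h D hD hDF => h D hD.of_dcl hDF⟩

/-- two types with common realisations over all large small sets are equal -/
theorem GType.ext_rl {π π' : GType U X} {A : Set U} (hA : Small A)
    (h : ∀ B, Small B → A ⊆ B → ∃ x, Rl π B x ∧ Rl π' B x) : π = π' := by
  refine GType.ext_dfn fun D hD hDF => ?_
  obtain ⟨n, c, _, E, hE, rfl⟩ := hD.finite_param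
  have hB : Dfn (A ∪ co U c) {x | (x, c) ∈ E} := by
    refine (hE.fiber c).mono ?_
    rw [Set.empty_union]
    exact subset_union_right
  obtain ⟨x, hx, hx'⟩ := h (A ∪ co U c) (hA.union_co c) subset_union_left
  exact (hx'.mem_iff hB).1 (hx _ hB hDF)

/-- a definable set is in the type iff it contains the realisations over a small set -/
theorem GType.mem_iff_rl {π : GType U X} {D : Set X} (hD : Dfn B D) (hB : Small B) :
    D ∈ π.F ↔ ∀ x, Rl π B x → x ∈ D := by
  refine ⟨fun h x hx => hx D hD h, fun h => ?_⟩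
  obtain ⟨x, hx⟩ := exists_rl π hB
  exact (hx.mem_iff hD).1 (h x hx)

end OMB
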