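import Pool.Agent.Lib.MP_fd36ae_lc.T2

/-!
# MP_fd36ae_lc : invariance
-/

open FirstOrder Set Cardinal

namespace OMB

universe u

variable {U : Type u} [Str U] {X Y Z W : Type u} [DSort U X] [DSort U Y] [DSort U Z] [DSort U W]
  {A B : Set U}

/-! ## invariance -/

/-- encode the parameters of a definable family by a tuple -/
private theorem T3_enc {D : Set (X × Z)} (hD : Dfn A D) :
    ∃ (N : ℕ) (D' : Set (X × (Fin N → U))) (enc : Z → Fin N → U),
      Dfn (∅ : Set U) D' ∧ DfnF A enc ∧ ∀ x z, (x, enc z) ∈ D' ↔ (x, z) ∈ D := by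
  obtain ⟨n, c, hc, E, hE, rfl⟩ := hD.finite_param
  let q : DSort.ι U Z ≃ Fin (Nat.card (DSort.ι U Z)) := Finite.equivFin _
  refine ⟨Nat.card (DSort.ι U Z) + n,
    {p | ((p.1, (DSort.e (U := U) (X := Z)).symm (fun i => p.2 (Fin.castAdd n (q i)))),
      fun j => p.2 (Fin.natAdd (Nat.card (DSort.ι U Z)) j)) ∈ E},
    fun z => Fin.append (fun i => DSort.e (U := U) z (q.symm i)) c, ?_, ?_, ?_⟩
  · refine hE.preimage (f := fun p : X × (Fin (Nat.card (DSort.ι U Z) + n) → U) =>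
      ((p.1, (DSort.e (U := U) (X := Z)).symm (fun i => p.2 (Fin.castAdd n (q i)))),
      fun j => p.2 (Fin.natAdd (Nat.card (DSort.ι U Z)) j))) ?_
    refine (dfnF_fst.prodMk ?_).prodMk ?_
    · exact dfnF_dec.comp (f := fun p : X × (Fin (Nat.card (DSort.ι U Z) + n) → U) =>
        fun i => p.2 (Fin.castAdd n (q i)))
        (DfnF.pi fun i => (dfnF_proj (Fin.castAdd n (q i))).comp dfnF_snd)
    · exact DfnF.pi fun j => (dfnF_proj (Fin.natAdd _ j)).comp dfnF_snd
  · refine DfnF.pi fun i => ?_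
    refine Fin.addCases (fun i => ?_) (fun j => ?_) i
    · simp only [Fin.append_left]
      exact dfnF_coord (q.symm i)
    · simp only [Fin.append_right]
      refine dfnF_const ?_
      rw [co_U]
      exact Set.singleton_subset_iff.2 (hc ⟨j, rfl⟩)
  · intro x z
    simp only [Set.mem_ofPred_eq, Fin.append_left, Fin.append_right, Equiv.symm_apply_apply]

theorem Inv.gen {π : GType U X} (h : Inv A π) {D : Set (X × Z)} (hD : Dfn A D) :
    AInv A {z | {x | (x, z) ∈ D} ∈ π.F} := by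
  obtain ⟨N, D', enc, hD', henc, hiff⟩ := T3_enc hD
  have h1 := (h N D' hD').preimage henc
  have h2 : enc ⁻¹' {c : Fin N → U | {x | (x, c) ∈ D'} ∈ π.F} =
      {z | {x | (x, z) ∈ D} ∈ π.F} := by
    ext z
    have h3 : {x | (x, enc z) ∈ D'} = {x | (x, z) ∈ D} := by
      ext x
      exact hiff x z
    show {x | (x, enc z) ∈ D'} ∈ π.F ↔ {x | (x, z) ∈ D} ∈ π.F
    rw [h3]
  rwa [h2] at h1

/-- calculus form -/
theorem Inv.aInv {π : GType U X} (h : Inv A π) {P : X → Z → Prop}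
    (hD : Dfn A {p : X × Z | P p.1 p.2}) : AInv A {z | {x | P x z} ∈ π.F} := h.gen hD

theorem Inv.mono {π : GType U X} (h : Inv A π) (hAB : A ⊆ B) : Inv B π :=
  fun n D hD => (h n D hD).mono hAB

theorem inv_rTy {x : X} (h : co U x ⊆ A) : Inv A (rTy x : GType U X) := by
  intro n D hD
  have h1 : {c : Fin n → U | {x' | (x', c) ∈ D} ∈ (rTy x : GType U X).F} =
      (fun c : Fin n → U => (x, c)) ⁻¹' D := by
    ext c
    show {x' | (x', c) ∈ D} ∈ (rTy x : GType U X).F ↔ (x, c) ∈ D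
    rw [mem_rTy]
    rfl
  rw [h1]
  exact ((hD.mono (empty_subset A)).preimage ((dfnF_const h).prodMk dfnF_id)).aInv

/-- being a realisation over `A ∪ {c}` is an `A`-invariant relation -/
theorem Inv.rl_aInv {π : GType U X} (h : Inv A π) :
    AInv A {p : X × Z | Rl π (A ∪ co U p.2) p.1} := by
  have h1 : {p : X × Z | Rl π (A ∪ co U p.2) p.1} =
      {p : X × Z | ∀ (E : Set (X × Z)) (_ : Dfn A E), {x | (x, p.2) ∈ E} ∈ π.F → p ∈ E} := by
    ext p
    obtain ⟨x, z⟩ := p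
    constructor
    · intro hp E hE hmem
      exact hp _ (hE.fiber z) hmem
    · intro hp D hD hmem
      obtain ⟨E, hE, rfl⟩ := hD.param
      exact hp E hE hmem
  rw [h1]
  refine AInv.allI fun E => AInv.allI fun hE => ?_
  exact AInv.imp ((h.gen hE).preimage dfnF_snd) hE.aInv

theorem Fam.gen {π : Y → GType U X} (h : Fam A π) {D : Set (X × Z)} (hD : Dfn A D) {g : Z → Y}
    (hg : DfnF A g) : AInv A {z | {x | (x, z) ∈ D} ∈ (π (g z)).F} := by
  obtain ⟨N, D', enc, hD', henc, hiff⟩ := T3_enc hD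
  have hD'' : Dfn (∅ : Set U) ((fun p : X × (Y × (Fin N → U)) => (p.1, p.2.2)) ⁻¹' D') :=
    hD'.preimage (dfnF_fst.prodMk (dfnF_snd.comp dfnF_snd))
  have h1 := (h N _ hD'').preimage (hg.prodMk henc)
  have h2 : (fun z => (g z, enc z)) ⁻¹' {w : Y × (Fin N → U) |
      {x | (x, w) ∈ (fun p : X × (Y × (Fin N → U)) => (p.1, p.2.2)) ⁻¹' D'} ∈ (π w.1).F} =
      {z | {x | (x, z) ∈ D} ∈ (π (g z)).F} := by
    ext z
    have h3 : {x | (x, enc z) ∈ D'} = {x | (x, z) ∈ D} := by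
      ext x
      exact hiff x z
    show {x | (x, enc z) ∈ D'} ∈ (π (g z)).F ↔ {x | (x, z) ∈ D} ∈ (π (g z)).F
    rw [h3]
  rwa [h2] at h1

theorem Fam.aInv {π : Y → GType U X} (h : Fam A π) {P : X → Z → Prop}
    (hD : Dfn A {p : X × Z | P p.1 p.2}) {g : Z → Y}
    (hg : DfnF A g) : AInv A {z | {x | P x z} ∈ (π (g z)).F} := h.gen hD hg

/-- to prove that a family is equivariant it is enough to treat `A`-definable families -/
theorem Fam.mono {π : Y → GType U X} (h : Fam A π) (hAB : A ⊆ B) : Fam B π :=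
  fun n D hD => (h n D hD).mono hAB

theorem Inv.fam {π : GType U X} (h : Inv A π) : Fam A (fun _ : Y => π) :=
  fun _ _ hD => h.gen (hD.mono (empty_subset A))

theorem Fam.inv {π : Y → GType U X} (h : Fam A π) (v : Y) : Inv (A ∪ co U v) (π v) := by
  intro n D hD
  have hD' : Dfn A ((fun p : X × ((Fin n → U) × Y) => (p.1, p.2.1)) ⁻¹' D) :=
    (hD.mono (empty_subset A)).preimage (dfnF_fst.prodMk (dfnF_fst.comp dfnF_snd))
  exact (h.gen hD' (g := fun q : (Fin n → U) × Y => q.2) dfnF_snd).fiber v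

theorem Fam.comp {π : Y → GType U X} (h : Fam A π) {g : Z → Y} (hg : DfnF A g) :
    Fam A (fun z => π (g z)) :=
  fun _ _ hD => h.gen (hD.mono (empty_subset A)) (hg.comp dfnF_fst)

/-- fix a parameter -/
theorem Fam.fiber {π : Y × Z → GType U X} (h : Fam A π) (z : Z) :
    Fam (A ∪ co U z) (fun y => π (y, z)) := by
  intro n D hD
  have hD' : Dfn A ((fun p : X × ((Y × (Fin n → U)) × Z) => (p.1, p.2.1)) ⁻¹' D) :=
    (hD.mono (empty_subset A)).preimage (dfnF_fst.prodMk (dfnF_fst.comp dfnF_snd))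
  exact (h.gen hD' (g := fun q : (Y × (Fin n → U)) × Z => (q.1.1, q.2))
    ((dfnF_fst.comp dfnF_fst).prodMk dfnF_snd)).fiber z

theorem Fam.eq {π π' : Y → GType U X} (hA : Small A) (h : Fam A π) (h' : Fam A π') :
    AInv A {v | π v = π' v} := by
  have h1 : {v | π v = π' v} = {v | ∀ (n : ℕ) (E : Set (X × (Fin n → U))) (_ : Dfn (∅ : Set U) E)
      (c : Fin n → U), {x | (x, c) ∈ E} ∈ (π v).F → {x | (x, c) ∈ E} ∈ (π' v).F} := by
    ext v
    constructor
    · intro (hv : π v = π' v) n E hE c hc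
      rwa [← hv]
    · intro hv
      refine GType.ext_dfn fun D hD hmem => ?_
      obtain ⟨n, c, -, E, hE, rfl⟩ := hD.finite_param
      exact hv n E hE c hmem
  rw [h1]
  refine AInv.allI fun n => AInv.allI fun E => AInv.allI fun hE => AInv.all hA ?_
  have hE' : Dfn A ((fun p : X × (Y × (Fin n → U)) => (p.1, p.2.2)) ⁻¹' E) :=
    (hE.mono (empty_subset A)).preimage (dfnF_fst.prodMk (dfnF_snd.comp dfnF_snd))
  exact AInv.imp (h.gen hE' (g := fun q : Y × (Fin n → U) => q.1) dfnF_fst)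
    (h'.gen hE' (g := fun q : Y × (Fin n → U) => q.1) dfnF_fst)

theorem Fam.rl_aInv {π : Y → GType U X} (h : Fam A π) {g : Z → Y} (hg : DfnF A g) :
    AInv A {p : X × Z | Rl (π (g p.2)) (A ∪ co U p.2) p.1} := by
  have h1 : {p : X × Z | Rl (π (g p.2)) (A ∪ co U p.2) p.1} =
      {p : X × Z | ∀ (E : Set (X × Z)) (_ : Dfn A E),
        {x | (x, p.2) ∈ E} ∈ (π (g p.2)).F → p ∈ E} := by
    ext p
    obtain ⟨x, z⟩ := p
    constructor
    · intro hp E hE hmem
      exact hp _ (hE.fiber z) hmem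
    · intro hp D hD hmem
      obtain ⟨E, hE, rfl⟩ := hD.param
      exact hp E hE hmem
  rw [h1]
  refine AInv.allI fun E => AInv.allI fun hE => ?_
  exact AInv.imp ((h.gen hE hg).preimage dfnF_snd) hE.aInv

end OMB
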