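import Pool.Agent.Lib.MP_fd36ae_lc.T3

/-!
# MP_fd36ae_lc : push-forward
-/

open FirstOrder Set Cardinal

namespace OMB

universe u

variable {U : Type u} [Str U] {X Y Z W : Type u} [DSort U X] [DSort U Y] [DSort U Z] [DSort U W]
  {A B : Set U}

/-! ## push-forward -/

def GType.map (π : GType U X) (f : X → Y) (hf : DfnF (univ : Set U) f) : GType U Y where
  F := π.F.map f
  ne := by
    have := π.ne
    infer_instance
  base := by
    intro s hs
    obtain ⟨D, hD, hD', hDF⟩ := π.base _ (Filter.mem_map.1 hs)
    exact ⟨f '' D, image_subset_iff.2 hD, hD'.image hf,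
      Filter.mem_map.2 (Filter.mem_of_superset hDF (subset_preimage_image f D))⟩
  ultra := by
    intro D hD
    exact π.ultra _ (hD.preimage hf)

theorem GType.mem_map {π : GType U X} {f : X → Y} {hf : DfnF (univ : Set U) f} {D : Set Y} :
    D ∈ (π.map f hf).F ↔ {x | f x ∈ D} ∈ π.F := Iff.rfl

private theorem T4_ext {π π' : GType U X} (h : π.F = π'.F) : π = π' := by
  cases π
  cases π'
  simp only at h
  subst h
  rfl

theorem GType.map_map {π : GType U X} {f : X → Y} {hf : DfnF (univ : Set U) f} {g : Y → Z}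
    {hg : DfnF (univ : Set U) g} : (π.map f hf).map g hg = π.map (fun x => g (f x)) (hg.comp hf) :=
  T4_ext Filter.map_map

theorem GType.map_congr {π : GType U X} {f g : X → Y} {hf : DfnF (univ : Set U) f}
    {hg : DfnF (univ : Set U) g} (h : {x | f x = g x} ∈ π.F) : π.map f hf = π.map g hg :=
  T4_ext (Filter.map_congr h)

theorem GType.map_id' {π : GType U X} {f : X → X} {hf : DfnF (univ : Set U) f}
    (h : {x | f x = x} ∈ π.F) : π.map f hf = π :=
  T4_ext ((Filter.map_congr (f := π.F) (m₁ := f) (m₂ := id) h).trans Filter.map_id)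

theorem Rl.map {π : GType U X} {f : X → Y} (hf : DfnF B f) {x : X} (h : Rl π B x) :
    Rl (π.map f (hf.mono (subset_univ _))) B (f x) :=
  fun _ hD hDF => h _ (hD.preimage hf) hDF

theorem Inv.map {π : GType U X} (h : Inv A π) {f : X → Y} (hf : DfnF A f)
    (hf' : DfnF (univ : Set U) f) : Inv A (π.map f hf') := by
  intro n D hD
  exact h.aInv (P := fun x c => (f x, c) ∈ D)
    ((hD.mono (empty_subset A)).sub ((hf.comp dfnF_fst).prodMk dfnF_snd))

/-- push-forward of an equivariant family by a definable family of functions -/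
theorem Fam.map {π : Y → GType U X} (h : Fam A π) {f : X × Y → Z} (hf : DfnF A f)
    (hf' : ∀ v, DfnF (univ : Set U) (fun x => f (x, v))) :
    Fam A (fun v => (π v).map (fun x => f (x, v)) (hf' v)) := by
  intro n D hD
  exact h.aInv (P := fun x w => (f (x, w.1), w) ∈ D)
    ((hD.mono (empty_subset A)).sub
      ((hf.comp (dfnF_fst.prodMk (dfnF_fst.comp dfnF_snd))).prodMk dfnF_snd)) dfnF_fst

/-- a fibre of a definable function is definable -/
theorem DfnF.fib {f : X × Y → Z} (hf : DfnF A f) (v : Y) :
    DfnF (univ : Set U) (fun x => f (x, v)) :=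
  (hf.fiber v).mono (subset_univ _)

end OMB
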