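import Pool.Agent.Lib.MP_fd36ae_lc.T4

/-!
# MP_fd36ae_lc : dependent product
-/

open FirstOrder Set Cardinal

namespace OMB

universe u

variable {U : Type u} [Str U] {X Y Z W : Type u} [DSort U X] [DSort U Y] [DSort U Z] [DSort U W]
  {A B : Set U}

/-! ## dependent product -/

/-- Data for a dependent product: `q` and the family `π` are invariant over a small set. -/
def DepOK (q : GType U Y) (π : Y → GType U X) : Prop := ∃ A : Set U, Small A ∧ Inv A q ∧ Fam A π

/-- the set of points whose fibre is in the type of the family is invariant -/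
private theorem fib_aInv {π : Y → GType U X} (hπ : Fam B π) {D : Set (Y × X)} (hD : Dfn B D) :
    AInv B {v : Y | {x | (v, x) ∈ D} ∈ (π v).F} :=
  hπ.gen (Z := Y) (D := {p : X × Y | (p.2, p.1) ∈ D})
    (hD.preimage (dfnF_snd.prodMk dfnF_fst)) (g := fun v => v) dfnF_id

private theorem fib_iff {q : GType U Y} {π : Y → GType U X} (hπ : Fam B π) {D : Set (Y × X)}
    (hD : Dfn B D) {v v' : Y} (hv : Rl q B v) (hv' : Rl q B v') :
    {x | (v, x) ∈ D} ∈ (π v).F ↔ {x | (v', x) ∈ D} ∈ (π v').F :=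
  fib_aInv hπ hD v v' (hv.eqv hv')

private theorem exists_small_dfn {D : Set X} (hD : Dfn (univ : Set U) D) :
    ∃ B : Set U, Small B ∧ Dfn B D := by
  obtain ⟨n, c, -, E, hE, rfl⟩ := hD.finite_param
  exact ⟨∅ ∪ co U c, small_empty.union (small_co c), hE.fiber c⟩

private theorem dfn_fib {D : Set (Y × X)} (hD : Dfn B D) {v : Y} (hv : co U v ⊆ B) :
    Dfn B {x | (v, x) ∈ D} :=
  hD.preimage (f := fun x => (v, x)) ((dfnF_const hv).prodMk dfnF_id)

/-- `q ⋉ π` on `Y × X`: `(v, x)` with `v ⊨ q` realised first, then `x ⊨ π v`. -/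
noncomputable def dep (q : GType U Y) (π : Y → GType U X) (h : DepOK q π) : GType U (Y × X) :=
  GType.mk' {D | Dfn (univ : Set U) D ∧ ∃ B : Set U, Small B ∧ ∀ v, Rl q B v → {x | (v, x) ∈ D} ∈ (π v).F}
    (fun _ hD => hD.1)
    ⟨dfn_univ, ∅, small_empty, fun _ _ => Filter.univ_mem⟩
    (by
      rintro ⟨-, B, hB, hv⟩
      obtain ⟨v, hv'⟩ := exists_rl q hB
      exact (π v).empty_notMem (hv v hv'))
    (by
      rintro D ⟨hD, B, hB, hv⟩ E ⟨hE, B', hB', hv'⟩
      exact ⟨hD.inter hE, B ∪ B', hB.union hB', fun v h' =>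
        Filter.inter_mem (hv v (h'.mono subset_union_left)) (hv' v (h'.mono subset_union_right))⟩)
    (by
      intro D hD
      obtain ⟨A, hA, -, hπ⟩ := h
      obtain ⟨B, hB, hDB⟩ := exists_small_dfn hD
      have hπ' : Fam (A ∪ B) π := hπ.mono subset_union_left
      have hDB' : Dfn (A ∪ B) D := hDB.mono subset_union_right
      obtain ⟨v, hv⟩ := exists_rl q (hA.union hB)
      rcases (π v).ultra _ (dfn_fib hD (subset_univ (co U v))) with h1 | h1
      · exact Or.inl ⟨hD, A ∪ B, hA.union hB, fun v' hv' => (fib_iff hπ' hDB' hv hv').1 h1⟩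
      · exact Or.inr ⟨hD.compl, A ∪ B, hA.union hB, fun v' hv' =>
          (fib_iff hπ' hDB'.compl hv hv').1 h1⟩)

theorem mem_dep {q : GType U Y} {π : Y → GType U X} (h : DepOK q π) (hA : Small A) (hq : Inv A q)
    (hπ : Fam A π) {D : Set (Y × X)} (hD : Dfn A D) {v : Y} (hv : Rl q A v) :
    D ∈ (dep q π h).F ↔ {x | (v, x) ∈ D} ∈ (π v).F := by
  refine (GType.mem_mk' (hD.mono (subset_univ _))).trans ⟨?_, fun h1 => ?_⟩
  · rintro ⟨-, B, hB, hB'⟩
    obtain ⟨v', hv'⟩ := exists_rl q (hA.union hB)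
    exact (fib_iff hπ hD (hv'.mono subset_union_left) hv).1 (hB' v' (hv'.mono subset_union_right))
  · exact ⟨hD.mono (subset_univ _), A, hA, fun v' hv' => (fib_iff hπ hD hv hv').1 h1⟩

theorem Inv.dep {q : GType U Y} {π : Y → GType U X} (h : DepOK q π) (hA : Small A) (hq : Inv A q)
    (hπ : Fam A π) : Inv A (dep q π h) := by
  intro n D hD
  have hD' : Dfn A D := hD.mono (empty_subset _)
  have key : {c : Fin n → U | {p | (p, c) ∈ D} ∈ (OMB.dep q π h).F} =
      {c : Fin n → U | ∀ v, Rl q (A ∪ co U c) v → {x | ((v, x), c) ∈ D} ∈ (π v).F} := by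
    ext c
    have hB : Small (A ∪ co U c) := hA.union_co c
    have hm : ∀ v, Rl q (A ∪ co U c) v →
        ({p | (p, c) ∈ D} ∈ (OMB.dep q π h).F ↔ {x | ((v, x), c) ∈ D} ∈ (π v).F) := fun v hv =>
      mem_dep h hB (hq.mono subset_union_left) (hπ.mono subset_union_left) (hD'.fiber c) hv
    constructor
    · exact fun h1 v hv => (hm v hv).1 h1
    · intro h1
      obtain ⟨v, hv⟩ := exists_rl q hB
      exact (hm v hv).2 (h1 v hv)
  rw [key]
  refine AInv.all hA (P := fun (c : Fin n → U) (v : Y) => Rl q (A ∪ co U c) v →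
    {x | ((v, x), c) ∈ D} ∈ (π v).F) ?_
  refine AInv.imp ?_ ?_
  · exact (hq.rl_aInv (Z := Fin n → U)).preimage (f := fun p : (Fin n → U) × Y => (p.2, p.1))
      (dfnF_snd.prodMk dfnF_fst)
  · refine hπ.gen (Z := (Fin n → U) × Y)
      (D := {w : X × ((Fin n → U) × Y) | ((w.2.2, w.1), w.2.1) ∈ D}) ?_ (g := fun p => p.2) dfnF_snd
    exact hD'.preimage (f := fun w : X × ((Fin n → U) × Y) => ((w.2.2, w.1), w.2.1))
      (((dfnF_snd.comp dfnF_snd).prodMk dfnF_fst).prodMk (dfnF_fst.comp dfnF_snd))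

theorem rl_dep {q : GType U Y} {π : Y → GType U X} (h : DepOK q π) (hA : Small A) (hq : Inv A q)
    (hπ : Fam A π) {v : Y} {x : X} :
    Rl (dep q π h) A (v, x) ↔ Rl q A v ∧ Rl (π v) (A ∪ co U v) x := by
  constructor
  · intro hvx
    have hv : Rl q A v := by
      intro E hE hEq
      obtain ⟨v0, hv0⟩ := exists_rl q hA
      have hD : Dfn A {p : Y × X | p.1 ∈ E} := hE.preimage dfnF_fst
      have h1 : {x : X | (v0, x) ∈ {p : Y × X | p.1 ∈ E}} ∈ (π v0).F := by
        have : {x : X | (v0, x) ∈ {p : Y × X | p.1 ∈ E}} = (Set.univ : Set X) := by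
          ext y
          simp [hv0 E hE hEq]
        rw [this]
        exact Filter.univ_mem
      exact hvx _ hD ((mem_dep h hA hq hπ hD hv0).2 h1)
    refine ⟨hv, ?_⟩
    intro F hF hFm
    obtain ⟨E, hE, rfl⟩ := hF.param
    have hD : Dfn A {p : Y × X | (p.2, p.1) ∈ E} := hE.preimage (dfnF_snd.prodMk dfnF_fst)
    exact hvx _ hD ((mem_dep h hA hq hπ hD hv).2 hFm)
  · rintro ⟨hv, hx⟩ D hD hDm
    exact hx _ (dfn_fib (hD.mono subset_union_left) subset_union_right)
      ((mem_dep h hA hq hπ hD hv).1 hDm)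

end OMB
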