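import Pool.Agent.Lib.MP_fd36ae_lc.T5

/-!
# MP_fd36ae_lc : elementary substructures, coheirs
-/

open FirstOrder Set Cardinal

namespace OMB

universe u

variable {U : Type u} [Str U] {X Y Z W : Type u} [DSort U X] [DSort U Y] [DSort U Z] [DSort U W]
  {A B : Set U}

/-! ## elementary substructures, coheirs -/

private theorem dfnF_cons {n : ℕ} :
    DfnF A (fun p : U × (Fin n → U) => (Fin.cons p.1 p.2 : Fin (n + 1) → U)) := by
  refine DfnF.pi fun i => ?_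
  refine Fin.cases ?_ (fun j => ?_) i
  · simpa using (dfnF_fst : DfnF A (fun p : U × (Fin n → U) => p.1))
  · simpa using (dfnF_proj j).comp (dfnF_snd : DfnF A (fun p : U × (Fin n → U) => p.2))

private theorem dfnF_cons' {n : ℕ} :
    DfnF A (fun p : (Fin n → U) × U => (Fin.cons p.2 p.1 : Fin (n + 1) → U)) := by
  refine DfnF.pi fun i => ?_
  refine Fin.cases ?_ (fun j => ?_) i
  · simpa using (dfnF_snd : DfnF A (fun p : (Fin n → U) × U => p.2))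
  · simpa using (dfnF_proj j).comp (dfnF_fst : DfnF A (fun p : (Fin n → U) × U => p.1))

private theorem Elem.exists_fin {M : Set U} (hM : Elem M) : ∀ (n : ℕ) (D : Set (Fin n → U)),
    Dfn M D → D.Nonempty → ∃ v ∈ D, Set.range v ⊆ M := by
  intro n
  induction n with
  | zero =>
    rintro D _ ⟨v, hv⟩
    refine ⟨v, hv, ?_⟩
    rintro _ ⟨i, rfl⟩
    exact i.elim0
  | succ n ih =>
    rintro D hD ⟨v, hv⟩
    have h1 : Dfn M {a : U | ∃ w : Fin n → U, (Fin.cons a w : Fin (n + 1) → U) ∈ D} :=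
      Dfn.ex (P := fun (a : U) (w : Fin n → U) => (Fin.cons a w : Fin (n + 1) → U) ∈ D)
        (hD.preimage dfnF_cons)
    obtain ⟨a, haM, w, haw⟩ := hM _ h1 ⟨v 0, Fin.tail v, by
      rw [Fin.cons_self_tail]; exact hv⟩
    have h2 : Dfn M {w : Fin n → U | (Fin.cons a w : Fin (n + 1) → U) ∈ D} := by
      have := (hD.preimage dfnF_cons' : Dfn M ((fun p : (Fin n → U) × U =>
        (Fin.cons p.2 p.1 : Fin (n + 1) → U)) ⁻¹' D)).fiber_of (b := a)
        (by rw [co_U]; exact Set.singleton_subset_iff.2 haM)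
      exact this
    obtain ⟨w', hw', hr⟩ := ih _ h2 ⟨w, haw⟩
    refine ⟨Fin.cons a w', hw', ?_⟩
    rintro _ ⟨i, rfl⟩
    refine Fin.cases ?_ (fun j => ?_) i
    · simpa using haM
    · simpa using hr ⟨j, rfl⟩

/-- Tarski-Vaught in an arbitrary sort -/
theorem Elem.exists {M : Set U} (hM : Elem M) {D : Set X} (hD : Dfn M D) (h : D.Nonempty) :
    ∃ x ∈ D, co U x ⊆ M := by
  obtain ⟨n, ⟨σ⟩⟩ := Finite.exists_equiv_fin (DSort.ι U X)
  have h1 : DfnF M (fun w : Fin n → U => (fun i => w (σ i) : DSort.ι U X → U)) :=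
    DfnF.pi fun i => dfnF_proj (σ i)
  have h2 : DfnF M (fun w : Fin n → U => (DSort.e (U := U) (X := X)).symm (fun i => w (σ i))) :=
    dfnF_dec.comp h1
  obtain ⟨x, hx⟩ := h
  obtain ⟨w, hw, hr⟩ := hM.exists_fin n _ (hD.preimage h2)
    ⟨fun j => DSort.e (U := U) x (σ.symm j), by simpa using hx⟩
  refine ⟨_, hw, ?_⟩
  rintro _ ⟨i, rfl⟩
  rw [Equiv.apply_symm_apply]
  exact hr ⟨σ i, rfl⟩

theorem Elem.dcl {M : Set U} (hM : Elem M) : Dcl M = M := by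
  refine Set.Subset.antisymm ?_ subset_dcl
  intro c hc
  obtain ⟨m, hm, hmc⟩ := hM {c} hc ⟨c, rfl⟩
  rw [Set.mem_singleton_iff] at hmc
  rwa [hmc] at hm

theorem exists_coheir' {M : Set U} (hM : Elem M) (x : X) :
    ∃ ρ : GType U X, Inv M ρ ∧ Rl ρ M x ∧ ∀ D ∈ ρ.F, ∃ y ∈ D, co U y ⊆ M := by
  let P : Set X := {y | co U y ⊆ M}
  let G : Filter X :=
    { sets := {s | ∃ D : Set X, Dfn M D ∧ x ∈ D ∧ D ∩ P ⊆ s}
      univ_sets := ⟨univ, dfn_univ, trivial, subset_univ _⟩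
      sets_of_superset := fun ⟨D, hD, hx, h⟩ h' => ⟨D, hD, hx, h.trans h'⟩
      inter_sets := fun ⟨D, hD, hx, h⟩ ⟨E, hE, hx', h'⟩ => ⟨D ∩ E, hD.inter hE, ⟨hx, hx'⟩,
        fun y hy => ⟨h ⟨hy.1.1, hy.2⟩, h' ⟨hy.1.2, hy.2⟩⟩⟩ }
  have hG : ∀ D : Set X, Dfn M D → x ∈ D → D ∈ G := fun D hD hx => ⟨D, hD, hx, inter_subset_left⟩
  have hGP : P ∈ G := ⟨univ, dfn_univ, trivial, inter_subset_right⟩
  have hne : G.NeBot := by
    constructor
    intro hbot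
    have h0 : (∅ : Set X) ∈ (⊥ : Filter X) := Filter.mem_bot
    rw [← hbot] at h0
    obtain ⟨D, hD, hx, h⟩ := h0
    obtain ⟨y, hy, hyM⟩ := hM.exists hD ⟨x, hx⟩
    exact h ⟨hy, hyM⟩
  let 𝒰 : Ultrafilter X := Ultrafilter.of G
  have hle : (𝒰 : Filter X) ≤ G := Ultrafilter.of_le G
  let ρ : GType U X := GType.mk' {D | Dfn (univ : Set U) D ∧ D ∈ 𝒰} (fun D hD => hD.1)
    ⟨dfn_univ, Filter.univ_mem⟩ (fun h => 𝒰.empty_notMem h.2)
    (fun D hD E hE => ⟨hD.1.inter hE.1, Filter.inter_mem hD.2 hE.2⟩)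
    (fun D hD => (𝒰.mem_or_compl_mem D).imp (fun h => ⟨hD, h⟩) (fun h => ⟨hD.compl, h⟩))
  have hρ : ∀ D : Set X, Dfn (univ : Set U) D → (D ∈ ρ.F ↔ D ∈ 𝒰) := by
    intro D hD
    rw [show (D ∈ ρ.F ↔ D ∈ {D | Dfn (univ : Set U) D ∧ D ∈ 𝒰}) from GType.mem_mk' hD]
    exact ⟨fun h => h.2, fun h => ⟨hD, h⟩⟩
  refine ⟨ρ, ?_, ?_, ?_⟩
  · intro n D hD c c' hcc
    have hc : ∀ c : Fin n → U, Dfn (univ : Set U) {y | (y, c) ∈ D} := fun c =>
      (hD.fiber c).mono (subset_univ _)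
    show {y | (y, c) ∈ D} ∈ ρ.F ↔ {y | (y, c') ∈ D} ∈ ρ.F
    rw [hρ _ (hc c), hρ _ (hc c')]
    have key : ∀ y ∈ P, ((y, c) ∈ D ↔ (y, c') ∈ D) := by
      intro y hy
      have h1 : Dfn M {d : Fin n → U | (y, d) ∈ D} := by
        have h2 : Dfn M ((fun p : (Fin n → U) × X => (p.2, p.1)) ⁻¹' D) :=
          (hD.mono (empty_subset M)).preimage (dfnF_snd.prodMk dfnF_fst)
        exact h2.fiber_of hy
      exact hcc _ h1
    have hP : P ∈ (𝒰 : Filter X) := hle hGP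
    constructor
    · intro h
      filter_upwards [h, hP] with y hy hyP
      exact (key y hyP).1 hy
    · intro h
      filter_upwards [h, hP] with y hy hyP
      exact (key y hyP).2 hy
  · intro D hD hDF
    rw [hρ D (hD.mono (subset_univ _))] at hDF
    by_contra hx
    have h1 : Dᶜ ∈ (𝒰 : Filter X) := hle (hG _ hD.compl hx)
    exact (Ultrafilter.compl_mem_iff_notMem.1 h1) hDF
  · intro D hD
    obtain ⟨D', hD'D, hD'd, hD'⟩ := ρ.base D hD
    have h1 : D' ∈ (𝒰 : Filter X) := (hρ D' hD'd).1 hD'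
    have h2 : P ∈ (𝒰 : Filter X) := hle hGP
    obtain ⟨y, hy, hyP⟩ := Filter.nonempty_of_mem (Filter.inter_mem h1 h2)
    exact ⟨y, hD'D hy, hyP⟩

theorem exists_coheir {M : Set U} (hM : Elem M) (x : X) :
    ∃ ρ : GType U X, Inv M ρ ∧ Rl ρ M x := by
  obtain ⟨ρ, h1, h2, _⟩ := exists_coheir' hM x
  exact ⟨ρ, h1, h2⟩

end OMB
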