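import Pool.Agent.Lib.MP_fd36ae_lc.V1

/-!
# MP_fd36ae_lc : global 1-types, cuts
-/

open FirstOrder Set Cardinal

namespace OMB

universe u

variable {U : Type u} [Str U] {X Y Z W : Type u} [DSort U X] [DSort U Y] [DSort U Z] [DSort U W]
  {A B : Set U}

/-- non-realised 1-type -/
def NR (π : GType U U) : Prop := ∀ c : U, {x | x ≠ c} ∈ π.F

/-- `z < π` -/
def Lo [OMS U] (π : GType U U) (z : U) : Prop := {x | z < x} ∈ π.F

/-- `π < z` -/
def Hi [OMS U] (π : GType U U) (z : U) : Prop := {x | x < z} ∈ π.F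

/-- the basic neighbourhood of `π` given by a finite set of points -/
def Nb [OMS U] (π : GType U U) (E : Finset U) : Set U :=
  {x | ∀ e ∈ E, (Lo π e → e < x) ∧ (Hi π e → x < e)}

/-- non-definable type: the cut has no endpoint on either side -/
def ND [OMS U] (π : GType U U) : Prop :=
  NR π ∧ (∃ z, Lo π z) ∧ (∃ z, Hi π z) ∧ (∀ z, Lo π z → ∃ z', z < z' ∧ Lo π z') ∧
    (∀ z, Hi π z → ∃ z', z' < z ∧ Hi π z')

variable [OMS U]

theorem NR.lo_or_hi {π : GType U U} (h : NR π) (z : U) : Lo π z ∨ Hi π z := by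
  have h1 : {x | z < x ∨ x < z} ∈ π.F :=
    Filter.mem_of_superset (h z) (fun x hx => lt_or_gt_of_ne (Ne.symm hx))
  exact (π.or_iff (P := fun x => z < x) (Q := fun x => x < z) (dfn_Ioi (mem_univ z))
    (dfn_Iio (mem_univ z))).1 h1

theorem not_lo_and_hi {π : GType U U} {z : U} (h : Lo π z) (h' : Hi π z) : False := by
  obtain ⟨x, hx, hx'⟩ := Filter.nonempty_of_mem (Filter.inter_mem h h')
  exact lt_asymm (show z < x from hx) hx'

theorem NR.not_lo {π : GType U U} (h : NR π) {z : U} : ¬ Lo π z ↔ Hi π z :=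
  ⟨fun h1 => (h.lo_or_hi z).resolve_left h1, fun h1 h2 => not_lo_and_hi h2 h1⟩

theorem NR.not_hi {π : GType U U} (h : NR π) {z : U} : ¬ Hi π z ↔ Lo π z :=
  ⟨fun h1 => (h.lo_or_hi z).resolve_right h1, fun h1 h2 => not_lo_and_hi h1 h2⟩

theorem Lo.mono {π : GType U U} {z z' : U} (h : Lo π z) (hz : z' ≤ z) : Lo π z' :=
  Filter.mem_of_superset h (fun _ hx => lt_of_le_of_lt hz hx)

theorem Hi.mono {π : GType U U} {z z' : U} (h : Hi π z) (hz : z ≤ z') : Hi π z' :=
  Filter.mem_of_superset h (fun _ hx => lt_of_lt_of_le hx hz)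

theorem lt_of_lo_hi {π : GType U U} {a b : U} (h : Lo π a) (h' : Hi π b) : a < b := by
  obtain ⟨x, hx, hx'⟩ := Filter.nonempty_of_mem (Filter.inter_mem h h')
  exact lt_trans (show a < x from hx) hx'

theorem NR.le_mem {π : GType U U} (h : NR π) {z : U} : {x | z ≤ x} ∈ π.F ↔ Lo π z := by
  refine ⟨fun h1 => ?_, fun h1 => Filter.mem_of_superset h1 (fun x hx => le_of_lt hx)⟩
  by_contra h2
  obtain ⟨x, hx, hx'⟩ := Filter.nonempty_of_mem (Filter.inter_mem h1 (h.not_lo.1 h2))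
  exact absurd (show z ≤ x from hx) (not_le_of_gt hx')

theorem NR.ge_mem {π : GType U U} (h : NR π) {z : U} : {x | x ≤ z} ∈ π.F ↔ Hi π z := by
  refine ⟨fun h1 => ?_, fun h1 => Filter.mem_of_superset h1 (fun x hx => le_of_lt hx)⟩
  by_contra h2
  obtain ⟨x, hx, hx'⟩ := Filter.nonempty_of_mem (Filter.inter_mem h1 (h.not_hi.1 h2))
  exact absurd (show x ≤ z from hx) (not_le_of_gt hx')

/-- a type which is not non-realised is realised -/
theorem not_NR {π : GType U U} (h : ¬ NR π) : ∃ c : U, π = rTy c := by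
  simp only [NR, not_forall] at h
  obtain ⟨c, hc⟩ := h
  refine ⟨c, GType.ext_dfn (fun D hD hm => ?_)⟩
  have h1 : ({c} : Set U) ∈ π.F := by
    by_contra h2
    exact hc ((π.mem_compl_iff (dfn_singleton (subset_univ (co U c)))).2 h2)
  obtain ⟨x, hx, hx'⟩ := Filter.nonempty_of_mem (Filter.inter_mem hm h1)
  rw [mem_singleton_iff] at hx'
  rw [mem_rTy]
  exact hx' ▸ hx

/-- a realised invariant 1-type is realised in the definable closure -/
theorem inv_rTy_mem {c : U} (hA : Small A) (h : Inv A (rTy c : GType U U)) : c ∈ Dcl A := by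
  have h1 : AInv A {z : U | {x | (x, z) ∈ {p : U × U | p.1 = p.2}} ∈ (rTy c : GType U U).F} :=
    h.gen (Dfn.eq dfnF_fst dfnF_snd)
  have h2 : ∀ x, Eqv A c x → x = c := by
    intro x hx
    have h3 := (h1 c x hx).1 (by
      show {y | (y, c) ∈ {p : U × U | p.1 = p.2}} ∈ (rTy c : GType U U).F
      rw [mem_rTy]
      rfl)
    have h4 : {y | (y, x) ∈ {p : U × U | p.1 = p.2}} ∈ (rTy c : GType U U).F := h3
    rw [mem_rTy] at h4
    exact (show c = x from h4).symm
  let E : {D : Set U // Dfn A D} → Set U := fun j => {x | x ≠ c ∧ (c ∈ j.1 → x ∈ j.1)}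
  have hE : ∀ j, Dfn (univ : Set U) (E j) := fun j =>
    Dfn.and (Dfn.not (P := fun x => x = c) (dfn_singleton (subset_univ (co U c))))
      (Dfn.imp (dfn_const _) (j.2.mono (subset_univ _)))
  by_cases hF : ∀ s : Finset {D : Set U // Dfn A D}, ∃ x, ∀ j ∈ s, x ∈ E j
  · obtain ⟨x, hx⟩ := sat_family (card_dfn (X := U) hA) E hE hF
    have h5 : Eqv A c x := by
      intro D hD
      constructor
      · exact (hx ⟨D, hD⟩).2
      · intro hxD
        by_contra hcD
        exact (hx ⟨Dᶜ, hD.compl⟩).2 hcD hxD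
    exact absurd (h2 x h5) (hx ⟨univ, dfn_univ⟩).1
  · simp only [not_forall, not_exists] at hF
    obtain ⟨s, hs⟩ := hF
    have h6 : ({c} : Set U) = {x | ∀ j ∈ s, (c ∈ j.1 → x ∈ j.1)} := by
      ext x
      constructor
      · intro hx j _ hc
        rw [mem_singleton_iff] at hx
        exact hx ▸ hc
      · intro hx
        by_contra hxc
        obtain ⟨j, hj, hj'⟩ := hs x
        exact hj' ⟨hxc, hx j hj⟩
    show Dfn A ({c} : Set U)
    rw [h6]
    exact Dfn.allFin s (fun j _ => Dfn.imp (dfn_const _) j.2)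

theorem nb_mem (π : GType U U) (E : Finset U) : Nb π E ∈ π.F := by
  have h1 : ∀ e ∈ E, {x | (Lo π e → e < x) ∧ (Hi π e → x < e)} ∈ π.F := by
    intro e _
    refine Filter.inter_mem ?_ ?_
    · by_cases h : Lo π e
      · exact Filter.mem_of_superset h (fun x hx _ => hx)
      · exact Filter.univ_mem' (fun x h' => absurd h' h)
    · by_cases h : Hi π e
      · exact Filter.mem_of_superset h (fun x hx _ => hx)
      · exact Filter.univ_mem' (fun x h' => absurd h' h)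
  have h2 := (Filter.biInter_finset_mem E).2 h1
  refine Filter.mem_of_superset h2 (fun x hx e he => ?_)
  exact Set.mem_iInter₂.1 hx e he

theorem nb_dfn (π : GType U U) (E : Finset U) (hE : (↑E : Set U) ⊆ A) : Dfn A (Nb π E) := by
  refine Dfn.allFin E (fun e he => ?_)
  exact Dfn.and (Dfn.imp (dfn_const _) (dfn_Ioi (hE he))) (Dfn.imp (dfn_const _) (dfn_Iio (hE he)))

theorem nb_ordConnected (π : GType U U) (E : Finset U) : (Nb π E).OrdConnected :=
  ⟨fun _ hx _ hy _ hz e he => ⟨fun h => ((hx e he).1 h).trans_le hz.1,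
    fun h => hz.2.trans_lt ((hy e he).2 h)⟩⟩

/-- basic neighbourhoods with endpoints in `dcl A` -/
theorem NR.basis {π : GType U U} (h : NR π) {D : Set U} (hD : Dfn A D) (hm : D ∈ π.F) :
    ∃ E : Finset U, (↑E : Set U) ⊆ Dcl A ∧ Nb π E ⊆ D := by
  obtain ⟨E, hE, hpos⟩ := endpoints hD
  refine ⟨E, hE, fun x hx => ?_⟩
  obtain ⟨y, hy, hy'⟩ := Filter.nonempty_of_mem (Filter.inter_mem hm (nb_mem π E))
  refine (hpos x y (fun e he => ?_)).2 hy
  rcases h.lo_or_hi e with h1 | h1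
  · have hx1 : e < x := (hx e he).1 h1
    have hy1 : e < y := (hy' e he).1 h1
    exact ⟨⟨fun h2 => absurd h2 (lt_asymm hx1), fun h2 => absurd h2 (lt_asymm hy1)⟩,
      ⟨fun _ => hy1, fun _ => hx1⟩⟩
  · have hx1 : x < e := (hx e he).2 h1
    have hy1 : y < e := (hy' e he).2 h1
    exact ⟨⟨fun _ => hy1, fun _ => hx1⟩,
      ⟨fun h2 => absurd h2 (lt_asymm hx1), fun h2 => absurd h2 (lt_asymm hy1)⟩⟩

theorem NR.basis' {π : GType U U} (h : NR π) {D : Set U} (hm : D ∈ π.F) :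
    ∃ E : Finset U, Nb π E ⊆ D := by
  obtain ⟨D', hsub, hD', hm'⟩ := π.base D hm
  obtain ⟨E, -, hE⟩ := h.basis hD' hm'
  exact ⟨E, hE.trans hsub⟩

theorem NR.ext {π π' : GType U U} (h : NR π) (h' : NR π') (hlo : ∀ z, Lo π z → Lo π' z)
    (hhi : ∀ z, Hi π z → Hi π' z) : π = π' := by
  refine GType.ext_dfn (fun D _ hm => ?_)
  obtain ⟨E, hE⟩ := h.basis' hm
  refine Filter.mem_of_superset (nb_mem π' E) (fun x hx => hE (fun e he => ?_))
  exact ⟨fun h1 => (hx e he).1 (hlo e h1), fun h1 => (hx e he).2 (hhi e h1)⟩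

/-- a type which lies on the same side of all points as a non-realised type is equal to it -/
theorem NR.eq_of_lo_hi {π π' : GType U U} (h : NR π) (hlo : ∀ z, Lo π z → Lo π' z)
    (hhi : ∀ z, Hi π z → Hi π' z) : π' = π := by
  refine (GType.ext_dfn (fun D _ hm => ?_)).symm
  obtain ⟨E, hE⟩ := h.basis' hm
  refine Filter.mem_of_superset (nb_mem π' E) (fun x hx => hE (fun e he => ?_))
  exact ⟨fun h1 => (hx e he).1 (hlo e h1), fun h1 => (hx e he).2 (hhi e h1)⟩

private theorem lo_bound {π : GType U U} {z0 : U} (h : Lo π z0) (E : Finset U) :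
    ∃ a, z0 ≤ a ∧ Lo π a ∧ ∀ e ∈ E, Lo π e → e ≤ a := by
  classical
  induction E using Finset.induction_on with
  | empty => exact ⟨z0, le_rfl, h, fun e he => absurd he (Finset.notMem_empty e)⟩
  | insert e E _ ih =>
    obtain ⟨a, h1, h2, h3⟩ := ih
    by_cases he : Lo π e
    · refine ⟨max a e, le_max_of_le_left h1, ?_, ?_⟩
      · rcases le_total a e with h4 | h4
        · rw [max_eq_right h4]; exact he
        · rw [max_eq_left h4]; exact h2
      · intro e' he' h5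
        rcases Finset.mem_insert.1 he' with rfl | h6
        · exact le_max_right _ _
        · exact le_max_of_le_left (h3 e' h6 h5)
    · refine ⟨a, h1, h2, ?_⟩
      intro e' he' h5
      rcases Finset.mem_insert.1 he' with rfl | h6
      · exact absurd h5 he
      · exact h3 e' h6 h5

private theorem hi_bound {π : GType U U} {z0 : U} (h : Hi π z0) (E : Finset U) :
    ∃ b, b ≤ z0 ∧ Hi π b ∧ ∀ e ∈ E, Hi π e → b ≤ e := by
  classical
  induction E using Finset.induction_on with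
  | empty => exact ⟨z0, le_rfl, h, fun e he => absurd he (Finset.notMem_empty e)⟩
  | insert e E _ ih =>
    obtain ⟨a, h1, h2, h3⟩ := ih
    by_cases he : Hi π e
    · refine ⟨min a e, min_le_of_left_le h1, ?_, ?_⟩
      · rcases le_total a e with h4 | h4
        · rw [min_eq_left h4]; exact h2
        · rw [min_eq_right h4]; exact he
      · intro e' he' h5
        rcases Finset.mem_insert.1 he' with rfl | h6
        · exact min_le_right _ _
        · exact min_le_of_left_le (h3 e' h6 h5)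
    · refine ⟨a, h1, h2, ?_⟩
      intro e' he' h5
      rcases Finset.mem_insert.1 he' with rfl | h6
      · exact absurd h5 he
      · exact h3 e' h6 h5

theorem ND.basis {π : GType U U} (h : ND π) {D : Set U} (hm : D ∈ π.F) :
    ∃ a b, Lo π a ∧ Hi π b ∧ Icc a b ⊆ D := by
  obtain ⟨hn, ⟨zl, hzl⟩, ⟨zh, hzh⟩, hl, hh⟩ := h
  obtain ⟨E, hE⟩ := hn.basis' hm
  obtain ⟨a0, -, ha0, ha1⟩ := lo_bound hzl E
  obtain ⟨b0, -, hb0, hb1⟩ := hi_bound hzh E
  obtain ⟨a, ha, hla⟩ := hl a0 ha0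
  obtain ⟨b, hb, hhb⟩ := hh b0 hb0
  refine ⟨a, b, hla, hhb, fun x hx => hE (fun e he => ⟨fun h1 => ?_, fun h1 => ?_⟩)⟩
  · exact ((ha1 e he h1).trans_lt ha).trans_le hx.1
  · exact (hx.2.trans_lt hb).trans_le (hb1 e he h1)

/-- two-sided basis from a below-point and an above-point when both sides are nonempty -/
theorem NR.basis_Ioo {π : GType U U} (h : NR π) {a₀ b₀ : U} (ha : Lo π a₀) (hb : Hi π b₀)
    {D : Set U} (hm : D ∈ π.F) : ∃ a b, a₀ ≤ a ∧ b ≤ b₀ ∧ Lo π a ∧ Hi π b ∧ Ioo a b ⊆ D := by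
  obtain ⟨E, hE⟩ := h.basis' hm
  obtain ⟨a, ha0, ha, ha1⟩ := lo_bound ha E
  obtain ⟨b, hb0, hb, hb1⟩ := hi_bound hb E
  refine ⟨a, b, ha0, hb0, ha, hb, fun x hx => hE (fun e he => ⟨fun h1 => ?_, fun h1 => ?_⟩)⟩
  · exact (ha1 e he h1).trans_lt hx.1
  · exact hx.2.trans_le (hb1 e he h1)

/-! ## invariance in terms of cuts -/

theorem Fam.lo {π : Y → GType U U} (h : Fam A π) : AInv A {p : U × Y | Lo (π p.2) p.1} :=
  h.gen (Z := U × Y) (D := {w : U × (U × Y) | w.2.1 < w.1})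
    (Dfn.lt (dfnF_fst.comp dfnF_snd) dfnF_fst) (g := fun z => z.2) dfnF_snd

theorem Fam.hi {π : Y → GType U U} (h : Fam A π) : AInv A {p : U × Y | Hi (π p.2) p.1} :=
  h.gen (Z := U × Y) (D := {w : U × (U × Y) | w.1 < w.2.1})
    (Dfn.lt dfnF_fst (dfnF_fst.comp dfnF_snd)) (g := fun z => z.2) dfnF_snd

theorem Fam.nr {π : Y → GType U U} (hA : Small A) (h : Fam A π) : AInv A {v | NR (π v)} := by
  refine AInv.all hA (P := fun (v : Y) (c : U) => {x | x ≠ c} ∈ (π v).F) ?_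
  exact h.gen (Z := Y × U) (D := {w : U × (Y × U) | ¬ w.1 = w.2.2})
    (Dfn.not (Dfn.eq dfnF_fst (dfnF_snd.comp dfnF_snd))) (g := fun z => z.1) dfnF_fst

theorem Fam.nd {π : Y → GType U U} (hA : Small A) (h : Fam A π) : AInv A {v | ND (π v)} := by
  have hlo : AInv A {p : Y × U | Lo (π p.1) p.2} :=
    AInv.preimage h.lo (f := fun p : Y × U => (p.2, p.1)) (dfnF_snd.prodMk dfnF_fst)
  have hhi : AInv A {p : Y × U | Hi (π p.1) p.2} :=
    AInv.preimage h.hi (f := fun p : Y × U => (p.2, p.1)) (dfnF_snd.prodMk dfnF_fst)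
  have hf : DfnF A (fun q : (Y × U) × U => (q.1.1, q.2)) :=
    (dfnF_fst.comp dfnF_fst).prodMk dfnF_snd
  refine (h.nr hA).and ?_
  refine AInv.and (AInv.ex hA (P := fun (v : Y) (z : U) => Lo (π v) z) hlo) ?_
  refine AInv.and (AInv.ex hA (P := fun (v : Y) (z : U) => Hi (π v) z) hhi) ?_
  refine AInv.and ?_ ?_
  · refine AInv.all hA (P := fun (v : Y) (z : U) => Lo (π v) z → ∃ z', z < z' ∧ Lo (π v) z') ?_
    refine AInv.imp hlo ?_
    refine AInv.ex hA (P := fun (p : Y × U) (z' : U) => p.2 < z' ∧ Lo (π p.1) z') ?_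
    exact AInv.and (Dfn.lt (dfnF_snd.comp dfnF_fst) dfnF_snd).aInv (AInv.preimage hlo hf)
  · refine AInv.all hA (P := fun (v : Y) (z : U) => Hi (π v) z → ∃ z', z' < z ∧ Hi (π v) z') ?_
    refine AInv.imp hhi ?_
    refine AInv.ex hA (P := fun (p : Y × U) (z' : U) => z' < p.2 ∧ Hi (π p.1) z') ?_
    exact AInv.and (Dfn.lt dfnF_snd (dfnF_snd.comp dfnF_fst)).aInv (AInv.preimage hhi hf)

private theorem mem_iff_ab {π : GType U U} (h : NR π) {D : Set U} :
    D ∈ π.F ↔ ∃ a b : U, ∀ x, (Lo π a → a < x) → (Hi π b → x < b) → x ∈ D := by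
  constructor
  · intro hm
    obtain ⟨E, hE⟩ := h.basis' hm
    obtain ⟨a, ha⟩ : ∃ a : U, ∀ e ∈ E, Lo π e → Lo π a ∧ e ≤ a := by
      by_cases h1 : ∃ z, Lo π z
      · obtain ⟨z, hz⟩ := h1
        obtain ⟨a, -, ha, ha1⟩ := lo_bound hz E
        exact ⟨a, fun e he h2 => ⟨ha, ha1 e he h2⟩⟩
      · exact ⟨Str.pt, fun e _ h2 => absurd ⟨e, h2⟩ h1⟩
    obtain ⟨b, hb⟩ : ∃ b : U, ∀ e ∈ E, Hi π e → Hi π b ∧ b ≤ e := by
      by_cases h1 : ∃ z, Hi π z
      · obtain ⟨z, hz⟩ := h1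
        obtain ⟨b, -, hb, hb1⟩ := hi_bound hz E
        exact ⟨b, fun e he h2 => ⟨hb, hb1 e he h2⟩⟩
      · exact ⟨Str.pt, fun e _ h2 => absurd ⟨e, h2⟩ h1⟩
    refine ⟨a, b, fun x hxa hxb => hE (fun e he => ⟨fun h1 => ?_, fun h1 => ?_⟩)⟩
    · exact (ha e he h1).2.trans_lt (hxa (ha e he h1).1)
    · exact (hxb (hb e he h1).1).trans_le (hb e he h1).2
  · rintro ⟨a, b, hab⟩
    classical
    refine Filter.mem_of_superset (nb_mem π {a, b}) (fun x hx => hab x ?_ ?_)
    · exact (hx a (by simp)).1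
    · exact (hx b (by simp)).2

theorem fam_of_lo {π : Y → GType U U} (hA : Small A) (hn : ∀ v, NR (π v))
    (h : AInv A {p : U × Y | Lo (π p.2) p.1}) : Fam A π := by
  intro n D hD
  have hD' : Dfn A D := hD.mono (empty_subset _)
  have key : {w : Y × (Fin n → U) | {x | (x, w) ∈ D} ∈ (π w.1).F} =
      {w : Y × (Fin n → U) | ∃ a b : U, ∀ x, (Lo (π w.1) a → a < x) →
        ((¬ Lo (π w.1) b) → x < b) → (x, w) ∈ D} := by
    ext w
    refine (mem_iff_ab (hn w.1)).trans ?_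
    have hh : ∀ b, Hi (π w.1) b ↔ ¬ Lo (π w.1) b := fun b => (hn w.1).not_lo.symm
    simp only [hh]
    rfl
  rw [key]
  refine AInv.ex hA (P := fun (w : Y × (Fin n → U)) (a : U) => ∃ b : U, ∀ x,
    (Lo (π w.1) a → a < x) → ((¬ Lo (π w.1) b) → x < b) → (x, w) ∈ D) ?_
  refine AInv.ex hA (P := fun (p : (Y × (Fin n → U)) × U) (b : U) => ∀ x,
    (Lo (π p.1.1) p.2 → p.2 < x) → ((¬ Lo (π p.1.1) b) → x < b) → (x, p.1) ∈ D) ?_
  refine AInv.all hA (P := fun (q : ((Y × (Fin n → U)) × U) × U) (x : U) =>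
    (Lo (π q.1.1.1) q.1.2 → q.1.2 < x) → ((¬ Lo (π q.1.1.1) q.2) → x < q.2) →
      (x, q.1.1) ∈ D) ?_
  have d1 : DfnF A (fun r : (((Y × (Fin n → U)) × U) × U) × U => r.1.1.1) :=
    dfnF_fst.comp (dfnF_fst.comp dfnF_fst)
  have d1' : DfnF A (fun r : (((Y × (Fin n → U)) × U) × U) × U => r.1.1.1.1) :=
    dfnF_fst.comp d1
  have d2 : DfnF A (fun r : (((Y × (Fin n → U)) × U) × U) × U => r.1.1.2) :=
    dfnF_snd.comp (dfnF_fst.comp dfnF_fst)
  have d3 : DfnF A (fun r : (((Y × (Fin n → U)) × U) × U) × U => r.1.2) :=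
    dfnF_snd.comp dfnF_fst
  have d4 : DfnF A (fun r : (((Y × (Fin n → U)) × U) × U) × U => r.2) := dfnF_snd
  refine AInv.imp (AInv.imp ?_ (Dfn.lt d2 d4).aInv)
    (AInv.imp (AInv.imp (AInv.not ?_) (Dfn.lt d4 d3).aInv) ?_)
  · exact AInv.preimage h (d2.prodMk d1')
  · exact AInv.preimage h (d3.prodMk d1')
  · exact (hD'.preimage (d4.prodMk d1)).aInv

theorem inv_of_lo {π : GType U U} (hA : Small A) (hn : NR π)
    (h : AInv A {z : U | Lo π z}) : Inv A π := by
  intro n D hD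
  have hF : Fam A (fun _ : PUnit.{u+1} => π) :=
    fam_of_lo hA (fun _ => hn) (AInv.preimage h (f := fun p : U × PUnit.{u+1} => p.1) dfnF_fst)
  exact hF.gen (Z := Fin n → U) (hD.mono (empty_subset _)) (g := fun _ => PUnit.unit)
    (dfnF_const (by simp))

end OMB
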