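import Pool.Agent.Lib.MP_fd36ae_lc.V2

/-!
# MP_fd36ae_lc : the types `s(K)` and `i(K)`, classification, bigness
-/

open FirstOrder Set Cardinal

namespace OMB

universe u

variable {U : Type u} [Str U] {X Y Z W : Type u} [DSort U X] [DSort U Y] [DSort U Z] [DSort U W]
  {A B : Set U} [OMS U]

/-- `π = s(K)`: the type just above `K` -/
def IsS (π : GType U U) (K : Set U) : Prop := NR π ∧ ∀ z, Hi π z ↔ ∀ k ∈ K, k < z

/-- `π = i(K)`: the type just below `K` -/
def IsI (π : GType U U) (K : Set U) : Prop := NR π ∧ ∀ z, Lo π z ↔ ∀ k ∈ K, z < k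

theorem isI_dual {π : GType U U} {K : Set U} : @IsS U _ (OMS.dual U) π K ↔ IsI π K := Iff.rfl

theorem IsS.lo_iff {π : GType U U} {K : Set U} (h : IsS π K) {z : U} :
    Lo π z ↔ ∃ k ∈ K, z ≤ k := by
  rw [← h.1.not_hi, h.2 z]
  push Not
  rfl

theorem IsI.hi_iff {π : GType U U} {K : Set U} (h : IsI π K) {z : U} :
    Hi π z ↔ ∃ k ∈ K, k ≤ z := by
  rw [← h.1.not_lo, h.2 z]
  push Not
  rfl

theorem IsS.eq {π π' : GType U U} {K : Set U} (h : IsS π K) (h' : IsS π' K) : π = π' :=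
  h.1.ext h'.1 (fun _ hz => h'.lo_iff.2 (h.lo_iff.1 hz)) (fun z hz => (h'.2 z).2 ((h.2 z).1 hz))

theorem IsI.eq {π π' : GType U U} {K : Set U} (h : IsI π K) (h' : IsI π' K) : π = π' :=
  h.1.ext h'.1 (fun z hz => (h'.2 z).2 ((h.2 z).1 hz)) (fun _ hz => h'.hi_iff.2 (h.hi_iff.1 hz))

private theorem v3_between (lo hi : Finset U) (h : ∀ x ∈ lo, ∀ y ∈ hi, x < y) :
    ∃ m : U, (∀ x ∈ lo, x < m) ∧ ∀ y ∈ hi, m < y := by
  have : Nonempty U := ⟨Str.pt⟩
  exact Order.exists_between_finsets lo hi h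

theorem exists_isS {K : Set U} (_hK : Small K) : ∃ π : GType U U, IsS π K := by
  classical
  have fip : ∀ s : Finset (Set U),
      (↑s : Set (Set U)) ⊆ {D | (∃ k ∈ K, D = {x | k < x}) ∨ ∃ z, (∀ k ∈ K, k < z) ∧ D = {x | x < z}} →
      ∃ lo hi : Finset U, (∀ a ∈ lo, a ∈ K) ∧ (∀ b ∈ hi, ∀ k ∈ K, k < b) ∧
        ∀ x, (∀ a ∈ lo, a < x) → (∀ b ∈ hi, x < b) → ∀ D ∈ s, x ∈ D := by
    intro s
    induction s using Finset.induction_on with
    | empty =>
      intro _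
      exact ⟨∅, ∅, by simp, by simp, by simp⟩
    | insert D s _ ih =>
      intro hs
      obtain ⟨lo, hi, h1, h2, h3⟩ := ih (fun E hE => hs (Finset.mem_coe.2
        (Finset.mem_insert_of_mem (Finset.mem_coe.1 hE))))
      rcases hs (Finset.mem_coe.2 (Finset.mem_insert_self D s)) with ⟨k, hk, hD⟩ | ⟨z, hz, hD⟩
      · refine ⟨insert k lo, hi, ?_, h2, ?_⟩
        · intro a ha
          rcases Finset.mem_insert.1 ha with rfl | ha
          · exact hk
          · exact h1 a ha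
        · intro x hx1 hx2 E hE
          rcases Finset.mem_insert.1 hE with rfl | hE
          · rw [hD]
            exact hx1 k (Finset.mem_insert_self k lo)
          · exact h3 x (fun a ha => hx1 a (Finset.mem_insert_of_mem ha)) hx2 E hE
      · refine ⟨lo, insert z hi, h1, ?_, ?_⟩
        · intro b hb
          rcases Finset.mem_insert.1 hb with rfl | hb
          · exact hz
          · exact h2 b hb
        · intro x hx1 hx2 E hE
          rcases Finset.mem_insert.1 hE with rfl | hE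
          · rw [hD]
            exact hx2 z (Finset.mem_insert_self z hi)
          · exact h3 x hx1 (fun b hb => hx2 b (Finset.mem_insert_of_mem hb)) E hE
  obtain ⟨π, hπ⟩ := exists_gtype (U := U)
    {D : Set U | (∃ k ∈ K, D = {x | k < x}) ∨ ∃ z, (∀ k ∈ K, k < z) ∧ D = {x | x < z}} (by
      intro s hs
      obtain ⟨lo, hi, h1, h2, h3⟩ := fip s hs
      obtain ⟨m, hm1, hm2⟩ := v3_between lo hi (fun x hx y hy => h2 y hy x (h1 x hx))
      exact ⟨m, fun D hD => h3 m hm1 hm2 D (Finset.mem_coe.1 hD)⟩)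
  have hlo : ∀ k ∈ K, Lo π k := fun k hk =>
    hπ _ (Or.inl ⟨k, hk, rfl⟩) (dfn_Ioi (mem_univ k))
  have hhi : ∀ z, (∀ k ∈ K, k < z) → Hi π z := fun z hz =>
    hπ _ (Or.inr ⟨z, hz, rfl⟩) (dfn_Iio (mem_univ z))
  refine ⟨π, ?_, ?_⟩
  · intro c
    by_cases hc : ∀ k ∈ K, k < c
    · exact Filter.mem_of_superset (hhi c hc) (fun x hx => ne_of_lt hx)
    · push Not at hc
      obtain ⟨k, hk, hck⟩ := hc
      exact Filter.mem_of_superset (hlo k hk) (fun x hx => ne_of_gt (lt_of_le_of_lt hck hx))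
  · intro z
    exact ⟨fun hz k hk => lt_of_lo_hi (hlo k hk) hz, hhi z⟩

theorem exists_isI {K : Set U} (hK : Small K) : ∃ π : GType U U, IsI π K :=
  @exists_isS U _ (OMS.dual U) K hK

open Classical in
/-- the type just above `K` (junk if `K` is not small) -/
noncomputable def sT (K : Set U) : GType U U :=
  if h : ∃ π : GType U U, IsS π K then h.choose else rTy Str.pt

open Classical in
/-- the type just below `K` (junk if `K` is not small) -/
noncomputable def iT (K : Set U) : GType U U :=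
  if h : ∃ π : GType U U, IsI π K then h.choose else rTy Str.pt

theorem isS_sT {K : Set U} (hK : Small K) : IsS (sT K) K := by
  have h := exists_isS hK
  unfold sT
  rw [dif_pos h]
  exact h.choose_spec

theorem isI_iT {K : Set U} (hK : Small K) : IsI (iT K) K := by
  have h := exists_isI hK
  unfold iT
  rw [dif_pos h]
  exact h.choose_spec

/-- bigness (paper 1.3) -/
theorem IsS.big {π : GType U U} {K : Set U} (h : IsS π K) (hK : Small K) {Z : Set U}
    (hZ : Small Z) (hZ' : ∀ z ∈ Z, Hi π z) : ∃ z, Hi π z ∧ ∀ z' ∈ Z, z < z' := by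
  classical
  have hJ : #(K ⊕ Z) < Str.κ U := by
    rw [Cardinal.mk_sum, Cardinal.lift_id, Cardinal.lift_id]
    exact Cardinal.add_lt_of_lt (le_of_lt Str.aleph) hK hZ
  obtain ⟨x, hx⟩ := sat_family (U := U) (X := U) (J := K ⊕ Z) hJ
    (Sum.elim (fun k : K => {x : U | (k : U) < x}) (fun z : Z => {x : U | x < (z : U)}))
    (by
      rintro (k | z)
      · exact dfn_Ioi (mem_univ _)
      · exact dfn_Iio (mem_univ _))
    (by
      intro s
      obtain ⟨m, hm1, hm2⟩ := v3_between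
        (s.preimage Sum.inl Sum.inl_injective.injOn |>.image (fun k : K => (k : U)))
        (s.preimage Sum.inr Sum.inr_injective.injOn |>.image (fun z : Z => (z : U))) (by
          intro x hx y hy
          obtain ⟨k, _, rfl⟩ := Finset.mem_image.1 hx
          obtain ⟨z, _, rfl⟩ := Finset.mem_image.1 hy
          exact (h.2 z).1 (hZ' z z.2) k k.2)
      refine ⟨m, ?_⟩
      rintro (k | z) hj
      · exact hm1 k (Finset.mem_image.2 ⟨k, Finset.mem_preimage.2 hj, rfl⟩)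
      · exact hm2 z (Finset.mem_image.2 ⟨z, Finset.mem_preimage.2 hj, rfl⟩))
  exact ⟨x, (h.2 x).2 (fun k hk => hx (Sum.inl ⟨k, hk⟩)), fun z' hz' => hx (Sum.inr ⟨z', hz'⟩)⟩

theorem IsI.big {π : GType U U} {K : Set U} (h : IsI π K) (hK : Small K) {Z : Set U}
    (hZ : Small Z) (hZ' : ∀ z ∈ Z, Lo π z) : ∃ z, Lo π z ∧ ∀ z' ∈ Z, z' < z :=
  @IsS.big U _ (OMS.dual U) π K h hK Z hZ hZ'

/-- pigeonhole on the big side -/
theorem IsS.pigeon {π : GType U U} {K : Set U} (h : IsS π K) (hK : Small K) {J : Type u}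
    (hJ : #J < Str.κ U) {P : J → U → Prop} (hP : ∀ z, Hi π z → ∃ j, P j z) :
    ∃ j, ∀ z, Hi π z → ∃ z', z' < z ∧ Hi π z' ∧ P j z' := by
  by_contra hcon
  push Not at hcon
  choose f hf1 hf2 using hcon
  obtain ⟨z, hz1, hz2⟩ := h.big hK (small_range hJ f) (by
    rintro z ⟨j, rfl⟩
    exact hf1 j)
  obtain ⟨j, hj⟩ := hP z hz1
  exact hf2 j z (hz2 _ ⟨j, rfl⟩) hz1 hj

theorem IsI.pigeon {π : GType U U} {K : Set U} (h : IsI π K) (hK : Small K) {J : Type u}
    (hJ : #J < Str.κ U) {P : J → U → Prop} (hP : ∀ z, Lo π z → ∃ j, P j z) :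
    ∃ j, ∀ z, Lo π z → ∃ z', z < z' ∧ Lo π z' ∧ P j z' :=
  @IsS.pigeon U _ (OMS.dual U) π K h hK J hJ P hP

private theorem v3_lo_aInv {π : GType U U} (h : Inv A π) : AInv A {z : U | Lo π z} := by
  have hD : Dfn A {p : U × U | p.2 < p.1} := Dfn.lt dfnF_snd dfnF_fst
  exact h.aInv (P := fun x z => z < x) hD

private theorem v3_gap {π : GType U U} (hn : NR π) {z z' : U}
    (h1 : ∀ k, k ∈ Dcl A → Lo π k → k < z ∧ k < z') (h2 : ∀ k, k ∈ Dcl A → Hi π k → z < k ∧ z' < k) :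
    Eqv A z z' := by
  intro D hD
  obtain ⟨E, hE, hpos⟩ := endpoints hD
  apply hpos
  intro e he
  have heA : e ∈ Dcl A := hE (Finset.mem_coe.2 he)
  rcases hn.lo_or_hi e with hl | hh
  · obtain ⟨a, b⟩ := h1 e heA hl
    exact ⟨⟨fun c => absurd c (not_lt.2 a.le), fun c => absurd c (not_lt.2 b.le)⟩,
      ⟨fun _ => b, fun _ => a⟩⟩
  · obtain ⟨a, b⟩ := h2 e heA hh
    exact ⟨⟨fun _ => b, fun _ => a⟩,
      ⟨fun c => absurd c (not_lt.2 a.le), fun c => absurd c (not_lt.2 b.le)⟩⟩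

/-- classification of invariant non-realised 1-types (paper 1.2) -/
theorem classify {π : GType U U} (_hA : Small A) (h : Inv A π) (hn : NR π) :
    IsS π {x | x ∈ Dcl A ∧ Lo π x} ∨ IsI π {x | x ∈ Dcl A ∧ Hi π x} := by
  by_cases hg : ∀ z, (∀ k, k ∈ Dcl A → Lo π k → k < z) → (∀ k, k ∈ Dcl A → Hi π k → z < k) → Hi π z
  · left
    refine ⟨hn, fun z => ⟨fun hz k hk => lt_of_lo_hi hk.2 hz, fun hz => ?_⟩⟩
    by_contra hcon
    have hlo : Lo π z := hn.not_hi.1 hcon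
    exact hcon (hg z (fun k hk hk' => hz k ⟨hk, hk'⟩) (fun k _ hk' => lt_of_lo_hi hlo hk'))
  · right
    push Not at hg
    obtain ⟨z₀, hz1, hz2, hz3⟩ := hg
    have hlo0 : Lo π z₀ := hn.not_hi.1 hz3
    refine ⟨hn, fun z => ⟨fun hz k hk => lt_of_lo_hi hz hk.2, fun hz => ?_⟩⟩
    by_contra hcon
    have hhi : Hi π z := hn.not_lo.1 hcon
    have heq : Eqv A z₀ z := v3_gap hn
      (fun k hk hk' => ⟨hz1 k hk hk', lt_of_lo_hi hk' hhi⟩)
      (fun k hk hk' => ⟨hz2 k hk hk', hz k ⟨hk, hk'⟩⟩)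
    exact hcon ((v3_lo_aInv h z₀ z heq).1 hlo0)

theorem IsS.inv {π : GType U U} {K : Set U} (h : IsS π K) (hA : Small A) (hK : K ⊆ Dcl A) :
    Inv A π := by
  apply inv_of_lo hA h.1
  have e : {z : U | Lo π z} = {z : U | ∃ k : K, z ≤ (k : U)} := by
    ext z
    show Lo π z ↔ ∃ k : K, z ≤ (k : U)
    rw [h.lo_iff]
    exact ⟨fun ⟨k, hk, hz⟩ => ⟨⟨k, hk⟩, hz⟩, fun ⟨k, hz⟩ => ⟨k, k.2, hz⟩⟩
  rw [e]
  refine AInv.exI (fun k => Dfn.aInv (Dfn.of_dcl ?_))
  exact Dfn.le dfnF_id (dfnF_const (by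
    rw [co_U]
    exact singleton_subset_iff.2 (hK k.2)))

theorem IsI.inv {π : GType U U} {K : Set U} (h : IsI π K) (hA : Small A) (hK : K ⊆ Dcl A) :
    Inv A π :=
  @IsS.inv U _ A (OMS.dual U) π K h hA hK

theorem fam_sT (hA : Small A) {J : Type u} (hJ : #J < Str.κ U) {l : J → Y → U}
    (hl : ∀ j, DfnF A (l j)) : Fam A (fun v => sT (Set.range fun j => l j v)) := by
  have hS : ∀ v, IsS (sT (Set.range fun j => l j v)) (Set.range fun j => l j v) :=
    fun v => isS_sT (small_range hJ _)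
  apply fam_of_lo hA (fun v => (hS v).1)
  have e : {p : U × Y | Lo (sT (Set.range fun j => l j p.2)) p.1} =
      {p : U × Y | ∃ j, p.1 ≤ l j p.2} := by
    ext p
    show Lo (sT (Set.range fun j => l j p.2)) p.1 ↔ ∃ j, p.1 ≤ l j p.2
    rw [(hS p.2).lo_iff]
    exact ⟨fun ⟨_, ⟨j, hj⟩, hz⟩ => ⟨j, by rw [← hj] at hz; exact hz⟩,
      fun ⟨j, hj⟩ => ⟨_, ⟨j, rfl⟩, hj⟩⟩
  rw [e]
  exact AInv.exI (fun j => Dfn.aInv (Dfn.le dfnF_fst ((hl j).comp dfnF_snd)))

theorem fam_iT (hA : Small A) {J : Type u} (hJ : #J < Str.κ U) {l : J → Y → U}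
    (hl : ∀ j, DfnF A (l j)) : Fam A (fun v => iT (Set.range fun j => l j v)) := by
  have hS : ∀ v, IsI (iT (Set.range fun j => l j v)) (Set.range fun j => l j v) :=
    fun v => isI_iT (small_range hJ _)
  apply fam_of_lo hA (fun v => (hS v).1)
  have e : {p : U × Y | Lo (iT (Set.range fun j => l j p.2)) p.1} =
      {p : U × Y | ∀ j, p.1 < l j p.2} := by
    ext p
    show Lo (iT (Set.range fun j => l j p.2)) p.1 ↔ ∀ j, p.1 < l j p.2
    rw [(hS p.2).2]
    exact ⟨fun h j => h _ ⟨j, rfl⟩, fun h k ⟨j, hj⟩ => by rw [← hj]; exact h j⟩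
  rw [e]
  exact AInv.allI (fun j => Dfn.aInv (Dfn.lt dfnF_fst ((hl j).comp dfnF_snd)))

/-- trichotomy: a non-realised type which is definable on one side -/
theorem NR.not_nd {π : GType U U} (h : NR π) (hn : ¬ ND π) :
    (∃ c, IsS π {c}) ∨ (∃ c, IsI π {c}) ∨ IsS π ∅ ∨ IsI π ∅ := by
  by_cases h1 : ∃ z, Lo π z
  · by_cases h2 : ∃ z, Hi π z
    · by_cases h3 : ∀ z, Lo π z → ∃ z', z < z' ∧ Lo π z'
      · by_cases h4 : ∀ z, Hi π z → ∃ z', z' < z ∧ Hi π z'
        · exact absurd ⟨h, h1, h2, h3, h4⟩ hn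
        · push Not at h4
          obtain ⟨c, hc1, hc2⟩ := h4
          refine Or.inr (Or.inl ⟨c, h, fun z => ⟨fun hz k hk => ?_, fun hz => ?_⟩⟩)
          · rw [mem_singleton_iff.1 hk]
            exact lt_of_lo_hi hz hc1
          · exact h.not_hi.1 (hc2 z (hz c rfl))
      · push Not at h3
        obtain ⟨c, hc1, hc2⟩ := h3
        refine Or.inl ⟨c, h, fun z => ⟨fun hz k hk => ?_, fun hz => ?_⟩⟩
        · rw [mem_singleton_iff.1 hk]
          exact lt_of_lo_hi hc1 hz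
        · exact h.not_lo.1 (hc2 z (hz c rfl))
    · refine Or.inr (Or.inr (Or.inr ⟨h, fun z => ⟨fun _ k hk => absurd hk (notMem_empty k),
        fun _ => ?_⟩⟩))
      exact h.not_hi.1 (fun hz => h2 ⟨z, hz⟩)
  · refine Or.inr (Or.inr (Or.inl ⟨h, fun z => ⟨fun _ k hk => absurd hk (notMem_empty k),
      fun _ => ?_⟩⟩))
    exact h.not_lo.1 (fun hz => h1 ⟨z, hz⟩)

end OMB
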