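import Pool.Agent.Lib.MP_fd36ae_lc.V3

/-!
# MP_fd36ae_lc : constant or injective on a subinterval
-/

open FirstOrder Set Cardinal

namespace OMB

universe u

variable {U : Type u} [Str U] {X Y Z W : Type u} [DSort U X] [DSort U Y] [DSort U Z] [DSort U W]
  {A B : Set U} [OMS U]

private theorem V4_dfn_Ioo (a b : U) : Dfn (univ : Set U) {x : U | a < x ∧ x < b} :=
  Dfn.and (dfn_Ioi (mem_univ a)) (dfn_Iio (mem_univ b))

/-- van den Dries, Chapter 3, Lemma 1 -/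
theorem const_or_inj {f : U → U} (hf : DfnF (univ : Set U) f) {a b : U} (hab : a < b) :
    ∃ c d, a ≤ c ∧ c < d ∧ d ≤ b ∧ ((∀ x ∈ Ioo c d, ∀ y ∈ Ioo c d, f x = f y) ∨
      Set.InjOn f (Ioo c d)) := by
  by_cases h : ∃ y, {x | (a < x ∧ x < b) ∧ f x = y}.Infinite
  · obtain ⟨y, hy⟩ := h
    have hD : Dfn (univ : Set U) {x | (a < x ∧ x < b) ∧ f x = y} :=
      Dfn.and (V4_dfn_Ioo a b) (Dfn.eq hf (dfnF_const (subset_univ _)))
    obtain ⟨c, d, hcd, hsub⟩ := exists_Ioo_subset hD hy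
    have h1 : Ioo c d ⊆ Ioo a b := fun x hx => (hsub hx).1
    rw [Set.Ioo_subset_Ioo_iff hcd] at h1
    refine ⟨c, d, h1.1, hcd, h1.2, Or.inl ?_⟩
    intro x hx z hz
    rw [(hsub hx).2, (hsub hz).2]
  · have hfib : ∀ y, {x | (a < x ∧ x < b) ∧ f x = y}.Finite := by
      intro y
      by_contra hy
      exact h ⟨y, hy⟩
    have hG : Dfn (univ : Set U)
        {x | (a < x ∧ x < b) ∧ ∀ z, ((a < z ∧ z < b) ∧ f z = f x) → x ≤ z} := by
      refine Dfn.and (V4_dfn_Ioo a b) (Dfn.all ?_)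
      refine Dfn.imp (Dfn.and ?_ ?_) (Dfn.le dfnF_fst dfnF_snd)
      · exact Dfn.sub (P := fun x : U => a < x ∧ x < b) (f := fun p : U × U => p.2)
          (V4_dfn_Ioo a b) dfnF_snd
      · exact Dfn.eq (hf.comp dfnF_snd) (hf.comp dfnF_fst)
    have hinf : {x | (a < x ∧ x < b) ∧ ∀ z, ((a < z ∧ z < b) ∧ f z = f x) → x ≤ z}.Infinite := by
      intro hfin
      apply Set.Ioo_infinite hab
      refine (hfin.biUnion (fun x _ => hfib (f x))).subset ?_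
      intro z hz
      obtain ⟨m, hm, hmin⟩ := Set.exists_min_image _ id (hfib (f z)) ⟨z, hz, rfl⟩
      rw [Set.mem_iUnion₂]
      refine ⟨m, ⟨hm.1, ?_⟩, hz, hm.2.symm⟩
      intro w hw
      exact hmin w ⟨hw.1, hw.2.trans hm.2⟩
    obtain ⟨c, d, hcd, hsub⟩ := exists_Ioo_subset hG hinf
    have h1 : Ioo c d ⊆ Ioo a b := fun x hx => (hsub hx).1
    rw [Set.Ioo_subset_Ioo_iff hcd] at h1
    refine ⟨c, d, h1.1, hcd, h1.2, Or.inr ?_⟩
    intro x hx z hz hxz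
    exact le_antisymm ((hsub hx).2 z ⟨(hsub hz).1, hxz.symm⟩)
      ((hsub hz).2 x ⟨(hsub hx).1, hxz⟩)

end OMB
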