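import Pool.Agent.Lib.MP_fd36ae_lc.V4

/-!
# MP_fd36ae_lc : injective implies strictly monotone on a subinterval
-/

open FirstOrder Set Cardinal

namespace OMB

universe u

variable {U : Type u} [Str U] {X Y Z W : Type u} [DSort U X] [DSort U Y] [DSort U Z] [DSort U W]
  {A B : Set U} [OMS U]

/-- for `x`, on the right of `x` near `x`, `P x y` holds -/
def EvR (P : U → U → Prop) (x : U) : Prop := ∃ y, x < y ∧ ∀ z, x < z → z < y → P x z

/-- for `x`, on the left of `x` near `x`, `P x y` holds -/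
def EvL (P : U → U → Prop) (x : U) : Prop := ∃ y, y < x ∧ ∀ z, y < z → z < x → P x z

theorem dfn_evR {P : U → U → Prop} (hP : Dfn A {p : U × U | P p.1 p.2}) : Dfn A {x | EvR P x} := by
  have h3 : Dfn A {q : (U × U) × U | q.1.1 < q.2 → q.2 < q.1.2 → P q.1.1 q.2} :=
    (Dfn.lt (dfnF_fst.comp dfnF_fst) dfnF_snd).imp
      ((Dfn.lt dfnF_snd (dfnF_snd.comp dfnF_fst)).imp
        (Dfn.sub (f := fun q : (U × U) × U => (q.1.1, q.2)) hP
          ((dfnF_fst.comp dfnF_fst).prodMk dfnF_snd)))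
  exact Dfn.ex (P := fun x y => x < y ∧ ∀ z, x < z → z < y → P x z)
    ((Dfn.lt dfnF_fst dfnF_snd).and
      (Dfn.all (P := fun (p : U × U) z => p.1 < z → z < p.2 → P p.1 z) h3))

theorem dfn_evL {P : U → U → Prop} (hP : Dfn A {p : U × U | P p.1 p.2}) : Dfn A {x | EvL P x} := by
  have h3 : Dfn A {q : (U × U) × U | q.1.2 < q.2 → q.2 < q.1.1 → P q.1.1 q.2} :=
    (Dfn.lt (dfnF_snd.comp dfnF_fst) dfnF_snd).imp
      ((Dfn.lt dfnF_snd (dfnF_fst.comp dfnF_fst)).imp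
        (Dfn.sub (f := fun q : (U × U) × U => (q.1.1, q.2)) hP
          ((dfnF_fst.comp dfnF_fst).prodMk dfnF_snd)))
  exact Dfn.ex (P := fun x y => y < x ∧ ∀ z, y < z → z < x → P x z)
    ((Dfn.lt dfnF_snd dfnF_fst).and
      (Dfn.all (P := fun (p : U × U) z => p.2 < z → z < p.1 → P p.1 z) h3))

theorem v5_clearR (E : Finset U) {x y : U} (hxy : x < y) :
    ∃ y', x < y' ∧ y' ≤ y ∧ ∀ e ∈ E, e ≤ x ∨ y' ≤ e := by
  classical
  induction E using Finset.induction_on with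
  | empty => exact ⟨y, hxy, le_rfl, by simp⟩
  | insert e E _ ih =>
    obtain ⟨y', h1, h2, h3⟩ := ih
    rcases le_or_gt e x with he | he
    · refine ⟨y', h1, h2, fun e' he' => ?_⟩
      rcases Finset.mem_insert.1 he' with rfl | h
      · exact Or.inl he
      · exact h3 e' h
    · refine ⟨min y' e, lt_min h1 he, (min_le_left _ _).trans h2, fun e' he' => ?_⟩
      rcases Finset.mem_insert.1 he' with rfl | h
      · exact Or.inr (min_le_right _ _)
      · exact (h3 e' h).imp id (fun h => (min_le_left _ _).trans h)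

theorem v5_clearL (E : Finset U) {x y : U} (hxy : y < x) :
    ∃ y', y' < x ∧ y ≤ y' ∧ ∀ e ∈ E, x ≤ e ∨ e ≤ y' := by
  classical
  induction E using Finset.induction_on with
  | empty => exact ⟨y, hxy, le_rfl, by simp⟩
  | insert e E _ ih =>
    obtain ⟨y', h1, h2, h3⟩ := ih
    rcases le_or_gt x e with he | he
    · refine ⟨y', h1, h2, fun e' he' => ?_⟩
      rcases Finset.mem_insert.1 he' with rfl | h
      · exact Or.inl he
      · exact h3 e' h
    · refine ⟨max y' e, max_lt h1 he, h2.trans (le_max_left _ _), fun e' he' => ?_⟩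
      rcases Finset.mem_insert.1 he' with rfl | h
      · exact Or.inr (le_max_right _ _)
      · exact (h3 e' h).imp id (fun h => h.trans (le_max_left _ _))

theorem v5_same {E : Finset U} {x y : U} (h : ∀ e ∈ E, e ≤ x ∨ y ≤ e) {z w : U}
    (hz : x < z) (hz' : z < y) (hw : x < w) (hw' : w < y) : SamePos E z w := by
  intro e he
  rcases h e he with h | h
  · exact ⟨iff_of_false (h.trans_lt hz).not_gt (h.trans_lt hw).not_gt,
      iff_of_true (h.trans_lt hz) (h.trans_lt hw)⟩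
  · exact ⟨iff_of_true (hz'.trans_le h) (hw'.trans_le h),
      iff_of_false (hz'.trans_le h).not_gt (hw'.trans_le h).not_gt⟩

theorem v5_dfnFib {P : U → U → Prop} (hP : Dfn (univ : Set U) {p : U × U | P p.1 p.2}) (x : U) :
    Dfn (Set.univ : Set U) {y | P x y} :=
  Dfn.sub (P := fun p : U × U => P p.1 p.2) (f := fun y : U => (x, y)) hP
    ((dfnF_const (Set.subset_univ _)).prodMk dfnF_id)

theorem evR_or {P Q : U → U → Prop} (hP : Dfn (univ : Set U) {p : U × U | P p.1 p.2}) {x : U}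
    (h : EvR (fun x y => P x y ∨ Q x y) x) : EvR P x ∨ EvR Q x := by
  obtain ⟨y, hy, hh⟩ := h
  obtain ⟨E, hE⟩ := OMS.omin _ (v5_dfnFib hP x)
  obtain ⟨y', h1, h2, h3⟩ := v5_clearR E hy
  by_cases hex : ∃ z, x < z ∧ z < y' ∧ P x z
  · obtain ⟨z, hz1, hz2, hz3⟩ := hex
    exact Or.inl ⟨y', h1, fun w hw hw' => (hE z w (v5_same h3 hz1 hz2 hw hw')).1 hz3⟩
  · exact Or.inr ⟨y', h1, fun w hw hw' => (hh w hw (hw'.trans_le h2)).resolve_left
      fun hp => hex ⟨w, hw, hw', hp⟩⟩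

theorem evL_or {P Q : U → U → Prop} (hP : Dfn (univ : Set U) {p : U × U | P p.1 p.2}) {x : U}
    (h : EvL (fun x y => P x y ∨ Q x y) x) : EvL P x ∨ EvL Q x := by
  obtain ⟨y, hy, hh⟩ := h
  obtain ⟨E, hE⟩ := OMS.omin _ (v5_dfnFib hP x)
  obtain ⟨y', h1, h2, h3⟩ := v5_clearL E hy
  by_cases hex : ∃ z, y' < z ∧ z < x ∧ P x z
  · obtain ⟨z, hz1, hz2, hz3⟩ := hex
    exact Or.inl ⟨y', h1, fun w hw hw' =>
      (hE z w (v5_same (fun e he => (h3 e he).symm) hz1 hz2 hw hw')).1 hz3⟩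
  · exact Or.inr ⟨y', h1, fun w hw hw' => (hh w (h2.trans_lt hw) hw').resolve_left
      fun hp => hex ⟨w, hw, hw', hp⟩⟩

/-- if two definable sets cover an interval, one of them contains a subinterval -/
theorem subinterval_or {D E : Set U} (hD : Dfn (univ : Set U) D) {a b : U} (hab : a < b)
    (h : Ioo a b ⊆ D ∪ E) : ∃ c d, a ≤ c ∧ c < d ∧ d ≤ b ∧ (Ioo c d ⊆ D ∨ Ioo c d ⊆ E) := by
  obtain ⟨F, hF⟩ := OMS.omin _ hD
  obtain ⟨y', h1, h2, h3⟩ := v5_clearR F hab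
  refine ⟨a, y', le_rfl, h1, h2, ?_⟩
  by_cases hex : ∃ z, a < z ∧ z < y' ∧ z ∈ D
  · obtain ⟨z, hz1, hz2, hz3⟩ := hex
    exact Or.inl fun w hw => (hF z w (v5_same h3 hz1 hz2 hw.1 hw.2)).1 hz3
  · exact Or.inr fun w hw => (h ⟨hw.1, hw.2.trans_le h2⟩).resolve_left
      fun hp => hex ⟨w, hw.1, hw.2, hp⟩

theorem v5_core {R : U → U → Prop} (htr : ∀ x y z, R x y → R y z → R x z)
    (hRd : Dfn (Set.univ : Set U) {p : U × U | R p.1 p.2})
    {f : U → U} (hf : DfnF (Set.univ : Set U) f) {a b : U}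
    (hR : ∀ x ∈ Ioo a b, EvR (fun x y => R (f x) (f y)) x)
    (hL : ∀ x ∈ Ioo a b, EvL (fun x y => R (f y) (f x)) x) :
    ∀ x ∈ Ioo a b, ∀ y ∈ Ioo a b, x < y → R (f x) (f y) := by
  intro x hx y hy hxy
  by_contra hn
  have hS : Dfn (Set.univ : Set U) {y | x < y ∧ y < b ∧ ¬ R (f x) (f y)} := by
    refine (Dfn.lt (dfnF_const (Set.subset_univ _)) dfnF_id).and
      ((Dfn.lt dfnF_id (dfnF_const (Set.subset_univ _))).and (Dfn.not ?_))
    exact Dfn.sub (P := fun p : U × U => R p.1 p.2) (f := fun y : U => (f x, f y)) hRd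
      ((dfnF_const (Set.subset_univ _)).prodMk hf)
  obtain ⟨s, hs⟩ := exists_isGLB hS ⟨y, hxy, hy.2, hn⟩ ⟨x, fun t ht => ht.1.le⟩
  obtain ⟨y1, hy1, h1⟩ := hR x hx
  have hxs : x < s := by
    refine hy1.trans_le (hs.2 fun t ht => ?_)
    by_contra hlt
    exact ht.2.2 (h1 t ht.1 (not_le.1 hlt))
  have hsb : s < b := (hs.1 ⟨hxy, hy.2, hn⟩).trans_lt hy.2
  have hsm : s ∈ Ioo a b := ⟨hx.1.trans hxs, hsb⟩
  have hbelow : ∀ z, x < z → z < s → R (f x) (f z) := by
    intro z hz hz'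
    by_contra hcon
    exact absurd (hs.1 ⟨hz, hz'.trans hsb, hcon⟩) (not_le.2 hz')
  obtain ⟨y2, hy2, h2⟩ := hL s hsm
  obtain ⟨w, hw1, hw2⟩ := OMS.dense (max x y2) s (max_lt hxs hy2)
  have hxw : x < w := (le_max_left _ _).trans_lt hw1
  have hRs : R (f x) (f s) := htr _ _ _ (hbelow w hxw hw2)
    (h2 w ((le_max_right _ _).trans_lt hw1) hw2)
  obtain ⟨y3, hy3, h3⟩ := hR s hsm
  have : y3 ≤ s := by
    refine hs.2 fun t ht => ?_
    by_contra hlt
    rcases (hs.1 ht).eq_or_lt with he | hst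
    · exact ht.2.2 (he ▸ hRs)
    · exact ht.2.2 (htr _ _ _ hRs (h3 t hst (not_le.1 hlt)))
  exact absurd this (not_le.2 hy3)

/-- if `f` is smaller on the left and larger on the right of every point, `f` is increasing -/
theorem strictMono_of_local {f : U → U} (hf : DfnF (univ : Set U) f) {a b : U}
    (hinj : Set.InjOn f (Ioo a b))
    (hR : ∀ x ∈ Ioo a b, EvR (fun x y => f x < f y) x)
    (hL : ∀ x ∈ Ioo a b, EvL (fun x y => f y < f x) x) : StrictMonoOn f (Ioo a b) := by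
  intro x hx y hy hxy
  exact v5_core (R := fun x y => x < y) (fun _ _ _ h h' => lt_trans h h')
    (Dfn.lt dfnF_fst dfnF_snd) hf hR hL x hx y hy hxy

theorem strictAnti_of_local {f : U → U} (hf : DfnF (univ : Set U) f) {a b : U}
    (hinj : Set.InjOn f (Ioo a b))
    (hR : ∀ x ∈ Ioo a b, EvR (fun x y => f y < f x) x)
    (hL : ∀ x ∈ Ioo a b, EvL (fun x y => f x < f y) x) : StrictAntiOn f (Ioo a b) := by
  intro x hx y hy hxy
  exact v5_core (R := fun x y => y < x) (fun _ _ _ h h' => lt_trans h' h)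
    (Dfn.lt dfnF_snd dfnF_fst) hf hR hL x hx y hy hxy

end OMB
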