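import Pool.Agent.Lib.MP_fd36ae_lc.V5

/-!
# MP_fd36ae_lc : no interval of strict local minima; injective implies strictly monotone on a subinterval
-/

open FirstOrder Set Cardinal

namespace OMB

universe u

variable {U : Type u} [Str U] {X Y Z W : Type u} [DSort U X] [DSort U Y] [DSort U Z] [DSort U W]
  {A B : Set U} [OMS U]

private theorem V5b_germ {D : Set U} (hD : Dfn (univ : Set U) D) {a b : U} (hab : a < b) :
    ∃ c, a ≤ c ∧ c < b ∧ ((∀ x, c < x → x < b → x ∈ D) ∨ (∀ x, c < x → x < b → x ∉ D)) := by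
  have h : EvL (fun (_ y : U) => y ∈ D ∨ y ∉ D) b := ⟨a, hab, fun z _ _ => em _⟩
  rcases evL_or (P := fun (_ y : U) => y ∈ D) (Q := fun (_ y : U) => y ∉ D)
    (hD.preimage dfnF_snd) h with ⟨y, hy, hz⟩ | ⟨y, hy, hz⟩
  · exact ⟨max a y, le_max_left _ _, max_lt hab hy, Or.inl (fun x hx hxb =>
      hz x (lt_of_le_of_lt (le_max_right _ _) hx) hxb)⟩
  · exact ⟨max a y, le_max_left _ _, max_lt hab hy, Or.inr (fun x hx hxb =>
      hz x (lt_of_le_of_lt (le_max_right _ _) hx) hxb)⟩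

/-- the infimum of an up-closed-to-`b` condition satisfies the condition -/
private theorem V5b_inf {P : U → Prop} (hP : Dfn (univ : Set U) {y | P y}) {c b d : U}
    (hcd : c ≤ d) (hdb : d < b) (hd : ∀ y, d < y → y < b → P y) :
    ∃ z, c ≤ z ∧ z ≤ d ∧ (∀ y, z < y → y < b → P y) ∧
      ∀ z', c ≤ z' → z' < b → (∀ y, z' < y → y < b → P y) → z ≤ z' := by
  have hS : Dfn (univ : Set U) {z : U | c ≤ z ∧ z < b ∧ ∀ y, z < y → y < b → P y} := by
    refine Dfn.and (Dfn.le (dfnF_const (subset_univ _)) dfnF_id) (Dfn.and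
      (Dfn.lt dfnF_id (dfnF_const (subset_univ _))) ?_)
    refine Dfn.all (P := fun (z y : U) => z < y → y < b → P y) ?_
    exact Dfn.imp (Dfn.lt dfnF_fst dfnF_snd) (Dfn.imp
      (Dfn.lt dfnF_snd (dfnF_const (subset_univ _))) (hP.sub dfnF_snd))
  obtain ⟨z, hz⟩ := exists_isGLB hS ⟨d, hcd, hdb, hd⟩ ⟨c, fun x hx => hx.1⟩
  refine ⟨z, hz.2 (fun x hx => hx.1), hz.1 ⟨hcd, hdb, hd⟩, ?_, ?_⟩
  · intro y hzy hyb
    by_contra hPy
    have hlb : y ∈ lowerBounds {z : U | c ≤ z ∧ z < b ∧ ∀ y, z < y → y < b → P y} := by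
      intro x hx
      by_contra hxy
      push Not at hxy
      exact hPy (hx.2.2 y hxy hyb)
    exact absurd (hz.2 hlb) (not_le.mpr hzy)
  · intro z' h1 h2 h3
    exact hz.1 ⟨h1, h2, h3⟩

/-- van den Dries, Chapter 3, Lemma 2, Claim: an injective function does not have only strict local
minima on an interval. Step 1 (from the right end), for an arbitrary definable strict total order
`R` on the target (to be used for `<` on the target and both orders on the source): near the right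
end every point `x` has `R (f w) (f v)` for `v < x < w` near `x`. -/
theorem drop_of_locmin {R : U → U → Prop} [IsStrictTotalOrder U R]
    (hRd : Dfn (univ : Set U) {p : U × U | R p.1 p.2})
    {f : U → U} (hf : DfnF (univ : Set U) f) {a b : U} (hab : a < b)
    (hinj : Set.InjOn f (Ioo a b))
    (hR : ∀ x ∈ Ioo a b, EvR (fun x y => R (f x) (f y)) x)
    (hL : ∀ x ∈ Ioo a b, EvL (fun x y => R (f x) (f y)) x) :
    ∃ c, a < c ∧ c < b ∧ ∀ x ∈ Ioo c b, ∃ y z, y < x ∧ x < z ∧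
      ∀ v w, y < v → v < x → x < w → w < z → R (f w) (f v) := by
  have tri : ∀ x y, x ∈ Ioo a b → y ∈ Ioo a b → x ≠ y → ¬ R (f x) (f y) → R (f y) (f x) := by
    intro x y hx hy hne hR'
    rcases trichotomous_of R (f x) (f y) with h | h | h
    · exact absurd h hR'
    · exact absurd (hinj hx hy h) hne
    · exact h
  -- step 1
  obtain ⟨c0, hac0, hc0b, h1⟩ : ∃ c0, a ≤ c0 ∧ c0 < b ∧
      ∀ x, c0 < x → x < b → ∃ y, x < y ∧ y < b ∧ R (f y) (f x) := by
    have hB : Dfn (univ : Set U) {x : U | ∀ y, x < y → y < b → R (f x) (f y)} := by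
      refine Dfn.all (P := fun (x y : U) => x < y → y < b → R (f x) (f y)) ?_
      exact Dfn.imp (Dfn.lt dfnF_fst dfnF_snd) (Dfn.imp
        (Dfn.lt dfnF_snd (dfnF_const (subset_univ _)))
        (hRd.sub ((hf.comp dfnF_fst).prodMk (hf.comp dfnF_snd))))
    obtain ⟨c, hac, hcb, h | h⟩ := V5b_germ hB hab
    · exfalso
      obtain ⟨x, hcx, hxb⟩ := exists_between hcb
      obtain ⟨y, hyx, hy⟩ := hL x ⟨lt_of_le_of_lt hac hcx, hxb⟩
      obtain ⟨z, hz1, hz2⟩ := exists_between (max_lt hcx hyx)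
      have h2 := hy z (lt_of_le_of_lt (le_max_right _ _) hz1) hz2
      have h3 := h z (lt_of_le_of_lt (le_max_left _ _) hz1) (hz2.trans hxb) x hz2 hxb
      exact asymm_of R h2 h3
    · refine ⟨c, hac, hcb, fun x hcx hxb => ?_⟩
      have h2 := h x hcx hxb
      simp only [mem_ofPred_eq] at h2
      push Not at h2
      obtain ⟨y, hxy, hyb, hn⟩ := h2
      refine ⟨y, hxy, hyb, tri x y ⟨lt_of_le_of_lt hac hcx, hxb⟩
        ⟨(lt_of_le_of_lt hac hcx).trans hxy, hyb⟩ hxy.ne hn⟩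
  -- step 2
  have h2 : ∀ c, c0 < c → c < b → ∃ d, c ≤ d ∧ d < b ∧ ∀ y, d < y → y < b → R (f y) (f c) := by
    intro c hc hcb
    have hcI : c ∈ Ioo a b := ⟨lt_of_le_of_lt hac0 hc, hcb⟩
    have hD : Dfn (univ : Set U) {y : U | R (f y) (f c)} :=
      hRd.sub (hf.prodMk (dfnF_const (subset_univ _)))
    have hD' : Dfn (univ : Set U) {y : U | R (f c) (f y)} :=
      hRd.sub ((dfnF_const (subset_univ _)).prodMk hf)
    obtain ⟨d, hcd, hdb, h | h⟩ := V5b_germ hD hcb
    · exact ⟨d, hcd, hdb, h⟩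
    · exfalso
      have h3 : ∀ y, d < y → y < b → R (f c) (f y) := by
        intro y hdy hyb
        have hcy : c < y := lt_of_le_of_lt hcd hdy
        exact tri y c ⟨hcI.1.trans hcy, hyb⟩ hcI hcy.ne' (h y hdy hyb)
      obtain ⟨z, hcz, hzd, hzP, hzmin⟩ := V5b_inf hD' hcd hdb h3
      have hzb : z < b := lt_of_le_of_lt hzd hdb
      obtain ⟨y1, hcy1, hy1b, hy1⟩ := h1 c hc hcb
      have hy1z : y1 ≤ z := by
        by_contra hcon
        push Not at hcon
        exact asymm_of R hy1 (hzP y1 hcon hy1b)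
      have hcz' : c < z := lt_of_lt_of_le hcy1 hy1z
      have hzI : z ∈ Ioo a b := ⟨hcI.1.trans hcz', hzb⟩
      by_cases hRz : R (f c) (f z)
      · obtain ⟨y2, hy2z, hy2⟩ := hL z hzI
        obtain ⟨z', hz1, hz2⟩ := exists_between (max_lt hcz' hy2z)
        have h4 : z ≤ z' := by
          apply hzmin z' (le_of_lt (lt_of_le_of_lt (le_max_left _ _) hz1)) (hz2.trans hzb)
          intro y hy hyb
          rcases lt_trichotomy y z with h5 | h5 | h5
          · exact trans_of R hRz (hy2 y ((lt_of_le_of_lt (le_max_right _ _) hz1).trans hy) h5)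
          · rw [h5]; exact hRz
          · exact hzP y h5 hyb
        exact absurd hz2 (not_lt.mpr h4)
      · have hRz' := tri c z hcI hzI hcz'.ne hRz
        obtain ⟨y3, hzy3, hy3b, hy3⟩ := h1 z (hc.trans hcz') hzb
        exact asymm_of R (trans_of R hy3 hRz') (hzP y3 hzy3 hy3b)
  -- step 3
  have h3 : ∀ c, c0 < c → c < b → ∃ β, c < β ∧ β < b ∧ ∃ y z, y < β ∧ β < z ∧
      ∀ v w, y < v → v < β → β < w → w < z → R (f w) (f v) := by
    intro c hc hcb
    have hcI : c ∈ Ioo a b := ⟨lt_of_le_of_lt hac0 hc, hcb⟩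
    have hD : Dfn (univ : Set U) {y : U | R (f y) (f c)} :=
      hRd.sub (hf.prodMk (dfnF_const (subset_univ _)))
    have hD' : Dfn (univ : Set U) {y : U | R (f c) (f y)} :=
      hRd.sub ((dfnF_const (subset_univ _)).prodMk hf)
    obtain ⟨d, hcd, hdb, hd⟩ := h2 c hc hcb
    obtain ⟨β, hcβ, hβd, hβP, hβmin⟩ := V5b_inf hD hcd hdb hd
    have hβb : β < b := lt_of_le_of_lt hβd hdb
    have hcβ' : c < β := by
      rcases hcβ.lt_or_eq with h | h
      · exact h
      · exfalso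
        subst h
        obtain ⟨y, hy, hy'⟩ := hR c hcI
        obtain ⟨z, hz1, hz2⟩ := exists_between (lt_min hy hcb)
        exact asymm_of R (hy' z hz1 (lt_of_lt_of_le hz2 (min_le_left _ _)))
          (hβP z hz1 (lt_of_lt_of_le hz2 (min_le_right _ _)))
    have hβI : β ∈ Ioo a b := ⟨hcI.1.trans hcβ', hβb⟩
    refine ⟨β, hcβ', hβb, ?_⟩
    obtain ⟨y0, hcy0, hy0β, h | h⟩ := V5b_germ hD' hcβ'
    · refine ⟨y0, b, hy0β, hβb, fun v w hv1 hv2 hw1 hw2 => ?_⟩
      exact trans_of R (hβP w hw1 hw2) (h v hv1 hv2)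
    · exfalso
      have h4 : ∀ y, y0 < y → y < β → R (f y) (f c) := by
        intro y hy hyβ
        have hcy : c < y := lt_of_le_of_lt hcy0 hy
        exact tri c y hcI ⟨hcI.1.trans hcy, hyβ.trans hβb⟩ hcy.ne (h y hy hyβ)
      obtain ⟨y2, hy2β, hy2⟩ := hL β hβI
      obtain ⟨z', hz1, hz2⟩ := exists_between (max_lt hy0β hy2β)
      have hy0z' : y0 < z' := lt_of_le_of_lt (le_max_left _ _) hz1
      have hβc : R (f β) (f c) :=
        trans_of R (hy2 z' (lt_of_le_of_lt (le_max_right _ _) hz1) hz2) (h4 z' hy0z' hz2)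
      have h5 : β ≤ z' := by
        apply hβmin z' (hcy0.trans hy0z'.le) (hz2.trans hβb)
        intro y hy hyb
        rcases lt_trichotomy y β with h6 | h6 | h6
        · exact h4 y (hy0z'.trans hy) h6
        · rw [h6]; exact hβc
        · exact hβP y h6 hyb
      exact absurd hz2 (not_lt.mpr h5)
  -- step 4
  have hJ : Dfn (univ : Set U) {x : U | ∃ y z, y < x ∧ x < z ∧
      ∀ v w, y < v → v < x → x < w → w < z → R (f w) (f v)} := by
    refine Dfn.ex (P := fun (x y : U) => ∃ z, y < x ∧ x < z ∧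
      ∀ v w, y < v → v < x → x < w → w < z → R (f w) (f v)) ?_
    refine Dfn.ex (P := fun (p : U × U) (z : U) => p.2 < p.1 ∧ p.1 < z ∧
      ∀ v w, p.2 < v → v < p.1 → p.1 < w → w < z → R (f w) (f v)) ?_
    refine Dfn.and (Dfn.lt (dfnF_snd.comp dfnF_fst) (dfnF_fst.comp dfnF_fst)) (Dfn.and
      (Dfn.lt (dfnF_fst.comp dfnF_fst) dfnF_snd) ?_)
    refine Dfn.all (P := fun (q : (U × U) × U) (v : U) =>
      ∀ w, q.1.2 < v → v < q.1.1 → q.1.1 < w → w < q.2 → R (f w) (f v)) ?_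
    refine Dfn.all (P := fun (q : ((U × U) × U) × U) (w : U) =>
      q.1.1.2 < q.2 → q.2 < q.1.1.1 → q.1.1.1 < w → w < q.1.2 → R (f w) (f q.2)) ?_
    have e1 : DfnF (univ : Set U) (fun q : (((U × U) × U) × U) × U => q.1.1.1.2) :=
      dfnF_snd.comp (dfnF_fst.comp (dfnF_fst.comp dfnF_fst))
    have e2 : DfnF (univ : Set U) (fun q : (((U × U) × U) × U) × U => q.1.1.1.1) :=
      dfnF_fst.comp (dfnF_fst.comp (dfnF_fst.comp dfnF_fst))
    have e3 : DfnF (univ : Set U) (fun q : (((U × U) × U) × U) × U => q.1.2) :=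
      dfnF_snd.comp dfnF_fst
    have e4 : DfnF (univ : Set U) (fun q : (((U × U) × U) × U) × U => q.2) := dfnF_snd
    have e5 : DfnF (univ : Set U) (fun q : (((U × U) × U) × U) × U => q.1.1.2) :=
      dfnF_snd.comp (dfnF_fst.comp dfnF_fst)
    exact Dfn.imp (Dfn.lt e1 e3) (Dfn.imp (Dfn.lt e3 e2) (Dfn.imp (Dfn.lt e2 e4) (Dfn.imp
      (Dfn.lt e4 e5) (hRd.sub ((hf.comp e4).prodMk (hf.comp e3))))))
  obtain ⟨c1, hac1, hc1b, h | h⟩ := V5b_germ hJ hab
  · obtain ⟨c, hc1, hc2⟩ := exists_between hc1b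
    exact ⟨c, lt_of_le_of_lt hac1 hc1, hc2, fun x hx => h x (hc1.trans hx.1) hx.2⟩
  · exfalso
    obtain ⟨c, hc1, hc2⟩ := exists_between (max_lt hc0b hc1b)
    obtain ⟨β, hcβ, hβb, hβ⟩ := h3 c (lt_of_le_of_lt (le_max_left _ _) hc1) hc2
    exact h β ((lt_of_le_of_lt (le_max_right _ _) hc1).trans hcβ) hβb hβ

/-- no interval consists of strict local minima (apply `drop_of_locmin` at the right end, then
with the dual order on the source and the same `R` at the left end) -/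
theorem no_locmin {R : U → U → Prop} [IsStrictTotalOrder U R]
    (hRd : Dfn (univ : Set U) {p : U × U | R p.1 p.2})
    {f : U → U} (hf : DfnF (univ : Set U) f) {a b : U} (hab : a < b)
    (hinj : Set.InjOn f (Ioo a b))
    (hR : ∀ x ∈ Ioo a b, EvR (fun x y => R (f x) (f y)) x)
    (hL : ∀ x ∈ Ioo a b, EvL (fun x y => R (f x) (f y)) x) : False := by
  obtain ⟨c, hac, hcb, hc⟩ := drop_of_locmin hRd hf hab hinj hR hL
  obtain ⟨c', hbc', hc'c, hc'⟩ := @drop_of_locmin U _ (OMS.dual U) R _ hRd f hf b c hcb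
    (fun x hx y hy h => hinj ⟨hac.trans hx.2, hx.1⟩ ⟨hac.trans hy.2, hy.1⟩ h)
    (fun x hx => by
      obtain ⟨y, hy, hz⟩ := hL x ⟨hac.trans hx.2, hx.1⟩
      exact ⟨y, hy, fun z h1 h2 => hz z h2 h1⟩)
    (fun x hx => by
      obtain ⟨y, hy, hz⟩ := hR x ⟨hac.trans hx.2, hx.1⟩
      exact ⟨y, hy, fun z h1 h2 => hz z h2 h1⟩)
  have hcc' : c < c' := hc'c
  have hc'b : c' < b := hbc'
  obtain ⟨x, hcx, hxc'⟩ := exists_between hcc'
  obtain ⟨y, z, hyx, hxz, h1⟩ := hc x ⟨hcx, hxc'.trans hc'b⟩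
  obtain ⟨y', z', hyx', hxz', h2⟩ := hc' x ⟨hxc', hcx⟩
  have hyx'' : x < y' := hyx'
  have hxz'' : z' < x := hxz'
  obtain ⟨v, hv1, hv2⟩ := exists_between (max_lt hyx hxz'')
  obtain ⟨w, hw1, hw2⟩ := exists_between (lt_min hxz hyx'')
  have h3 := h1 v w (lt_of_le_of_lt (le_max_left _ _) hv1) hv2 hw1
    (lt_of_lt_of_le hw2 (min_le_left _ _))
  have h4 := h2 w v (lt_of_lt_of_le hw2 (min_le_right _ _)) hw1 hv2
    (lt_of_le_of_lt (le_max_right _ _) hv1)
  exact asymm_of R h3 h4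

/-- van den Dries, Chapter 3, Lemma 2 -/
theorem mono_of_inj {f : U → U} (hf : DfnF (univ : Set U) f) {a b : U} (hab : a < b)
    (hinj : Set.InjOn f (Ioo a b)) :
    ∃ c d, a ≤ c ∧ c < d ∧ d ≤ b ∧ (StrictMonoOn f (Ioo c d) ∨ StrictAntiOn f (Ioo c d)) := by
  have hP : Dfn (univ : Set U) {p : U × U | f p.1 < f p.2} :=
    Dfn.lt (hf.comp dfnF_fst) (hf.comp dfnF_snd)
  have hQ : Dfn (univ : Set U) {p : U × U | f p.2 < f p.1} :=
    Dfn.lt (hf.comp dfnF_snd) (hf.comp dfnF_fst)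
  obtain ⟨c, d, hac, hcd, hdb, h1⟩ := subinterval_or (dfn_evR (P := fun x y => f x < f y) hP)
    (E := {x | EvR (fun x y => f y < f x) x}) hab (by
      intro x hx
      refine evR_or (P := fun x y => f x < f y) (Q := fun x y => f y < f x) hP
        ⟨b, hx.2, fun z hz hzb => ?_⟩
      exact lt_or_gt_of_ne (fun h => hz.ne (hinj hx ⟨hx.1.trans hz, hzb⟩ h)))
  have hsub : Ioo c d ⊆ Ioo a b := Ioo_subset_Ioo hac hdb
  obtain ⟨c', d', hcc', hcd', hdd', h2⟩ := subinterval_or (dfn_evL (P := fun x y => f x < f y) hP)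
    (E := {x | EvL (fun x y => f y < f x) x}) hcd (by
      intro x hx
      refine evL_or (P := fun x y => f x < f y) (Q := fun x y => f y < f x) hP
        ⟨c, hx.1, fun z hz hzx => ?_⟩
      exact lt_or_gt_of_ne (fun h => hzx.ne' (hinj (hsub hx) (hsub ⟨hz, hzx.trans hx.2⟩) h)))
  have hsub' : Ioo c' d' ⊆ Ioo c d := Ioo_subset_Ioo hcc' hdd'
  have hinj' : Set.InjOn f (Ioo c' d') := hinj.mono (hsub'.trans hsub)
  refine ⟨c', d', hac.trans hcc', hcd', hdd'.trans hdb, ?_⟩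
  have hlt : Dfn (univ : Set U) {p : U × U | p.1 < p.2} := Dfn.lt dfnF_fst dfnF_snd
  have hgt : Dfn (univ : Set U) {p : U × U | p.1 > p.2} := Dfn.lt dfnF_snd dfnF_fst
  rcases h1 with h1 | h1 <;> rcases h2 with h2 | h2
  · exact (no_locmin (R := fun x y : U => x < y) hlt hf hcd' hinj'
      (fun x hx => h1 (hsub' hx)) (fun x hx => h2 hx)).elim
  · exact Or.inl (strictMono_of_local hf hinj' (fun x hx => h1 (hsub' hx)) (fun x hx => h2 hx))
  · exact Or.inr (strictAnti_of_local hf hinj' (fun x hx => h1 (hsub' hx)) (fun x hx => h2 hx))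
  · exact (no_locmin (R := fun x y : U => x > y) hgt hf hcd' hinj'
      (fun x hx => h1 (hsub' hx)) (fun x hx => h2 hx)).elim

end OMB
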