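import Pool.Agent.Lib.MP_fd36ae_lc.V5b

/-!
# MP_fd36ae_lc : local monotonicity near a non-realised type (paper 1.4)
-/

open FirstOrder Set Cardinal

namespace OMB

universe u

variable {U : Type u} [Str U] {X Y Z W : Type u} [DSort U X] [DSort U Y] [DSort U Z] [DSort U W]
  {A B : Set U} [OMS U]

private theorem conn {R : U → U → Prop} (htr : ∀ a b c, R a b → R b c → R a c)
    (hR : Dfn (univ : Set U) {p : U × U | R p.1 p.2})
    {f : U → U} (hf : DfnF (univ : Set U) f) {I : Set U} (hI : I.OrdConnected)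
    (h : ∀ x ∈ I, ∃ y z, y < x ∧ x < z ∧ ∀ s ∈ Ioo y z, ∀ t ∈ Ioo y z, s < t → R (f s) (f t)) :
    ∀ u ∈ I, ∀ v ∈ I, u < v → R (f u) (f v) := by
  intro u hu v hv huv
  let S : Set U := {x | u ≤ x ∧ x ≤ v ∧ ∀ s, ∀ t, u ≤ s → s < t → t ≤ x → R (f s) (f t)}
  have h11 : DfnF (univ : Set U) (fun q : (U × U) × U => q.1.1) := dfnF_fst.comp dfnF_fst
  have h12 : DfnF (univ : Set U) (fun q : (U × U) × U => q.1.2) := dfnF_snd.comp dfnF_fst
  have h2 : DfnF (univ : Set U) (fun q : (U × U) × U => q.2) := dfnF_snd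
  have hcu : DfnF (univ : Set U) (fun _ : (U × U) × U => u) := dfnF_const (subset_univ _)
  have hS : Dfn (univ : Set U) S := by
    refine Dfn.and (Dfn.le (dfnF_const (subset_univ _)) dfnF_id)
      (Dfn.and (Dfn.le dfnF_id (dfnF_const (subset_univ _))) ?_)
    refine Dfn.all (P := fun (x s : U) => ∀ t, u ≤ s → s < t → t ≤ x → R (f s) (f t)) ?_
    refine Dfn.all (P := fun (p : U × U) (t : U) => u ≤ p.2 → p.2 < t → t ≤ p.1 →
      R (f p.2) (f t)) ?_
    refine Dfn.imp (Dfn.le hcu h12) (Dfn.imp (Dfn.lt h12 h2) (Dfn.imp (Dfn.le h2 h11) ?_))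
    exact Dfn.sub (P := fun p : U × U => R p.1 p.2) hR (DfnF.prodMk (hf.comp h12) (hf.comp h2))
  have huS : u ∈ S := ⟨le_refl u, huv.le, fun s t hs hst ht =>
    absurd (lt_of_le_of_lt hs hst) (not_lt.2 ht)⟩
  obtain ⟨m, hm⟩ := exists_isLUB hS ⟨u, huS⟩ ⟨v, fun x hx => hx.2.1⟩
  have hum : u ≤ m := hm.1 huS
  have hmv : m ≤ v := hm.2 fun x hx => hx.2.1
  obtain ⟨y, z, hy, hz, hloc⟩ := h m (hI.out hu hv ⟨hum, hmv⟩)
  obtain ⟨x0, hx0, hyx0⟩ : ∃ x0 ∈ S, y < x0 := by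
    by_contra hcon
    push Not at hcon
    exact absurd (hm.2 (fun x hx => hcon x hx)) (not_le.2 hy)
  have hx0m : x0 ≤ m := hm.1 hx0
  have hx0z : x0 < z := lt_of_le_of_lt hx0m hz
  have key : ∀ t, u ≤ t → t ≤ v → t < z → t ∈ S := by
    intro t hut htv htz
    refine ⟨hut, htv, fun s t' hs hst ht' => ?_⟩
    rcases le_or_gt t' x0 with h1 | h1
    · exact hx0.2.2 s t' hs hst h1
    · have hR2 : R (f x0) (f t') := hloc x0 ⟨hyx0, hx0z⟩ t' ⟨hyx0.trans h1,
        lt_of_le_of_lt ht' htz⟩ h1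
      rcases lt_trichotomy s x0 with h2 | h2 | h2
      · exact htr _ _ _ (hx0.2.2 s x0 hs h2 (le_refl _)) hR2
      · rw [h2]; exact hR2
      · exact hloc s ⟨hyx0.trans h2, hst.trans (lt_of_le_of_lt ht' htz)⟩ t'
          ⟨hyx0.trans h1, lt_of_le_of_lt ht' htz⟩ hst
  have hmv' : m = v := by
    by_contra hne
    have hlt : m < v := lt_of_le_of_ne hmv hne
    obtain ⟨t, ht1, ht2⟩ := exists_between (lt_min hz hlt)
    have := hm.1 (key t (hum.trans ht1.le) (ht2.le.trans (min_le_right _ _))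
      (lt_of_lt_of_le ht2 (min_le_left _ _)))
    exact absurd this (not_le.2 ht1)
  exact (key v huv.le (le_refl v) (hmv' ▸ hz)).2.2 u v (le_refl u) huv (le_refl v)

/-- connectedness: a function which is increasing near every point of an order-convex set is
increasing on it -/
theorem strictMonoOn_of_locally {f : U → U} (hf : DfnF (univ : Set U) f) {I : Set U}
    (hI : I.OrdConnected)
    (h : ∀ x ∈ I, ∃ y z, y < x ∧ x < z ∧ StrictMonoOn f (Ioo y z)) : StrictMonoOn f I := by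
  intro u hu v hv huv
  refine conn (R := fun a b => a < b) (fun a b c => lt_trans) (Dfn.lt dfnF_fst dfnF_snd) hf hI
    (fun x hx => ?_) u hu v hv huv
  obtain ⟨y, z, hy, hz, hm⟩ := h x hx
  exact ⟨y, z, hy, hz, fun s hs t ht hst => hm hs ht hst⟩

theorem strictAntiOn_of_locally {f : U → U} (hf : DfnF (univ : Set U) f) {I : Set U}
    (hI : I.OrdConnected)
    (h : ∀ x ∈ I, ∃ y z, y < x ∧ x < z ∧ StrictAntiOn f (Ioo y z)) : StrictAntiOn f I := by
  intro u hu v hv huv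
  refine conn (R := fun a b => b < a) (fun a b c h1 h2 => lt_trans h2 h1)
    (Dfn.lt dfnF_snd dfnF_fst) hf hI (fun x hx => ?_) u hu v hv huv
  obtain ⟨y, z, hy, hz, hm⟩ := h x hx
  exact ⟨y, z, hy, hz, fun s hs t ht hst => hm hs ht hst⟩

theorem constOn_of_locally {f : U → U} (hf : DfnF (univ : Set U) f) {I : Set U}
    (hI : I.OrdConnected)
    (h : ∀ x ∈ I, ∃ y z, y < x ∧ x < z ∧ ∀ u ∈ Ioo y z, ∀ v ∈ Ioo y z, f u = f v) :
    ∀ u ∈ I, ∀ v ∈ I, f u = f v := by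
  have key : ∀ u ∈ I, ∀ v ∈ I, u < v → f u = f v := by
    refine conn (R := fun a b => a = b) (fun a b c h1 h2 => h1.trans h2)
      (Dfn.eq dfnF_fst dfnF_snd) hf hI (fun x hx => ?_)
    obtain ⟨y, z, hy, hz, hm⟩ := h x hx
    exact ⟨y, z, hy, hz, fun s hs t ht _ => hm s hs t ht⟩
  intro u hu v hv
  rcases lt_trichotomy u v with h1 | h1 | h1
  · exact key u hu v hv h1
  · rw [h1]
  · exact (key v hv u hu h1).symm

/-- the points near which `f` satisfies `R` -/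
private def Loc (R : U → U → Prop) (f : U → U) : Set U :=
  {x | ∃ y, ∃ z, (y < x ∧ x < z) ∧ ∀ s, ∀ t, y < s → s < t → t < z → R (f s) (f t)}

private theorem loc_dfn {R : U → U → Prop} (hR : Dfn A {p : U × U | R p.1 p.2})
    {f : U → U} (hf : DfnF A f) : Dfn A (Loc R f) := by
  refine Dfn.ex (P := fun (x y : U) => ∃ z, (y < x ∧ x < z) ∧ ∀ s, ∀ t, y < s → s < t → t < z →
    R (f s) (f t)) ?_
  refine Dfn.ex (P := fun (p : U × U) (z : U) => (p.2 < p.1 ∧ p.1 < z) ∧ ∀ s, ∀ t, p.2 < s →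
    s < t → t < z → R (f s) (f t)) ?_
  have h11 : DfnF A (fun q : (U × U) × U => q.1.1) := dfnF_fst.comp dfnF_fst
  have h12 : DfnF A (fun q : (U × U) × U => q.1.2) := dfnF_snd.comp dfnF_fst
  have h2 : DfnF A (fun q : (U × U) × U => q.2) := dfnF_snd
  refine Dfn.and (Dfn.and (Dfn.lt h12 h11) (Dfn.lt h11 h2)) ?_
  refine Dfn.all (P := fun (q : (U × U) × U) (s : U) => ∀ t, q.1.2 < s → s < t → t < q.2 →
    R (f s) (f t)) ?_
  refine Dfn.all (P := fun (q : ((U × U) × U) × U) (t : U) => q.1.1.2 < q.2 → q.2 < t →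
    t < q.1.2 → R (f q.2) (f t)) ?_
  have k1 : DfnF A (fun q : (((U × U) × U) × U) × U => q.1.1.1.2) :=
    h12.comp (dfnF_fst.comp dfnF_fst)
  have k2 : DfnF A (fun q : (((U × U) × U) × U) × U => q.1.1.2) :=
    h2.comp (dfnF_fst.comp dfnF_fst)
  have k3 : DfnF A (fun q : (((U × U) × U) × U) × U => q.1.2) :=
    dfnF_snd.comp dfnF_fst
  have k4 : DfnF A (fun q : (((U × U) × U) × U) × U => q.2) := dfnF_snd
  refine Dfn.imp (Dfn.lt k1 k3) (Dfn.imp (Dfn.lt k3 k4) (Dfn.imp (Dfn.lt k4 k2) ?_))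
  exact Dfn.sub (P := fun p : U × U => R p.1 p.2) hR (DfnF.prodMk (hf.comp k3) (hf.comp k4))

/-- local monotonicity near a non-realised type; the neighbourhood is `A`-definable if `f` is -/
theorem local_mono {π : GType U U} (hπ : NR π) {f : U → U} (hfA : DfnF A f) :
    ∃ I ∈ π.F, I.OrdConnected ∧ Dfn A I ∧
      ((∀ u ∈ I, ∀ v ∈ I, f u = f v) ∨ StrictMonoOn f I ∨ StrictAntiOn f I) := by
  have hf : DfnF (univ : Set U) f := hfA.mono (subset_univ _)
  have hCA := loc_dfn (R := fun a b => a = b) (Dfn.eq dfnF_fst dfnF_snd) hfA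
  have hMA := loc_dfn (R := fun a b => a < b) (Dfn.lt dfnF_fst dfnF_snd) hfA
  have hNA := loc_dfn (R := fun a b => b < a) (Dfn.lt dfnF_snd dfnF_fst) hfA
  have hC := hCA.mono (subset_univ A)
  have hM := hMA.mono (subset_univ A)
  have hN := hNA.mono (subset_univ A)
  set C := Loc (fun a b => a = b) f with hCdef
  set M := Loc (fun a b => a < b) f with hMdef
  set N := Loc (fun a b => b < a) f with hNdef
  have hG : Dfn (univ : Set U) (C ∪ (M ∪ N)) := hC.union (hM.union hN)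
  have hfin : ((C ∪ (M ∪ N))ᶜ).Finite := by
    by_contra hinf
    obtain ⟨a, b, hab, hsub⟩ := exists_Ioo_subset hG.compl hinf
    obtain ⟨c, d, hac, hcd, hdb, hcase⟩ := const_or_inj hf hab
    rcases hcase with hc | hinj
    · obtain ⟨x, hx1, hx2⟩ := exists_between hcd
      refine hsub ⟨lt_of_le_of_lt hac hx1, lt_of_lt_of_le hx2 hdb⟩ (Or.inl ?_)
      exact ⟨c, d, ⟨hx1, hx2⟩, fun s t hs hst ht => hc s ⟨hs, hst.trans ht⟩ t ⟨hs.trans hst, ht⟩⟩
    · obtain ⟨c', d', hcc, hcd', hdd, hmono⟩ := mono_of_inj hf hcd hinj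
      obtain ⟨x, hx1, hx2⟩ := exists_between hcd'
      have hxm : x ∈ Ioo a b := ⟨lt_of_le_of_lt (hac.trans hcc) hx1,
        lt_of_lt_of_le hx2 (hdd.trans hdb)⟩
      rcases hmono with hm | hm
      · exact hsub hxm (Or.inr (Or.inl ⟨c', d', ⟨hx1, hx2⟩, fun s t hs hst ht =>
          hm ⟨hs, hst.trans ht⟩ ⟨hs.trans hst, ht⟩ hst⟩))
      · exact hsub hxm (Or.inr (Or.inr ⟨c', d', ⟨hx1, hx2⟩, fun s t hs hst ht =>
          hm ⟨hs, hst.trans ht⟩ ⟨hs.trans hst, ht⟩ hst⟩))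
  have hGF : C ∪ (M ∪ N) ∈ π.F := by
    have h1 : (⋂ c ∈ (C ∪ (M ∪ N))ᶜ, {x : U | x ≠ c}) ∈ π.F :=
      (Filter.biInter_mem hfin).2 fun c _ => hπ c
    refine Filter.mem_of_superset h1 fun x hx => ?_
    by_contra hxG
    have := Set.mem_iInter₂.1 hx x hxG
    exact this rfl
  have hcases : C ∈ π.F ∨ M ∈ π.F ∨ N ∈ π.F := by
    rcases (π.or_iff (P := fun x => x ∈ C) (Q := fun x => x ∈ M ∪ N) hC (hM.union hN)).1 hGF with
      h | h
    · exact Or.inl h
    · exact Or.inr ((π.or_iff (P := fun x => x ∈ M) (Q := fun x => x ∈ N) hM hN).1 h)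
  rcases hcases with h | h | h
  · obtain ⟨E, hEA, hE⟩ := hπ.basis hCA h
    refine ⟨Nb π E, nb_mem π E, nb_ordConnected π E, (nb_dfn π E hEA).of_dcl, Or.inl ?_⟩
    refine constOn_of_locally hf (nb_ordConnected π E) fun x hx => ?_
    obtain ⟨y, z, ⟨hy, hz⟩, hloc⟩ := hE hx
    refine ⟨y, z, hy, hz, fun u hu v hv => ?_⟩
    rcases lt_trichotomy u v with h1 | h1 | h1
    · exact hloc u v hu.1 h1 hv.2
    · rw [h1]
    · exact (hloc v u hv.1 h1 hu.2).symm
  · obtain ⟨E, hEA, hE⟩ := hπ.basis hMA h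
    refine ⟨Nb π E, nb_mem π E, nb_ordConnected π E, (nb_dfn π E hEA).of_dcl,
      Or.inr (Or.inl ?_)⟩
    refine strictMonoOn_of_locally hf (nb_ordConnected π E) fun x hx => ?_
    obtain ⟨y, z, ⟨hy, hz⟩, hloc⟩ := hE hx
    exact ⟨y, z, hy, hz, fun u hu v hv huv => hloc u v hu.1 huv hv.2⟩
  · obtain ⟨E, hEA, hE⟩ := hπ.basis hNA h
    refine ⟨Nb π E, nb_mem π E, nb_ordConnected π E, (nb_dfn π E hEA).of_dcl,
      Or.inr (Or.inr ?_)⟩
    refine strictAntiOn_of_locally hf (nb_ordConnected π E) fun x hx => ?_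
    obtain ⟨y, z, ⟨hy, hz⟩, hloc⟩ := hE hx
    exact ⟨y, z, hy, hz, fun u hu v hv huv => hloc u v hu.1 huv hv.2⟩

end OMB
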