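import Pool.Agent.Lib.MP_fd36ae_lc.V6

/-!
# MP_fd36ae_lc : definable images of types, inverses, the equivalence of 1-types (paper 1.5)
-/

open FirstOrder Set Cardinal

namespace OMB

universe u

variable {U : Type u} [Str U] {X Y Z W : Type u} [DSort U X] [DSort U Y] [DSort U Z] [DSort U W]
  {A B : Set U}

/-! ## fibres in the other variable -/

theorem DfnF.fib' {f : Y × X → Z} (hf : DfnF A f) (v : Y) :
    DfnF (univ : Set U) (fun x => f (v, x)) := by
  exact (hf.mono (subset_univ A)).comp (f := fun x : X => (v, x))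
    ((dfnF_const (subset_univ _)).prodMk dfnF_id)

theorem Fam.map' {π : Y → GType U X} (h : Fam A π) {f : Y × X → Z} (hf : DfnF A f) :
    Fam A (fun v => (π v).map (fun x => f (v, x)) (hf.fib' v)) := by
  exact h.map (f := fun p : X × Y => f (p.2, p.1))
    (hf.comp (f := fun p : X × Y => (p.2, p.1)) (dfnF_snd.prodMk dfnF_fst)) (fun v => hf.fib' v)

theorem Fam.mapc {π : Y → GType U X} (h : Fam A π) {f : X × Y → Z} (hf : DfnF A f) :
    Fam A (fun v => (π v).map (fun x => f (x, v)) (hf.fib v)) := h.map hf _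

/-- finitely many parameters: an `A`-definable function is a fibre of an `M`-definable one -/
theorem DfnF.finite_param {M : Set U} {m : U} (hm : m ∈ M) (hMA : M ⊆ A) {f : X → U}
    (hf : DfnF A f) : ∃ (n : ℕ) (b : Fin n → U), Set.range b ⊆ A ∧
      ∃ g : X × (Fin n → U) → U, DfnF M g ∧ ∀ x, g (x, b) = f x := by
  obtain ⟨n, c, hc, E, hE, hEq⟩ := hf.graph.finite_param
  have h1 : DfnF (M ∪ co U c) f := by
    refine DfnF.of_graph ?_
    rw [hEq]
    refine (hE.fiber c).mono ?_
    intro x hx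
    rcases hx with hx | hx
    · exact absurd hx (Set.notMem_empty x)
    · exact Or.inr hx
  obtain ⟨g, hg, hg2⟩ := h1.param hm
  exact ⟨n, c, hc, g, hg, hg2⟩

/-! ## definable images -/

/-- `π'` is the image of `π` under a definable function -/
def Img (π : GType U X) (π' : GType U U) : Prop :=
  ∃ (f : X → U) (hf : DfnF (univ : Set U) f), π.map f hf = π'

theorem Img.refl (π : GType U U) : Img π π := by
  exact ⟨fun x => x, dfnF_id, GType.map_id' (by simp)⟩

theorem Img.trans {π : GType U X} {π' π'' : GType U U} (h : Img π π') (h' : Img π' π'') :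
    Img π π'' := by
  obtain ⟨f, hf, rfl⟩ := h
  obtain ⟨g, hg, rfl⟩ := h'
  exact ⟨fun x => g (f x), hg.comp hf, GType.map_map.symm⟩

theorem img_map {π : GType U X} {f : X → Y} {hf : DfnF (univ : Set U) f} {θ : GType U U}
    (h : Img (π.map f hf) θ) : Img π θ := by
  obtain ⟨g, hg, rfl⟩ := h
  exact ⟨fun x => g (f x), hg.comp hf, GType.map_map.symm⟩

/-- the image of an invariant type is invariant over a small set -/
theorem Img.inv {π : GType U X} {π' : GType U U} (h : Img π π') (hA : Small A) (hπ : Inv A π) :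
    ∃ B, Small B ∧ A ⊆ B ∧ Inv B π' := by
  obtain ⟨f, hf, rfl⟩ := h
  obtain ⟨n, c, hc, E, hE, hEq⟩ := hf.graph.finite_param
  have h1 : DfnF (A ∪ co U c) f := by
    refine DfnF.of_graph ?_
    rw [hEq]
    refine (hE.fiber c).mono ?_
    intro x hx
    rcases hx with hx | hx
    · exact absurd hx (Set.notMem_empty x)
    · exact Or.inr hx
  exact ⟨A ∪ co U c, hA.union_co c, subset_union_left,
    (hπ.mono subset_union_left).map h1 hf⟩

/-- `{v : π v → π' v}` is invariant -/
theorem Fam.img (hA : Small A) {m : U} (hm : m ∈ A) {π : Y → GType U X} {π' : Y → GType U U}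
    (h : Fam A π) (h' : Fam A π') : AInv A {v | Img (π v) (π' v)} := by
  have h1 : ∀ (n : ℕ) (g : {g : X × (Fin n → U) → U // DfnF A g}),
      AInv A {p : Y × (Fin n → U) |
        (π p.1).map (fun x => g.1 (x, p.2)) (g.2.fib p.2) = π' p.1} := by
    intro n g
    have hg : DfnF A (fun q : X × (Y × (Fin n → U)) => g.1 (q.1, q.2.2)) :=
      g.2.comp (f := fun q : X × (Y × (Fin n → U)) => (q.1, q.2.2))
        (dfnF_fst.prodMk (dfnF_snd.comp dfnF_snd))
    have e1 : Fam A (fun p : Y × (Fin n → U) => π p.1) := h.comp dfnF_fst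
    have e2 : Fam A (fun p : Y × (Fin n → U) => π' p.1) := h'.comp dfnF_fst
    exact Fam.eq hA (e1.map hg (fun p => g.2.fib p.2)) e2
  have h2 : {v | Img (π v) (π' v)} = {v | ∃ (n : ℕ) (g : {g : X × (Fin n → U) → U // DfnF A g}),
      ∃ e : Fin n → U, (π v).map (fun x => g.1 (x, e)) (g.2.fib e) = π' v} := by
    ext v
    constructor
    · rintro ⟨f, hf, hfe⟩
      obtain ⟨n, b, _, g, hg, hgb⟩ := hf.finite_param hm (subset_univ A)
      refine ⟨n, ⟨g, hg⟩, b, ?_⟩
      rw [← hfe]
      exact GType.map_congr (by simp [hgb])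
    · rintro ⟨n, g, e, he⟩
      exact ⟨_, _, he⟩
  rw [h2]
  refine AInv.exI (fun n => AInv.exI (fun g => ?_))
  exact AInv.ex (P := fun (v : Y) (e : Fin n → U) =>
    (π v).map (fun x => g.1 (x, e)) (g.2.fib e) = π' v) hA (h1 n g)

variable [OMS U]

theorem nr_of_map {π : GType U U} {f : U → U} {hf : DfnF (univ : Set U) f}
    (h : NR (π.map f hf)) : NR π := by
  by_contra hcon
  obtain ⟨c, rfl⟩ := not_NR hcon
  have h1 : f c ≠ f c := h (f c)
  exact h1 rfl

/-- an image of a realised type is realised -/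
theorem map_rTy {x : X} {f : X → Y} {hf : DfnF (univ : Set U) f} :
    (rTy x : GType U X).map f hf = rTy (f x) := by
  exact GType.ext_dfn (fun D _ h => h)

theorem not_nr_rTy (c : U) : ¬ NR (rTy c : GType U U) := by
  intro h
  have h1 : c ≠ c := h c
  exact h1 rfl

/-- inverse lemma (paper 1.5) with control of parameters -/
theorem exists_inverse {m : U} (hm : m ∈ A) {π : GType U U} {f : U → U} (hf : DfnF A f)
    {hf' : DfnF (univ : Set U) f} (hn : NR (π.map f hf')) :
    ∃ g : U → U, DfnF A g ∧ {x | g (f x) = x} ∈ π.F := by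
  classical
  obtain ⟨I, hI, -, hID, hcase⟩ := local_mono (nr_of_map hn) hf
  have hinj : Set.InjOn f I := by
    rcases hcase with h | h | h
    · exfalso
      obtain ⟨u, hu⟩ := π.F.nonempty_of_mem hI
      have h1 : {x | f x ≠ f u} ∈ π.F := hn (f u)
      obtain ⟨x, hx1, hx2⟩ := π.F.nonempty_of_mem (Filter.inter_mem hI h1)
      exact hx2 (h x hx1 u hu)
    · exact h.injOn
    · exact h.injOn
  let g : U → U := fun y => if h : ∃ x, x ∈ I ∧ f x = y then h.choose else m
  have hg1 : ∀ x ∈ I, g (f x) = x := by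
    intro x hx
    have h : ∃ x', x' ∈ I ∧ f x' = f x := ⟨x, hx, rfl⟩
    have h1 : g (f x) = h.choose := dif_pos h
    rw [h1]
    exact hinj h.choose_spec.1 hx h.choose_spec.2
  have hg2 : ∀ y, (¬ ∃ x, x ∈ I ∧ f x = y) → g y = m := fun y h => dif_neg h
  refine ⟨g, ?_, Filter.mem_of_superset hI hg1⟩
  refine DfnF.of_graph ?_
  have hset : {p : U × U | g p.1 = p.2} = {p : U × U | (p.2 ∈ I ∧ f p.2 = p.1) ∨
      ((¬ ∃ x, x ∈ I ∧ f x = p.1) ∧ p.2 = m)} := by
    ext p
    constructor
    · intro hp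
      by_cases h : ∃ x, x ∈ I ∧ f x = p.1
      · obtain ⟨x, hx, hxp⟩ := h
        left
        have h1 : g p.1 = x := by rw [← hxp]; exact hg1 x hx
        have h2 : p.2 = x := by rw [← h1]; exact hp.symm
        rw [h2]
        exact ⟨hx, hxp⟩
      · right
        refine ⟨h, ?_⟩
        rw [← hg2 _ h]
        exact hp.symm
    · rintro (⟨h1, h2⟩ | ⟨h1, h2⟩)
      · change g p.1 = p.2
        rw [← h2]
        exact hg1 _ h1
      · change g p.1 = p.2
        rw [h2]
        exact hg2 _ h1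
  rw [hset]
  refine Dfn.or (Dfn.and (hID.preimage dfnF_snd) (Dfn.eq (hf.comp dfnF_snd) dfnF_fst))
    (Dfn.and (Dfn.not ?_) (Dfn.eq dfnF_snd
      (dfnF_const (by rw [co_U]; exact Set.singleton_subset_iff.mpr hm))))
  refine Dfn.ex (P := fun (p : U × U) (x : U) => x ∈ I ∧ f x = p.1) ?_
  exact Dfn.and (hID.preimage dfnF_snd) (Dfn.eq (hf.comp dfnF_snd) (dfnF_fst.comp dfnF_fst))

theorem Img.nr {π π' : GType U U} (h : Img π π') (hn : NR π') : NR π := by
  obtain ⟨f, hf, rfl⟩ := h
  exact nr_of_map hn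

theorem Img.symm {π π' : GType U U} (h : Img π π') (hn : NR π') : Img π' π := by
  obtain ⟨f, hf, rfl⟩ := h
  obtain ⟨g, hg, hgf⟩ := exists_inverse (mem_univ (Str.pt : U)) hf hn
  refine ⟨g, hg, ?_⟩
  rw [GType.map_map]
  exact GType.map_id' hgf

/-- mutually inverse definable maps between equivalent types -/
theorem Img.iso {π π' : GType U U} (h : Img π π') (hn : NR π') :
    ∃ (f g : U → U) (hf : DfnF (univ : Set U) f) (hg : DfnF (univ : Set U) g),
      π.map f hf = π' ∧ π'.map g hg = π ∧ {x | g (f x) = x} ∈ π.F ∧ {y | f (g y) = y} ∈ π'.F := by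
  obtain ⟨f, hf, rfl⟩ := h
  obtain ⟨g, hg, hgf⟩ := exists_inverse (mem_univ (Str.pt : U)) hf hn
  refine ⟨f, g, hf, hg, rfl, ?_, hgf, ?_⟩
  · rw [GType.map_map]
    exact GType.map_id' hgf
  · change {x | f (g (f x)) = f x} ∈ π.F
    refine Filter.mem_of_superset hgf ?_
    intro x hx
    exact congrArg f hx

end OMB
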