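import Pool.Agent.Lib.MP_fd36ae_lc.V7

/-!
# MP_fd36ae_lc : crossing lemma (paper 1.6), nondefinable cuts
-/

open FirstOrder Set Cardinal

namespace OMB

universe u

variable {U : Type u} [Str U] {X Y Z W : Type u} [DSort U X] [DSort U Y] [DSort U Z] [DSort U W]
  {A B : Set U} [OMS U]

/-- crossing lemma -/
theorem crossing {π θ : GType U U} (hθ : NR θ) {ε : U → U}
    (hε : DfnF (univ : Set U) ε) (h1 : ∀ I ∈ π.F, ∃ y ∈ I, Lo θ (ε y))
    (h2 : ∀ I ∈ π.F, ∃ y ∈ I, Hi θ (ε y)) : π.map ε hε = θ := by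
  refine NR.eq_of_lo_hi hθ (fun z hz => ?_) (fun z hz => ?_)
  · have hd : Dfn (univ : Set U) {y : U | z < ε y} :=
      Dfn.lt (dfnF_const (subset_univ _)) hε
    rcases π.ultra _ hd with h | h
    · exact GType.mem_map.2 h
    · obtain ⟨y, hy, hh⟩ := h2 _ h
      exact absurd (lt_of_lo_hi hz hh) hy
  · have hd : Dfn (univ : Set U) {y : U | ε y < z} :=
      Dfn.lt hε (dfnF_const (subset_univ _))
    rcases π.ultra _ hd with h | h
    · exact GType.mem_map.2 h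
    · obtain ⟨y, hy, hh⟩ := h1 _ h
      exact absurd (lt_of_lo_hi hh hz) hy

/-- points of a nondefinable type's neighbourhoods on both sides -/
theorem ND.exists_lo {π : GType U U} (h : ND π) {I : Set U} (hI : I ∈ π.F) : ∃ y ∈ I, Lo π y := by
  obtain ⟨a, b, ha, hb, hsub⟩ := h.basis hI
  exact ⟨a, hsub ⟨le_refl a, (lt_of_lo_hi ha hb).le⟩, ha⟩

theorem ND.exists_hi {π : GType U U} (h : ND π) {I : Set U} (hI : I ∈ π.F) : ∃ y ∈ I, Hi π y := by
  obtain ⟨a, b, ha, hb, hsub⟩ := h.basis hI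
  exact ⟨b, hsub ⟨(lt_of_lo_hi ha hb).le, le_refl b⟩, hb⟩

/-- the cut of a nondefinable type is not definable, even locally -/
theorem ND.not_dfn {π : GType U U} (h : ND π) {s t : U} (hs : Lo π s) (ht : Hi π t) {D : Set U}
    (hD : Dfn (univ : Set U) D) (hDt : ∀ z, s < z → z < t → (z ∈ D ↔ Hi π z)) : False := by
  have hI : {x | s < x} ∩ {x | x < t} ∈ π.F := Filter.inter_mem hs ht
  rcases π.ultra D hD with h1 | h1
  · obtain ⟨y, hy, hlo⟩ := h.exists_lo (Filter.inter_mem h1 hI)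
    exact not_lo_and_hi hlo ((hDt y hy.2.1 hy.2.2).1 hy.1)
  · obtain ⟨y, hy, hhi⟩ := h.exists_hi (Filter.inter_mem h1 hI)
    exact hy.1 ((hDt y hy.2.1 hy.2.2).2 hhi)

end OMB
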